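import Mathlib

/-!
Shared definitions for the formal proof that the group of unit quaternions (SU(2)) is an
amalgamation base in the category of compact groups (problem MP_f8bbe3_al).
-/

set_option autoImplicit false

namespace Pool.Agent.H88

open Matrix
open scoped Quaternion

/-- The group of unit quaternions, a model of SU(2). -/
abbrev S3 : Type := Metric.sphere (0 : ℍ[ℝ]) 1

/-- The unitary group of n by n complex matrices. -/
abbrev U (n : ℕ) : Type := Matrix.unitaryGroup (Fin n) ℂ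

/-- Square complex matrices. -/
abbrev Mat (n : ℕ) : Type := Matrix (Fin n) (Fin n) ℂ

/-- The quaternion `cos θ + sin θ i`. -/
noncomputable def tq (θ : ℝ) : ℍ[ℝ] := ⟨Real.cos θ, Real.sin θ, 0, 0⟩

theorem norm_tq (θ : ℝ) : ‖tq θ‖ = 1 := by
  rw [← sq_eq_sq₀ (norm_nonneg _) zero_le_one, one_pow, sq,
    ← Quaternion.normSq_eq_norm_mul_self, Quaternion.normSq_def']
  simp [tq]

/-- The maximal torus of `S3`: the quaternion `cos θ + sin θ i`. -/
noncomputable def torus (θ : ℝ) : S3 := ⟨tq θ, by simpa using norm_tq θ⟩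

/-- A good weight vector: weakly decreasing, symmetric under negation, with no common divisor. -/
def Good {m : ℕ} (p : Fin m → ℤ) : Prop :=
  Antitone p ∧ (∀ k : ℤ, (Finset.univ.filter fun i => p i = k).card =
      (Finset.univ.filter fun i => p i = -k).card) ∧
    ∀ d : ℕ, 2 ≤ d → ∃ i, ¬ ((d : ℤ) ∣ p i)

/-- The staircase `(m-1, m-2, ..., 0)`. -/
def rho (m : ℕ) : Fin m → ℕ := fun i => m - 1 - (i : ℕ)

/-- The alternant `det (X_i ^ (l_j))`. -/
noncomputable def alt (m : ℕ) (l : Fin m → ℕ) : MvPolynomial (Fin m) ℤ :=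
  Matrix.det (Matrix.of fun i j : Fin m => (MvPolynomial.X i : MvPolynomial (Fin m) ℤ) ^ l j)

/-- `s` is the Schur polynomial of the partition `lam` (bialternant formula). -/
def IsSchur {m : ℕ} (s : MvPolynomial (Fin m) ℕ) (lam : Fin m → ℕ) : Prop :=
  alt m (rho m) * MvPolynomial.map (Nat.castRingHom ℤ) s = alt m (lam + rho m)

/-- `levc s p k` : the coefficient of `z ^ k` in `s (z ^ p_1, ..., z ^ p_m)`. -/
noncomputable def levc {m : ℕ} (s : MvPolynomial (Fin m) ℕ) (p : Fin m → ℤ) (k : ℤ) : ℕ :=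
  ∑ μ ∈ s.support, if ∑ i, (μ i : ℤ) * p i = k then s.coeff μ else 0

/-- The partition `(1,0,...,0)` (zero if `m = 0`). -/
def e1 (m : ℕ) : Fin m → ℕ := fun i => if (i : ℕ) = 0 then 1 else 0

/-- Truncated Gaussian sum over the slice `∑ ℓ_j q_j = k`. -/
noncomputable def gN (t : ℝ) (N : ℕ) {n : ℕ} (q : Fin n → ℤ) (k : ℤ) : ℝ :=
  ∑ ℓ ∈ Fintype.piFinset (fun _ : Fin n => Finset.Icc (-(N : ℤ)) (N : ℤ)),
    if ∑ j, ℓ j * q j = k then Real.exp (-t * ∑ j, (ℓ j : ℝ) ^ 2) else 0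

/-- One side of the abstract truncation lemma. -/
structure TSide {ι : Type} (lev : ι → ℕ) (L : ι → ℤ → ℝ) (w : ι → ℝ) : Prop where
  even : ∀ i k, L i k = L i (-k)
  nonneg : ∀ i k, 0 ≤ L i k
  supp : ∀ i (k : ℤ), (lev i : ℤ) < |k| → L i k = 0
  top : ∀ i, 1 ≤ L i (lev i)
  bound : ∃ D : ℕ, ∀ i k, L i k ≤ ((lev i : ℝ) + 2) ^ D
  count : ∃ D : ℕ, ∀ K : ℕ, ∃ s : Finset ι, (∀ i, lev i ≤ K → i ∈ s) ∧ s.card ≤ (K + 2) ^ D
  wpos : ∀ i, 0 < w i

end Pool.Agent.H88
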