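import Mathlib
import Pool.Agent.H88.Amalg.Defs

/-!
Module ALT: six lemmas on Schur polynomials given by the bialternant formula.
-/

set_option autoImplicit false

namespace Pool.Agent.H88.ALT

open Matrix MvPolynomial

/-! ### The substitution `X_i = T ^ p_i` -/

/-- The substitution `X_i ↦ T ^ p_i` into Laurent polynomials. -/
noncomputable def phi (R : Type) [CommRing R] {m : ℕ} (p : Fin m → ℤ) :
    MvPolynomial (Fin m) R →ₐ[R] LaurentPolynomial R :=
  MvPolynomial.aeval (fun i => LaurentPolynomial.T (p i))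

theorem prod_T {R : Type} [CommRing R] {ι : Type} (s : Finset ι) (a : ι → ℤ) :
    ∏ i ∈ s, (LaurentPolynomial.T (a i) : LaurentPolynomial R) =
      LaurentPolynomial.T (∑ i ∈ s, a i) := by
  classical
  induction s using Finset.induction_on with
  | empty => simp
  | insert i s hi ih => rw [Finset.prod_insert hi, Finset.sum_insert hi, ih, LaurentPolynomial.T_add]

theorem phi_monomial {R : Type} [CommRing R] {m : ℕ} (p : Fin m → ℤ) (μ : Fin m →₀ ℕ) (c : R) :
    phi R p (monomial μ c) =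
      LaurentPolynomial.C c * LaurentPolynomial.T (∑ i, (μ i : ℤ) * p i) := by
  rw [phi, MvPolynomial.aeval_monomial, Finsupp.prod_fintype _ _ (fun i => pow_zero _)]
  simp_rw [LaurentPolynomial.T_pow]
  rw [prod_T, LaurentPolynomial.algebraMap_apply]
  rfl

theorem coeff_phi {R : Type} [CommRing R] {m : ℕ} (p : Fin m → ℤ)
    (f : MvPolynomial (Fin m) R) (k : ℤ) :
    (phi R p f).coeff k =
      ∑ μ ∈ f.support, if ∑ i, (μ i : ℤ) * p i = k then f.coeff μ else 0 := by
  conv_lhs => rw [f.as_sum]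
  rw [map_sum, AddMonoidAlgebra.coeff_sum, Finsupp.finsetSum_apply]
  refine Finset.sum_congr rfl fun μ _ => ?_
  rw [phi_monomial, ← LaurentPolynomial.single_eq_C_mul_T, AddMonoidAlgebra.coeff_single,
    Finsupp.single_apply]

theorem levc_eq {R : Type} [CommRing R] {m : ℕ} (s : MvPolynomial (Fin m) ℕ) (p : Fin m → ℤ)
    (k : ℤ) :
    (levc s p k : R) = (phi R p (map (Nat.castRingHom R) s)).coeff k := by
  conv_rhs => rw [s.as_sum]
  rw [map_sum, map_sum, AddMonoidAlgebra.coeff_sum, Finsupp.finsetSum_apply, levc, Nat.cast_sum]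
  refine Finset.sum_congr rfl fun μ _ => ?_
  rw [map_monomial, phi_monomial, ← LaurentPolynomial.single_eq_C_mul_T,
    AddMonoidAlgebra.coeff_single, Finsupp.single_apply]
  split_ifs <;> simp


/-! ### Leading terms of alternants -/

theorem coeff_phi_alt {m : ℕ} (P : Fin m → ℤ) (l : Fin m → ℕ) (k : ℤ) :
    (phi ℤ P (alt m l)).coeff k = ∑ σ : Equiv.Perm (Fin m),
      if ∑ i, P (σ i) * (l i : ℤ) = k then ((Equiv.Perm.sign σ : ℤˣ) : ℤ) else 0 := by
  rw [alt, Matrix.det_apply, map_sum, AddMonoidAlgebra.coeff_sum, Finsupp.finsetSum_apply]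
  refine Finset.sum_congr rfl fun σ _ => ?_
  have h1 : phi ℤ P (∏ i, (Matrix.of fun i j : Fin m =>
      (MvPolynomial.X i : MvPolynomial (Fin m) ℤ) ^ l j) (σ i) i) =
      LaurentPolynomial.T (∑ i, P (σ i) * (l i : ℤ)) := by
    rw [map_prod, ← prod_T]
    refine Finset.prod_congr rfl fun i _ => ?_
    rw [Matrix.of_apply, map_pow, phi, MvPolynomial.aeval_X, LaurentPolynomial.T_pow, mul_comm]
  rw [Units.smul_def, map_zsmul, h1, AddMonoidAlgebra.coeff_smul, Finsupp.smul_apply,
    LaurentPolynomial.T_apply]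
  split_ifs <;> simp

theorem sum_perm_le {m : ℕ} {P : Fin m → ℤ} (hP : Antitone P) {l : Fin m → ℕ} (hl : Antitone l)
    (σ : Equiv.Perm (Fin m)) :
    ∑ i, P (σ i) * (l i : ℤ) ≤ ∑ i, P i * (l i : ℤ) := by
  have hmono : Monovary P (fun i => (l i : ℤ)) := by
    intro i j hij
    have hij' : l i < l j := Nat.cast_lt.mp hij
    have : j ≤ i := by
      by_contra hcon
      exact absurd (hl (not_le.mp hcon).le) (not_le.mpr hij')
    exact hP this
  exact hmono.sum_comp_perm_mul_le_sum_mul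

theorem perm_eq_one_of_sum_eq {m : ℕ} {P : Fin m → ℤ} (hP : StrictAnti P) {l : Fin m → ℕ}
    (hl : StrictAnti l) (σ : Equiv.Perm (Fin m))
    (h : ∑ i, P (σ i) * (l i : ℤ) = ∑ i, P i * (l i : ℤ)) : σ = 1 := by
  have hmono : Monovary P (fun i => (l i : ℤ)) := by
    intro i j hij
    have hij' : l i < l j := Nat.cast_lt.mp hij
    exact hP.antitone (hl.lt_iff_gt.mp hij').le
  have h2 := hmono.sum_comp_perm_mul_eq_sum_mul_iff.mp h
  have h3 : StrictMono σ := by
    refine Monotone.strictMono_of_injective (fun i j hij => ?_) σ.injective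
    rcases hij.eq_or_lt with rfl | hij
    · exact le_rfl
    · have h4 : (fun i => (l i : ℤ)) j < (fun i => (l i : ℤ)) i := Nat.cast_lt.mpr (hl hij)
      have h5 := h2 h4
      exact hP.le_iff_ge.mp h5
  have h4 : h3.orderIsoOfSurjective _ σ.surjective = OrderIso.refl (Fin m) :=
    Subsingleton.elim _ _
  exact Equiv.ext fun i => DFunLike.congr_fun h4 i

theorem coeff_phi_alt_top {m : ℕ} {P : Fin m → ℤ} (hP : StrictAnti P) {l : Fin m → ℕ}
    (hl : StrictAnti l) :
    (phi ℤ P (alt m l)).coeff (∑ i, P i * (l i : ℤ)) = 1 ∧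
      ∀ k : ℤ, ∑ i, P i * (l i : ℤ) < k → (phi ℤ P (alt m l)).coeff k = 0 := by
  constructor
  · rw [coeff_phi_alt, Finset.sum_eq_single 1]
    · simp
    · intro σ _ hσ
      rw [if_neg]
      exact fun h => hσ (perm_eq_one_of_sum_eq hP hl σ h)
    · intro h; exact absurd (Finset.mem_univ _) h
  · intro k hk
    rw [coeff_phi_alt]
    refine Finset.sum_eq_zero fun σ _ => ?_
    rw [if_neg]
    intro h
    have := sum_perm_le hP.antitone hl.antitone σ
    omega

theorem coeff_mul_top (f g : LaurentPolynomial ℤ) (a b : ℤ)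
    (hf : ∀ k, a < k → f.coeff k = 0) (hg : ∀ k, b < k → g.coeff k = 0) :
    (f * g).coeff (a + b) = f.coeff a * g.coeff b ∧ ∀ k, a + b < k → (f * g).coeff k = 0 := by
  constructor
  · rw [AddMonoidAlgebra.coeff_mul, Finsupp.sum, Finset.sum_eq_single a]
    · rw [Finsupp.sum, Finset.sum_eq_single b]
      · simp
      · intro c hc hcb
        rw [if_neg]
        omega
      · intro hb
        rw [Finsupp.notMem_support_iff.mp hb]; simp
    · intro c hc hca
      refine Finset.sum_eq_zero fun d hd => ?_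
      dsimp only
      rw [if_neg]
      intro hcd
      rw [Finsupp.mem_support_iff] at hc hd
      have h1 : ¬ a < c := fun h => hc (hf c h)
      have h2 : ¬ b < d := fun h => hd (hg d h)
      omega
    · intro ha
      rw [Finsupp.notMem_support_iff.mp ha]
      refine Finset.sum_eq_zero fun d _ => ?_
      simp
  · intro k hk
    rw [AddMonoidAlgebra.coeff_mul]
    refine Finset.sum_eq_zero fun c hc => Finset.sum_eq_zero fun d hd => ?_
    dsimp only
    rw [if_neg]
    intro hcd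
    rw [Finsupp.mem_support_iff] at hc hd
    have h1 : ¬ a < c := fun h => hc (hf c h)
    have h2 : ¬ b < d := fun h => hd (hg d h)
    omega

/-- If `f` is monic of degree `a` and `f * g` is monic of degree `e`, then `g` is monic of degree
`e - a`. -/
theorem coeff_div_top (f g : LaurentPolynomial ℤ) (a e : ℤ)
    (hf1 : f.coeff a = 1) (hf : ∀ k, a < k → f.coeff k = 0)
    (hfg1 : (f * g).coeff e = 1) (hfg : ∀ k, e < k → (f * g).coeff k = 0) :
    g.coeff (e - a) = 1 ∧ ∀ k, e - a < k → g.coeff k = 0 := by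
  have hg0 : g ≠ 0 := by
    rintro rfl
    simp at hfg1
  have hsupp : g.coeff.support.Nonempty := by
    rw [Finsupp.support_nonempty_iff]
    intro h
    apply hg0
    ext k
    rw [h]; simp
  set b := g.coeff.support.max' hsupp with hb
  have hbg : g.coeff b ≠ 0 := Finsupp.mem_support_iff.mp (Finset.max'_mem _ hsupp)
  have hg : ∀ k, b < k → g.coeff k = 0 := by
    intro k hk
    by_contra hcon
    exact absurd (Finset.le_max' _ _ (Finsupp.mem_support_iff.mpr hcon)) (not_le.mpr hk)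
  obtain ⟨h1, h2⟩ := coeff_mul_top f g a b hf hg
  have h3 : a + b = e := by
    apply le_antisymm
    · by_contra hcon
      rw [hfg _ (not_le.mp hcon), hf1, one_mul] at h1
      exact hbg h1.symm
    · by_contra hcon
      rw [h2 _ (not_le.mp hcon)] at hfg1
      exact zero_ne_one hfg1
  have h4 : e - a = b := by omega
  rw [h4]
  refine ⟨?_, hg⟩
  rw [h3, hfg1, hf1, one_mul] at h1
  exact h1.symm

theorem strictAnti_rho (m : ℕ) : StrictAnti (rho m) := by
  intro i j hij
  have h1 : (i : ℕ) < (j : ℕ) := hij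
  have h2 := j.isLt
  simp only [rho]
  omega

theorem strictAnti_add_rho {m : ℕ} {lam : Fin m → ℕ} (h : Antitone lam) :
    StrictAnti (lam + rho m) := by
  intro i j hij
  have h1 := h hij.le
  have h2 := strictAnti_rho m hij
  simp only [Pi.add_apply]
  omega

/-- The top level of a Schur polynomial for strictly decreasing weights. -/
theorem levc_top {m : ℕ} (lam : Fin m → ℕ) (hlam : Antitone lam)
    (s : MvPolynomial (Fin m) ℕ) (hs : IsSchur s lam) (P : Fin m → ℤ) (hP : StrictAnti P) :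
    levc s P (∑ i, (lam i : ℤ) * P i) = 1 ∧
      ∀ k, ∑ i, (lam i : ℤ) * P i < k → levc s P k = 0 := by
  have h1 := coeff_phi_alt_top hP (strictAnti_rho m)
  have h2 := coeff_phi_alt_top hP (strictAnti_add_rho hlam)
  have h3 : phi ℤ P (alt m (rho m)) * phi ℤ P (map (Nat.castRingHom ℤ) s) =
      phi ℤ P (alt m (lam + rho m)) := by
    rw [← map_mul]; exact congrArg _ hs
  rw [← h3] at h2
  have h4 := coeff_div_top _ _ _ _ h1.1 h1.2 h2.1 h2.2
  have h5 : ∑ i, P i * (((lam + rho m) i : ℕ) : ℤ) - ∑ i, P i * ((rho m i : ℕ) : ℤ) =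
      ∑ i, (lam i : ℤ) * P i := by
    rw [← Finset.sum_sub_distrib]
    refine Finset.sum_congr rfl fun i _ => ?_
    simp only [Pi.add_apply, Nat.cast_add]
    ring
  rw [h5] at h4
  refine ⟨?_, fun k hk => ?_⟩
  · have := levc_eq (R := ℤ) s P (∑ i, (lam i : ℤ) * P i)
    rw [h4.1] at this
    exact_mod_cast this
  · have := levc_eq (R := ℤ) s P k
    rw [h4.2 k hk] at this
    exact_mod_cast this

theorem levc_ne_zero_iff {m : ℕ} (s : MvPolynomial (Fin m) ℕ) (p : Fin m → ℤ) (k : ℤ) :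
    levc s p k ≠ 0 ↔ ∃ μ ∈ s.support, ∑ i, (μ i : ℤ) * p i = k := by
  rw [levc, Ne, Finset.sum_eq_zero_iff]
  push Not
  constructor
  · rintro ⟨μ, hμ, h⟩
    refine ⟨μ, hμ, ?_⟩
    by_contra hcon
    rw [if_neg hcon] at h
    exact h rfl
  · rintro ⟨μ, hμ, h⟩
    refine ⟨μ, hμ, ?_⟩
    rw [if_pos h]
    exact MvPolynomial.mem_support_iff.mp hμ

/-- strictly decreasing perturbation of a weakly decreasing weight vector -/
theorem strictAnti_pert {m : ℕ} {p : Fin m → ℤ} (hp : Antitone p) (C : ℕ) :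
    StrictAnti (fun i => (C : ℤ) * p i + (rho m i : ℤ)) := by
  intro i j hij
  have h1 := hp hij.le
  have h2 : (rho m j : ℤ) < rho m i := by exact_mod_cast strictAnti_rho m hij
  have h3 : (C : ℤ) * p j ≤ C * p i := mul_le_mul_of_nonneg_left h1 (Int.natCast_nonneg C)
  simp only
  omega

theorem sum_pert {m : ℕ} (a : Fin m → ℕ) (p : Fin m → ℤ) (C : ℕ) :
    ∑ i, (a i : ℤ) * ((C : ℤ) * p i + (rho m i : ℤ)) =
      C * ∑ i, (a i : ℤ) * p i + ((∑ i, a i * rho m i : ℕ) : ℤ) := by
  push_cast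
  rw [Finset.mul_sum, ← Finset.sum_add_distrib]
  refine Finset.sum_congr rfl fun i _ => ?_
  ring

theorem support_le {m : ℕ} (lam : Fin m → ℕ) (hlam : Antitone lam)
    (s : MvPolynomial (Fin m) ℕ) (hs : IsSchur s lam) (p : Fin m → ℤ) (hp : Antitone p)
    (μ : Fin m →₀ ℕ) (hμ : μ ∈ s.support) :
    ∑ i, (μ i : ℤ) * p i ≤ ∑ i, (lam i : ℤ) * p i := by
  by_contra hcon
  rw [not_le] at hcon
  set C : ℕ := (∑ i, lam i * rho m i) + 1 with hC
  have h1 := levc_top lam hlam s hs _ (strictAnti_pert hp C)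
  have h2 : ¬ ∑ i, (lam i : ℤ) * ((C : ℤ) * p i + (rho m i : ℤ)) <
      ∑ i, (μ i : ℤ) * ((C : ℤ) * p i + (rho m i : ℤ)) := by
    intro hlt
    exact (levc_ne_zero_iff s _ _).mpr ⟨μ, hμ, rfl⟩ (h1.2 _ hlt)
  apply h2
  rw [sum_pert, sum_pert]
  have h3 : (C : ℤ) * (∑ i, (lam i : ℤ) * p i) + C ≤ C * ∑ i, (μ i : ℤ) * p i := by
    have : (C : ℤ) * (∑ i, (lam i : ℤ) * p i + 1) ≤ C * ∑ i, (μ i : ℤ) * p i :=
      mul_le_mul_of_nonneg_left hcon (Int.natCast_nonneg C)
    linarith
  have h4 : ((∑ i, lam i * rho m i : ℕ) : ℤ) < C := by rw [hC]; push_cast; omega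
  have h5 : (0 : ℤ) ≤ ((∑ i, μ i * rho m i : ℕ) : ℤ) := Int.natCast_nonneg _
  omega

end Pool.Agent.H88.ALT

namespace Pool.Agent.H88

open Matrix MvPolynomial

/-- Module ALT, part 1: the support of a Schur polynomial lies below its top level. -/
theorem levc_le_top {m : ℕ} (lam : Fin m → ℕ) (hlam : Antitone lam)
    (s : MvPolynomial (Fin m) ℕ) (hs : IsSchur s lam) (p : Fin m → ℤ) (hp : Antitone p) (k : ℤ)
    (hk : levc s p k ≠ 0) : k ≤ ∑ i, (lam i : ℤ) * p i := by
  obtain ⟨μ, hμ, rfl⟩ := (ALT.levc_ne_zero_iff s p k).mp hk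
  exact ALT.support_le lam hlam s hs p hp μ hμ

theorem one_le_levc_top {m : ℕ} (lam : Fin m → ℕ) (hlam : Antitone lam)
    (s : MvPolynomial (Fin m) ℕ) (hs : IsSchur s lam) (p : Fin m → ℤ) (hp : Antitone p) :
    1 ≤ levc s p (∑ i, (lam i : ℤ) * p i) := by
  rw [Nat.one_le_iff_ne_zero, ALT.levc_ne_zero_iff]
  set B : ℕ := s.support.sup (fun μ => ∑ i, μ i * rho m i) with hB
  have h1 := ALT.levc_top lam hlam s hs _ (ALT.strictAnti_pert hp (B + 1))
  obtain ⟨μ, hμ, h2⟩ := (ALT.levc_ne_zero_iff s _ _).mp (by rw [h1.1]; exact one_ne_zero)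
  refine ⟨μ, hμ, ?_⟩
  rw [ALT.sum_pert, ALT.sum_pert] at h2
  have h3 := ALT.support_le lam hlam s hs p hp μ hμ
  have h4 : ∑ i, μ i * rho m i ≤ B := Finset.le_sup (f := fun μ => ∑ i, μ i * rho m i) hμ
  have h5 : (0 : ℤ) ≤ ((∑ i, lam i * rho m i : ℕ) : ℤ) := Int.natCast_nonneg _
  by_contra hcon
  have h6 : ∑ i, (μ i : ℤ) * p i + 1 ≤ ∑ i, (lam i : ℤ) * p i := by omega
  have h7 : ((B + 1 : ℕ) : ℤ) * (∑ i, (μ i : ℤ) * p i) + (B + 1 : ℕ) ≤
      (B + 1 : ℕ) * ∑ i, (lam i : ℤ) * p i := by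
    have : ((B + 1 : ℕ) : ℤ) * (∑ i, (μ i : ℤ) * p i + 1) ≤
        (B + 1 : ℕ) * ∑ i, (lam i : ℤ) * p i :=
      mul_le_mul_of_nonneg_left h6 (Int.natCast_nonneg _)
    linarith
  have h8 : ((∑ i, μ i * rho m i : ℕ) : ℤ) ≤ B := by exact_mod_cast h4
  push_cast at h2 h5 h7 h8
  linarith

end Pool.Agent.H88

namespace Pool.Agent.H88.ALT

open Matrix MvPolynomial

/-! ### Symmetry -/

theorem alt_rho_ne_zero (m : ℕ) : alt m (rho m) ≠ 0 := by
  intro h
  have hP : StrictAnti (fun i => (rho m i : ℤ)) := fun i j hij =>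
    Nat.cast_lt.mpr (strictAnti_rho m hij)
  have h1 := (coeff_phi_alt_top hP (strictAnti_rho m)).1
  rw [h, map_zero] at h1
  simp at h1

theorem rename_alt {m : ℕ} (e : Equiv.Perm (Fin m)) (l : Fin m → ℕ) :
    rename e (alt m l) = ((Equiv.Perm.sign e : ℤˣ) : ℤ) • alt m l := by
  rw [alt, AlgHom.map_det]
  have h1 : (rename e : MvPolynomial (Fin m) ℤ →ₐ[ℤ] MvPolynomial (Fin m) ℤ).mapMatrix
      (Matrix.of fun i j : Fin m => (MvPolynomial.X i : MvPolynomial (Fin m) ℤ) ^ l j) =
      (Matrix.of fun i j : Fin m =>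
        (MvPolynomial.X i : MvPolynomial (Fin m) ℤ) ^ l j).submatrix e id := by
    ext i j : 2
    simp
  rw [h1, Matrix.det_permute, zsmul_eq_mul]

theorem rename_schur {m : ℕ} (lam : Fin m → ℕ) (s : MvPolynomial (Fin m) ℕ) (hs : IsSchur s lam)
    (e : Equiv.Perm (Fin m)) :
    rename e (map (Nat.castRingHom ℤ) s) = map (Nat.castRingHom ℤ) s := by
  have h1 := congrArg (rename e) (show alt m (rho m) * map (Nat.castRingHom ℤ) s =
    alt m (lam + rho m) from hs)
  rw [map_mul, rename_alt, rename_alt, ← show alt m (rho m) * map (Nat.castRingHom ℤ) s =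
    alt m (lam + rho m) from hs, smul_mul_assoc] at h1
  have h2 : ((Equiv.Perm.sign e : ℤˣ) : ℤ) * ((Equiv.Perm.sign e : ℤˣ) : ℤ) = 1 := by
    rw [← Units.val_mul, Int.units_mul_self, Units.val_one]
  have h3 := congrArg (fun x => ((Equiv.Perm.sign e : ℤˣ) : ℤ) • x) h1
  simp only [smul_smul, h2, one_smul] at h3
  exact mul_left_cancel₀ (alt_rho_ne_zero m) h3

theorem phi_rename {R : Type} [CommRing R] {m : ℕ} (p : Fin m → ℤ) (e : Equiv.Perm (Fin m))
    (f : MvPolynomial (Fin m) R) : phi R p (rename e f) = phi R (p ∘ e) f := by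
  rw [phi, MvPolynomial.aeval_rename]
  rfl

end Pool.Agent.H88.ALT

namespace Pool.Agent.H88

open Matrix MvPolynomial

/-- Module ALT, part 2: symmetry. -/
theorem levc_neg {m : ℕ} (lam : Fin m → ℕ) (s : MvPolynomial (Fin m) ℕ) (hs : IsSchur s lam)
    (p : Fin m → ℤ) (hp : ∀ k : ℤ, (Finset.univ.filter fun i => p i = k).card =
      (Finset.univ.filter fun i => p i = -k).card) (k : ℤ) :
    levc s p k = levc s p (-k) := by
  classical
  have hcard : ∀ c : ℤ, Fintype.card {i // p i = c} = Fintype.card {i // - p i = c} := by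
    intro c
    rw [Fintype.card_subtype, Fintype.card_subtype, hp c]
    congr 1
    ext i
    simp only [Finset.mem_filter, Finset.mem_univ, true_and]
    constructor <;> intro h <;> omega
  let e : Equiv.Perm (Fin m) :=
    Equiv.ofFiberEquiv (f := p) (g := fun i => - p i) (fun c => Fintype.equivOfCardEq (hcard c))
  have he : ∀ i, - p (e i) = p i := fun i =>
    Equiv.ofFiberEquiv_map (f := p) (g := fun i => - p i)
      (fun c => Fintype.equivOfCardEq (hcard c)) i
  have h1 : levc s p k = levc s (p ∘ e) k := by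
    have h2 := ALT.levc_eq (R := ℤ) s p k
    rw [← ALT.rename_schur lam s hs e, ALT.phi_rename, ← ALT.levc_eq (R := ℤ)] at h2
    exact_mod_cast h2
  rw [h1, levc, levc]
  refine Finset.sum_congr rfl fun μ _ => ?_
  have h3 : ∑ i, (μ i : ℤ) * (p ∘ e) i = - ∑ i, (μ i : ℤ) * p i := by
    rw [← Finset.sum_neg_distrib]
    refine Finset.sum_congr rfl fun i _ => ?_
    have := he i
    simp only [Function.comp_apply]
    rw [← this]; ring
  rw [h3]
  congr 1
  rw [eq_iff_iff]
  constructor <;> intro h <;> omega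

/-- Module ALT, part 4: adding a constant to the partition does not change the levels. -/
theorem levc_shift {m : ℕ} (lam : Fin m → ℕ) (c : ℕ) (s s' : MvPolynomial (Fin m) ℕ)
    (hs : IsSchur s lam) (hs' : IsSchur s' (fun i => lam i + c)) (p : Fin m → ℤ)
    (hp : ∑ i, p i = 0) (k : ℤ) : levc s' p k = levc s p k := by
  have h1 : alt m ((fun i => lam i + c) + rho m) =
      (∏ i, (X i : MvPolynomial (Fin m) ℤ) ^ c) * alt m (lam + rho m) := by
    rw [alt, alt, ← Matrix.det_mul_column]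
    congr 1
    refine Matrix.ext fun i j => ?_
    simp only [Matrix.of_apply, Pi.add_apply]
    ring
  have h2 : map (Nat.castRingHom ℤ) s' =
      (∏ i, (X i : MvPolynomial (Fin m) ℤ) ^ c) * map (Nat.castRingHom ℤ) s := by
    apply mul_left_cancel₀ (ALT.alt_rho_ne_zero m)
    rw [show alt m (rho m) * map (Nat.castRingHom ℤ) s' = _ from hs', h1,
      ← show alt m (rho m) * map (Nat.castRingHom ℤ) s = _ from hs]
    ring
  have h3 : ALT.phi ℤ p (∏ i, (X i : MvPolynomial (Fin m) ℤ) ^ c) = 1 := by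
    rw [map_prod]
    simp_rw [map_pow, ALT.phi, MvPolynomial.aeval_X, LaurentPolynomial.T_pow]
    rw [ALT.prod_T, ← Finset.mul_sum, hp, mul_zero, LaurentPolynomial.T_zero]
  have h4 := ALT.levc_eq (R := ℤ) s' p k
  rw [h2, map_mul, h3, one_mul, ← ALT.levc_eq (R := ℤ)] at h4
  exact_mod_cast h4

end Pool.Agent.H88

namespace Pool.Agent.H88.ALT

open Matrix MvPolynomial

/-! ### The dimension bound -/

/-- the substitution `X_i = q ^ i` -/
noncomputable def psi (m : ℕ) : MvPolynomial (Fin m) ℤ →ₐ[ℤ] Polynomial ℤ :=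
  MvPolynomial.aeval (fun i => (Polynomial.X : Polynomial ℤ) ^ (i : ℕ))

theorem psi_alt {m : ℕ} (l : Fin m → ℕ) :
    psi m (alt m l) = ∏ i : Fin m, ∏ j ∈ Finset.Ioi i,
      ((Polynomial.X : Polynomial ℤ) ^ l j - Polynomial.X ^ l i) := by
  rw [alt, AlgHom.map_det, ← Matrix.det_vandermonde, ← Matrix.det_transpose]
  congr 1
  ext i j : 2
  simp only [AlgHom.mapMatrix_apply, Matrix.map_apply, Matrix.of_apply, Matrix.transpose_apply,
    Matrix.vandermonde_apply, map_pow, psi, MvPolynomial.aeval_X]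
  rw [← pow_mul, ← pow_mul, mul_comm]

/-- `(q ^ a - q ^ b) / (q - 1)` for `b ≤ a`. -/
noncomputable def hh (a b : ℕ) : Polynomial ℤ := ∑ t ∈ Finset.Ico b a, Polynomial.X ^ t

theorem hh_spec {a b : ℕ} (h : b ≤ a) :
    (Polynomial.X : Polynomial ℤ) ^ b - Polynomial.X ^ a = (1 - Polynomial.X) * hh a b := by
  rw [hh, mul_comm, Finset.sum_mul]
  induction a, h using Nat.le_induction with
  | base => simp
  | succ n hn ih =>
    rw [Finset.sum_Ico_succ_top hn, ← ih]
    ring

theorem hh_eval {a b : ℕ} (h : b ≤ a) : (hh a b).eval 1 = (a : ℤ) - b := by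
  rw [hh, Polynomial.eval_finsetSum]
  simp [h]

theorem psi_alt' {m : ℕ} {l : Fin m → ℕ} (hl : StrictAnti l) :
    psi m (alt m l) = (∏ i : Fin m, ∏ _j ∈ Finset.Ioi i, (1 - (Polynomial.X : Polynomial ℤ))) *
      ∏ i : Fin m, ∏ j ∈ Finset.Ioi i, hh (l i) (l j) := by
  rw [psi_alt, ← Finset.prod_mul_distrib]
  refine Finset.prod_congr rfl fun i _ => ?_
  rw [← Finset.prod_mul_distrib]
  refine Finset.prod_congr rfl fun j hj => ?_
  exact hh_spec (hl (Finset.mem_Ioi.mp hj)).le

theorem one_sub_X_ne_zero : (1 - (Polynomial.X : Polynomial ℤ)) ≠ 0 := by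
  intro h
  have := congrArg (Polynomial.eval 0) h
  simp at this

theorem sum_coeff_eq {m : ℕ} (s : MvPolynomial (Fin m) ℕ) :
    ((∑ μ ∈ s.support, s.coeff μ : ℕ) : ℤ) =
      (psi m (map (Nat.castRingHom ℤ) s)).eval 1 := by
  conv_rhs => rw [s.as_sum]
  rw [map_sum, map_sum, Polynomial.eval_finsetSum, Nat.cast_sum]
  refine Finset.sum_congr rfl fun μ _ => ?_
  rw [map_monomial, psi, MvPolynomial.aeval_monomial, Finsupp.prod_fintype _ _ (fun i => pow_zero _)]
  simp [Polynomial.eval_prod]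

theorem dim_formula {m : ℕ} (lam : Fin m → ℕ) (hlam : Antitone lam)
    (s : MvPolynomial (Fin m) ℕ) (hs : IsSchur s lam) :
    (∏ i : Fin m, ∏ j ∈ Finset.Ioi i, ((rho m i : ℤ) - rho m j)) *
      ((∑ μ ∈ s.support, s.coeff μ : ℕ) : ℤ) =
    ∏ i : Fin m, ∏ j ∈ Finset.Ioi i, (((lam + rho m) i : ℕ) - ((lam + rho m) j : ℕ) : ℤ) := by
  have h1 := congrArg (psi m) (show alt m (rho m) * map (Nat.castRingHom ℤ) s =
    alt m (lam + rho m) from hs)
  rw [map_mul, psi_alt' (strictAnti_rho m), psi_alt' (strictAnti_add_rho hlam), mul_assoc] at h1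
  have h2 : (∏ i : Fin m, ∏ _j ∈ Finset.Ioi i, (1 - (Polynomial.X : Polynomial ℤ))) ≠ 0 :=
    Finset.prod_ne_zero_iff.mpr fun i _ => Finset.prod_ne_zero_iff.mpr fun j _ => one_sub_X_ne_zero
  have h3 := congrArg (Polynomial.eval 1) (mul_left_cancel₀ h2 h1)
  rw [Polynomial.eval_mul, ← sum_coeff_eq, Polynomial.eval_prod, Polynomial.eval_prod] at h3
  rw [← show (∏ i : Fin m, Polynomial.eval 1 (∏ j ∈ Finset.Ioi i, hh (rho m i) (rho m j))) =
      ∏ i : Fin m, ∏ j ∈ Finset.Ioi i, ((rho m i : ℤ) - rho m j) from ?_,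
    ← show (∏ i : Fin m, Polynomial.eval 1
        (∏ j ∈ Finset.Ioi i, hh ((lam + rho m) i) ((lam + rho m) j))) =
      ∏ i : Fin m, ∏ j ∈ Finset.Ioi i,
        (((lam + rho m) i : ℕ) - ((lam + rho m) j : ℕ) : ℤ) from ?_]
  · exact h3
  · refine Finset.prod_congr rfl fun i _ => ?_
    rw [Polynomial.eval_prod]
    refine Finset.prod_congr rfl fun j hj => ?_
    exact hh_eval (strictAnti_add_rho hlam (Finset.mem_Ioi.mp hj)).le
  · refine Finset.prod_congr rfl fun i _ => ?_
    rw [Polynomial.eval_prod]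
    refine Finset.prod_congr rfl fun j hj => ?_
    exact hh_eval (strictAnti_rho m (Finset.mem_Ioi.mp hj)).le

end Pool.Agent.H88.ALT

namespace Pool.Agent.H88

open Matrix MvPolynomial

/-- Module ALT, part 3: polynomial bound for the number of monomials (Weyl dimension). -/
theorem sum_coeff_le {m : ℕ} (lam : Fin m → ℕ) (hlam : Antitone lam) (K : ℕ)
    (hK : ∀ i, lam i ≤ K) (s : MvPolynomial (Fin m) ℕ) (hs : IsSchur s lam) :
    ∑ μ ∈ s.support, s.coeff μ ≤ (K + m) ^ (m * m) := by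
  have h1 := ALT.dim_formula lam hlam s hs
  have h2 : (1 : ℤ) ≤ ∏ i : Fin m, ∏ j ∈ Finset.Ioi i, ((rho m i : ℤ) - rho m j) := by
    refine Finset.one_le_prod fun i _ => Finset.one_le_prod fun j hj => ?_
    have : (rho m j : ℤ) < rho m i := Nat.cast_lt.mpr (ALT.strictAnti_rho m (Finset.mem_Ioi.mp hj))
    omega
  have h3 : ∏ i : Fin m, ∏ j ∈ Finset.Ioi i, (((lam + rho m) i : ℕ) - ((lam + rho m) j : ℕ) : ℤ)
      ≤ ((K + m : ℕ) : ℤ) ^ (m * m) := by
    calc ∏ i : Fin m, ∏ j ∈ Finset.Ioi i, (((lam + rho m) i : ℕ) - ((lam + rho m) j : ℕ) : ℤ)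
        ≤ ∏ _i : Fin m, ((K + m : ℕ) : ℤ) ^ m := by
          refine Finset.prod_le_prod (fun i _ => Finset.prod_nonneg fun j hj => ?_) fun i _ => ?_
          · have := Nat.cast_lt (α := ℤ).mpr (ALT.strictAnti_add_rho hlam (Finset.mem_Ioi.mp hj))
            omega
          · have hm : 1 ≤ m := by have := i.isLt; omega
            calc ∏ j ∈ Finset.Ioi i, (((lam + rho m) i : ℕ) - ((lam + rho m) j : ℕ) : ℤ)
                ≤ ∏ _j ∈ Finset.Ioi i, ((K + m : ℕ) : ℤ) := by
                  refine Finset.prod_le_prod (fun j hj => ?_) fun j hj => ?_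
                  · have := Nat.cast_lt (α := ℤ).mpr
                      (ALT.strictAnti_add_rho hlam (Finset.mem_Ioi.mp hj))
                    omega
                  · have h4 := hK i
                    have h5 : (lam + rho m) i ≤ K + m := by
                      simp only [Pi.add_apply, rho]; omega
                    have h6 : (0 : ℤ) ≤ (((lam + rho m) j : ℕ) : ℤ) := Int.natCast_nonneg _
                    have h7 : (((lam + rho m) i : ℕ) : ℤ) ≤ ((K + m : ℕ) : ℤ) :=
                      Nat.cast_le.mpr h5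
                    omega
              _ = ((K + m : ℕ) : ℤ) ^ (Finset.Ioi i).card := Finset.prod_const _
              _ ≤ ((K + m : ℕ) : ℤ) ^ m := by
                  refine pow_le_pow_right₀ ?_ ?_
                  · have : 1 ≤ K + m := by omega
                    exact_mod_cast this
                  · calc (Finset.Ioi i).card ≤ (Finset.univ : Finset (Fin m)).card :=
                        Finset.card_le_card (Finset.subset_univ _)
                      _ = m := by simp
      _ = ((K + m : ℕ) : ℤ) ^ (m * m) := by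
          rw [Finset.prod_const, Finset.card_univ, Fintype.card_fin, ← pow_mul]
  have h4 : ((∑ μ ∈ s.support, s.coeff μ : ℕ) : ℤ) ≤
      (∏ i : Fin m, ∏ j ∈ Finset.Ioi i, ((rho m i : ℤ) - rho m j)) *
      ((∑ μ ∈ s.support, s.coeff μ : ℕ) : ℤ) := by
    nlinarith [Int.natCast_nonneg (∑ μ ∈ s.support, s.coeff μ)]
  have h5 := h4.trans (h1.le.trans h3)
  exact_mod_cast h5

end Pool.Agent.H88
namespace Pool.Agent.H88.ALT

open Matrix MvPolynomial

/-! ### Schur expansion -/

/-- The alternant over the reals. -/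
noncomputable def altR (m : ℕ) (l : Fin m → ℕ) : MvPolynomial (Fin m) ℝ :=
  Matrix.det (Matrix.of fun i j : Fin m => (X i : MvPolynomial (Fin m) ℝ) ^ l j)

theorem map_alt {m : ℕ} (l : Fin m → ℕ) : map (Int.castRingHom ℝ) (alt m l) = altR m l := by
  rw [alt, RingHom.map_det, altR]
  congr 1
  refine Matrix.ext fun i j => ?_
  simp

theorem altR_rho_ne_zero (m : ℕ) : altR m (rho m) ≠ 0 := by
  rw [← map_alt]
  intro h
  apply alt_rho_ne_zero m
  apply MvPolynomial.map_injective (Int.castRingHom ℝ) (Int.cast_injective)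
  rw [h, map_zero]

theorem prod_X_pow {m : ℕ} (e : Fin m → ℕ) :
    ∏ i, (X i : MvPolynomial (Fin m) ℝ) ^ e i =
      monomial (Finsupp.equivFunOnFinite.symm e) 1 := by
  rw [MvPolynomial.monomial_eq, Finsupp.prod_fintype _ _ (fun i => pow_zero _)]
  simp

theorem altR_eq_sum {m : ℕ} (b : Fin m → ℕ) :
    altR m b = ∑ σ : Equiv.Perm (Fin m), C (((Equiv.Perm.sign σ : ℤˣ) : ℤ) : ℝ) *
      ∏ i, (X i : MvPolynomial (Fin m) ℝ) ^ b (σ i) := by
  rw [altR, ← Matrix.det_transpose, Matrix.det_apply]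
  refine Finset.sum_congr rfl fun σ _ => ?_
  rw [Units.smul_def, zsmul_eq_mul]
  simp

theorem coeff_altR {m : ℕ} (b : Fin m → ℕ) (l : Fin m →₀ ℕ) :
    coeff l (altR m b) = ∑ σ : Equiv.Perm (Fin m),
      if b ∘ σ = l then ((((Equiv.Perm.sign σ : ℤˣ) : ℤ)) : ℝ) else 0 := by
  rw [altR_eq_sum, MvPolynomial.coeff_sum]
  refine Finset.sum_congr rfl fun σ _ => ?_
  rw [prod_X_pow, MvPolynomial.coeff_C_mul, MvPolynomial.coeff_monomial]
  have h : (Finsupp.equivFunOnFinite.symm (fun i => b (σ i)) = l) ↔ b ∘ σ = l := by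
    rw [Equiv.symm_apply_eq]
    rfl
  by_cases h' : b ∘ σ = l
  · rw [if_pos h', if_pos (h.mpr h'), mul_one]
  · rw [if_neg h', if_neg (fun h2 => h' (h.mp h2)), mul_zero]

theorem coeff_prod_sum {m : ℕ} (c : Fin m → ℕ → ℝ) (N : Fin m → ℕ) (l : Fin m →₀ ℕ) :
    coeff l (∏ i, ∑ a ∈ Finset.range (N i), C (c i a) * (X i : MvPolynomial (Fin m) ℝ) ^ a) =
      ∏ i, if l i < N i then c i (l i) else 0 := by
  classical
  rw [Finset.prod_univ_sum, MvPolynomial.coeff_sum]
  have h1 : ∀ μ : Fin m → ℕ, coeff l (∏ i, C (c i (μ i)) * (X i : MvPolynomial (Fin m) ℝ) ^ μ i) =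
      if μ = l then ∏ i, c i (μ i) else 0 := by
    intro μ
    rw [Finset.prod_mul_distrib, prod_X_pow, ← map_prod, MvPolynomial.coeff_C_mul,
      MvPolynomial.coeff_monomial]
    have h : (Finsupp.equivFunOnFinite.symm μ = l) ↔ μ = l := by
      rw [Equiv.symm_apply_eq]
      rfl
    by_cases h' : μ = l
    · rw [if_pos h', if_pos (h.mpr h'), mul_one]
    · rw [if_neg h', if_neg (fun h2 => h' (h.mp h2)), mul_zero]
  simp_rw [h1]
  by_cases hl : ∀ i, l i < N i
  · rw [Finset.sum_eq_single (l : Fin m → ℕ)]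
    · rw [if_pos rfl]
      exact Finset.prod_congr rfl fun i _ => by rw [if_pos (hl i)]
    · intro μ _ hμ
      rw [if_neg hμ]
    · intro h
      exact absurd (Fintype.mem_piFinset.mpr fun i => Finset.mem_range.mpr (hl i)) h
  · push Not at hl
    obtain ⟨i, hi⟩ := hl
    rw [Finset.prod_eq_zero (Finset.mem_univ i) (by rw [if_neg (not_lt.mpr hi)])]
    refine Finset.sum_eq_zero fun μ hμ => ?_
    rw [if_neg]
    rintro rfl
    have := Finset.mem_range.mp (Fintype.mem_piFinset.mp hμ i)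
    omega

theorem X_pow_mul_sum {m : ℕ} (M : ℕ) (g : ℤ → ℝ)
    (hg : ∀ k : ℤ, (k < 0 ∨ (M : ℤ) < k) → g k = 0) (i : Fin m) (r : ℕ) :
    (X i : MvPolynomial (Fin m) ℝ) ^ r *
        ∑ a ∈ Finset.range (M + 1), C (g a) * (X i : MvPolynomial (Fin m) ℝ) ^ a =
      ∑ b ∈ Finset.range (r + (M + 1)),
        C (g ((b : ℤ) - r)) * (X i : MvPolynomial (Fin m) ℝ) ^ b := by
  rw [Finset.sum_range_add _ r (M + 1), Finset.mul_sum]
  have h1 : ∑ x ∈ Finset.range r, C (g ((x : ℤ) - r)) * (X i : MvPolynomial (Fin m) ℝ) ^ x = 0 := by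
    refine Finset.sum_eq_zero fun x hx => ?_
    have := Finset.mem_range.mp hx
    rw [hg _ (Or.inl (by omega)), map_zero, zero_mul]
  rw [h1, zero_add]
  refine Finset.sum_congr rfl fun a _ => ?_
  have h2 : (((r + a : ℕ) : ℤ) - r) = a := by push_cast; ring
  rw [h2, pow_add]
  ring

/-- `coeff l (alt rho * prod g(X_i)) = det (g (l_i - rho_j))`. -/
theorem coeff_altR_mul {m : ℕ} (M : ℕ) (g : ℤ → ℝ)
    (hg : ∀ k : ℤ, (k < 0 ∨ (M : ℤ) < k) → g k = 0) (l : Fin m →₀ ℕ) :
    coeff l (altR m (rho m) *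
      ∏ i, ∑ a ∈ Finset.range (M + 1), C (g a) * (X i : MvPolynomial (Fin m) ℝ) ^ a) =
      Matrix.det (Matrix.of fun i j : Fin m => g ((l i : ℤ) - (rho m j : ℤ))) := by
  rw [altR_eq_sum, Finset.sum_mul, MvPolynomial.coeff_sum, ← Matrix.det_transpose,
    Matrix.det_apply]
  refine Finset.sum_congr rfl fun σ _ => ?_
  rw [mul_assoc, ← Finset.prod_mul_distrib]
  simp_rw [X_pow_mul_sum M g hg]
  rw [MvPolynomial.coeff_C_mul, coeff_prod_sum, Units.smul_def, zsmul_eq_mul]
  congr 1
  refine Finset.prod_congr rfl fun i _ => ?_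
  rw [Matrix.transpose_apply, Matrix.of_apply]
  split_ifs with h
  · rfl
  · rw [hg _ (Or.inr (by omega))]

theorem rho_le_of_strictAnti {m : ℕ} {b : Fin m → ℕ} (hb : StrictAnti b) (i : Fin m) :
    rho m i ≤ b i := by
  have h : ∀ (k : ℕ) (i : Fin m), (i : ℕ) + k = m - 1 → k ≤ b i := by
    intro k
    induction k with
    | zero => intro i _; exact Nat.zero_le _
    | succ k ih =>
      intro i hi
      have hi' : (i : ℕ) + 1 < m := by omega
      have h1 := ih ⟨(i : ℕ) + 1, hi'⟩ (by simp only; omega)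
      have h2 : b ⟨(i : ℕ) + 1, hi'⟩ < b i := hb (by
        show (i : ℕ) < (i : ℕ) + 1
        omega)
      omega
  have := i.isLt
  exact h (rho m i) i (by simp only [rho]; omega)

theorem antitone_sub_rho {m : ℕ} {b : Fin m → ℕ} (hb : StrictAnti b) :
    Antitone (fun i => b i - rho m i) := by
  have key : ∀ i j : Fin m, i ≤ j → b j + ((j : ℕ) - (i : ℕ)) ≤ b i := by
    intro i j hij
    have h : ∀ (k : ℕ) (j : Fin m), (j : ℕ) = (i : ℕ) + k → b j + k ≤ b i := by
      intro k
      induction k with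
      | zero =>
        intro j hj
        have : j = i := Fin.ext (by omega)
        rw [this]; omega
      | succ k ih =>
        intro j hj
        have hj' : (i : ℕ) + k < m := by have := j.isLt; omega
        have h1 := ih ⟨(i : ℕ) + k, hj'⟩ rfl
        have h2 : b j < b ⟨(i : ℕ) + k, hj'⟩ := hb (by
          show (i : ℕ) + k < (j : ℕ)
          omega)
        omega
    have hij' : (i : ℕ) ≤ (j : ℕ) := hij
    exact h ((j : ℕ) - (i : ℕ)) j (by omega)
  intro i j hij
  have h1 := key i j hij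
  have h2 := rho_le_of_strictAnti hb i
  have h3 := rho_le_of_strictAnti hb j
  have hij' : (i : ℕ) ≤ (j : ℕ) := hij
  have h4 := j.isLt
  simp only [rho] at h2 h3 ⊢
  omega

/-- An injective function to `ℕ` becomes strictly decreasing after a permutation. -/
theorem exists_perm_strictAnti {m : ℕ} (l : Fin m → ℕ) (hl : Function.Injective l) :
    ∃ σ : Equiv.Perm (Fin m), StrictAnti (l ∘ σ) := by
  refine ⟨Tuple.sort (fun i => OrderDual.toDual (l i)), ?_⟩
  have h1 : Monotone ((fun i => OrderDual.toDual (l i)) ∘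
      Tuple.sort (fun i => OrderDual.toDual (l i))) := Tuple.monotone_sort _
  intro i j hij
  have h2 := h1 hij.le
  have h3 : l (Tuple.sort (fun i => OrderDual.toDual (l i)) j) ≤
      l (Tuple.sort (fun i => OrderDual.toDual (l i)) i) := h2
  refine lt_of_le_of_ne h3 fun h4 => ?_
  have := (Tuple.sort (fun i => OrderDual.toDual (l i))).injective (hl h4)
  exact hij.ne' this

theorem perm_unique {m : ℕ} {b b' : Fin m → ℕ} (hb : StrictAnti b) (hb' : StrictAnti b')
    (σ τ : Equiv.Perm (Fin m)) (h : b ∘ σ = b' ∘ τ) : σ = τ ∧ b = b' := by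
  have h1 : b ∘ (σ * τ⁻¹ : Equiv.Perm (Fin m)) = b' := by
    funext i
    have := congrFun h (τ⁻¹ i)
    simpa using this
  have h2 : StrictMono (σ * τ⁻¹ : Equiv.Perm (Fin m)) := by
    intro i j hij
    have h3 : b' j < b' i := hb' hij
    rw [← h1] at h3
    exact hb.lt_iff_gt.mp h3
  have h4 : h2.orderIsoOfSurjective _ (σ * τ⁻¹ : Equiv.Perm (Fin m)).surjective =
      OrderIso.refl (Fin m) := Subsingleton.elim _ _
  have h5 : σ * τ⁻¹ = 1 := Equiv.ext fun i => DFunLike.congr_fun h4 i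
  refine ⟨mul_inv_eq_one.mp h5, ?_⟩
  rw [← h1, h5]
  rfl

/-- The key identity in `MvPolynomial (Fin m) ℝ`. -/
theorem schur_expansion_altR {m : ℕ} (M : ℕ) (g : ℤ → ℝ)
    (hg : ∀ k : ℤ, (k < 0 ∨ (M : ℤ) < k) → g k = 0) :
    altR m (rho m) *
      ∏ i, ∑ a ∈ Finset.range (M + 1), C (g a) * (X i : MvPolynomial (Fin m) ℝ) ^ a =
    ∑ lam ∈ (Fintype.piFinset (fun _ : Fin m => Finset.range (M + 1))).filter
        (fun lam => ∀ i j : Fin m, i ≤ j → lam j ≤ lam i),
      C (Matrix.det (Matrix.of fun i j : Fin m =>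
        g ((lam i : ℤ) + (rho m i : ℤ) - (rho m j : ℤ)))) * altR m (lam + rho m) := by
  classical
  refine MvPolynomial.ext _ _ fun l => ?_
  rw [coeff_altR_mul M g hg, MvPolynomial.coeff_sum]
  simp_rw [MvPolynomial.coeff_C_mul, coeff_altR]
  by_cases hinj : Function.Injective l
  · obtain ⟨σ, hσ⟩ := exists_perm_strictAnti l hinj
    set b : Fin m → ℕ := l ∘ σ with hb
    have hlb : (l : Fin m → ℕ) = b ∘ (σ⁻¹ : Equiv.Perm (Fin m)) := by
      funext i; simp [hb]
    set lam : Fin m → ℕ := fun i => b i - rho m i with hlam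
    have hlamb : lam + rho m = b := by
      funext i
      have := rho_le_of_strictAnti hσ i
      simp only [hlam, Pi.add_apply]
      omega
    have hanti : Antitone lam := antitone_sub_rho hσ
    have hdet : Matrix.det (Matrix.of fun i j : Fin m => g ((l i : ℤ) - (rho m j : ℤ))) =
        (((Equiv.Perm.sign σ⁻¹ : ℤˣ) : ℤ) : ℝ) * Matrix.det (Matrix.of fun i j : Fin m =>
          g ((lam i : ℤ) + (rho m i : ℤ) - (rho m j : ℤ))) := by
      rw [← Matrix.det_permute]
      congr 1
      refine Matrix.ext fun i j => ?_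
      simp only [Matrix.of_apply, Matrix.submatrix_apply, id]
      have h1 : l i = lam (σ⁻¹ i) + rho m (σ⁻¹ i) := by
        rw [show lam (σ⁻¹ i) + rho m (σ⁻¹ i) = (lam + rho m) (σ⁻¹ i) from rfl, hlamb]
        exact congrFun hlb i
      rw [h1]
      push_cast
      rfl
    rw [hdet]
    by_cases hmem : ∀ i, lam i < M + 1
    · rw [Finset.sum_eq_single lam]
      · rw [Finset.sum_eq_single σ⁻¹]
        · rw [if_pos (by rw [hlamb]; exact hlb.symm), mul_comm]
        · intro τ _ hτ
          rw [if_neg]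
          intro h
          rw [hlb, hlamb] at h
          exact hτ (perm_unique hσ hσ _ _ h).1
        · intro h; exact absurd (Finset.mem_univ _) h
      · intro lam' hlam' hne
        rw [Finset.sum_eq_zero, mul_zero]
        intro τ _
        rw [if_neg]
        intro h
        rw [hlb] at h
        have hanti' : Antitone lam' := fun i j hij => (Finset.mem_filter.mp hlam').2 i j hij
        have h2 := (perm_unique (strictAnti_add_rho hanti') hσ _ _ h).2
        rw [← hlamb] at h2
        exact hne (add_right_cancel h2)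
      · intro h
        exact absurd (Finset.mem_filter.mpr ⟨Fintype.mem_piFinset.mpr fun i =>
          Finset.mem_range.mpr (hmem i), fun i j hij => hanti hij⟩) h
    · push Not at hmem
      obtain ⟨i, hi⟩ := hmem
      have hzero : Matrix.det (Matrix.of fun i j : Fin m =>
          g ((lam i : ℤ) + (rho m i : ℤ) - (rho m j : ℤ))) = 0 := by
        have hm : 0 < m := by have := i.isLt; omega
        apply Matrix.det_eq_zero_of_row_eq_zero (⟨0, hm⟩ : Fin m)
        intro j
        rw [Matrix.of_apply]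
        apply hg
        right
        have h1 : lam i ≤ lam ⟨0, hm⟩ := hanti (Fin.mk_le_of_le_val (Nat.zero_le _))
        have h2 : rho m j ≤ rho m ⟨0, hm⟩ := by simp only [rho]; omega
        omega
      rw [hzero, mul_zero]
      symm
      refine Finset.sum_eq_zero fun lam' hlam' => ?_
      rw [Finset.sum_eq_zero, mul_zero]
      intro τ _
      rw [if_neg]
      intro h
      rw [hlb] at h
      have hanti' : Antitone lam' := fun i j hij => (Finset.mem_filter.mp hlam').2 i j hij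
      have h2 := (perm_unique (strictAnti_add_rho hanti') hσ _ _ h).2
      rw [← hlamb] at h2
      have h3 := add_right_cancel h2
      have h4 := Finset.mem_range.mp (Fintype.mem_piFinset.mp (Finset.mem_filter.mp hlam').1 i)
      rw [h3] at h4
      omega
  · rw [Function.Injective] at hinj
    push Not at hinj
    obtain ⟨i, j, hij, hne⟩ := hinj
    rw [Matrix.det_zero_of_row_eq hne]
    · symm
      refine Finset.sum_eq_zero fun lam' hlam' => ?_
      rw [Finset.sum_eq_zero, mul_zero]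
      intro τ _
      rw [if_neg]
      intro h
      have hanti' : Antitone lam' := fun i j hij => (Finset.mem_filter.mp hlam').2 i j hij
      have h2 := (strictAnti_add_rho hanti').injective.comp τ.injective
      rw [h] at h2
      exact hne (h2 hij)
    · funext k
      simp only [Matrix.of_apply, hij]

end Pool.Agent.H88.ALT

namespace Pool.Agent.H88

open Matrix MvPolynomial

/-- Module ALT, part 5: Schur expansion of a product function. -/
theorem schur_expansion {m : ℕ} (M : ℕ) (g : ℤ → ℝ)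
    (hg : ∀ k : ℤ, (k < 0 ∨ (M : ℤ) < k) → g k = 0)
    (S : (Fin m → ℕ) → MvPolynomial (Fin m) ℕ) (hS : ∀ lam, Antitone lam → IsSchur (S lam) lam)
    (p : Fin m → ℤ) (k : ℤ) :
    (∑ μ ∈ Fintype.piFinset (fun _ : Fin m => Finset.Icc (0 : ℤ) M),
      if ∑ i, μ i * p i = k then ∏ i, g (μ i) else 0) =
    ∑ lam ∈ (Fintype.piFinset (fun _ : Fin m => Finset.range (M + 1))).filter
        (fun lam => ∀ i j : Fin m, i ≤ j → lam j ≤ lam i),
      Matrix.det (Matrix.of fun i j : Fin m =>
        g ((lam i : ℤ) + (rho m i : ℤ) - (rho m j : ℤ))) * (levc (S lam) p k : ℝ) := by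
  classical
  have h1 : ∏ i, ∑ a ∈ Finset.range (M + 1), C (g a) * (X i : MvPolynomial (Fin m) ℝ) ^ a =
      ∑ lam ∈ (Fintype.piFinset (fun _ : Fin m => Finset.range (M + 1))).filter
        (fun lam => ∀ i j : Fin m, i ≤ j → lam j ≤ lam i),
      C (Matrix.det (Matrix.of fun i j : Fin m =>
        g ((lam i : ℤ) + (rho m i : ℤ) - (rho m j : ℤ)))) *
          map (Nat.castRingHom ℝ) (S lam) := by
    apply mul_left_cancel₀ (ALT.altR_rho_ne_zero m)
    rw [ALT.schur_expansion_altR M g hg, Finset.mul_sum]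
    refine Finset.sum_congr rfl fun lam hlam => ?_
    have h2 : Antitone lam := fun i j hij => (Finset.mem_filter.mp hlam).2 i j hij
    have h3 := congrArg (map (Int.castRingHom ℝ)) (show alt m (rho m) *
      map (Nat.castRingHom ℤ) (S lam) = alt m (lam + rho m) from hS lam h2)
    rw [map_mul, ALT.map_alt, ALT.map_alt, MvPolynomial.map_map,
      show (Int.castRingHom ℝ).comp (Nat.castRingHom ℤ) = Nat.castRingHom ℝ from
        Subsingleton.elim _ _] at h3
    rw [← h3]
    ring
  have h4 := congrArg (fun f => (ALT.phi ℝ p f).coeff k) h1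
  rw [map_sum (ALT.phi ℝ p) _ (Finset.filter _ _), AddMonoidAlgebra.coeff_sum, Finsupp.finsetSum_apply] at h4
  have h5 : ∀ lam ∈ (Fintype.piFinset (fun _ : Fin m => Finset.range (M + 1))).filter
        (fun lam => ∀ i j : Fin m, i ≤ j → lam j ≤ lam i),
      (ALT.phi ℝ p (C (Matrix.det (Matrix.of fun i j : Fin m =>
        g ((lam i : ℤ) + (rho m i : ℤ) - (rho m j : ℤ)))) *
          map (Nat.castRingHom ℝ) (S lam))).coeff k =
      Matrix.det (Matrix.of fun i j : Fin m =>
        g ((lam i : ℤ) + (rho m i : ℤ) - (rho m j : ℤ))) * (levc (S lam) p k : ℝ) := by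
    intro lam _
    rw [ALT.levc_eq (R := ℝ), ← MvPolynomial.smul_eq_C_mul, map_smul, AddMonoidAlgebra.coeff_smul,
      Finsupp.smul_apply, smul_eq_mul]
  rw [Finset.sum_congr rfl h5] at h4
  rw [← h4, map_prod]
  have h6 : ∀ i, ALT.phi ℝ p (∑ a ∈ Finset.range (M + 1), C (g a) *
      (X i : MvPolynomial (Fin m) ℝ) ^ a) = ∑ a ∈ Finset.Icc (0 : ℤ) M,
        LaurentPolynomial.C (g a) * LaurentPolynomial.T (a * p i) := by
    intro i
    rw [map_sum]
    refine Finset.sum_nbij' (fun a : ℕ => (a : ℤ)) (fun a : ℤ => a.toNat) ?_ ?_ ?_ ?_ ?_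
    · intro a ha
      have := Finset.mem_range.mp ha
      exact Finset.mem_Icc.mpr ⟨by omega, by omega⟩
    · intro a ha
      have := Finset.mem_Icc.mp ha
      exact Finset.mem_range.mpr (by omega)
    · intro a _; simp
    · intro a ha
      have := Finset.mem_Icc.mp ha
      exact Int.toNat_of_nonneg this.1
    · intro a _
      rw [map_mul, map_pow, ALT.phi, MvPolynomial.aeval_X, MvPolynomial.aeval_C,
        LaurentPolynomial.T_pow]
      rfl
  rw [Finset.prod_congr rfl (fun i _ => h6 i), Finset.prod_univ_sum,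
    AddMonoidAlgebra.coeff_sum, Finsupp.finsetSum_apply]
  refine Finset.sum_congr rfl fun μ _ => ?_
  rw [Finset.prod_mul_distrib, ALT.prod_T, ← map_prod, ← LaurentPolynomial.single_eq_C_mul_T,
    AddMonoidAlgebra.coeff_single, Finsupp.single_apply]

end Pool.Agent.H88
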