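import Mathlib
import Pool.Agent.H88.Amalg.Defs

set_option autoImplicit false

namespace Pool.Agent.H88.Minor

open Pool.Agent.H88 Matrix Finset

/-- Vandermonde determinant with decreasing exponents. -/
theorem det_rho {R : Type} [CommRing R] {m : ℕ} (v : Fin m → R) :
    Matrix.det (Matrix.of fun i j : Fin m => v i ^ rho m j) =
      ∏ i : Fin m, ∏ j ∈ Finset.Ioi i, (v i - v j) := by
  have h1 : (Matrix.of fun i j : Fin m => v i ^ rho m j) =
      (Matrix.vandermonde (v ∘ Fin.rev)).submatrix Fin.revPerm Fin.revPerm := by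
    ext i j
    simp only [Matrix.of_apply, Matrix.submatrix_apply, Matrix.vandermonde_apply, rho,
      Function.comp, Fin.revPerm_apply, Fin.rev_rev, Fin.val_rev]
    congr 1
    omega
  rw [h1, Matrix.det_submatrix_equiv_self, Matrix.det_vandermonde]
  rw [Finset.prod_sigma', Finset.prod_sigma']
  refine Finset.prod_bij' (fun x _ => ⟨Fin.rev x.2, Fin.rev x.1⟩)
    (fun x _ => ⟨Fin.rev x.2, Fin.rev x.1⟩) ?_ ?_ ?_ ?_ ?_
  · rintro ⟨a, b⟩ h
    simp only [Finset.mem_sigma, Finset.mem_univ, Finset.mem_Ioi, true_and] at h ⊢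
    exact Fin.rev_lt_rev.mpr h
  · rintro ⟨a, b⟩ h
    simp only [Finset.mem_sigma, Finset.mem_univ, Finset.mem_Ioi, true_and] at h ⊢
    exact Fin.rev_lt_rev.mpr h
  · rintro ⟨a, b⟩ h
    simp
  · rintro ⟨a, b⟩ h
    simp
  · rintro ⟨a, b⟩ h
    simp

theorem rho_anti (m : ℕ) : Antitone (rho m) := by
  intro i j h
  have : (i : ℕ) ≤ j := h
  simp only [rho]
  omega

theorem rho_strict {m : ℕ} {i j : Fin m} (h : i < j) : rho m j < rho m i := by
  have h1 : (i : ℕ) < j := h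
  have h2 := j.2
  simp only [rho]
  omega

/-- The exact Gaussian minor. -/
theorem det_gauss {m : ℕ} (τ : ℝ) (ν : Fin m → ℤ) :
    Matrix.det (Matrix.of fun i j : Fin m =>
      Real.exp (-τ * ((ν i + (rho m i : ℤ) - (rho m j : ℤ) : ℤ) : ℝ) ^ 2)) =
    Real.exp (-τ * ∑ i, (ν i : ℝ) ^ 2) *
      ∏ i : Fin m, ∏ j ∈ Finset.Ioi i,
        (1 - Real.exp (-2 * τ * ((ν i + (rho m i : ℤ) - (ν j + (rho m j : ℤ)) : ℤ) : ℝ))) := by
  have h1 : (Matrix.of fun i j : Fin m =>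
      Real.exp (-τ * ((ν i + (rho m i : ℤ) - (rho m j : ℤ) : ℤ) : ℝ) ^ 2)) =
      Matrix.of fun i j : Fin m => Real.exp (-τ * ((ν i : ℝ) + rho m i) ^ 2) *
        ((Matrix.of fun i j : Fin m => Real.exp (-τ * (rho m j : ℝ) ^ 2) *
          ((Matrix.of fun i j : Fin m => Real.exp (2 * τ * ((ν i : ℝ) + rho m i)) ^ rho m j) i j))
          i j) := by
    ext i j
    simp only [Matrix.of_apply]
    rw [← Real.exp_nat_mul, ← Real.exp_add, ← Real.exp_add]
    congr 1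
    push_cast
    ring
  rw [h1, Matrix.det_mul_column, Matrix.det_mul_row, det_rho]
  have h2 : ∀ i : Fin m, ∏ j ∈ Finset.Ioi i, (Real.exp (2 * τ * ((ν i : ℝ) + rho m i)) -
      Real.exp (2 * τ * ((ν j : ℝ) + rho m j))) =
      Real.exp (2 * τ * ((ν i : ℝ) + rho m i) * rho m i) * ∏ j ∈ Finset.Ioi i,
        (1 - Real.exp (-2 * τ * ((ν i + (rho m i : ℤ) - (ν j + (rho m j : ℤ)) : ℤ) : ℝ))) := by
    intro i
    have h3 : Real.exp (2 * τ * ((ν i : ℝ) + rho m i) * rho m i) =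
        ∏ j ∈ Finset.Ioi i, Real.exp (2 * τ * ((ν i : ℝ) + rho m i)) := by
      rw [Finset.prod_const, Fin.card_Ioi, ← Real.exp_nat_mul]
      congr 1
      simp only [rho]
      ring
    rw [h3, ← Finset.prod_mul_distrib]
    refine Finset.prod_congr rfl fun j _ => ?_
    rw [mul_sub, mul_one, ← Real.exp_add]
    congr 2
    push_cast
    ring
  rw [Finset.prod_congr rfl fun i _ => h2 i, Finset.prod_mul_distrib, ← mul_assoc, ← mul_assoc]
  congr 1
  rw [← Finset.prod_mul_distrib, ← Finset.prod_mul_distrib, Finset.mul_sum, Real.exp_sum]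
  refine Finset.prod_congr rfl fun i _ => ?_
  rw [← Real.exp_add, ← Real.exp_add]
  congr 1
  ring

theorem sum_sq_le {m : ℕ} (ν : Fin m → ℤ) (hν : Antitone ν) (σ : Equiv.Perm (Fin m)) :
    ∑ i, (ν i : ℝ) ^ 2 ≤
      ∑ i, ((ν i + (rho m i : ℤ) - (rho m (σ i) : ℤ) : ℤ) : ℝ) ^ 2 := by
  have h1 : Monovary (fun i => (ν i : ℝ) + rho m i) (fun i => (rho m i : ℝ)) := by
    apply Antitone.monovary
    · intro i j h
      have := hν h
      have := rho_anti m h
      have h3 : (ν j : ℝ) ≤ ν i := by exact_mod_cast hν h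
      have h4 : (rho m j : ℝ) ≤ rho m i := by exact_mod_cast rho_anti m h
      simp only
      linarith
    · intro i j h
      have h4 : (rho m j : ℝ) ≤ rho m i := by exact_mod_cast rho_anti m h
      exact h4
  have h2 := h1.sum_mul_comp_perm_le_sum_mul (σ := σ)
  have h3 : ∑ i, (rho m (σ i) : ℝ) ^ 2 = ∑ i, (rho m i : ℝ) ^ 2 :=
    Equiv.sum_comp σ fun i => (rho m i : ℝ) ^ 2
  have h4 : ∑ i, ((ν i + (rho m i : ℤ) - (rho m (σ i) : ℤ) : ℤ) : ℝ) ^ 2 =
      ∑ i, ((ν i : ℝ) + rho m i) ^ 2 - 2 * ∑ i, ((ν i : ℝ) + rho m i) * (rho m (σ i) : ℝ) +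
        ∑ i, (rho m (σ i) : ℝ) ^ 2 := by
    rw [Finset.mul_sum, ← Finset.sum_sub_distrib, ← Finset.sum_add_distrib]
    refine Finset.sum_congr rfl fun i _ => ?_
    push_cast
    ring
  have h5 : ∑ i, (ν i : ℝ) ^ 2 =
      ∑ i, ((ν i : ℝ) + rho m i) ^ 2 - 2 * ∑ i, ((ν i : ℝ) + rho m i) * (rho m i : ℝ) +
        ∑ i, (rho m i : ℝ) ^ 2 := by
    rw [Finset.mul_sum, ← Finset.sum_sub_distrib, ← Finset.sum_add_distrib]
    refine Finset.sum_congr rfl fun i _ => ?_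
    ring
  rw [h4, h5, h3]
  linarith

theorem prod_gauss_le {m : ℕ} (τ : ℝ) (hτ : 0 < τ) (ν : Fin m → ℤ) (hν : Antitone ν)
    (σ : Equiv.Perm (Fin m)) :
    ∏ i, Real.exp (-τ * ((ν (σ i) + (rho m (σ i) : ℤ) - (rho m i : ℤ) : ℤ) : ℝ) ^ 2) ≤
      Real.exp (-τ * ∑ i, (ν i : ℝ) ^ 2) := by
  rw [← Real.exp_sum]
  apply Real.exp_le_exp.mpr
  rw [← Finset.mul_sum]
  have h := sum_sq_le ν hν σ⁻¹
  have h2 : ∑ i, ((ν (σ i) + (rho m (σ i) : ℤ) - (rho m i : ℤ) : ℤ) : ℝ) ^ 2 =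
      ∑ i, ((ν i + (rho m i : ℤ) - (rho m (σ⁻¹ i) : ℤ) : ℤ) : ℝ) ^ 2 := by
    rw [← Equiv.sum_comp σ fun i => ((ν i + (rho m i : ℤ) - (rho m (σ⁻¹ i) : ℤ) : ℤ) : ℝ) ^ 2]
    simp
  rw [h2]
  nlinarith

/-- Upper bound for the minors. -/
theorem minor_upper {m : ℕ} (τ H : ℝ) (hτ : 0 < τ) (hH : 0 ≤ H) (g : ℤ → ℝ)
    (h0 : ∀ k, 0 ≤ g k) (h1 : ∀ k : ℤ, g k ≤ H * Real.exp (-τ * (k : ℝ) ^ 2))
    (ν : Fin m → ℤ) (hν : Antitone ν) :
    |Matrix.det (Matrix.of fun i j : Fin m => g (ν i + (rho m i : ℤ) - (rho m j : ℤ)))| ≤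
      (m.factorial : ℝ) * H ^ m * Real.exp (-τ * ∑ i, (ν i : ℝ) ^ 2) := by
  rw [Matrix.det_apply]
  refine (Finset.abs_sum_le_sum_abs _ _).trans ?_
  have h2 : ∀ σ ∈ (Finset.univ : Finset (Equiv.Perm (Fin m))),
      |Equiv.Perm.sign σ • ∏ i, (Matrix.of fun i j : Fin m =>
        g (ν i + (rho m i : ℤ) - (rho m j : ℤ))) (σ i) i| ≤
        H ^ m * Real.exp (-τ * ∑ i, (ν i : ℝ) ^ 2) := by
    intro σ _
    have h3 : |Equiv.Perm.sign σ • ∏ i, (Matrix.of fun i j : Fin m =>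
        g (ν i + (rho m i : ℤ) - (rho m j : ℤ))) (σ i) i| =
        ∏ i, g (ν (σ i) + (rho m (σ i) : ℤ) - (rho m i : ℤ)) := by
      have h4 : 0 ≤ ∏ i, g (ν (σ i) + (rho m (σ i) : ℤ) - (rho m i : ℤ)) :=
        Finset.prod_nonneg fun i _ => h0 _
      simp only [Matrix.of_apply]
      rcases Int.units_eq_one_or (Equiv.Perm.sign σ) with h | h
      · rw [h, one_smul, abs_of_nonneg h4]
      · rw [h, Units.neg_smul, one_smul, abs_neg, abs_of_nonneg h4]
    rw [h3]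
    calc ∏ i, g (ν (σ i) + (rho m (σ i) : ℤ) - (rho m i : ℤ))
        ≤ ∏ i, (H * Real.exp (-τ *
            ((ν (σ i) + (rho m (σ i) : ℤ) - (rho m i : ℤ) : ℤ) : ℝ) ^ 2)) :=
          Finset.prod_le_prod (fun i _ => h0 _) fun i _ => h1 _
      _ = H ^ m * ∏ i, Real.exp (-τ *
            ((ν (σ i) + (rho m (σ i) : ℤ) - (rho m i : ℤ) : ℤ) : ℝ) ^ 2) := by
          rw [Finset.prod_mul_distrib, Finset.prod_const, Finset.card_univ, Fintype.card_fin]
      _ ≤ H ^ m * Real.exp (-τ * ∑ i, (ν i : ℝ) ^ 2) :=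
          mul_le_mul_of_nonneg_left (prod_gauss_le τ hτ ν hν σ) (pow_nonneg hH m)
  refine (Finset.sum_le_card_nsmul _ _ _ h2).trans ?_
  rw [Finset.card_univ, Fintype.card_perm, Fintype.card_fin, nsmul_eq_mul]
  exact le_of_eq (by ring)

theorem prod_one_add_sub_one {ι : Type} (s : Finset ι) (δ : ι → ℝ) (ε : ℝ) (hε : 0 ≤ ε)
    (h : ∀ i ∈ s, |δ i| ≤ ε) : |∏ i ∈ s, (1 + δ i) - 1| ≤ (1 + ε) ^ s.card - 1 := by
  classical
  induction s using Finset.induction_on with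
  | empty => simp
  | insert a s ha ih =>
    rw [Finset.prod_insert ha, Finset.card_insert_of_notMem ha]
    have h1 := ih fun i hi => h i (Finset.mem_insert_of_mem hi)
    have h2 := h a (Finset.mem_insert_self a s)
    have h3 : (1 + δ a) * ∏ i ∈ s, (1 + δ i) - 1 =
        (1 + δ a) * (∏ i ∈ s, (1 + δ i) - 1) + δ a := by ring
    rw [h3]
    have h4 : |1 + δ a| ≤ 1 + ε := (abs_add_le _ _).trans (by simpa using h2)
    calc |(1 + δ a) * (∏ i ∈ s, (1 + δ i) - 1) + δ a|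
        ≤ |(1 + δ a) * (∏ i ∈ s, (1 + δ i) - 1)| + |δ a| := abs_add_le _ _
      _ = |1 + δ a| * |∏ i ∈ s, (1 + δ i) - 1| + |δ a| := by rw [abs_mul]
      _ ≤ (1 + ε) * ((1 + ε) ^ s.card - 1) + ε := by
          have := mul_le_mul h4 h1 (abs_nonneg _) (by linarith)
          linarith
      _ = (1 + ε) ^ (s.card + 1) - 1 := by ring

/-- Lower bound for the minors. -/
theorem minor_lower {m : ℕ} (τ G ε : ℝ) (hτ : 0 < τ) (hG : 0 < G) (hε : 0 ≤ ε) (g : ℤ → ℝ)
    (h1 : ∀ k : ℤ, g k ≤ (1 + ε) * G * Real.exp (-τ * (k : ℝ) ^ 2))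
    (ν : Fin m → ℤ) (hν : Antitone ν)
    (h2 : ∀ i j : Fin m, (1 - ε) * G *
      Real.exp (-τ * ((ν i + (rho m i : ℤ) - (rho m j : ℤ) : ℤ) : ℝ) ^ 2) ≤
        g (ν i + (rho m i : ℤ) - (rho m j : ℤ))) :
    G ^ m * Real.exp (-τ * ∑ i, (ν i : ℝ) ^ 2) *
      ((1 - Real.exp (-2 * τ)) ^ (m * m) - (m.factorial : ℝ) * ((1 + ε) ^ m - 1)) ≤
    Matrix.det (Matrix.of fun i j : Fin m => g (ν i + (rho m i : ℤ) - (rho m j : ℤ))) := by
  set E : ℤ → ℝ := fun k => Real.exp (-τ * (k : ℝ) ^ 2) with hE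
  set x : Fin m → Fin m → ℤ := fun i j => ν i + (rho m i : ℤ) - (rho m j : ℤ) with hx
  -- relative errors
  have hEpos : ∀ k, 0 < E k := fun k => Real.exp_pos _
  set δ : Fin m → Fin m → ℝ := fun i j => g (x i j) / (G * E (x i j)) - 1 with hδ
  have hg : ∀ i j, g (x i j) = G * E (x i j) * (1 + δ i j) := by
    intro i j
    have : G * E (x i j) ≠ 0 := (mul_pos hG (hEpos _)).ne'
    simp only [hδ]
    rw [add_sub_cancel, mul_div_cancel₀ _ this]
  have hδε : ∀ i j, |δ i j| ≤ ε := by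
    intro i j
    have hp : 0 < G * E (x i j) := mul_pos hG (hEpos _)
    rw [abs_le]
    constructor
    · have := h2 i j
      simp only [hδ]
      have h3 : 1 - ε ≤ g (x i j) / (G * E (x i j)) := by
        rw [le_div_iff₀ hp]
        calc (1 - ε) * (G * E (x i j)) = (1 - ε) * G * E (x i j) := by ring
          _ ≤ _ := this
      linarith
    · have := h1 (x i j)
      simp only [hδ]
      have h3 : g (x i j) / (G * E (x i j)) ≤ 1 + ε := by
        rw [div_le_iff₀ hp]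
        calc g (x i j) ≤ (1 + ε) * G * E (x i j) := this
          _ = _ := by ring
      linarith
  have hmain : Matrix.det (Matrix.of fun i j : Fin m => E (x i j)) =
    Real.exp (-τ * ∑ i, (ν i : ℝ) ^ 2) *
      ∏ i : Fin m, ∏ j ∈ Finset.Ioi i,
        (1 - Real.exp (-2 * τ * ((ν i + (rho m i : ℤ) - (ν j + (rho m j : ℤ)) : ℤ) : ℝ))) :=
    det_gauss τ ν
  have hb1 : (0:ℝ) ≤ 1 - Real.exp (-2 * τ) := by
    have : Real.exp (-2 * τ) ≤ 1 := Real.exp_le_one_iff.mpr (by linarith)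
    linarith
  have hb2 : 1 - Real.exp (-2 * τ) ≤ 1 := by
    have := Real.exp_pos (-2 * τ)
    linarith
  have hprod : (1 - Real.exp (-2 * τ)) ^ (m * m) ≤ ∏ i : Fin m, ∏ j ∈ Finset.Ioi i,
        (1 - Real.exp (-2 * τ * ((ν i + (rho m i : ℤ) - (ν j + (rho m j : ℤ)) : ℤ) : ℝ))) := by
    have h3 : ∀ i : Fin m, (1 - Real.exp (-2 * τ)) ^ m ≤ ∏ j ∈ Finset.Ioi i,
        (1 - Real.exp (-2 * τ * ((ν i + (rho m i : ℤ) - (ν j + (rho m j : ℤ)) : ℤ) : ℝ))) := by
      intro i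
      calc (1 - Real.exp (-2 * τ)) ^ m ≤ (1 - Real.exp (-2 * τ)) ^ (Finset.Ioi i).card := by
            apply pow_le_pow_of_le_one hb1 hb2
            rw [Fin.card_Ioi]
            omega
        _ = ∏ j ∈ Finset.Ioi i, (1 - Real.exp (-2 * τ)) := by rw [Finset.prod_const]
        _ ≤ _ := by
            refine Finset.prod_le_prod (fun j _ => hb1) fun j hj => ?_
            have hij : i < j := Finset.mem_Ioi.mp hj
            have h5 : (1 : ℝ) ≤ ((ν i + (rho m i : ℤ) - (ν j + (rho m j : ℤ)) : ℤ) : ℝ) := by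
              have h6 := hν hij.le
              have h7 := rho_strict hij
              have h8 : (1 : ℤ) ≤ ν i + (rho m i : ℤ) - (ν j + (rho m j : ℤ)) := by omega
              exact_mod_cast h8
            have : Real.exp (-2 * τ * ((ν i + (rho m i : ℤ) - (ν j + (rho m j : ℤ)) : ℤ) : ℝ)) ≤
                Real.exp (-2 * τ) := by
              apply Real.exp_le_exp.mpr
              nlinarith
            linarith
    calc (1 - Real.exp (-2 * τ)) ^ (m * m) = ∏ i : Fin m, (1 - Real.exp (-2 * τ)) ^ m := by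
          rw [Finset.prod_const, Finset.card_univ, Fintype.card_fin, ← pow_mul]
      _ ≤ _ := Finset.prod_le_prod (fun i _ => pow_nonneg hb1 _) fun i _ => h3 i
  have hdiff : |Matrix.det (Matrix.of fun i j : Fin m => g (x i j)) -
      G ^ m * Matrix.det (Matrix.of fun i j : Fin m => E (x i j))| ≤
      (m.factorial : ℝ) * (G ^ m * Real.exp (-τ * ∑ i, (ν i : ℝ) ^ 2) * ((1 + ε) ^ m - 1)) := by
    rw [Matrix.det_apply, Matrix.det_apply, Finset.mul_sum, ← Finset.sum_sub_distrib]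
    refine (Finset.abs_sum_le_sum_abs _ _).trans ?_
    have h3 : ∀ σ ∈ (Finset.univ : Finset (Equiv.Perm (Fin m))),
        |Equiv.Perm.sign σ • ∏ i, (Matrix.of fun i j : Fin m => g (x i j)) (σ i) i -
          G ^ m * Equiv.Perm.sign σ • ∏ i, (Matrix.of fun i j : Fin m => E (x i j)) (σ i) i| ≤
          G ^ m * Real.exp (-τ * ∑ i, (ν i : ℝ) ^ 2) * ((1 + ε) ^ m - 1) := by
      intro σ _
      have h4 : ∏ i, g (x (σ i) i) =
          G ^ m * (∏ i, E (x (σ i) i)) * ∏ i, (1 + δ (σ i) i) := by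
        have h40 : G ^ m = ∏ _i : Fin m, G := by
          rw [Finset.prod_const, Finset.card_univ, Fintype.card_fin]
        rw [h40, ← Finset.prod_mul_distrib, ← Finset.prod_mul_distrib]
        exact Finset.prod_congr rfl fun i _ => hg _ _
      have h5 : |Equiv.Perm.sign σ • ∏ i, (Matrix.of fun i j : Fin m => g (x i j)) (σ i) i -
          G ^ m * Equiv.Perm.sign σ • ∏ i, (Matrix.of fun i j : Fin m => E (x i j)) (σ i) i| =
          |∏ i, g (x (σ i) i) - G ^ m * ∏ i, E (x (σ i) i)| := by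
        simp only [Matrix.of_apply]
        rcases Int.units_eq_one_or (Equiv.Perm.sign σ) with h | h
        · rw [h, one_smul, one_smul]
        · rw [h, Units.neg_smul, one_smul, Units.neg_smul, one_smul, mul_neg, sub_neg_eq_add,
            ← abs_neg]
          congr 1
          ring
      rw [h5, h4]
      have h6 : G ^ m * (∏ i, E (x (σ i) i)) * ∏ i, (1 + δ (σ i) i) -
          G ^ m * ∏ i, E (x (σ i) i) =
          G ^ m * (∏ i, E (x (σ i) i)) * (∏ i, (1 + δ (σ i) i) - 1) := by ring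
      rw [h6, abs_mul, abs_of_nonneg (mul_nonneg (pow_nonneg hG.le m)
        (Finset.prod_nonneg fun i _ => (hEpos _).le))]
      have h7 := prod_one_add_sub_one (Finset.univ : Finset (Fin m)) (fun i => δ (σ i) i) ε hε
        fun i _ => hδε _ _
      rw [Finset.card_univ, Fintype.card_fin] at h7
      have h8 : G ^ m * (∏ i, E (x (σ i) i)) ≤
          G ^ m * Real.exp (-τ * ∑ i, (ν i : ℝ) ^ 2) :=
        mul_le_mul_of_nonneg_left (prod_gauss_le τ hτ ν hν σ) (pow_nonneg hG.le m)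
      exact mul_le_mul h8 h7 (abs_nonneg _)
        (mul_nonneg (pow_nonneg hG.le m) (Real.exp_pos _).le)
    refine (Finset.sum_le_card_nsmul _ _ _ h3).trans ?_
    rw [Finset.card_univ, Fintype.card_perm, Fintype.card_fin, nsmul_eq_mul]
  have hfin := (abs_le.mp hdiff).1
  have h9 : G ^ m * (Real.exp (-τ * ∑ i, (ν i : ℝ) ^ 2) * (1 - Real.exp (-2 * τ)) ^ (m * m)) ≤
      G ^ m * Matrix.det (Matrix.of fun i j : Fin m => E (x i j)) := by
    rw [hmain]
    exact mul_le_mul_of_nonneg_left (mul_le_mul_of_nonneg_left hprod (Real.exp_pos _).le)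
      (pow_nonneg hG.le m)
  have h10 : G ^ m * Real.exp (-τ * ∑ i, (ν i : ℝ) ^ 2) *
      ((1 - Real.exp (-2 * τ)) ^ (m * m) - (m.factorial : ℝ) * ((1 + ε) ^ m - 1)) =
      G ^ m * (Real.exp (-τ * ∑ i, (ν i : ℝ) ^ 2) * (1 - Real.exp (-2 * τ)) ^ (m * m)) -
      (m.factorial : ℝ) * (G ^ m * Real.exp (-τ * ∑ i, (ν i : ℝ) ^ 2) * ((1 + ε) ^ m - 1)) := by
    ring
  rw [h10]
  linarith

end Pool.Agent.H88.Minor
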