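import Mathlib
import Pool.Agent.H88.Amalg.Defs
import Pool.Agent.H88.Amalg.Minor

set_option autoImplicit false

namespace Pool.Agent.H88.Side

open Pool.Agent.H88 Matrix Finset Filter

/-- The mean of an integer vector. -/
noncomputable def mean {m : ℕ} (ν : Fin m → ℤ) : ℝ := (∑ i, (ν i : ℝ)) / m

/-- The variance type sum. -/
noncomputable def Sv {m : ℕ} (ν : Fin m → ℤ) : ℝ := ∑ i, ((ν i : ℝ) - mean ν) ^ 2

theorem sum_shift_sq {m : ℕ} (hm : 0 < m) (ν : Fin m → ℤ) (c : ℝ) :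
    ∑ i, ((ν i : ℝ) + c) ^ 2 = Sv ν + m * (c + mean ν) ^ 2 := by
  have hm' : (m : ℝ) ≠ 0 := by positivity
  have h1 : ∑ i, (ν i : ℝ) = m * mean ν := by
    unfold mean
    field_simp
  have h2 : ∑ i, ((ν i : ℝ) + c) ^ 2 = ∑ i, (ν i : ℝ) ^ 2 + 2 * c * ∑ i, (ν i : ℝ) + m * c ^ 2 := by
    rw [Finset.mul_sum]
    have : (m : ℝ) * c ^ 2 = ∑ _i : Fin m, c ^ 2 := by simp
    rw [this, ← Finset.sum_add_distrib, ← Finset.sum_add_distrib]
    exact Finset.sum_congr rfl fun i _ => by ring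
  have h3 : Sv ν = ∑ i, (ν i : ℝ) ^ 2 - 2 * mean ν * ∑ i, (ν i : ℝ) + m * mean ν ^ 2 := by
    unfold Sv
    rw [Finset.mul_sum]
    have : (m : ℝ) * mean ν ^ 2 = ∑ _i : Fin m, mean ν ^ 2 := by simp
    rw [this, ← Finset.sum_sub_distrib, ← Finset.sum_add_distrib]
    exact Finset.sum_congr rfl fun i _ => by ring
  rw [h2, h3, h1]
  ring

theorem Sv_nonneg {m : ℕ} (ν : Fin m → ℤ) : 0 ≤ Sv ν :=
  Finset.sum_nonneg fun _ _ => sq_nonneg _

theorem sq_round (s : ℝ) (c : ℤ) : ((c - round (-s) : ℤ) : ℝ) ^ 2 / 4 ≤ ((c : ℝ) + s) ^ 2 := by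
  have h1 := abs_sub_round (-s)
  rw [abs_le] at h1
  set r : ℤ := round (-s) with hr
  rcases eq_or_ne (c - r) 0 with h | h
  · rw [h]
    simp
    positivity
  · have h2 : (1 : ℝ) ≤ |((c - r : ℤ) : ℝ)| := by
      have : (1 : ℤ) ≤ |c - r| := Int.one_le_abs h
      exact_mod_cast this
    have h3 : |((c - r : ℤ) : ℝ)| / 2 ≤ |(c : ℝ) + s| := by
      have h4 : |((c - r : ℤ) : ℝ)| ≤ |(c : ℝ) + s| + 1 / 2 := by
        have h5 : ((c - r : ℤ) : ℝ) = ((c : ℝ) + s) + (-s - r) := by push_cast; ring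
        rw [h5]
        refine (abs_add_le _ _).trans ?_
        have : |-s - (r : ℝ)| ≤ 1 / 2 := abs_le.mpr h1
        linarith
      linarith
    calc ((c - r : ℤ) : ℝ) ^ 2 / 4 = (|((c - r : ℤ) : ℝ)| / 2) ^ 2 := by
          rw [div_pow, sq_abs]; norm_num
      _ ≤ |(c : ℝ) + s| ^ 2 := by
          apply pow_le_pow_left₀ (by positivity) h3
      _ = _ := sq_abs _

theorem summable_gauss (a : ℝ) (ha : 0 < a) :
    Summable fun d : ℤ => Real.exp (-a * ((d : ℝ) ^ 2 / 4)) := by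
  have hnat : Summable fun n : ℕ => Real.exp (-a * ((n : ℝ) ^ 2 / 4)) := by
    have h1 : Summable fun n : ℕ => Real.exp (-(a / 4)) ^ n :=
      summable_geometric_of_lt_one (Real.exp_pos _).le
        (Real.exp_lt_one_iff.mpr (by linarith))
    refine Summable.of_nonneg_of_le (fun n => (Real.exp_pos _).le) (fun n => ?_) h1
    rw [← Real.exp_nat_mul]
    apply Real.exp_le_exp.mpr
    have h2 : (n : ℝ) ≤ (n : ℝ) ^ 2 := by
      rcases Nat.eq_zero_or_pos n with h | h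
      · subst h; simp
      · have : (1 : ℝ) ≤ n := by exact_mod_cast h
        nlinarith
    nlinarith
  apply Summable.of_nat_of_neg
  · simpa using hnat
  · simpa using hnat

/-- The matrix of slice values. -/
noncomputable def A {m : ℕ} (g : ℤ → ℝ) (ν : Fin m → ℤ) (c : ℤ) : ℝ :=
  Matrix.det (Matrix.of fun i j : Fin m => g (ν i + c + (rho m i : ℤ) - (rho m j : ℤ)))

theorem A_abs_le {m : ℕ} (hm : 0 < m) (τ H : ℝ) (hτ : 0 < τ) (hH : 0 ≤ H) (g : ℤ → ℝ)
    (h0 : ∀ k, 0 ≤ g k) (h1 : ∀ k : ℤ, g k ≤ H * Real.exp (-τ * (k : ℝ) ^ 2))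
    (ν : Fin m → ℤ) (hν : Antitone ν) (c : ℤ) :
    |A g ν c| ≤ (m.factorial : ℝ) * H ^ m * Real.exp (-τ * Sv ν) *
      Real.exp (-(τ * m) * (((c - round (-mean ν) : ℤ) : ℝ) ^ 2 / 4)) := by
  have hν' : Antitone (fun i => ν i + c) := fun i j h => by simpa using hν h
  have h2 := Minor.minor_upper τ H hτ hH g h0 h1 (fun i => ν i + c) hν'
  refine h2.trans ?_
  rw [mul_assoc ((m.factorial : ℝ) * H ^ m), ← Real.exp_add]
  apply mul_le_mul_of_nonneg_left _ (by positivity)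
  apply Real.exp_le_exp.mpr
  have h3 : ∑ i, (((ν i + c : ℤ)) : ℝ) ^ 2 = Sv ν + m * ((c : ℝ) + mean ν) ^ 2 := by
    rw [← sum_shift_sq hm]
    push_cast
    rfl
  rw [h3]
  have h4 := sq_round (mean ν) c
  have h5 : 0 < τ * m := by positivity
  nlinarith [mul_le_mul_of_nonneg_left h4 h5.le]

theorem sum_A_abs_le {m : ℕ} (hm : 0 < m) (τ H : ℝ) (hτ : 0 < τ) (hH : 0 ≤ H) (g : ℤ → ℝ)
    (h0 : ∀ k, 0 ≤ g k) (h1 : ∀ k : ℤ, g k ≤ H * Real.exp (-τ * (k : ℝ) ^ 2))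
    (ν : Fin m → ℤ) (hν : Antitone ν) (F : Finset ℤ) :
    |∑ c ∈ F, A g ν c| ≤ (m.factorial : ℝ) * H ^ m *
      (∑' d : ℤ, Real.exp (-(τ * m) * ((d : ℝ) ^ 2 / 4))) * Real.exp (-τ * Sv ν) := by
  refine (Finset.abs_sum_le_sum_abs _ _).trans ?_
  refine (Finset.sum_le_sum fun c _ => A_abs_le hm τ H hτ hH g h0 h1 ν hν c).trans ?_
  rw [← Finset.mul_sum]
  have hm' : 0 < τ * m := by positivity
  have hs := summable_gauss (τ * m) hm'
  have h2 : ∑ c ∈ F, Real.exp (-(τ * m) * (((c - round (-mean ν) : ℤ) : ℝ) ^ 2 / 4)) ≤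
      ∑' d : ℤ, Real.exp (-(τ * m) * ((d : ℝ) ^ 2 / 4)) := by
    have h3 : ∑ c ∈ F, Real.exp (-(τ * m) * (((c - round (-mean ν) : ℤ) : ℝ) ^ 2 / 4)) =
        ∑ d ∈ F.map (Equiv.subRight (round (-mean ν))).toEmbedding,
          Real.exp (-(τ * m) * ((d : ℝ) ^ 2 / 4)) := by
      rw [Finset.sum_map]
      rfl
    rw [h3]
    exact hs.sum_le_tsum _ fun d _ => (Real.exp_pos _).le
  calc _ ≤ (m.factorial : ℝ) * H ^ m * Real.exp (-τ * Sv ν) *
      ∑' d : ℤ, Real.exp (-(τ * m) * ((d : ℝ) ^ 2 / 4)) :=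
        mul_le_mul_of_nonneg_left h2 (by positivity)
    _ = _ := by ring

/-- The lower bound for the grouped coefficients. -/
theorem sum_A_lower {m : ℕ} (hm : 0 < m) (τ G ε : ℝ) (hτ : 0 < τ) (hG : 0 < G) (hε : 0 ≤ ε)
    (hsmall : (m.factorial : ℝ) * ((1 + ε) ^ m - 1) ≤ (1 - Real.exp (-2 * τ)) ^ (m * m) / 2)
    (g : ℕ → ℤ → ℝ) (h0 : ∀ N k, 0 ≤ g N k)
    (h1 : ∀ N (k : ℤ), g N k ≤ (1 + ε) * G * Real.exp (-τ * (k : ℝ) ^ 2))
    (h2 : ∀ k : ℤ, ∀ᶠ N : ℕ in atTop, (1 - ε) * G * Real.exp (-τ * (k : ℝ) ^ 2) ≤ g N k)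
    (F : ℕ → Finset ℤ) (hF : ∀ c, ∀ᶠ N : ℕ in atTop, c ∈ F N)
    (ν : Fin m → ℤ) (hν : Antitone ν) :
    ∀ᶠ N : ℕ in atTop, G ^ m * (1 - Real.exp (-2 * τ)) ^ (m * m) / 4 *
      Real.exp (-(τ * m) / 4) * Real.exp (-τ * Sv ν) ≤ ∑ c ∈ F N, A (g N) ν c := by
  have hm' : 0 < τ * m := by positivity
  have hs := summable_gauss (τ * m) hm'
  have hb : 0 < 1 - Real.exp (-2 * τ) := by
    have : Real.exp (-2 * τ) < 1 := Real.exp_lt_one_iff.mpr (by linarith)
    linarith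
  set β : ℝ := G ^ m * (1 - Real.exp (-2 * τ)) ^ (m * m) / 4 * Real.exp (-(τ * m) / 4) with hβ
  have hβpos : 0 < β := by positivity
  set Γ : ℝ := (m.factorial : ℝ) * ((1 + ε) * G) ^ m with hΓ
  have hΓpos : 0 < Γ := by positivity
  -- choose a finite set carrying almost all of the sum
  obtain ⟨s, hsv⟩ := summable_iff_vanishing_norm.mp hs (β / Γ) (by positivity)
  set r : ℤ := round (-mean ν) with hr
  set s' : Finset ℤ := (insert 0 s).map (Equiv.addRight r).toEmbedding with hs'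
  have hev1 : ∀ᶠ N : ℕ in atTop, ∀ c ∈ s', c ∈ F N := by
    rw [Finset.eventually_all]
    exact fun c _ => hF c
  have hev2 : ∀ᶠ N : ℕ in atTop, ∀ c ∈ s', ∀ i ∈ (Finset.univ : Finset (Fin m)),
      ∀ j ∈ (Finset.univ : Finset (Fin m)), (1 - ε) * G *
      Real.exp (-τ * ((ν i + c + (rho m i : ℤ) - (rho m j : ℤ) : ℤ) : ℝ) ^ 2) ≤
        g N (ν i + c + (rho m i : ℤ) - (rho m j : ℤ)) := by
    rw [Finset.eventually_all]
    intro c _
    rw [Finset.eventually_all]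
    intro i _
    rw [Finset.eventually_all]
    intro j _
    exact h2 _
  filter_upwards [hev1, hev2] with N hN1 hN2
  -- lower bound on each term of s'
  have hterm : ∀ c ∈ s', G ^ m * Real.exp (-τ * (Sv ν + m * ((c : ℝ) + mean ν) ^ 2)) *
      ((1 - Real.exp (-2 * τ)) ^ (m * m) / 2) ≤ A (g N) ν c := by
    intro c hc
    have hν' : Antitone (fun i => ν i + c) := fun i j h => by simpa using hν h
    have h3 := Minor.minor_lower τ G ε hτ hG hε (g N) (h1 N) (fun i => ν i + c) hν'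
      (fun i j => hN2 c hc i (Finset.mem_univ i) j (Finset.mem_univ j))
    have h4 : ∑ i, (((ν i + c : ℤ)) : ℝ) ^ 2 = Sv ν + m * ((c : ℝ) + mean ν) ^ 2 := by
      rw [← sum_shift_sq hm]
      push_cast
      rfl
    rw [h4] at h3
    refine le_trans ?_ h3
    apply mul_le_mul_of_nonneg_left _ (by positivity)
    linarith
  have hterm0 : ∀ c ∈ s', 0 ≤ A (g N) ν c := fun c hc =>
    le_trans (by positivity) (hterm c hc)
  have hr' : r ∈ s' := by
    rw [hs', Finset.mem_map]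
    exact ⟨0, Finset.mem_insert_self 0 s, by simp⟩
  have hsub : s' ⊆ F N := hN1
  rw [← Finset.sum_sdiff hsub]
  have hpart2 : 2 * β * Real.exp (-τ * Sv ν) ≤ ∑ c ∈ s', A (g N) ν c := by
    refine le_trans ?_ (Finset.single_le_sum hterm0 hr')
    refine le_trans ?_ (hterm r hr')
    have h5 : ((r : ℝ) + mean ν) ^ 2 ≤ 1 / 4 := by
      have h6 := abs_sub_round (-mean ν)
      rw [← hr] at h6
      have h7 : |(r : ℝ) + mean ν| ≤ 1 / 2 := by
        have h70 : (r : ℝ) + mean ν = -(-mean ν - r) := by ring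
        rw [h70, abs_neg]
        exact h6
      calc ((r : ℝ) + mean ν) ^ 2 = |(r : ℝ) + mean ν| ^ 2 := (sq_abs _).symm
        _ ≤ (1 / 2) ^ 2 := pow_le_pow_left₀ (abs_nonneg _) h7 2
        _ = 1 / 4 := by norm_num
    have h8 : Real.exp (-(τ * m) / 4) * Real.exp (-τ * Sv ν) ≤
        Real.exp (-τ * (Sv ν + m * ((r : ℝ) + mean ν) ^ 2)) := by
      rw [← Real.exp_add]
      apply Real.exp_le_exp.mpr
      nlinarith [mul_le_mul_of_nonneg_left h5 hm'.le]
    calc 2 * β * Real.exp (-τ * Sv ν)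
        = G ^ m * ((1 - Real.exp (-2 * τ)) ^ (m * m) / 2) *
          (Real.exp (-(τ * m) / 4) * Real.exp (-τ * Sv ν)) := by rw [hβ]; ring
      _ ≤ G ^ m * ((1 - Real.exp (-2 * τ)) ^ (m * m) / 2) *
          Real.exp (-τ * (Sv ν + m * ((r : ℝ) + mean ν) ^ 2)) :=
          mul_le_mul_of_nonneg_left h8 (by positivity)
      _ = _ := by ring
  have hpart1 : -(β * Real.exp (-τ * Sv ν)) ≤ ∑ c ∈ F N \ s', A (g N) ν c := by
    have h9 : |∑ c ∈ F N \ s', A (g N) ν c| ≤ β * Real.exp (-τ * Sv ν) := by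
      refine (Finset.abs_sum_le_sum_abs _ _).trans ?_
      refine (Finset.sum_le_sum fun c _ =>
        A_abs_le hm τ ((1 + ε) * G) hτ (by positivity) (g N) (h0 N) (h1 N) ν hν c).trans ?_
      rw [← Finset.mul_sum]
      have h10 : ∑ c ∈ F N \ s', Real.exp (-(τ * m) * (((c - r : ℤ) : ℝ) ^ 2 / 4)) ≤ β / Γ := by
        have h11 : ∑ c ∈ F N \ s', Real.exp (-(τ * m) * (((c - r : ℤ) : ℝ) ^ 2 / 4)) =
            ∑ d ∈ (F N \ s').map (Equiv.subRight r).toEmbedding,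
              Real.exp (-(τ * m) * ((d : ℝ) ^ 2 / 4)) := by
          rw [Finset.sum_map]
          rfl
        rw [h11]
        have h12 := hsv ((F N \ s').map (Equiv.subRight r).toEmbedding) (by
          rw [Finset.disjoint_left]
          intro d hd hds
          rw [Finset.mem_map] at hd
          obtain ⟨c, hc, rfl⟩ := hd
          rw [Finset.mem_sdiff] at hc
          apply hc.2
          rw [hs', Finset.mem_map]
          exact ⟨_, Finset.mem_insert_of_mem hds, by simp⟩)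
        rw [Real.norm_of_nonneg (Finset.sum_nonneg fun _ _ => (Real.exp_pos _).le)] at h12
        exact h12.le
      calc (m.factorial : ℝ) * ((1 + ε) * G) ^ m * Real.exp (-τ * Sv ν) *
            ∑ c ∈ F N \ s', Real.exp (-(τ * m) * (((c - r : ℤ) : ℝ) ^ 2 / 4))
          ≤ Γ * Real.exp (-τ * Sv ν) * (β / Γ) := by
            rw [hΓ] at *
            exact mul_le_mul_of_nonneg_left h10 (by positivity)
        _ = β * Real.exp (-τ * Sv ν) := by
            field_simp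
    exact (abs_le.mp h9).1
  linarith

end Pool.Agent.H88.Side
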