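import Mathlib
import Pool.Agent.H88.Amalg.Defs
import Pool.Agent.H88.Amalg.Minor
import Pool.Agent.H88.Amalg.Side

set_option autoImplicit false

namespace Pool.Agent.H88.Count

open Pool.Agent.H88 Matrix Finset

/-- The box of integers of absolute value at most `N`. -/
noncomputable abbrev box (n N : ℕ) : Finset (Fin n → ℤ) :=
  Fintype.piFinset (fun _ : Fin n => Finset.Icc (-(N : ℤ)) (N : ℤ))

/-- Total weight of the integer matrices with `p L q = k`. -/
noncomputable def W (t : ℝ) (N : ℕ) {m n : ℕ} (p : Fin m → ℤ) (q : Fin n → ℤ) (k : ℤ) : ℝ :=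
  ∑ L ∈ Fintype.piFinset (fun _ : Fin m => box n N),
    if ∑ i, (∑ j, L i j * q j) * p i = k then Real.exp (-t * ∑ i, ∑ j, (L i j : ℝ) ^ 2) else 0

/-- An upper bound for the values of `l ↦ ∑ l_j q_j` on the box. -/
def M1 {n : ℕ} (q : Fin n → ℤ) (N : ℕ) : ℕ := N * ∑ j, (q j).natAbs

theorem abs_pair_le {n N : ℕ} (q ℓ : Fin n → ℤ) (h : ℓ ∈ box n N) :
    ∑ j, ℓ j * q j ∈ Finset.Icc (-(M1 q N : ℤ)) (M1 q N : ℤ) := by
  have h1 : |∑ j, ℓ j * q j| ≤ (M1 q N : ℤ) := by
    refine (Finset.abs_sum_le_sum_abs _ _).trans ?_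
    unfold M1
    push_cast
    rw [Finset.mul_sum]
    refine Finset.sum_le_sum fun j _ => ?_
    rw [abs_mul]
    have h2 := (Fintype.mem_piFinset.mp h) j
    rw [Finset.mem_Icc] at h2
    exact mul_le_mul_of_nonneg_right (abs_le.mpr h2) (abs_nonneg _)
  rw [Finset.mem_Icc]
  exact abs_le.mp h1

theorem gN_eq_zero {n : ℕ} (t : ℝ) (N : ℕ) (q : Fin n → ℤ) (k : ℤ)
    (hk : k < -(M1 q N : ℤ) ∨ (M1 q N : ℤ) < k) : gN t N q k = 0 := by
  unfold gN
  refine Finset.sum_eq_zero fun ℓ hℓ => ?_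
  rw [if_neg]
  intro h
  have := abs_pair_le q ℓ hℓ
  rw [Finset.mem_Icc, h] at this
  omega

theorem gN_nonneg {n : ℕ} (t : ℝ) (N : ℕ) (q : Fin n → ℤ) (k : ℤ) : 0 ≤ gN t N q k := by
  unfold gN
  refine Finset.sum_nonneg fun ℓ _ => ?_
  split_ifs
  · exact (Real.exp_pos _).le
  · exact le_refl _

theorem W_eq {m n : ℕ} (t : ℝ) (N : ℕ) (p : Fin m → ℤ) (q : Fin n → ℤ) (k : ℤ) (M : ℕ)
    (hM : M1 q N ≤ M) :
    (∑ μ ∈ box m M, if ∑ i, μ i * p i = k then ∏ i, gN t N q (μ i) else 0) = W t N p q k := by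
  unfold W
  have hmaps : ∀ L ∈ Fintype.piFinset (fun _ : Fin m => box n N),
      (fun i => ∑ j, L i j * q j) ∈ box m M := by
    intro L hL
    rw [Fintype.mem_piFinset]
    intro i
    have h1 := abs_pair_le q (L i) ((Fintype.mem_piFinset.mp hL) i)
    rw [Finset.mem_Icc] at h1 ⊢
    have : (M1 q N : ℤ) ≤ M := by exact_mod_cast hM
    omega
  rw [← Finset.sum_fiberwise_of_maps_to hmaps]
  refine Finset.sum_congr rfl fun μ _ => ?_
  have h1 : ∏ i, gN t N q (μ i) = ∑ L ∈ Fintype.piFinset (fun _ : Fin m => box n N),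
      if (fun i => ∑ j, L i j * q j) = μ then
        Real.exp (-t * ∑ i, ∑ j, (L i j : ℝ) ^ 2) else 0 := by
    unfold gN
    rw [Finset.prod_univ_sum]
    refine Finset.sum_congr rfl fun L _ => ?_
    by_cases h : (fun i => ∑ j, L i j * q j) = μ
    · rw [if_pos h, Finset.mul_sum, Real.exp_sum]
      refine Finset.prod_congr rfl fun i _ => ?_
      rw [if_pos (congrFun h i)]
    · rw [if_neg h]
      have h2 : ∃ i, ∑ j, L i j * q j ≠ μ i := by
        by_contra hcon
        push Not at hcon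
        exact h (funext hcon)
      obtain ⟨i, hi⟩ := h2
      exact Finset.prod_eq_zero (Finset.mem_univ i) (if_neg hi)
  rw [h1, Finset.sum_filter]
  by_cases hk : ∑ i, μ i * p i = k
  · rw [if_pos hk]
    refine Finset.sum_congr rfl fun L _ => ?_
    by_cases h : (fun i => ∑ j, L i j * q j) = μ
    · rw [if_pos h, if_pos h, if_pos]
      rw [← hk]
      refine Finset.sum_congr rfl fun i _ => ?_
      rw [← h]
    · rw [if_neg h, if_neg h]
  · rw [if_neg hk]
    symm
    refine Finset.sum_eq_zero fun L _ => ?_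
    by_cases h : (fun i => ∑ j, L i j * q j) = μ
    · rw [if_pos h, if_neg]
      intro h3
      apply hk
      rw [← h3]
      refine Finset.sum_congr rfl fun i _ => ?_
      rw [← h]
    · rw [if_neg h]

theorem W_swap {m n : ℕ} (t : ℝ) (N : ℕ) (p : Fin m → ℤ) (q : Fin n → ℤ) (k : ℤ) :
    W t N p q k = W t N q p k := by
  unfold W
  refine Finset.sum_bij' (fun L _ => fun j i => L i j) (fun L _ => fun i j => L j i) ?_ ?_ ?_ ?_ ?_
  · intro L hL
    simp only [Fintype.mem_piFinset] at hL ⊢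
    exact fun j i => hL i j
  · intro L hL
    simp only [Fintype.mem_piFinset] at hL ⊢
    exact fun j i => hL i j
  · intro L _
    rfl
  · intro L _
    rfl
  · intro L _
    have h1 : ∑ i, (∑ j, L i j * q j) * p i = ∑ j, (∑ i, L i j * p i) * q j := by
      simp only [Finset.sum_mul]
      rw [Finset.sum_comm]
      refine Finset.sum_congr rfl fun j _ => Finset.sum_congr rfl fun i _ => ?_
      ring
    have h2 : ∑ i, ∑ j, (L i j : ℝ) ^ 2 = ∑ j, ∑ i, (L i j : ℝ) ^ 2 := Finset.sum_comm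
    rw [h1, h2]

/-- The normalised partition: subtract the minimum. -/
noncomputable def base {m : ℕ} (lam : Fin m → ℕ) : Fin m → ℕ :=
  fun i => lam i - sInf (Set.range lam)

theorem sInf_le_apply {m : ℕ} (lam : Fin m → ℕ) (i : Fin m) : sInf (Set.range lam) ≤ lam i :=
  Nat.sInf_le ⟨i, rfl⟩

theorem base_add {m : ℕ} (lam : Fin m → ℕ) (i : Fin m) :
    lam i = base lam i + sInf (Set.range lam) := by
  have := sInf_le_apply lam i
  unfold base
  omega

theorem base_mem {m : ℕ} (hm : 0 < m) (lam : Fin m → ℕ) (h : Antitone lam) :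
    Antitone (base lam) ∧ ∃ i, base lam i = 0 := by
  constructor
  · intro i j hij
    have := h hij
    unfold base
    omega
  · have hne : (Set.range lam).Nonempty := ⟨lam ⟨0, hm⟩, ⟨_, rfl⟩⟩
    obtain ⟨i, hi⟩ := Nat.sInf_mem hne
    exact ⟨i, by unfold base; omega⟩

theorem sInf_shift {m : ℕ} (ν : Fin m → ℕ) (c : ℕ) (h : ∃ i, ν i = 0) :
    sInf (Set.range fun i => ν i + c) = c := by
  obtain ⟨i, hi⟩ := h
  apply le_antisymm
  · have := sInf_le_apply (fun i => ν i + c) i
    simpa [hi] using this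
  · apply le_csInf (Set.range_nonempty_iff_nonempty.mpr ⟨i⟩)
    rintro _ ⟨j, rfl⟩
    simp

theorem base_shift {m : ℕ} (ν : Fin m → ℕ) (c : ℕ) (h : ∃ i, ν i = 0) :
    base (fun i => ν i + c) = ν := by
  funext i
  unfold base
  rw [sInf_shift ν c h]
  simp

/-- The index type. -/
abbrev D0 (m : ℕ) : Type := {ν : Fin m → ℕ // Antitone ν ∧ ∃ i, ν i = 0}

/-- natural vectors as integer vectors -/
def toZ {m : ℕ} (ν : Fin m → ℕ) : Fin m → ℤ := fun i => (ν i : ℤ)

theorem toZ_anti {m : ℕ} (ν : Fin m → ℕ) (h : Antitone ν) : Antitone (toZ ν) := by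
  intro i j hij
  have := h hij
  simp only [toZ]
  omega

/-- antitone natural vectors bounded by `R` -/
noncomputable def antis (m R : ℕ) : Finset (Fin m → ℕ) :=
  (Fintype.piFinset (fun _ : Fin m => Finset.range (R + 1))).filter
        (fun lam => ∀ i j : Fin m, i ≤ j → lam j ≤ lam i)

theorem mem_antis {m R : ℕ} (lam : Fin m → ℕ) :
    lam ∈ antis m R ↔ (∀ i, lam i ≤ R) ∧ Antitone lam := by
  unfold antis
  rw [Finset.mem_filter, Fintype.mem_piFinset]
  simp only [Finset.mem_range, Nat.lt_succ_iff]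
  exact Iff.rfl

/-- The coefficient function, grouped modulo constant shifts. -/
noncomputable def coef {m : ℕ} (hm : 0 < m) (g : ℤ → ℝ) (M : ℕ) : D0 m →₀ ℝ :=
  ∑ lam ∈ (antis m (2 * M)).attach,
    Finsupp.single ⟨base lam.1, base_mem hm lam.1 ((mem_antis lam.1).mp lam.2).2⟩
      (Side.A g (toZ lam.1) (-(M : ℤ)))

theorem A_eq_zero_of_large {m : ℕ} (g : ℤ → ℝ) (M : ℤ) (hg : ∀ k, (k < -M ∨ M < k) → g k = 0)
    (ν : Fin m → ℤ) (c : ℤ) (i0 : Fin m) (hi : (i0 : ℕ) = 0)
    (hl : M < ν i0 + c) : Side.A g ν c = 0 := by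
  unfold Side.A
  apply Matrix.det_eq_zero_of_row_eq_zero i0
  intro j
  simp only [Matrix.of_apply]
  apply hg
  right
  have h1 : rho m j ≤ rho m i0 := by
    simp only [rho]
    omega
  omega

theorem A_eq_zero_of_small {m : ℕ} (g : ℤ → ℝ) (M : ℤ) (hg : ∀ k, (k < -M ∨ M < k) → g k = 0)
    (ν : Fin m → ℤ) (c : ℤ) (i0 : Fin m) (hi : (i0 : ℕ) = m - 1)
    (hl : ν i0 + c < -M) : Side.A g ν c = 0 := by
  unfold Side.A
  apply Matrix.det_eq_zero_of_row_eq_zero i0
  intro j
  simp only [Matrix.of_apply]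
  apply hg
  left
  have h1 : rho m i0 ≤ rho m j := by
    simp only [rho]
    omega
  omega

theorem coef_apply {m : ℕ} (hm : 0 < m) (g : ℤ → ℝ) (M : ℕ)
    (hg : ∀ k : ℤ, (k < -(M : ℤ) ∨ (M : ℤ) < k) → g k = 0) (ν : D0 m) :
    coef hm g M ν = ∑ c ∈ Finset.Icc (-(M : ℤ)) (M : ℤ), Side.A g (toZ ν.1) c := by
  unfold coef
  rw [Finsupp.finsetSum_apply]
  simp only [Finsupp.single_apply]
  rw [← Finset.sum_filter]
  -- drop the vanishing terms on the right
  set last : Fin m := ⟨m - 1, by omega⟩ with hlast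
  set first : Fin m := ⟨0, hm⟩ with hfirst
  have hR : ∑ c ∈ Finset.Icc (-(M : ℤ)) (M : ℤ), Side.A g (toZ ν.1) c =
      ∑ c ∈ (Finset.Icc (-(M : ℤ)) (M : ℤ)).filter (fun c => (ν.1 first : ℤ) + c ≤ M),
        Side.A g (toZ ν.1) c := by
    symm
    apply Finset.sum_subset (Finset.filter_subset _ _)
    intro c hc hc'
    rw [Finset.mem_filter, not_and] at hc'
    have h1 := hc' hc
    exact A_eq_zero_of_large g M hg (toZ ν.1) c first rfl
      (by simp only [toZ]; omega)
  rw [hR]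
  obtain ⟨hanti, hzero⟩ := ν.2
  refine Finset.sum_bij' (fun lam _ => ((sInf (Set.range lam.1) : ℕ) : ℤ) - M)
    (fun c hc => ⟨fun i => ν.1 i + (c + M).toNat, ?_⟩) ?_ ?_ ?_ ?_ ?_
  · rw [mem_antis]
    rw [Finset.mem_filter, Finset.mem_Icc] at hc
    constructor
    · intro i
      have h1 : ν.1 i ≤ ν.1 first := hanti (Fin.mk_le_of_le_val (Nat.zero_le _))
      show ν.1 i + (c + M).toNat ≤ 2 * M
      omega
    · intro i j hij
      have := hanti hij
      simp only
      omega
  · intro lam hlam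
    rw [Finset.mem_filter] at hlam
    have hbase : base lam.1 = ν.1 := congrArg Subtype.val hlam.2
    have hbd := ((mem_antis lam.1).mp lam.2).1 first
    rw [Finset.mem_filter, Finset.mem_Icc]
    have h3 := base_add lam.1 first
    rw [hbase] at h3
    omega
  · intro c hc
    rw [Finset.mem_filter]
    refine ⟨Finset.mem_attach _ _, ?_⟩
    apply Subtype.ext
    exact base_shift ν.1 _ hzero
  · intro lam hlam
    rw [Finset.mem_filter] at hlam
    have hbase : base lam.1 = ν.1 := congrArg Subtype.val hlam.2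
    apply Subtype.ext
    funext i
    have h3 := base_add lam.1 i
    rw [hbase] at h3
    simp only
    omega
  · intro c hc
    rw [Finset.mem_filter, Finset.mem_Icc] at hc
    have := sInf_shift ν.1 (c + M).toNat hzero
    simp only
    rw [this]
    omega
  · intro lam hlam
    rw [Finset.mem_filter] at hlam
    have hbase : base lam.1 = ν.1 := congrArg Subtype.val hlam.2
    unfold Side.A
    congr 1
    ext i j
    simp only [Matrix.of_apply]
    have h3 := base_add lam.1 i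
    rw [hbase] at h3
    congr 1
    simp only [toZ]
    omega

/-- Linear functionals of the grouped coefficients. -/
theorem coef_sum {m : ℕ} (hm : 0 < m) (g : ℤ → ℝ) (M : ℕ) (f : D0 m → ℝ) :
    (coef hm g M).sum (fun i r => r * f i) =
      ∑ lam ∈ (antis m (2 * M)).attach,
        Side.A g (toZ lam.1) (-(M : ℤ)) *
          f ⟨base lam.1, base_mem hm lam.1 ((mem_antis lam.1).mp lam.2).2⟩ := by
  unfold coef
  rw [← Finsupp.sum_finsetSum_index]
  · refine Finset.sum_congr rfl fun lam _ => ?_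
    rw [Finsupp.sum_single_index]
    simp
  · simp
  · intro a b₁ b₂
    ring

end Pool.Agent.H88.Count
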