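import Mathlib
import Pool.Agent.H88.Amalg.Defs

/-!
Module GAUSS of MP_f8bbe3_al: truncated Gaussian sums over the slices `∑ ℓ_j q_j = k` are,
for small `t`, uniformly close to a Gaussian in `k`.
-/

set_option autoImplicit false

namespace Pool.Agent.H88

namespace GAUSS

open Real Filter Topology

/-- bound for the cosine kernel -/
theorem cosKernel_bound : ∃ C : ℝ, 0 < C ∧ ∀ (s x : ℝ), 1 ≤ x →
    |HurwitzZeta.cosKernel s x - 1| ≤ C * Real.exp (-(π * x / 2)) := by
  have hsum : Summable (fun n : ℕ => 2 * Real.exp (-π * ((n:ℝ) + 1) ^ 2 * (1/2))) := by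
    have h := (HurwitzZeta.hasSum_nat_cosKernel₀ 0 (t := 1/2) (by norm_num)).summable
    simpa using h
  refine ⟨∑' n : ℕ, 2 * Real.exp (-π * ((n:ℝ) + 1) ^ 2 * (1/2)), ?_, ?_⟩
  · refine hsum.tsum_pos (fun n => by positivity) 0 (by positivity)
  · intro s x hx
    have hx0 : 0 < x := by linarith
    have h := HurwitzZeta.hasSum_nat_cosKernel₀ s hx0
    rw [← h.tsum_eq]
    have hterm : ∀ n : ℕ, ‖2 * Real.cos (2 * π * s * (n + 1)) * rexp (-π * (n + 1) ^ 2 * x)‖ ≤
        (2 * Real.exp (-π * ((n:ℝ) + 1) ^ 2 * (1/2))) * Real.exp (-(π * x / 2)) := by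
      intro n
      rw [norm_mul, norm_mul, Real.norm_eq_abs, Real.norm_eq_abs, Real.norm_eq_abs, Real.abs_exp,
        abs_of_pos (by norm_num : (0:ℝ) < 2)]
      rw [mul_assoc 2 (rexp _) (rexp _), ← Real.exp_add]
      have h1 : |Real.cos (2 * π * s * (n + 1))| ≤ 1 := Real.abs_cos_le_one _
      have h2 : rexp (-π * (n + 1) ^ 2 * x) ≤ rexp (-π * ((n:ℝ) + 1) ^ 2 * (1/2) + -(π * x / 2)) := by
        apply Real.exp_le_exp.mpr
        have hm : (1:ℝ) ≤ ((n:ℝ)+1)^2 := by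
          have : (0:ℝ) ≤ n := Nat.cast_nonneg n
          nlinarith
        have h3 : ((n:ℝ)+1)^2 ≤ ((n:ℝ)+1)^2 * x := by nlinarith
        have h4 : x ≤ ((n:ℝ)+1)^2 * x := by nlinarith
        nlinarith [Real.pi_pos]
      have h5 : 0 < rexp (-π * (n + 1) ^ 2 * x) := Real.exp_pos _
      nlinarith [abs_nonneg (Real.cos (2 * π * s * (n + 1)))]
    have hs2 : Summable (fun n : ℕ => (2 * Real.exp (-π * ((n:ℝ) + 1) ^ 2 * (1/2))) * Real.exp (-(π * x / 2))) :=
      hsum.mul_right _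
    calc |∑' n : ℕ, 2 * Real.cos (2 * π * s * (n + 1)) * rexp (-π * (n + 1) ^ 2 * x)|
        ≤ ∑' n : ℕ, (2 * Real.exp (-π * ((n:ℝ) + 1) ^ 2 * (1/2))) * Real.exp (-(π * x / 2)) :=
          tsum_of_norm_bounded hs2.hasSum hterm
      _ = _ := by rw [tsum_mul_right]

theorem small_exp (b C : ℝ) (hb : 0 < b) (hC : 0 < C) (D : ℕ) :
    ∃ t0 : ℝ, 0 < t0 ∧ ∀ t : ℝ, 0 < t → t < t0 → C * Real.exp (-(b / t)) ≤ t ^ D := by
  have h1 : Tendsto (fun y : ℝ => y ^ (D:ℝ) * Real.exp (-b * y)) atTop (𝓝 0) :=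
    tendsto_rpow_mul_exp_neg_mul_atTop_nhds_zero D b hb
  have h2 : ∀ᶠ y : ℝ in atTop, y ^ (D:ℝ) * Real.exp (-b * y) < 1 / C :=
    h1.eventually (gt_mem_nhds (by positivity))
  obtain ⟨Y, hY⟩ := eventually_atTop.mp h2
  refine ⟨1 / (max Y 1), by positivity, fun t ht htt => ?_⟩
  have hM : 0 < max Y 1 := by positivity
  have h3 : max Y 1 ≤ 1 / t := by
    rw [le_div_iff₀ ht]
    rw [lt_div_iff₀ hM] at htt
    linarith
  have h4 := hY (1/t) (le_trans (le_max_left _ _) h3)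
  rw [Real.rpow_natCast] at h4
  have h5 : -b * (1/t) = -(b/t) := by ring
  rw [h5, lt_div_iff₀ hC] at h4
  have h6 : 0 < t ^ D := by positivity
  have h7 : (1 / t)^D * t ^ D = 1 := by
    rw [← mul_pow, one_div_mul_cancel ht.ne', one_pow]
  calc C * Real.exp (-(b / t)) = ((1/t)^D * Real.exp (-(b/t)) * C) * t ^ D := by
        calc C * Real.exp (-(b / t)) = C * Real.exp (-(b / t)) * 1 := by ring
          _ = C * Real.exp (-(b / t)) * ((1 / t)^D * t ^ D) := by rw [h7]
          _ = _ := by ring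
    _ ≤ 1 * t ^ D := by
        apply mul_le_mul_of_nonneg_right h4.le h6.le
    _ = t ^ D := one_mul _

/-- theta sums are uniformly close to a constant -/
theorem theta_unif (c : ℝ) (hc : 0 < c) (D : ℕ) :
    ∃ t0 : ℝ, 0 < t0 ∧ ∀ t : ℝ, 0 < t → t < t0 → ∃ M : ℝ, 0 < M ∧ ∀ s : ℝ,
      |∑' j : ℤ, Real.exp (-(c * t) * ((j:ℝ) + s) ^ 2) - M| ≤ t ^ D * M := by
  obtain ⟨C, hC, hCb⟩ := cosKernel_bound
  obtain ⟨t1, ht1, h1⟩ := small_exp (π ^ 2 / (2 * c)) C (by positivity) hC D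
  refine ⟨min t1 (π / c), by positivity, fun t ht htt => ?_⟩
  have htt1 : t < t1 := lt_of_lt_of_le htt (min_le_left _ _)
  have htt2 : t < π / c := lt_of_lt_of_le htt (min_le_right _ _)
  set x := c * t / π with hx
  have hx0 : 0 < x := by positivity
  have hx1 : 1 ≤ 1 / x := by
    rw [le_div_iff₀ hx0, one_mul, hx, div_le_one Real.pi_pos]
    rw [lt_div_iff₀ hc] at htt2
    linarith
  refine ⟨1 / x ^ (1/2 : ℝ), by positivity, fun s => ?_⟩
  have h2 := (HurwitzZeta.hasSum_int_evenKernel s hx0).tsum_eq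
  have h3 : (fun j : ℤ => Real.exp (-(c * t) * ((j:ℝ) + s) ^ 2)) =
      (fun n : ℤ ↦ rexp (-π * (n + s) ^ 2 * x)) := by
    funext j
    congr 1
    rw [hx]
    field_simp
  rw [h3, h2, HurwitzZeta.evenKernel_functional_equation]
  have h4 := hCb s (1/x) hx1
  have h5 : (1 / x ^ (1/2:ℝ)) * HurwitzZeta.cosKernel s (1 / x) - 1 / x ^ (1/2:ℝ) =
      (1 / x ^ (1/2:ℝ)) * (HurwitzZeta.cosKernel s (1 / x) - 1) := by ring
  rw [h5, abs_mul, abs_of_pos (by positivity : 0 < 1 / x ^ (1/2:ℝ)), mul_comm (t ^ D)]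
  apply mul_le_mul_of_nonneg_left _ (by positivity)
  refine le_trans h4 ?_
  have h6 : -(π * (1 / x) / 2) = -(π ^ 2 / (2 * c) / t) := by
    rw [hx]
    field_simp
  rw [h6]
  exact h1 t ht htt1

theorem summable_gauss (c : ℝ) (hc : 0 < c) (s : ℝ) :
    Summable (fun j : ℤ => Real.exp (-c * ((j:ℝ) + s) ^ 2)) := by
  have h := (HurwitzZeta.hasSum_int_evenKernel s (t := c / π) (by positivity)).summable
  refine h.congr (fun j => ?_)
  congr 1
  field_simp

/-- The Gaussian weight. -/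
noncomputable def wt (t : ℝ) {n : ℕ} (l : Fin n → ℤ) : ℝ := Real.exp (-t * ∑ j, (l j : ℝ) ^ 2)

theorem wt_pos (t : ℝ) {n : ℕ} (l : Fin n → ℤ) : 0 < wt t l := Real.exp_pos _

theorem summable_int (t : ℝ) (ht : 0 < t) : Summable (fun l : ℤ => Real.exp (-t * (l:ℝ) ^ 2)) := by
  simpa using summable_gauss t ht 0

theorem wt_cons (t : ℝ) {n : ℕ} (a : ℤ) (l : Fin n → ℤ) :
    wt t (Fin.cons a l : Fin (n+1) → ℤ) = Real.exp (-t * (a:ℝ) ^ 2) * wt t l := by
  unfold wt
  rw [Fin.sum_univ_succ, ← Real.exp_add]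
  simp only [Fin.cons_zero, Fin.cons_succ]
  congr 1
  ring

theorem summable_wt (t : ℝ) (ht : 0 < t) (n : ℕ) : Summable (fun l : Fin n → ℤ => wt t l) := by
  induction n with
  | zero => exact (hasSum_fintype _).summable
  | succ n ih =>
    have e := Fin.consEquiv (fun _ : Fin (n+1) => ℤ)
    rw [← (Fin.consEquiv (fun _ : Fin (n+1) => ℤ)).summable_iff]
    have h := Summable.mul_of_nonneg (summable_int t ht) ih (fun _ => (Real.exp_pos _).le)
      (fun l => (wt_pos t l).le)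
    refine h.congr (fun p => ?_)
    exact (wt_cons t p.1 p.2).symm

/-- The full Gaussian slice sum. -/
noncomputable def g (t : ℝ) {n : ℕ} (q : Fin n → ℤ) (k : ℤ) : ℝ :=
  ∑' l : Fin n → ℤ, if ∑ j, l j * q j = k then wt t l else 0

theorem summable_ite (t : ℝ) (ht : 0 < t) {n : ℕ} (q : Fin n → ℤ) (k : ℤ) :
    Summable (fun l : Fin n → ℤ => if ∑ j, l j * q j = k then wt t l else 0) := by
  refine Summable.of_nonneg_of_le (fun l => ?_) (fun l => ?_) (summable_wt t ht n)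
  · split_ifs
    · exact (wt_pos t l).le
    · exact le_rfl
  · split_ifs
    · exact le_rfl
    · exact (wt_pos t l).le

theorem ite_nonneg (t : ℝ) {n : ℕ} (q : Fin n → ℤ) (k : ℤ) (l : Fin n → ℤ) :
    0 ≤ (if ∑ j, l j * q j = k then wt t l else 0) := by
  split_ifs
  · exact (wt_pos t l).le
  · exact le_rfl

theorem gN_le (t : ℝ) (ht : 0 < t) {n : ℕ} (q : Fin n → ℤ) (k : ℤ) (N : ℕ) :
    gN t N q k ≤ g t q k :=
  (summable_ite t ht q k).sum_le_tsum _ (fun l _ => ite_nonneg t q k l)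

theorem gN_tendsto (t : ℝ) (ht : 0 < t) {n : ℕ} (q : Fin n → ℤ) (k : ℤ) :
    Tendsto (fun N : ℕ => gN t N q k) atTop (𝓝 (g t q k)) := by
  have h := (summable_ite t ht q k).hasSum
  have h2 : Tendsto (fun N : ℕ => Fintype.piFinset (fun _ : Fin n => Finset.Icc (-(N : ℤ)) (N : ℤ)))
      atTop atTop := by
    apply tendsto_atTop_finset_of_monotone
    · intro N N' hNN
      apply Fintype.piFinset_subset
      intro _
      apply Finset.Icc_subset_Icc
      · have : (N:ℤ) ≤ N' := by exact_mod_cast hNN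
        omega
      · exact_mod_cast hNN
    · intro l
      refine ⟨∑ j, (l j).natAbs, ?_⟩
      rw [Fintype.mem_piFinset]
      intro j
      have : (l j).natAbs ≤ ∑ j, (l j).natAbs :=
        Finset.single_le_sum (f := fun j => (l j).natAbs) (fun _ _ => Nat.zero_le _) (Finset.mem_univ j)
      rw [Finset.mem_Icc]
      omega
  exact h.comp h2

theorem g_cons (t : ℝ) (ht : 0 < t) {n : ℕ} (a : ℤ) (q : Fin n → ℤ) (k : ℤ) :
    g t (Fin.cons a q : Fin (n+1) → ℤ) k = ∑' l : ℤ, Real.exp (-t * (l:ℝ) ^ 2) * g t q (k - l * a) := by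
  unfold g
  rw [← (Fin.consEquiv (fun _ : Fin (n+1) => ℤ)).tsum_eq]
  have hs := ((Fin.consEquiv (fun _ : Fin (n+1) => ℤ)).summable_iff).mpr
    (summable_ite t ht (Fin.cons a q : Fin (n+1) → ℤ) k)
  rw [show (∑' (c : ℤ × (Fin n → ℤ)), if ∑ j, (Fin.consEquiv fun _ : Fin (n+1) => ℤ) c j *
      (Fin.cons a q : Fin (n+1) → ℤ) j = k then wt t ((Fin.consEquiv fun _ : Fin (n+1) => ℤ) c) else 0) = _ from
    Summable.tsum_prod hs]
  congr 1
  funext l
  rw [← tsum_mul_left]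
  congr 1
  funext l'
  change (if ∑ j, (Fin.cons l l' : Fin (n+1) → ℤ) j * (Fin.cons a q : Fin (n+1) → ℤ) j = k then
    wt t (Fin.cons l l' : Fin (n+1) → ℤ) else 0) = _
  rw [wt_cons, Fin.sum_univ_succ]
  simp only [Fin.cons_zero, Fin.cons_succ]
  by_cases h : ∑ j, l' j * q j = k - l * a
  · rw [if_pos h, if_pos (by rw [h]; ring)]
  · rw [if_neg h, if_neg (by intro h'; apply h; rw [← h']; ring)]
    ring

theorem tsum_close {ι : Type} {f h : ι → ℝ} {ε : ℝ} (hh : Summable h) 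
    (hfh : ∀ i, |f i - h i| ≤ ε * h i) : |∑' i, f i - ∑' i, h i| ≤ ε * ∑' i, h i := by
  have hd : Summable (fun i => f i - h i) :=
    Summable.of_norm_bounded (hh.mul_left ε) (fun i => by rw [Real.norm_eq_abs]; exact hfh i)
  have hf : Summable f := by
    have := hd.add hh
    refine this.congr (fun i => by ring)
  rw [← hf.tsum_sub hh, ← tsum_mul_left]
  exact tsum_of_norm_bounded (hh.mul_left ε).hasSum (fun i => by rw [Real.norm_eq_abs]; exact hfh i)

/-- squared length -/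
noncomputable def SS {n : ℕ} (q : Fin n → ℤ) : ℝ := ∑ j, (q j : ℝ) ^ 2

theorem SS_cons {n : ℕ} (a : ℤ) (q : Fin n → ℤ) :
    SS (Fin.cons a q : Fin (n+1) → ℤ) = (a:ℝ)^2 + SS q := by
  unfold SS
  rw [Fin.sum_univ_succ]
  simp

/-- The slice sums are approximately Gaussian on the multiples of `d`, and vanish elsewhere. -/
def Approx {n : ℕ} (q : Fin n → ℤ) (d : ℤ) : Prop :=
  ∀ D : ℕ, ∃ t0 : ℝ, 0 < t0 ∧ ∀ t : ℝ, 0 < t → t < t0 → ∃ G : ℝ, 0 < G ∧ ∀ k : ℤ,
    (d ∣ k → |g t q k - G * Real.exp (-(t / SS q) * (k:ℝ)^2)| ≤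
      t ^ D * (G * Real.exp (-(t / SS q) * (k:ℝ)^2))) ∧ (¬ d ∣ k → g t q k = 0)

theorem approx_zero (q : Fin 0 → ℤ) : Approx q 0 := by
  intro D
  refine ⟨1, one_pos, fun t ht _ => ⟨1, one_pos, fun k => ⟨fun hk => ?_, fun hk => ?_⟩⟩⟩
  · obtain rfl := zero_dvd_iff.mp hk
    have : g t q 0 = 1 := by
      unfold g
      rw [tsum_fintype]
      simp [wt]
    rw [this]
    simp
    positivity
  · have hk' : k ≠ 0 := fun h => hk (by rw [h])
    unfold g
    rw [tsum_fintype]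
    simp [hk'.symm]

theorem approx_a_zero {n : ℕ} (q : Fin n → ℤ) (d : ℤ) (h : Approx q d) :
    Approx (Fin.cons 0 q : Fin (n+1) → ℤ) d := by
  intro D
  obtain ⟨t0, ht0, H⟩ := h D
  refine ⟨t0, ht0, fun t ht htt => ?_⟩
  obtain ⟨G, hG, HG⟩ := H t ht htt
  set Z := ∑' l : ℤ, Real.exp (-t * (l:ℝ)^2) with hZ
  have hZ0 : 0 < Z := (summable_int t ht).tsum_pos (fun _ => (Real.exp_pos _).le) 0 (Real.exp_pos _)
  refine ⟨Z * G, by positivity, fun k => ?_⟩
  have hgk : g t (Fin.cons 0 q : Fin (n+1) → ℤ) k = Z * g t q k := by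
    rw [g_cons t ht]
    simp only [mul_zero, sub_zero]
    rw [tsum_mul_right]
  have hSS : SS (Fin.cons 0 q : Fin (n+1) → ℤ) = SS q := by
    rw [SS_cons]; simp
  rw [hgk, hSS]
  refine ⟨fun hk => ?_, fun hk => ?_⟩
  · have h1 := (HG k).1 hk
    have h2 : Z * g t q k - Z * G * rexp (-(t / SS q) * ↑k ^ 2) = Z * (g t q k - G * rexp (-(t / SS q) * ↑k ^ 2)) := by ring
    rw [h2, abs_mul, abs_of_pos hZ0]
    calc Z * |g t q k - G * rexp (-(t / SS q) * ↑k ^ 2)| ≤ Z * (t ^ D * (G * rexp (-(t / SS q) * ↑k ^ 2))) :=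
          mul_le_mul_of_nonneg_left h1 hZ0.le
      _ = _ := by ring
  · rw [(HG k).2 hk, mul_zero]

theorem approx_q_zero {n : ℕ} (a : ℤ) (ha : a ≠ 0) (q : Fin n → ℤ) (hq : ∀ j, q j = 0) (h : Approx q 0) :
    Approx (Fin.cons a q : Fin (n+1) → ℤ) a := by
  intro D
  obtain ⟨t0, ht0, H⟩ := h D
  refine ⟨t0, ht0, fun t ht htt => ?_⟩
  obtain ⟨G, hG, HG⟩ := H t ht htt
  refine ⟨G, hG, fun k => ?_⟩
  have hSS : SS (Fin.cons a q : Fin (n+1) → ℤ) = (a:ℝ)^2 := by
    rw [SS_cons]; simp [SS, hq]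
  rw [hSS, g_cons t ht]
  have haR : (a:ℝ) ≠ 0 := by exact_mod_cast ha
  refine ⟨fun hk => ?_, fun hk => ?_⟩
  · obtain ⟨l0, rfl⟩ := hk
    rw [tsum_eq_single l0]
    · have h0 := (HG 0).1 (dvd_refl 0)
      simp only [Int.cast_zero, ne_eq, OfNat.ofNat_ne_zero, not_false_eq_true, zero_pow, mul_zero, Real.exp_zero,
        mul_one] at h0
      have h1 : a * l0 - l0 * a = 0 := by ring
      have h2 : -(t / (a:ℝ)^2) * ((a * l0 : ℤ) : ℝ)^2 = -t * (l0:ℝ)^2 := by
        push_cast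
        field_simp
      rw [h1, h2]
      have h3 : rexp (-t * ↑l0 ^ 2) * g t q 0 - G * rexp (-t * ↑l0 ^ 2) = rexp (-t * ↑l0 ^ 2) * (g t q 0 - G) := by ring
      rw [h3, abs_mul, Real.abs_exp]
      calc rexp (-t * ↑l0 ^ 2) * |g t q 0 - G| ≤ rexp (-t * ↑l0 ^ 2) * (t ^ D * G) :=
            mul_le_mul_of_nonneg_left h0 (Real.exp_pos _).le
        _ = _ := by ring
    · intro l hl
      have : ¬ (0:ℤ) ∣ (a * l0 - l * a) := by
        rw [zero_dvd_iff]
        intro h'
        apply hl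
        have : a * (l0 - l) = 0 := by linarith
        rcases mul_eq_zero.mp this with h'' | h''
        · exact absurd h'' ha
        · omega
      rw [(HG _).2 this, mul_zero]
  · have : ∀ l : ℤ, rexp (-t * ↑l ^ 2) * g t q (k - l * a) = 0 := by
      intro l
      have : ¬ (0:ℤ) ∣ (k - l * a) := by
        rw [zero_dvd_iff]
        intro h'
        apply hk
        exact ⟨l, by linarith⟩
      rw [(HG _).2 this, mul_zero]
    rw [tsum_congr this, tsum_zero]

theorem approx_step {n : ℕ} (a : ℤ) (ha : a ≠ 0) (q : Fin n → ℤ) (d' : ℤ) (hd' : d' ≠ 0)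
    (hS : 0 < SS q) (h : Approx q d') :
    Approx (Fin.cons a q : Fin (n+1) → ℤ) (Int.gcd a d') := by
  intro D
  obtain ⟨d, hd⟩ : ∃ d : ℤ, d = (Int.gcd a d' : ℤ) := ⟨_, rfl⟩
  rw [← hd]
  have hdpos : 0 < d := by
    rw [hd]; exact_mod_cast Int.gcd_pos_of_ne_zero_left _ ha
  obtain ⟨b, hb⟩ : d ∣ a := by rw [hd]; exact Int.gcd_dvd_left ..
  obtain ⟨r, hr⟩ : d ∣ d' := by rw [hd]; exact Int.gcd_dvd_right ..
  have hr0 : r ≠ 0 := by
    rintro rfl; apply hd'; rw [hr, mul_zero]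
  have hcop : IsCoprime b r := by
    rw [Int.isCoprime_iff_gcd_eq_one]
    have h1 : (Int.gcd a d' : ℤ) = d * Int.gcd b r := by
      conv_lhs => rw [hb, hr]
      rw [Int.gcd_mul_left]
      push_cast
      rw [abs_of_pos hdpos]
    rw [← hd] at h1
    have h2 : d * (Int.gcd b r : ℤ) = d * 1 := by linarith
    have := mul_left_cancel₀ hdpos.ne' h2
    exact_mod_cast this
  set S' := SS q with hS'
  set S := SS (Fin.cons a q : Fin (n+1) → ℤ) with hSdef
  have hSS : S = (a:ℝ)^2 + S' := SS_cons a q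
  have hSpos : 0 < S := by rw [hSS]; positivity
  have hrR : (r:ℝ) ≠ 0 := by exact_mod_cast hr0
  obtain ⟨t1, ht1, H1⟩ := theta_unif ((r:ℝ)^2 * S / S') (by positivity) (D+1)
  obtain ⟨t2, ht2, H2⟩ := h (D+1)
  refine ⟨min (min t1 t2) (1/3), by positivity, fun t ht htt => ?_⟩
  have htt1 : t < t1 := lt_of_lt_of_le htt (le_trans (min_le_left _ _) (min_le_left _ _))
  have htt2 : t < t2 := lt_of_lt_of_le htt (le_trans (min_le_left _ _) (min_le_right _ _))
  have htt3 : t < 1/3 := lt_of_lt_of_le htt (min_le_right _ _)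
  obtain ⟨M, hM, HM⟩ := H1 t ht htt1
  obtain ⟨G', hG', HG⟩ := H2 t ht htt2
  refine ⟨G' * M, by positivity, fun k => ?_⟩
  rw [g_cons t ht]
  refine ⟨fun hk => ?_, fun hk => ?_⟩
  · -- the main case
    obtain ⟨k1, hk1⟩ := hk
    -- find l0
    obtain ⟨l0, m0, hl0⟩ : ∃ l0 m0 : ℤ, k - l0 * a = d' * m0 := by
      obtain ⟨u, v, huv⟩ := hcop
      refine ⟨u * k1, v * k1, ?_⟩
      rw [hk1, hb, hr]
      have : d * k1 - u * k1 * (d * b) - d * r * (v * k1) = d * k1 * (1 - (u * b + v * r)) := by ring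
      rw [huv] at this
      linarith
    have hsupp : Function.support (fun l : ℤ => rexp (-t * ↑l ^ 2) * g t q (k - l * a)) ⊆
        Set.range (fun j : ℤ => l0 + r * j) := by
      intro l hl
      rw [Function.mem_support] at hl
      have h1 : d' ∣ (k - l * a) := by
        by_contra h'
        exact hl (by rw [(HG _).2 h', mul_zero])
      obtain ⟨m, hm⟩ := h1
      have h2 : (l - l0) * b = r * (m0 - m) := by
        have h3 : d * ((l - l0) * b) = d * (r * (m0 - m)) := by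
          have : (l - l0) * a = d' * (m0 - m) := by linarith
          rw [hb, hr] at this
          linarith
        exact mul_left_cancel₀ hdpos.ne' h3
      have h3 : r ∣ (l - l0) * b := ⟨_, h2⟩
      have h4 : r ∣ (l - l0) := hcop.symm.dvd_of_dvd_mul_right h3
      obtain ⟨j, hj⟩ := h4
      exact ⟨j, by simp only; linarith⟩
    have hinj : Function.Injective (fun j : ℤ => l0 + r * j) := by
      intro j j' hjj
      simp only at hjj
      exact mul_left_cancel₀ hr0 (by linarith)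
    rw [← hinj.tsum_eq hsupp]
    -- the comparison terms
    set E := Real.exp (-(t / S) * (k:ℝ)^2) with hE
    have hEpos : 0 < E := Real.exp_pos _
    set s : ℝ := (l0 - k * a / S) / r with hs
    set hh : ℤ → ℝ := fun j => G' * E * Real.exp (-(((r:ℝ)^2 * S / S') * t) * ((j:ℝ) + s)^2) with hhh
    have hc : 0 < ((r:ℝ)^2 * S / S') * t := by positivity
    have hsum : Summable hh := (summable_gauss _ hc s).mul_left _
    have hterm : ∀ j : ℤ, |rexp (-t * ((l0 + r * j : ℤ):ℝ) ^ 2) * g t q (k - (l0 + r * j) * a) - hh j| ≤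
        t ^ (D+1) * hh j := by
      intro j
      have h1 : d' ∣ (k - (l0 + r * j) * a) := by
        have : k - (l0 + r * j) * a = d' * (m0 - b * j) := by
          have : k - (l0 + r * j) * a = (k - l0 * a) - r * j * a := by ring
          rw [this, hl0, hr]
          conv_lhs => rw [hb]
          ring
        exact ⟨_, this⟩
      have h2 := (HG _).1 h1
      have h3 : hh j = rexp (-t * ((l0 + r * j : ℤ):ℝ) ^ 2) *
          (G' * rexp (-(t / S') * ((k - (l0 + r * j) * a : ℤ):ℝ)^2)) := by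
        rw [hhh, hE]
        simp only
        rw [mul_assoc G', ← Real.exp_add, mul_left_comm, ← Real.exp_add]
        congr 2
        rw [hs]
        push_cast
        have hSne : S ≠ 0 := hSpos.ne'
        have hS'ne : S' ≠ 0 := hS.ne'
        have hS'eq : S' = S - (a:ℝ)^2 := by rw [hSS]; ring
        field_simp
        rw [hS'eq]
        ring
      rw [h3, ← mul_sub, abs_mul, Real.abs_exp]
      calc _ ≤ rexp (-t * ((l0 + r * j : ℤ):ℝ) ^ 2) * (t ^ (D+1) * (G' * rexp (-(t / S') * ((k - (l0 + r * j) * a : ℤ):ℝ)^2))) :=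
            mul_le_mul_of_nonneg_left h2 (Real.exp_pos _).le
        _ = _ := by ring
    have hclose := tsum_close hsum hterm
    have hth := HM s
    set T := ∑' j : ℤ, Real.exp (-(((r:ℝ)^2 * S / S') * t) * ((j:ℝ) + s)^2) with hT
    have hsumT : ∑' j, hh j = G' * E * T := by
      rw [hhh, hT, tsum_mul_left]
    rw [hsumT] at hclose
    have ht1' : t ^ (D+1) ≤ 1 / 3 * t ^ D := by
      rw [pow_succ]
      have : 0 < t ^ D := by positivity
      nlinarith
    have ht1'' : t ^ (D+1) ≤ 1 := by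
      apply pow_le_one₀ ht.le (by linarith)
    have ht0' : 0 < t ^ (D+1) := by positivity
    have hTle : T ≤ 2 * M := by
      have := (abs_le.mp hth).2
      nlinarith
    have hGE : 0 < G' * E := by positivity
    have hfin : |G' * E * T - G' * M * E| ≤ G' * E * (t ^ (D+1) * M) := by
      have : G' * E * T - G' * M * E = G' * E * (T - M) := by ring
      rw [this, abs_mul, abs_of_pos hGE]
      exact mul_le_mul_of_nonneg_left hth hGE.le
    have hfin2 : t ^ (D+1) * (G' * E * T) ≤ t ^ (D+1) * (G' * E * (2 * M)) := by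
      apply mul_le_mul_of_nonneg_left _ ht0'.le
      exact mul_le_mul_of_nonneg_left hTle hGE.le
    calc |∑' (c : ℤ), rexp (-t * ((l0 + r * c : ℤ):ℝ) ^ 2) * g t q (k - (l0 + r * c) * a) - G' * M * E|
        ≤ |∑' (c : ℤ), rexp (-t * ((l0 + r * c : ℤ):ℝ) ^ 2) * g t q (k - (l0 + r * c) * a) - G' * E * T| +
          |G' * E * T - G' * M * E| := abs_sub_le _ _ _
      _ ≤ t ^ (D+1) * (G' * E * (2 * M)) + G' * E * (t ^ (D+1) * M) := by linarith
      _ = 3 * t ^ (D+1) * (G' * M * E) := by ring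
      _ ≤ t ^ D * (G' * M * E) := by
          apply mul_le_mul_of_nonneg_right _ (by positivity)
          linarith
  · have : ∀ l : ℤ, rexp (-t * ↑l ^ 2) * g t q (k - l * a) = 0 := by
      intro l
      have : ¬ d' ∣ (k - l * a) := by
        rintro ⟨m, hm⟩
        apply hk
        refine ⟨r * m + l * b, ?_⟩
        have h1 : k = d' * m + l * a := by linarith
        rw [h1, hr]
        conv_lhs => rw [hb]
        ring
      rw [(HG _).2 this, mul_zero]
    rw [tsum_congr this, tsum_zero]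

theorem SS_pos {n : ℕ} (q : Fin n → ℤ) (h : ∃ j, q j ≠ 0) : 0 < SS q := by
  obtain ⟨j, hj⟩ := h
  unfold SS
  apply Finset.sum_pos' (fun i _ => by positivity) ⟨j, Finset.mem_univ j, ?_⟩
  have : (q j : ℝ) ≠ 0 := by exact_mod_cast hj
  positivity

theorem approx_all : ∀ (n : ℕ) (q : Fin n → ℤ), ∃ d : ℤ, (∀ j, d ∣ q j) ∧ ((∀ j, q j = 0) → d = 0) ∧ Approx q d := by
  intro n
  induction n with
  | zero => exact fun q => ⟨0, fun j => j.elim0, fun _ => rfl, approx_zero q⟩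
  | succ n ih =>
    intro q
    obtain ⟨d', h1, h2, h3⟩ := ih (Fin.tail q)
    have hq : q = (Fin.cons (q 0) (Fin.tail q) : Fin (n+1) → ℤ) := (Fin.cons_self_tail q).symm
    by_cases ha : q 0 = 0
    · refine ⟨d', ?_, ?_, ?_⟩
      · intro j
        refine Fin.cases ?_ (fun j => h1 j) j
        rw [ha]; exact dvd_zero _
      · intro h; exact h2 (fun j => h j.succ)
      · rw [hq, ha]; exact approx_a_zero _ _ h3
    · by_cases hd' : d' = 0
      · subst hd'
        have h0 : ∀ j, Fin.tail q j = 0 := fun j => zero_dvd_iff.mp (h1 j)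
        refine ⟨q 0, ?_, fun h => h 0, ?_⟩
        · intro j
          refine Fin.cases (dvd_refl _) (fun j => ?_) j
          have := h0 j
          rw [Fin.tail] at this
          rw [this]; exact dvd_zero _
        · rw [hq]; exact approx_q_zero _ ha _ h0 h3
      · refine ⟨(Int.gcd (q 0) d' : ℤ), ?_, fun h => absurd (h 0) ha, ?_⟩
        · intro j
          refine Fin.cases (Int.gcd_dvd_left ..) (fun j => ?_) j
          exact dvd_trans (Int.gcd_dvd_right ..) (h1 j)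
        · have hex : ∃ j, Fin.tail q j ≠ 0 := by
            by_contra hcon
            push Not at hcon
            exact hd' (h2 hcon)
          have := approx_step (q 0) ha (Fin.tail q) d' hd' (SS_pos _ hex) h3
          rw [← hq] at this
          exact this
end GAUSS

open GAUSS in
theorem gauss_slice {n : ℕ} (q : Fin n → ℤ)
    (hgcd : ∀ d : ℕ, 2 ≤ d → ∃ i, ¬ ((d : ℤ) ∣ q i)) (D : ℕ) :
    ∃ t₀ : ℝ, 0 < t₀ ∧ ∀ t : ℝ, 0 < t → t < t₀ → ∃ G : ℝ, 0 < G ∧
      (∀ (N : ℕ) (k : ℤ), gN t N q k ≤ (1 + t ^ D) * G * Real.exp (-(t / ∑ j, (q j : ℝ) ^ 2) * (k : ℝ) ^ 2)) ∧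
      (∀ k : ℤ, ∀ᶠ N : ℕ in Filter.atTop, (1 - t ^ D) * G * Real.exp (-(t / ∑ j, (q j : ℝ) ^ 2) * (k : ℝ) ^ 2) ≤ gN t N q k) := by
  obtain ⟨d, hd1, hd2, hA⟩ := approx_all n q
  have hdk : ∀ k : ℤ, d ∣ k := by
    have hd3 : d.natAbs < 2 := by
      by_contra hcon
      push Not at hcon
      obtain ⟨i, hi⟩ := hgcd _ hcon
      exact hi (by rw [Int.natAbs_dvd]; exact hd1 i)
    have hd4 : d ≠ 0 := by
      rintro rfl
      obtain ⟨i, hi⟩ := hgcd 2 le_rfl
      apply hi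
      rw [zero_dvd_iff.mp (hd1 i)]
      exact dvd_zero _
    intro k
    rw [← Int.natAbs_dvd]
    have : d.natAbs = 1 := by omega
    rw [this]
    exact one_dvd _
  obtain ⟨t0, ht0, H⟩ := hA (D+1)
  refine ⟨min t0 1, by positivity, fun t ht htt => ?_⟩
  have htt0 : t < t0 := lt_of_lt_of_le htt (min_le_left _ _)
  have htt1 : t < 1 := lt_of_lt_of_le htt (min_le_right _ _)
  obtain ⟨G, hG, HG⟩ := H t ht htt0
  have hpow : t ^ (D+1) < t ^ D := by
    rw [pow_succ]
    have : 0 < t ^ D := by positivity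
    nlinarith
  refine ⟨G, hG, fun N k => ?_, fun k => ?_⟩
  · have h1 := (abs_le.mp ((HG k).1 (hdk k))).2
    have h2 := gN_le t ht q k N
    have hEG : 0 < G * Real.exp (-(t / SS q) * (k : ℝ) ^ 2) := by positivity
    change _ ≤ (1 + t ^ D) * G * Real.exp (-(t / SS q) * (k : ℝ) ^ 2)
    rw [mul_assoc]
    nlinarith
  · have h1 := (abs_le.mp ((HG k).1 (hdk k))).1
    have hEG : 0 < G * Real.exp (-(t / SS q) * (k : ℝ) ^ 2) := by positivity
    have h2 : (1 - t ^ D) * G * Real.exp (-(t / ∑ j, (q j : ℝ) ^ 2) * (k : ℝ) ^ 2) < g t q k := by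
      change (1 - t ^ D) * G * Real.exp (-(t / SS q) * (k : ℝ) ^ 2) < g t q k
      rw [mul_assoc]
      nlinarith
    have h3 := (gN_tendsto t ht q k).eventually (lt_mem_nhds h2)
    exact h3.mono (fun N hN => hN.le)

end Pool.Agent.H88
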