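import Mathlib
import Pool.Agent.H88.Amalg.Defs
import Pool.Agent.H88.Amalg.Minor
import Pool.Agent.H88.Amalg.Side
import Pool.Agent.H88.Amalg.Count

set_option autoImplicit false

namespace Pool.Agent.H88.Lev

open Pool.Agent.H88 Matrix Finset

theorem exists_perm {m : ℕ} (f g : Fin m → ℤ)
    (h : ∀ k : ℤ, (Finset.univ.filter fun i => f i = k).card =
      (Finset.univ.filter fun i => g i = k).card) : ∃ e : Equiv.Perm (Fin m), f ∘ e = g := by
  have h1 : ∀ k : ℤ, Fintype.card {i // g i = k} = Fintype.card {i // f i = k} := by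
    intro k
    rw [Fintype.card_subtype, Fintype.card_subtype, h]
  let e : Fin m ≃ Fin m := (Equiv.sigmaFiberEquiv g).symm.trans
    ((Equiv.sigmaCongrRight fun k => Fintype.equivOfCardEq (h1 k)).trans
      (Equiv.sigmaFiberEquiv f))
  refine ⟨e, ?_⟩
  funext i
  show f (e i) = g i
  have h2 : e i = (Fintype.equivOfCardEq (h1 (g i)) ⟨i, rfl⟩).1 := rfl
  rw [h2]
  exact (Fintype.equivOfCardEq (h1 (g i)) ⟨i, rfl⟩).2

theorem unique_anti {m : ℕ} {f : Fin m → ℤ} {σ τ : Equiv.Perm (Fin m)}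
    (h1 : Antitone (f ∘ σ)) (h2 : Antitone (f ∘ τ)) : f ∘ σ = f ∘ τ := by
  have := Tuple.unique_monotone (α := ℤᵒᵈ) (f := OrderDual.toDual ∘ f) (σ := σ) (τ := τ)
    (fun i j hij => h1 hij) (fun i j hij => h2 hij)
  funext i
  exact congrFun this i

theorem exists_neg_perm {m : ℕ} (p : Fin m → ℤ) (hp : Good p) :
    ∃ e : Equiv.Perm (Fin m), p ∘ e = fun i => - p i := by
  apply exists_perm
  intro k
  rw [hp.2.1 k]
  congr 1
  ext i
  simp only [Finset.mem_filter, Finset.mem_univ, true_and]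
  omega

theorem rev_neg {m : ℕ} (p : Fin m → ℤ) (hp : Good p) (i : Fin m) : p (Fin.rev i) = - p i := by
  obtain ⟨e, he⟩ := exists_neg_perm p hp
  have h1 : Antitone (p ∘ (Fin.revPerm.trans e : Equiv.Perm (Fin m))) := by
    intro a b hab
    have h2 : ∀ x, (p ∘ (Fin.revPerm.trans e : Equiv.Perm (Fin m))) x = - p (Fin.rev x) := by
      intro x
      exact congrFun he (Fin.rev x)
    rw [h2, h2]
    have := hp.1 (Fin.rev_le_rev.mpr hab)
    omega
  have h2 : Antitone (p ∘ (1 : Equiv.Perm (Fin m))) := hp.1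
  have h3 := congrFun (unique_anti h1 h2) i
  have h4 : (p ∘ (Fin.revPerm.trans e : Equiv.Perm (Fin m))) i = - p (Fin.rev i) :=
    congrFun he (Fin.rev i)
  rw [h4] at h3
  simp only [Function.comp, Equiv.Perm.one_apply] at h3
  omega

theorem sum_zero {m : ℕ} (p : Fin m → ℤ) (hp : Good p) : ∑ i, p i = 0 := by
  have h1 : ∑ i, p (Fin.rev i) = ∑ i, p i := Equiv.sum_comp Fin.revPerm p
  have h2 : ∑ i, p (Fin.rev i) = ∑ i, - p i := Finset.sum_congr rfl fun i _ => rev_neg p hp i
  rw [Finset.sum_neg_distrib] at h2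
  omega

theorem exists_ne {m : ℕ} (p : Fin m → ℤ) (hp : Good p) : ∃ i, p i ≠ 0 := by
  obtain ⟨i, hi⟩ := hp.2.2 2 le_rfl
  exact ⟨i, fun h => hi (by rw [h]; exact dvd_zero _)⟩

theorem pos_m {m : ℕ} (p : Fin m → ℤ) (hp : Good p) : 0 < m := by
  obtain ⟨i, _⟩ := exists_ne p hp
  exact i.pos

theorem one_lt_m {m : ℕ} (p : Fin m → ℤ) (hp : Good p) : 1 < m := by
  obtain ⟨i, hi⟩ := exists_ne p hp
  by_contra hcon
  have hm : m = 1 := by
    have := i.pos
    omega
  subst hm
  have h1 := rev_neg p hp i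
  have h2 : Fin.rev i = i := Subsingleton.elim _ _
  rw [h2] at h1
  omega

theorem one_le_first {m : ℕ} (p : Fin m → ℤ) (hp : Good p) (hm : 0 < m) : 1 ≤ p ⟨0, hm⟩ := by
  obtain ⟨i, hi⟩ := exists_ne p hp
  have h1 : p i ≤ p ⟨0, hm⟩ := hp.1 (Fin.mk_le_of_le_val (Nat.zero_le _))
  have h2 : p (Fin.rev i) ≤ p ⟨0, hm⟩ := hp.1 (Fin.mk_le_of_le_val (Nat.zero_le _))
  have h3 := rev_neg p hp i
  omega

/-- The level of an antitone vector dominates its oscillation. -/
theorem lev_ge {m : ℕ} (p : Fin m → ℤ) (hp : Good p) (hm : 0 < m) (ν : Fin m → ℕ)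
    (hν : Antitone ν) (h0 : ∃ i, ν i = 0) (i : Fin m) :
    (ν i : ℤ) ≤ ∑ i, (ν i : ℤ) * p i := by
  have h1 : 2 * ∑ i, (ν i : ℤ) * p i = ∑ i, ((ν i : ℤ) - ν (Fin.rev i)) * p i := by
    have h2 : ∑ i, (ν (Fin.rev i) : ℤ) * p i = - ∑ i, (ν i : ℤ) * p i := by
      have h3 : ∑ i, (ν (Fin.rev i) : ℤ) * p (Fin.rev i) = ∑ i, (ν i : ℤ) * p i :=
        Equiv.sum_comp Fin.revPerm fun i => (ν i : ℤ) * p i
      rw [← h3, ← Finset.sum_neg_distrib]
      refine Finset.sum_congr rfl fun i _ => ?_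
      rw [rev_neg p hp i]
      ring
    simp only [sub_mul]
    rw [Finset.sum_sub_distrib, h2]
    ring
  have hterm : ∀ j ∈ (Finset.univ : Finset (Fin m)), 0 ≤ ((ν j : ℤ) - ν (Fin.rev j)) * p j := by
    intro j _
    have h3 := rev_neg p hp j
    rcases le_total j (Fin.rev j) with h | h
    · have h4 := hν h
      have h5 := hp.1 h
      apply mul_nonneg <;> omega
    · have h4 := hν h
      have h5 := hp.1 h
      apply mul_nonneg_of_nonpos_of_nonpos <;> omega
  set first : Fin m := ⟨0, hm⟩ with hfirst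
  have hrev : Fin.rev first ≠ first := by
    intro h
    have h3 := rev_neg p hp first
    have h4 : 1 ≤ p first := one_le_first p hp hm
    rw [h] at h3
    omega
  have hpair : ((ν first : ℤ) - ν (Fin.rev first)) * p first +
      ((ν (Fin.rev first) : ℤ) - ν (Fin.rev (Fin.rev first))) * p (Fin.rev first) ≤
      ∑ j, ((ν j : ℤ) - ν (Fin.rev j)) * p j := by
    have h5 : ∑ j ∈ ({first, Fin.rev first} : Finset (Fin m)),
        ((ν j : ℤ) - ν (Fin.rev j)) * p j ≤ ∑ j, ((ν j : ℤ) - ν (Fin.rev j)) * p j :=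
      Finset.sum_le_sum_of_subset_of_nonneg (Finset.subset_univ _) fun j _ _ => hterm j
        (Finset.mem_univ j)
    rw [Finset.sum_pair hrev.symm] at h5
    exact h5
  have hlast : ν (Fin.rev first) = 0 := by
    obtain ⟨j, hj⟩ := h0
    have : ν (Fin.rev first) ≤ ν j := hν (by
      rw [Fin.le_def, Fin.val_rev, hfirst]
      simp only
      omega)
    omega
  rw [Fin.rev_rev, rev_neg p hp first, hlast] at hpair
  have h6 : (ν i : ℤ) ≤ ν first := by
    have : ν i ≤ ν first := hν (Fin.mk_le_of_le_val (Nat.zero_le _))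
    exact_mod_cast this
  have h7 := one_le_first p hp hm
  have h8 : (0 : ℤ) ≤ ν first := by positivity
  rw [← h1] at hpair
  push_cast at hpair
  nlinarith

theorem lev_sq_le {m : ℕ} (p : Fin m → ℤ) (hp : Good p) (ν : Fin m → ℤ) :
    ((∑ i, ν i * p i : ℤ) : ℝ) ^ 2 ≤ Side.Sv ν * ∑ i, (p i : ℝ) ^ 2 := by
  have h1 : ((∑ i, ν i * p i : ℤ) : ℝ) = ∑ i, ((ν i : ℝ) - Side.mean ν) * (p i : ℝ) := by
    have h2 : ∑ i, (p i : ℝ) = 0 := by exact_mod_cast sum_zero p hp
    simp only [sub_mul]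
    rw [Finset.sum_sub_distrib, ← Finset.mul_sum, h2]
    push_cast
    ring
  rw [h1]
  exact Finset.sum_mul_sq_le_sq_mul_sq _ _ _

theorem exists_bezout {m : ℕ} (p : Fin m → ℤ) (hp : Good p) : ∃ v : Fin m → ℤ, ∑ i, v i * p i = 1 := by
  have h1 : (Ideal.span (Set.range p)) = ⊤ := by
    obtain ⟨d, hd⟩ := (IsPrincipalIdealRing.principal (Ideal.span (Set.range p))).principal
    have hdvd : ∀ i, d ∣ p i := by
      intro i
      have : p i ∈ Ideal.span (Set.range p) := Ideal.subset_span ⟨i, rfl⟩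
      rw [hd] at this
      exact Ideal.mem_span_singleton.mp this
    have hd1 : d.natAbs = 1 := by
      by_contra hne
      rcases Nat.eq_zero_or_pos d.natAbs with h | h
      · obtain ⟨i, hi⟩ := exists_ne p hp
        have h2 := hdvd i
        rw [Int.natAbs_eq_zero.mp h] at h2
        exact hi (zero_dvd_iff.mp h2)
      · obtain ⟨i, hi⟩ := hp.2.2 d.natAbs (by omega)
        exact hi (Int.natAbs_dvd.mpr (hdvd i))
    rw [hd]
    exact Ideal.span_singleton_eq_top.mpr (Int.isUnit_iff_natAbs_eq.mpr hd1)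
  have h2 : (1 : ℤ) ∈ Ideal.span (Set.range p) := by rw [h1]; trivial
  rw [Ideal.span, Submodule.mem_span_range_iff_exists_fun] at h2
  obtain ⟨c, hc⟩ := h2
  exact ⟨c, by simpa [smul_eq_mul] using hc⟩

theorem Sv_comp {m : ℕ} (u : Fin m → ℤ) (σ : Equiv.Perm (Fin m)) :
    Side.Sv (u ∘ σ) = Side.Sv u := by
  have h1 : Side.mean (u ∘ σ) = Side.mean u := by
    unfold Side.mean
    congr 1
    exact Equiv.sum_comp σ fun i => (u i : ℝ)
  unfold Side.Sv
  rw [h1]
  exact Equiv.sum_comp σ fun i => ((u i : ℝ) - Side.mean u) ^ 2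

theorem Sv_sub {m : ℕ} (hm : 0 < m) (u : Fin m → ℤ) (c : ℤ) :
    Side.Sv (fun i => u i - c) = Side.Sv u := by
  have h1 : Side.mean (fun i => u i - c) = Side.mean u - c := by
    unfold Side.mean
    have : (m : ℝ) ≠ 0 := by positivity
    push_cast
    rw [Finset.sum_sub_distrib]
    simp
    field_simp
  unfold Side.Sv
  rw [h1]
  refine Finset.sum_congr rfl fun i _ => ?_
  push_cast
  ring

/-- The near-ray: all large levels are reached close to the ray of `p`. -/
theorem exists_ray {m : ℕ} (p : Fin m → ℤ) (hp : Good p) :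
    ∃ (R : ℝ) (k₀ : ℕ), ∀ k : ℕ, k₀ ≤ k → ∃ ν : Fin m → ℕ, Antitone ν ∧ (∃ i, ν i = 0) ∧
      ∑ i, (ν i : ℤ) * p i = k ∧
      Side.Sv (Count.toZ ν) ≤ (k : ℝ) ^ 2 / (∑ i, (p i : ℝ) ^ 2) + R := by
  have hm := pos_m p hp
  obtain ⟨v, hv⟩ := exists_bezout p hp
  set P2 : ℝ := ∑ i, (p i : ℝ) ^ 2 with hP2
  have hP2pos : 0 < P2 := by
    obtain ⟨i, hi⟩ := exists_ne p hp
    apply Finset.sum_pos'
    · intro j _; positivity
    · exact ⟨i, Finset.mem_univ i, by
        have : (p i : ℝ) ≠ 0 := by exact_mod_cast hi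
        positivity⟩
  set B : ℝ := ∑ i, |(p i : ℝ)| with hB
  have hBnn : 0 ≤ B := Finset.sum_nonneg fun _ _ => abs_nonneg _
  set Vb : ℝ := ∑ i, |(v i : ℝ)| with hVb
  have hVbnn : 0 ≤ Vb := Finset.sum_nonneg fun _ _ => abs_nonneg _
  set R0 : ℝ := 1 + B * Vb with hR0
  have hR0pos : 0 < R0 := by positivity
  refine ⟨m * R0 ^ 2, ⌈2 * R0 * P2⌉₊ + 1, fun k hk => ?_⟩
  have hk' : 2 * R0 * P2 < k := by
    have h1 : 2 * R0 * P2 ≤ ⌈2 * R0 * P2⌉₊ := Nat.le_ceil _
    have h2 : ((⌈2 * R0 * P2⌉₊ + 1 : ℕ) : ℝ) ≤ k := by exact_mod_cast hk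
    push_cast at h2
    linarith
  -- rounding
  set a : Fin m → ℤ := fun i => ⌊(k : ℝ) * p i / P2⌋ with ha
  set r : ℤ := k - ∑ i, a i * p i with hr
  set u : Fin m → ℤ := fun i => a i + r * v i with hu
  have hup : ∑ i, u i * p i = k := by
    have : ∑ i, u i * p i = ∑ i, a i * p i + r * ∑ i, v i * p i := by
      rw [Finset.mul_sum, ← Finset.sum_add_distrib]
      exact Finset.sum_congr rfl fun i _ => by simp only [hu]; ring
    rw [this, hv, hr]
    ring
  have hrb : |(r : ℝ)| ≤ B := by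
    have h1 : (r : ℝ) = ∑ i, ((k : ℝ) * p i / P2 - a i) * p i := by
      have h2 : ∑ i, ((k : ℝ) * p i / P2 - a i) * p i =
          (k : ℝ) / P2 * P2 - ∑ i, (a i : ℝ) * p i := by
        conv_rhs => rw [hP2, Finset.mul_sum]
        rw [← Finset.sum_sub_distrib]
        refine Finset.sum_congr rfl fun i _ => ?_
        rw [← hP2]
        ring
      rw [h2, div_mul_cancel₀ _ hP2pos.ne', hr]
      push_cast
      ring
    rw [h1]
    refine (Finset.abs_sum_le_sum_abs _ _).trans ?_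
    refine Finset.sum_le_sum fun i _ => ?_
    rw [abs_mul]
    have h3 : |(k : ℝ) * p i / P2 - a i| ≤ 1 := by
      have h4 := Int.floor_le ((k : ℝ) * p i / P2)
      have h5 := Int.lt_floor_add_one ((k : ℝ) * p i / P2)
      rw [abs_le]
      constructor <;> simp only [ha] <;> linarith
    calc _ ≤ 1 * |(p i : ℝ)| := mul_le_mul_of_nonneg_right h3 (abs_nonneg _)
      _ = _ := one_mul _
  have hclose : ∀ i, |(u i : ℝ) - (k : ℝ) * p i / P2| ≤ R0 := by
    intro i
    have h4 := Int.floor_le ((k : ℝ) * p i / P2)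
    have h5 := Int.lt_floor_add_one ((k : ℝ) * p i / P2)
    have h6 : (u i : ℝ) - (k : ℝ) * p i / P2 = ((a i : ℝ) - (k : ℝ) * p i / P2) + r * v i := by
      simp only [hu]
      push_cast
      ring
    rw [h6]
    refine (abs_add_le _ _).trans ?_
    have h7 : |(a i : ℝ) - (k : ℝ) * p i / P2| ≤ 1 := by
      rw [abs_le]
      constructor <;> simp only [ha] <;> linarith
    have h8 : |(r : ℝ) * v i| ≤ B * Vb := by
      rw [abs_mul]
      apply mul_le_mul hrb _ (abs_nonneg _) hBnn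
      exact Finset.single_le_sum (f := fun i => |(v i : ℝ)|) (fun j _ => abs_nonneg _)
        (Finset.mem_univ i)
    linarith
  -- strictly larger weights give strictly larger entries
  have hstrict : ∀ i j, p j < p i → u j < u i := by
    intro i j hij
    have h1 := (abs_le.mp (hclose i)).1
    have h2 := (abs_le.mp (hclose j)).2
    have h3 : (p j : ℝ) + 1 ≤ p i := by exact_mod_cast hij
    have h4 : (k : ℝ) * p j / P2 + k / P2 ≤ (k : ℝ) * p i / P2 := by
      rw [← add_div]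
      apply div_le_div_of_nonneg_right _ hP2pos.le
      nlinarith [(Nat.cast_nonneg k : (0 : ℝ) ≤ k)]
    have h5 : 2 * R0 < k / P2 := by
      rw [lt_div_iff₀ hP2pos]
      exact hk'
    have h6 : (u j : ℝ) < u i := by linarith
    exact_mod_cast h6
  -- sorting
  set σ : Equiv.Perm (Fin m) := Tuple.sort (fun i => - u i) with hσ
  have hσu : Antitone (u ∘ σ) := by
    intro i j hij
    have h1 : - u (σ i) ≤ - u (σ j) := Tuple.monotone_sort (fun i => - u i) hij
    simp only [Function.comp]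
    omega
  have hσp : p ∘ σ = p := by
    have h1 : Antitone (p ∘ σ) := by
      intro i j hij
      by_contra hcon
      push Not at hcon
      have h2 := hstrict _ _ hcon
      have h3 := hσu hij
      simp only [Function.comp] at h3 h2
      omega
    exact unique_anti h1 (show Antitone (p ∘ (1 : Equiv.Perm (Fin m))) from hp.1)
  set last : Fin m := ⟨m - 1, by omega⟩ with hlast
  have hge : ∀ i, u (σ last) ≤ u (σ i) := by
    intro i
    apply hσu
    rw [Fin.le_def, hlast]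
    simp only
    omega
  refine ⟨fun i => (u (σ i) - u (σ last)).toNat, ?_, ⟨last, by simp⟩, ?_, ?_⟩
  · intro i j hij
    have := hσu hij
    simp only [Function.comp] at this ⊢
    omega
  · have h1 : ∀ i, ((u (σ i) - u (σ last)).toNat : ℤ) * p i =
        u (σ i) * p (σ i) - u (σ last) * p i := by
      intro i
      have h2 := hge i
      rw [Int.toNat_of_nonneg (by omega)]
      have h3 : p (σ i) = p i := congrFun hσp i
      rw [h3]
      ring
    rw [Finset.sum_congr rfl fun i _ => h1 i, Finset.sum_sub_distrib, ← Finset.mul_sum,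
      sum_zero p hp, mul_zero, sub_zero]
    have h4 : ∑ i, u (σ i) * p (σ i) = ∑ i, u i * p i := Equiv.sum_comp σ fun i => u i * p i
    rw [h4, hup]
  · have h1 : Count.toZ (fun i => (u (σ i) - u (σ last)).toNat) =
        fun i => (u ∘ σ) i - u (σ last) := by
      funext i
      have h2 := hge i
      simp only [Count.toZ, Function.comp]
      rw [Int.toNat_of_nonneg (by omega)]
    rw [h1, Sv_sub hm, Sv_comp]
    -- compute Sv u
    have h3 : Side.Sv u ≤ (k : ℝ) ^ 2 / P2 + ∑ i, ((u i : ℝ) - (k : ℝ) * p i / P2) ^ 2 := by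
      have hsum0 : ∑ i, (p i : ℝ) = 0 := by exact_mod_cast sum_zero p hp
      have h4 := Side.sum_shift_sq hm u 0
      simp only [add_zero, zero_add] at h4
      have h5 : Side.Sv u ≤ ∑ i, (u i : ℝ) ^ 2 := by
        rw [h4]
        have : 0 ≤ (m : ℝ) * Side.mean u ^ 2 := by positivity
        linarith
      have h6 : ∑ i, (u i : ℝ) ^ 2 = (k : ℝ) ^ 2 / P2 +
          ∑ i, ((u i : ℝ) - (k : ℝ) * p i / P2) ^ 2 := by
        have h7 : ∑ i, (u i : ℝ) * p i = k := by exact_mod_cast hup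
        have h8 : ∑ i, ((u i : ℝ) - (k : ℝ) * p i / P2) ^ 2 =
            ∑ i, (u i : ℝ) ^ 2 - 2 * (k / P2) * ∑ i, (u i : ℝ) * p i +
              (k / P2) ^ 2 * ∑ i, (p i : ℝ) ^ 2 := by
          rw [Finset.mul_sum, Finset.mul_sum, ← Finset.sum_sub_distrib,
            ← Finset.sum_add_distrib]
          refine Finset.sum_congr rfl fun i _ => ?_
          ring
        rw [h8, h7, ← hP2]
        field_simp
        ring
      rw [h6] at h5
      exact h5
    refine h3.trans ?_
    have h9 : ∑ i, ((u i : ℝ) - (k : ℝ) * p i / P2) ^ 2 ≤ m * R0 ^ 2 := by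
      calc ∑ i, ((u i : ℝ) - (k : ℝ) * p i / P2) ^ 2 ≤ ∑ _i : Fin m, R0 ^ 2 := by
            refine Finset.sum_le_sum fun i _ => ?_
            rw [← sq_abs]
            exact pow_le_pow_left₀ (abs_nonneg _) (hclose i) 2
        _ = _ := by simp
    linarith

end Pool.Agent.H88.Lev
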