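import Mathlib
import Pool.Agent.H88.Amalg.Defs

set_option autoImplicit false

namespace Pool.Agent.H88.TRUNC

open Pool.Agent.H88 Filter Topology

theorem poly_exp_tendsto (D : ℕ) (τ : ℝ) (hτ : 0 < τ) :
    Tendsto (fun K : ℕ => ((K : ℝ) + 3) ^ D * Real.exp (-τ * ((K : ℝ) + 1))) atTop (𝓝 0) := by
  have h1 := (Real.summable_pow_mul_exp_neg_nat_mul D hτ).tendsto_atTop_zero
  have h2 := h1.comp (tendsto_add_atTop_nat 3)
  have h3 := h2.mul_const (Real.exp (2 * τ))
  rw [zero_mul] at h3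
  refine h3.congr ?_
  intro K
  simp only [Function.comp]
  push_cast
  rw [mul_assoc, ← Real.exp_add]
  congr 2
  ring

theorem tail_bound {ι : Type} {lev : ι → ℕ} {L : ι → ℤ → ℝ} {w : ι → ℝ} (h : TSide lev L w)
    (τ : ℝ) (hτ : 0 < τ) (C : ℝ) (hC : 0 ≤ C) :
    ∃ (C1 : ℝ) (D1 : ℕ), 0 ≤ C1 ∧ ∀ (K : ℕ) (b : ι →₀ ℝ),
      (∀ i, |b i| ≤ C * Real.exp (-τ * (lev i : ℝ) ^ 2)) → (∀ i, lev i ≤ K → b i = 0) →
      ∀ k : ℤ, |b.sum fun i r => r * L i k| ≤
        C1 * ((K : ℝ) + 3) ^ D1 * Real.exp (-τ * ((K : ℝ) + 1) ^ 2) := by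
  classical
  obtain ⟨D, hD⟩ := h.bound
  obtain ⟨Dc, hDc⟩ := h.count
  let φ : ℕ → ℝ := fun r => ((r : ℝ) + 1) ^ (D + Dc) * Real.exp (-τ * r)
  have hφ0 : ∀ r, 0 ≤ φ r := fun r => by positivity
  have hsum : Summable φ := by
    have h1 := Real.summable_pow_mul_exp_neg_nat_mul (D + Dc) hτ
    have h2 := (summable_nat_add_iff 1).2 h1
    have h3 := h2.mul_right (Real.exp τ)
    refine h3.congr ?_
    intro r
    simp only [φ]
    push_cast
    rw [mul_assoc, ← Real.exp_add]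
    congr 2
    ring
  refine ⟨C * ∑' r, φ r, D + Dc, mul_nonneg hC (tsum_nonneg hφ0), ?_⟩
  intro K b hb hb0 k
  have hE := Real.exp_pos (-τ * ((K : ℝ) + 1) ^ 2)
  -- pointwise bound
  have hpt : ∀ i ∈ b.support, |b i * L i k| ≤ C * ((K : ℝ) + 3) ^ D *
      Real.exp (-τ * ((K : ℝ) + 1) ^ 2) *
      ((((lev i - (K + 1) : ℕ) : ℝ) + 1) ^ D * Real.exp (-τ * ((lev i - (K + 1) : ℕ) : ℝ))) := by
    intro i hi
    have hlev : K + 1 ≤ lev i := by
      by_contra hcon
      exact (Finsupp.mem_support_iff.1 hi) (hb0 i (by omega))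
    obtain ⟨r, hr⟩ := Nat.exists_eq_add_of_le hlev
    have hr' : lev i - (K + 1) = r := by omega
    rw [hr', abs_mul, abs_of_nonneg (h.nonneg i k)]
    have h1 := hb i
    have h2 := hD i k
    have hcast : (lev i : ℝ) = (K : ℝ) + 1 + r := by
      rw [hr]
      push_cast
      ring
    have h3 : Real.exp (-τ * (lev i : ℝ) ^ 2) ≤
        Real.exp (-τ * ((K : ℝ) + 1) ^ 2) * Real.exp (-τ * r) := by
      rw [← Real.exp_add]
      apply Real.exp_le_exp.2
      rw [hcast]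
      have hr0 : (0 : ℝ) ≤ r := Nat.cast_nonneg r
      have hK0 : (0 : ℝ) ≤ K := Nat.cast_nonneg K
      have h4 : (r : ℝ) ≤ 2 * ((K : ℝ) + 1) * r + r ^ 2 := by nlinarith
      nlinarith
    have h4 : ((lev i : ℝ) + 2) ^ D ≤ ((K : ℝ) + 3) ^ D * ((r : ℝ) + 1) ^ D := by
      rw [← mul_pow]
      apply pow_le_pow_left₀ (by positivity)
      rw [hcast]
      have hr0 : (0 : ℝ) ≤ r := Nat.cast_nonneg r
      have hK0 : (0 : ℝ) ≤ K := Nat.cast_nonneg K
      nlinarith
    calc |b i| * L i k ≤ (C * Real.exp (-τ * (lev i : ℝ) ^ 2)) * ((lev i : ℝ) + 2) ^ D := by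
          apply mul_le_mul h1 h2 (h.nonneg i k)
          positivity
      _ ≤ (C * (Real.exp (-τ * ((K : ℝ) + 1) ^ 2) * Real.exp (-τ * r))) *
            (((K : ℝ) + 3) ^ D * ((r : ℝ) + 1) ^ D) := by
          apply mul_le_mul _ h4 (by positivity) (by positivity)
          exact mul_le_mul_of_nonneg_left h3 hC
      _ = _ := by ring
  have hcomp := Finset.sum_comp (s := b.support)
    (fun r : ℕ => (((r : ℝ) + 1) ^ D * Real.exp (-τ * (r : ℝ)))) (fun i => lev i - (K + 1))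
  have hfib : ∀ r ∈ b.support.image (fun i => lev i - (K + 1)),
      ((b.support.filter (fun i => lev i - (K + 1) = r)).card : ℝ) *
        (((r : ℝ) + 1) ^ D * Real.exp (-τ * (r : ℝ))) ≤ ((K : ℝ) + 3) ^ Dc * φ r := by
    intro r _
    obtain ⟨s, hs1, hs2⟩ := hDc (K + 1 + r)
    have h1 : (b.support.filter (fun i => lev i - (K + 1) = r)).card ≤ (K + 1 + r + 2) ^ Dc := by
      refine le_trans (Finset.card_le_card ?_) hs2
      intro i hi
      rw [Finset.mem_filter] at hi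
      apply hs1
      omega
    have h2 : ((b.support.filter (fun i => lev i - (K + 1) = r)).card : ℝ) ≤
        ((K : ℝ) + 3) ^ Dc * ((r : ℝ) + 1) ^ Dc := by
      have h3 : ((b.support.filter (fun i => lev i - (K + 1) = r)).card : ℝ) ≤
          ((K : ℝ) + 1 + r + 2) ^ Dc := by
        exact_mod_cast h1
      refine h3.trans ?_
      rw [← mul_pow]
      apply pow_le_pow_left₀ (by positivity)
      have hr0 : (0 : ℝ) ≤ r := Nat.cast_nonneg r
      have hK0 : (0 : ℝ) ≤ K := Nat.cast_nonneg K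
      nlinarith
    calc _ ≤ (((K : ℝ) + 3) ^ Dc * ((r : ℝ) + 1) ^ Dc) *
          (((r : ℝ) + 1) ^ D * Real.exp (-τ * (r : ℝ))) := by
          apply mul_le_mul_of_nonneg_right h2
          positivity
      _ = ((K : ℝ) + 3) ^ Dc * φ r := by
          simp only [φ]
          ring
  calc |b.sum fun i r => r * L i k| ≤ ∑ i ∈ b.support, |b i * L i k| := by
        unfold Finsupp.sum
        exact Finset.abs_sum_le_sum_abs _ _
    _ ≤ ∑ i ∈ b.support, C * ((K : ℝ) + 3) ^ D * Real.exp (-τ * ((K : ℝ) + 1) ^ 2) *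
      ((((lev i - (K + 1) : ℕ) : ℝ) + 1) ^ D * Real.exp (-τ * ((lev i - (K + 1) : ℕ) : ℝ))) :=
        Finset.sum_le_sum hpt
    _ = C * ((K : ℝ) + 3) ^ D * Real.exp (-τ * ((K : ℝ) + 1) ^ 2) *
        ∑ i ∈ b.support, ((((lev i - (K + 1) : ℕ) : ℝ) + 1) ^ D *
          Real.exp (-τ * ((lev i - (K + 1) : ℕ) : ℝ))) := by
        rw [Finset.mul_sum]
    _ ≤ C * ((K : ℝ) + 3) ^ D * Real.exp (-τ * ((K : ℝ) + 1) ^ 2) *
        (((K : ℝ) + 3) ^ Dc * ∑' r, φ r) := by
        apply mul_le_mul_of_nonneg_left _ (by positivity)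
        rw [hcomp]
        simp only [nsmul_eq_mul]
        refine (Finset.sum_le_sum hfib).trans ?_
        rw [← Finset.mul_sum]
        apply mul_le_mul_of_nonneg_left _ (by positivity)
        exact hsum.sum_le_tsum _ (fun r _ => hφ0 r)
    _ = _ := by
        rw [pow_add]
        ring

/-- The evaluation map. -/
noncomputable def T {ι : Type} (L : ι → ℤ → ℝ) : (ι →₀ ℝ) →ₗ[ℝ] (ℤ → ℝ) :=
  Finsupp.linearCombination ℝ L

theorem T_apply {ι : Type} (L : ι → ℤ → ℝ) (b : ι →₀ ℝ) (k : ℤ) :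
    T L b k = b.sum fun i r => r * L i k := by
  unfold T
  rw [Finsupp.linearCombination_apply, Finsupp.sum, Finsupp.sum, Finset.sum_apply]
  rfl

theorem T_single {ι : Type} (L : ι → ℤ → ℝ) (i : ι) (r : ℝ) (k : ℤ) :
    T L (Finsupp.single i r) k = r * L i k := by
  unfold T
  rw [Finsupp.linearCombination_single]
  rfl

theorem T_even {ι : Type} {lev : ι → ℕ} {L : ι → ℤ → ℝ} {w : ι → ℝ} (h : TSide lev L w)
    (b : ι →₀ ℝ) (k : ℤ) : T L b k = T L b (-k) := by
  rw [T_apply, T_apply]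
  unfold Finsupp.sum
  apply Finset.sum_congr rfl
  intro i _
  show b i * L i k = b i * L i (-k)
  rw [h.even i k]

theorem T_supp {ι : Type} {lev : ι → ℕ} {L : ι → ℤ → ℝ} {w : ι → ℝ} (h : TSide lev L w)
    (b : ι →₀ ℝ) (K : ℕ) (hb : ∀ i, K < lev i → b i = 0) (k : ℤ) (hk : (K : ℤ) < |k|) :
    T L b k = 0 := by
  rw [T_apply]
  unfold Finsupp.sum
  apply Finset.sum_eq_zero
  intro i hi
  rw [Finsupp.mem_support_iff] at hi
  have h1 : lev i ≤ K := by
    by_contra hcon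
    exact hi (hb i (by omega))
  show b i * L i k = 0
  rw [h.supp i k (by omega), mul_zero]

theorem top_down {ι : Type} {lev : ι → ℕ} {L : ι → ℤ → ℝ} {w : ι → ℝ} (h : TSide lev L w)
    (D : ℕ) (hD : ∀ i k, L i k ≤ ((lev i : ℝ) + 2) ^ D)
    (ray : ℕ → ι) (k₀ : ℕ) (hray : ∀ k, k₀ ≤ k → lev (ray k) = k)
    (K : ℕ) (E : ℤ → ℝ) (hE1 : ∀ k, E k = E (-k)) (hE2 : ∀ k, (K : ℤ) < |k| → E k = 0)
    (ε : ℝ) (hε : ∀ k, |E k| ≤ ε) :
    ∀ j : ℕ, j + k₀ ≤ K + 1 → ∃ c : ι →₀ ℝ,
      (∀ i, c i ≠ 0 → i = ray (lev i) ∧ k₀ ≤ lev i ∧ lev i ≤ K ∧ K < lev i + j) ∧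
      (∀ i, |c i| ≤ ε * (1 + ((K : ℝ) + 2) ^ D) ^ (K - lev i)) ∧
      (∀ k, (E + T L c) k = (E + T L c) (-k)) ∧
      (∀ k, (K : ℤ) < |k| + j → (E + T L c) k = 0) ∧
      (∀ k, |(E + T L c) k| ≤ ε * (1 + ((K : ℝ) + 2) ^ D) ^ j) := by
  classical
  have hε0 : 0 ≤ ε := (abs_nonneg _).trans (hε 0)
  have hB : (0 : ℝ) ≤ 1 + ((K : ℝ) + 2) ^ D := by positivity
  intro j
  induction j with
  | zero =>
    intro _
    refine ⟨0, ?_, ?_, ?_, ?_, ?_⟩
    · intro i hi
      exact absurd rfl hi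
    · intro i
      simp only [Finsupp.coe_zero, Pi.zero_apply, abs_zero]
      positivity
    · intro k
      simpa using hE1 k
    · intro k hk
      simp only [map_zero, add_zero]
      exact hE2 k (by simpa using hk)
    · intro k
      simpa using hε k
  | succ j ih =>
    intro hj
    obtain ⟨c, hc1, hc2, hc3, hc4, hc5⟩ := ih (by omega)
    obtain ⟨k, hk⟩ : ∃ k : ℕ, k + j = K := ⟨K - j, by omega⟩
    have hk0 : k₀ ≤ k := by omega
    have hlev : lev (ray k) = k := hray k hk0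
    have htop : 1 ≤ L (ray k) k := by
      have := h.top (ray k)
      rw [hlev] at this
      exact this
    have hcz : c (ray k) = 0 := by
      by_contra hcon
      have := hc1 _ hcon
      omega
    let e : ℝ := (E + T L c) k
    let r : ℝ := - e / L (ray k) k
    have hr : |r| ≤ |e| := by
      simp only [r]
      rw [abs_div, abs_neg, abs_of_nonneg (by linarith : (0 : ℝ) ≤ L (ray k) k)]
      exact div_le_self (abs_nonneg _) htop
    have hr2 : |r| ≤ ε * (1 + ((K : ℝ) + 2) ^ D) ^ j := hr.trans (hc5 k)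
    have hval : ∀ m, (E + T L (c + Finsupp.single (ray k) r)) m =
        (E + T L c) m + r * L (ray k) m := by
      intro m
      rw [map_add]
      simp only [Pi.add_apply]
      rw [T_single]
      ring
    refine ⟨c + Finsupp.single (ray k) r, ?_, ?_, ?_, ?_, ?_⟩
    · intro i hi
      by_cases hik : i = ray k
      · subst hik
        rw [hlev]
        exact ⟨rfl, hk0, by omega, by omega⟩
      · have hci : c i ≠ 0 := by
          intro hcon
          apply hi
          rw [Finsupp.add_apply, Finsupp.single_eq_of_ne hik, hcon, add_zero]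
        have := hc1 i hci
        exact ⟨this.1, this.2.1, this.2.2.1, by omega⟩
    · intro i
      by_cases hik : i = ray k
      · subst hik
        rw [Finsupp.add_apply, Finsupp.single_eq_same, hcz, zero_add, hlev]
        have : K - k = j := by omega
        rw [this]
        exact hr2
      · rw [Finsupp.add_apply, Finsupp.single_eq_of_ne hik, add_zero]
        exact hc2 i
    · intro m
      rw [hval, hval, hc3 m, h.even (ray k) m]
    · intro m hm
      rw [hval]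
      by_cases hmk : |m| = k
      · have h1 : (E + T L c) m = e ∧ L (ray k) m = L (ray k) k := by
          rcases abs_choice m with hm' | hm'
          · have : m = k := by omega
            subst this
            exact ⟨rfl, rfl⟩
          · have : m = -k := by omega
            subst this
            exact ⟨(hc3 k).symm, (h.even (ray k) k).symm⟩
        rw [h1.1, h1.2]
        simp only [r]
        field_simp
        ring
      · have h1 : (K : ℤ) < |m| + j := by
          push_cast at hm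
          omega
        rw [hc4 m h1, h.supp (ray k) m (by omega)]
        ring
    · intro m
      rw [hval]
      have h1 := hc5 m
      have h2 : |r * L (ray k) m| ≤ (ε * (1 + ((K : ℝ) + 2) ^ D) ^ j) * ((K : ℝ) + 2) ^ D := by
        rw [abs_mul, abs_of_nonneg (h.nonneg _ _)]
        apply mul_le_mul hr2 _ (h.nonneg _ _) (by positivity)
        refine (hD (ray k) m).trans ?_
        apply pow_le_pow_left₀ (by positivity)
        rw [hlev]
        have : (k : ℝ) ≤ K := by exact_mod_cast (by omega : k ≤ K)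
        linarith
      calc |(E + T L c) m + r * L (ray k) m| ≤ |(E + T L c) m| + |r * L (ray k) m| :=
            abs_add_le _ _
        _ ≤ ε * (1 + ((K : ℝ) + 2) ^ D) ^ j +
            (ε * (1 + ((K : ℝ) + 2) ^ D) ^ j) * ((K : ℝ) + 2) ^ D := add_le_add h1 h2
        _ = _ := by
            rw [pow_succ]
            ring

theorem fin_dim {ι κ : Type} (Φ : ((ι →₀ ℝ) × (κ →₀ ℝ)) →ₗ[ℝ] (ℤ → ℝ)) (k₀ : ℕ) :
    ∃ (C0 : ℝ) (I0 : Finset ι) (J0 : Finset κ), 0 ≤ C0 ∧
      ∀ v : (ι →₀ ℝ) × (κ →₀ ℝ), (∀ k : ℤ, (k₀ : ℤ) ≤ |k| → Φ v k = 0) →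
        ∀ ε : ℝ, (∀ k, |Φ v k| ≤ ε) → ∃ u : (ι →₀ ℝ) × (κ →₀ ℝ), Φ u = Φ v ∧
          (∀ i, |u.1 i| ≤ C0 * ε) ∧ (∀ j, |u.2 j| ≤ C0 * ε) ∧
          (∀ i, i ∉ I0 → u.1 i = 0) ∧ (∀ j, j ∉ J0 → u.2 j = 0) := by
  classical
  let P : Submodule ℝ ((ι →₀ ℝ) × (κ →₀ ℝ)) :=
    { carrier := {v | ∀ k : ℤ, (k₀ : ℤ) ≤ |k| → Φ v k = 0}
      add_mem' := by
        intro a b ha hb k hk
        rw [map_add, Pi.add_apply, ha k hk, hb k hk, add_zero]
      zero_mem' := by
        intro k _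
        rw [map_zero]
        rfl
      smul_mem' := by
        intro c a ha k hk
        rw [map_smul, Pi.smul_apply, ha k hk, smul_zero] }
  let S : Finset ℤ := Finset.Icc (-(k₀ : ℤ)) k₀
  let res : (ℤ → ℝ) →ₗ[ℝ] (S → ℝ) := LinearMap.funLeft ℝ ℝ (fun x : S => (x : ℤ))
  let g : P →ₗ[ℝ] (S → ℝ) := res.comp (Φ.comp P.subtype)
  obtain ⟨s, hs⟩ := LinearMap.exists_rightInverse_of_surjective g.rangeRestrict
    (LinearMap.range_rangeRestrict g)
  have hs' : ∀ r, g (s r) = (r : S → ℝ) := by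
    intro r
    have h1 : g.rangeRestrict (s r) = r := by
      have := congrArg (fun f => f r) hs
      exact this
    exact congrArg Subtype.val h1
  -- two elements of P with the same restriction have the same image
  have hdet : ∀ a b : P, g a = g b → Φ a.1 = Φ b.1 := by
    intro a b hab
    funext k
    by_cases hk : (k₀ : ℤ) ≤ |k|
    · rw [a.2 k hk, b.2 k hk]
    · have hkS : k ∈ S := by
        rw [Finset.mem_Icc]
        have h1 := abs_lt.1 (not_le.1 hk)
        omega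
      exact congrFun hab ⟨k, hkS⟩
  let bs := Module.finBasis ℝ (LinearMap.range g)
  let cc : Fin (Module.finrank ℝ (LinearMap.range g)) → (LinearMap.range g →L[ℝ] ℝ) :=
    fun l => LinearMap.toContinuousLinearMap (bs.coord l)
  let I0 : Finset ι := Finset.univ.biUnion (fun l => (s (bs l)).1.1.support)
  let J0 : Finset κ := Finset.univ.biUnion (fun l => (s (bs l)).1.2.support)
  let W : Fin (Module.finrank ℝ (LinearMap.range g)) → ℝ := fun l =>
    (∑ i ∈ I0, |(s (bs l)).1.1 i|) + ∑ j ∈ J0, |(s (bs l)).1.2 j|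
  have hW : ∀ l, 0 ≤ W l := fun l => add_nonneg (Finset.sum_nonneg (fun _ _ => abs_nonneg _))
    (Finset.sum_nonneg (fun _ _ => abs_nonneg _))
  have hcn : ∀ l, 0 ≤ ‖cc l‖ := fun l => norm_nonneg (cc l)
  refine ⟨∑ l, ‖cc l‖ * W l, I0, J0,
    Finset.sum_nonneg (fun l _ => mul_nonneg (hcn l) (hW l)), ?_⟩
  intro v hv ε hε
  have hε0 : 0 ≤ ε := (abs_nonneg _).trans (hε 0)
  let vP : P := ⟨v, hv⟩
  let r : LinearMap.range g := g.rangeRestrict vP
  have hrn : ‖r‖ ≤ ε := by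
    show ‖g vP‖ ≤ ε
    rw [pi_norm_le_iff_of_nonneg hε0]
    intro x
    exact hε x
  have hsr : s r = ∑ l, (bs.coord l r) • s (bs l) := by
    conv_lhs => rw [← bs.sum_repr r, map_sum]
    apply Finset.sum_congr rfl
    intro l _
    rw [map_smul]
    rfl
  have hco : ∀ l, |bs.coord l r| ≤ ‖cc l‖ * ε := by
    intro l
    have h1 := (cc l).le_opNorm r
    refine h1.trans ?_
    exact mul_le_mul_of_nonneg_left hrn (hcn l)
  have e1 : ∀ i, (s r).1.1 i = ∑ l, (bs.coord l r) * (s (bs l)).1.1 i := by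
    intro i
    rw [hsr]
    simp only [AddSubmonoidClass.coe_finsetSum, Prod.fst_sum, Finsupp.coe_finsetSum,
      Finset.sum_apply]
    rfl
  have e2 : ∀ j, (s r).1.2 j = ∑ l, (bs.coord l r) * (s (bs l)).1.2 j := by
    intro j
    rw [hsr]
    simp only [AddSubmonoidClass.coe_finsetSum, Prod.snd_sum, Finsupp.coe_finsetSum,
      Finset.sum_apply]
    rfl
  have z1 : ∀ i, i ∉ I0 → ∀ l, (s (bs l)).1.1 i = 0 := by
    intro i hi l
    by_contra hcon
    apply hi
    rw [Finset.mem_biUnion]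
    exact ⟨l, Finset.mem_univ _, Finsupp.mem_support_iff.2 hcon⟩
  have z2 : ∀ j, j ∉ J0 → ∀ l, (s (bs l)).1.2 j = 0 := by
    intro j hj l
    by_contra hcon
    apply hj
    rw [Finset.mem_biUnion]
    exact ⟨l, Finset.mem_univ _, Finsupp.mem_support_iff.2 hcon⟩
  have b1 : ∀ i l, |(s (bs l)).1.1 i| ≤ W l := by
    intro i l
    by_cases hi : i ∈ I0
    · have h1 := Finset.single_le_sum (f := fun i => |(s (bs l)).1.1 i|)
        (fun _ _ => abs_nonneg _) hi
      have h2 : 0 ≤ ∑ j ∈ J0, |(s (bs l)).1.2 j| := Finset.sum_nonneg (fun _ _ => abs_nonneg _)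
      exact h1.trans (le_add_of_nonneg_right h2)
    · rw [z1 i hi l, abs_zero]
      exact hW l
  have b2 : ∀ j l, |(s (bs l)).1.2 j| ≤ W l := by
    intro j l
    by_cases hj : j ∈ J0
    · have h1 := Finset.single_le_sum (f := fun j => |(s (bs l)).1.2 j|)
        (fun _ _ => abs_nonneg _) hj
      have h2 : 0 ≤ ∑ i ∈ I0, |(s (bs l)).1.1 i| := Finset.sum_nonneg (fun _ _ => abs_nonneg _)
      exact h1.trans (le_add_of_nonneg_left h2)
    · rw [z2 j hj l, abs_zero]
      exact hW l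
  refine ⟨(s r).1, hdet (s r) vP (hs' r), ?_, ?_, ?_, ?_⟩
  · intro i
    rw [e1, Finset.sum_mul]
    refine (Finset.abs_sum_le_sum_abs _ _).trans (Finset.sum_le_sum ?_)
    intro l _
    rw [abs_mul]
    calc |bs.coord l r| * |(s (bs l)).1.1 i| ≤ (‖cc l‖ * ε) * W l :=
          mul_le_mul (hco l) (b1 i l) (abs_nonneg _) (mul_nonneg (hcn l) hε0)
      _ = _ := by ring
  · intro j
    rw [e2, Finset.sum_mul]
    refine (Finset.abs_sum_le_sum_abs _ _).trans (Finset.sum_le_sum ?_)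
    intro l _
    rw [abs_mul]
    calc |bs.coord l r| * |(s (bs l)).1.2 j| ≤ (‖cc l‖ * ε) * W l :=
          mul_le_mul (hco l) (b2 j l) (abs_nonneg _) (mul_nonneg (hcn l) hε0)
      _ = _ := by ring
  · intro i hi
    rw [e1]
    apply Finset.sum_eq_zero
    intro l _
    rw [z1 i hi l, mul_zero]
  · intro j hj
    rw [e2]
    apply Finset.sum_eq_zero
    intro l _
    rw [z2 j hj l, mul_zero]

end Pool.Agent.H88.TRUNC

namespace Pool.Agent.H88

open TRUNC Filter Topology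

/-- Module TRUNC: from approximate infinite identities to an exact finite one. -/
theorem trunc {ι κ : Type} (lev : ι → ℕ) (L : ι → ℤ → ℝ) (w : ι → ℝ)
    (lev' : κ → ℕ) (L' : κ → ℤ → ℝ) (w' : κ → ℝ) (τ : ℝ) (hτ : 0 < τ)
    (h : TSide lev L w) (h' : TSide lev' L' w')
    (hray : ∃ c : ℝ, 0 < c ∧ ∃ k₀ : ℕ, ∀ k : ℕ, k₀ ≤ k → ∃ i, lev i = k ∧
      c * Real.exp (-τ * (k : ℝ) ^ 2) ≤ w i)
    (C : ℝ)
    (happ : ∀ K : ℕ, ∃ (a : ι →₀ ℝ) (a' : κ →₀ ℝ),
      (∀ k : ℤ, (a.sum fun i r => r * L i k) = a'.sum fun j r => r * L' j k) ∧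
      (∀ i, |a i| ≤ C * Real.exp (-τ * (lev i : ℝ) ^ 2)) ∧
      (∀ j, |a' j| ≤ C * Real.exp (-τ * (lev' j : ℝ) ^ 2)) ∧
      (∀ i, lev i ≤ K → w i ≤ a i) ∧ (∀ j, lev' j ≤ K → w' j ≤ a' j))
    (i₀ : ι) (j₀ : κ) :
    ∃ (x : ι →₀ ℝ) (y : κ →₀ ℝ), (∀ i, 0 ≤ x i) ∧ (∀ j, 0 ≤ y j) ∧ 0 < x i₀ ∧ 0 < y j₀ ∧
      ∀ k : ℤ, (x.sum fun i r => r * L i k) = y.sum fun j r => r * L' j k := by
  classical
  have hC : 0 ≤ C := by
    obtain ⟨a, a', _, h2, _⟩ := happ 0
    have h3 := (abs_nonneg _).trans (h2 i₀)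
    by_contra hcon
    have h4 := mul_neg_of_neg_of_pos (not_le.1 hcon) (Real.exp_pos (-τ * (lev i₀ : ℝ) ^ 2))
    linarith
  obtain ⟨C1, D1, hC1, htail1⟩ := tail_bound h τ hτ C hC
  obtain ⟨C2, D2, hC2, htail2⟩ := tail_bound h' τ hτ C hC
  obtain ⟨D, hD⟩ := h.bound
  obtain ⟨c0, hc0, k₀, hray⟩ := hray
  have hray' : ∀ k, ∃ i, k₀ ≤ k → lev i = k ∧ c0 * Real.exp (-τ * (k : ℝ) ^ 2) ≤ w i := by
    intro k
    by_cases hk : k₀ ≤ k
    · obtain ⟨i, hi⟩ := hray k hk
      exact ⟨i, fun _ => hi⟩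
    · exact ⟨i₀, fun hk' => absurd hk' hk⟩
  choose ray hray2 using hray'
  let Φ : ((ι →₀ ℝ) × (κ →₀ ℝ)) →ₗ[ℝ] (ℤ → ℝ) := (T L).coprod (-(T L'))
  have hΦ : ∀ u : (ι →₀ ℝ) × (κ →₀ ℝ), Φ u = T L u.1 - T L' u.2 := by
    intro u
    simp only [Φ, LinearMap.coprod_apply, LinearMap.neg_apply]
    rw [sub_eq_add_neg]
  obtain ⟨C0, I0, J0, hC0, hfin⟩ := fin_dim Φ k₀
  -- a lower bound for the weights on the finite sets
  obtain ⟨δ, hδ, hδ1, hδ2⟩ : ∃ δ : ℝ, 0 < δ ∧ (∀ i ∈ I0, δ ≤ w i) ∧ (∀ j ∈ J0, δ ≤ w' j) := by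
    have g1 : ∃ δ : ℝ, 0 < δ ∧ (∀ i ∈ I0, δ ≤ w i) := by
      rcases I0.eq_empty_or_nonempty with he | hne
      · exact ⟨1, one_pos, by simp [he]⟩
      · obtain ⟨i, hi, hmin⟩ := I0.exists_min_image w hne
        exact ⟨w i, h.wpos i, hmin⟩
    have g2 : ∃ δ : ℝ, 0 < δ ∧ (∀ j ∈ J0, δ ≤ w' j) := by
      rcases J0.eq_empty_or_nonempty with he | hne
      · exact ⟨1, one_pos, by simp [he]⟩
      · obtain ⟨i, hi, hmin⟩ := J0.exists_min_image w' hne
        exact ⟨w' i, h'.wpos i, hmin⟩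
    obtain ⟨δ1, h1, h2⟩ := g1
    obtain ⟨δ2, h3, h4⟩ := g2
    exact ⟨min δ1 δ2, lt_min h1 h3, fun i hi => (min_le_left _ _).trans (h2 i hi),
      fun j hj => (min_le_right _ _).trans (h4 j hj)⟩
  -- choice of K
  have ev1 : ∀ᶠ K : ℕ in atTop, (C1 + C2) * (((K : ℝ) + 3) ^ (D1 + D2) *
      Real.exp (-τ * ((K : ℝ) + 1))) < c0 / 4 := by
    have := (poly_exp_tendsto (D1 + D2) τ hτ).const_mul (C1 + C2)
    rw [mul_zero] at this
    exact this.eventually_lt_const (by positivity)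
  have ev2 : ∀ᶠ K : ℕ in atTop, 2 * (((K : ℝ) + 3) ^ D * Real.exp (-τ * ((K : ℝ) + 1))) < 1 := by
    have := (poly_exp_tendsto D τ hτ).const_mul 2
    rw [mul_zero] at this
    exact this.eventually_lt_const one_pos
  have ev3 : ∀ᶠ K : ℕ in atTop, (C0 * (C1 + C2) * 2) * (((K : ℝ) + 3) ^ (D1 + D2 + D) *
      Real.exp (-τ * ((K : ℝ) + 1))) < δ / 4 := by
    have := (poly_exp_tendsto (D1 + D2 + D) τ hτ).const_mul (C0 * (C1 + C2) * 2)
    rw [mul_zero] at this
    exact this.eventually_lt_const (by positivity)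
  have ev4 : ∀ᶠ K : ℕ in atTop, I0.sup lev ≤ K := eventually_ge_atTop _
  have ev5 : ∀ᶠ K : ℕ in atTop, J0.sup lev' ≤ K := eventually_ge_atTop _
  have ev6 : ∀ᶠ K : ℕ in atTop, lev i₀ ≤ K := eventually_ge_atTop _
  have ev7 : ∀ᶠ K : ℕ in atTop, lev' j₀ ≤ K := eventually_ge_atTop _
  have ev8 : ∀ᶠ K : ℕ in atTop, k₀ ≤ K := eventually_ge_atTop _
  obtain ⟨K, h1, h2, h3, h4, h5, h6, h7, h8⟩ :=
    (ev1.and (ev2.and (ev3.and (ev4.and (ev5.and (ev6.and (ev7.and ev8))))))).exists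
  obtain ⟨a, a', ha1, ha2, ha3, ha4, ha5⟩ := happ K
  -- notation
  let X : ℝ := Real.exp (-τ * ((K : ℝ) + 1))
  have hX : 0 < X := Real.exp_pos _
  let B : ℝ := 1 + ((K : ℝ) + 2) ^ D
  have hB1 : 1 ≤ B := by
    have : (0 : ℝ) ≤ ((K : ℝ) + 2) ^ D := by positivity
    simp only [B]
    linarith
  let G : ℝ := (C1 + C2) * ((K : ℝ) + 3) ^ (D1 + D2)
  have hG : 0 ≤ G := by positivity
  let ε : ℝ := G * Real.exp (-τ * ((K : ℝ) + 1) ^ 2)
  have hε : 0 ≤ ε := by positivity
  have hB2 : B ≤ 2 * ((K : ℝ) + 3) ^ D := by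
    have g1 : ((K : ℝ) + 2) ^ D ≤ ((K : ℝ) + 3) ^ D :=
      pow_le_pow_left₀ (by positivity) (by linarith) _
    have g2 : (1 : ℝ) ≤ ((K : ℝ) + 3) ^ D := one_le_pow₀ (by
      have : (0 : ℝ) ≤ K := Nat.cast_nonneg K
      linarith)
    simp only [B]
    linarith
  have hq : B * X ≤ 1 := by
    have : B * X ≤ 2 * ((K : ℝ) + 3) ^ D * X := mul_le_mul_of_nonneg_right hB2 hX.le
    have h2' : 2 * (((K : ℝ) + 3) ^ D * X) < 1 := h2
    linarith [mul_assoc 2 (((K : ℝ) + 3) ^ D) X]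
  have hexp : Real.exp (-τ * ((K : ℝ) + 1) ^ 2) = X ^ (K + 1) := by
    simp only [X]
    rw [← Real.exp_nat_mul]
    congr 1
    push_cast
    ring
  -- key estimate for the ray
  have star1 : ∀ l : ℕ, l ≤ K → ε * B ^ (K - l) ≤ c0 / 4 * Real.exp (-τ * (l : ℝ) ^ 2) := by
    intro l hl
    obtain ⟨j, hj⟩ := Nat.exists_eq_add_of_le hl
    have hKl : K - l = j := by omega
    rw [hKl]
    have hKc : (K : ℝ) = l + j := by
      rw [hj]
      push_cast
      ring
    have g1 : Real.exp (-τ * ((K : ℝ) + 1) ^ 2) ≤ Real.exp (-τ * (l : ℝ) ^ 2) * X ^ (j + 1) := by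
      simp only [X]
      rw [← Real.exp_nat_mul, ← Real.exp_add]
      apply Real.exp_le_exp.2
      have hl0 : (0 : ℝ) ≤ l := Nat.cast_nonneg l
      have hj0 : (0 : ℝ) ≤ j := Nat.cast_nonneg j
      push_cast
      have : ((K : ℝ) + 1) ^ 2 - (l : ℝ) ^ 2 - ((j : ℝ) + 1) * ((K : ℝ) + 1) =
          ((j : ℝ) + 1) * l := by
        rw [hKc]
        ring
      have g2 : 0 ≤ τ * (((j : ℝ) + 1) * l) := by positivity
      nlinarith
    calc ε * B ^ j ≤ (G * (Real.exp (-τ * (l : ℝ) ^ 2) * X ^ (j + 1))) * B ^ j := by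
          apply mul_le_mul_of_nonneg_right _ (by positivity)
          exact mul_le_mul_of_nonneg_left g1 hG
      _ = (G * X) * (B * X) ^ j * Real.exp (-τ * (l : ℝ) ^ 2) := by
          rw [mul_pow, pow_succ]
          ring
      _ ≤ (c0 / 4) * 1 * Real.exp (-τ * (l : ℝ) ^ 2) := by
          apply mul_le_mul_of_nonneg_right _ (Real.exp_pos _).le
          apply mul_le_mul _ (pow_le_one₀ (by positivity) hq) (by positivity) (by positivity)
          have h1' : (C1 + C2) * (((K : ℝ) + 3) ^ (D1 + D2) * X) < c0 / 4 := h1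
          have : G * X = (C1 + C2) * (((K : ℝ) + 3) ^ (D1 + D2) * X) := by
            simp only [G]
            ring
          rw [this]
          exact h1'.le
      _ = _ := by ring
  have star2 : C0 * (ε * B ^ (K + 1 - k₀)) ≤ δ / 4 := by
    have g1 : ε * B ^ (K + 1 - k₀) ≤ G * (B * X) := by
      calc ε * B ^ (K + 1 - k₀) ≤ ε * B ^ (K + 1) := by
            apply mul_le_mul_of_nonneg_left _ hε
            exact pow_le_pow_right₀ hB1 (by omega)
        _ = G * (B * X) ^ (K + 1) := by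
            simp only [ε]
            rw [hexp, mul_pow]
            ring
        _ ≤ G * (B * X) := by
            apply mul_le_mul_of_nonneg_left _ hG
            have g2 : 0 ≤ B * X := by positivity
            calc (B * X) ^ (K + 1) ≤ (B * X) ^ 1 := pow_le_pow_of_le_one g2 hq (by omega)
              _ = B * X := pow_one _
    have g2 : G * (B * X) ≤ G * (2 * ((K : ℝ) + 3) ^ D * X) := by
      apply mul_le_mul_of_nonneg_left _ hG
      exact mul_le_mul_of_nonneg_right hB2 hX.le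
    have g3 : C0 * (G * (2 * ((K : ℝ) + 3) ^ D * X)) =
        (C0 * (C1 + C2) * 2) * (((K : ℝ) + 3) ^ (D1 + D2 + D) * X) := by
      simp only [G]
      rw [pow_add _ (D1 + D2) D]
      ring
    have h3' : (C0 * (C1 + C2) * 2) * (((K : ℝ) + 3) ^ (D1 + D2 + D) * X) < δ / 4 := h3
    have g4 : C0 * (ε * B ^ (K + 1 - k₀)) ≤ C0 * (G * (2 * ((K : ℝ) + 3) ^ D * X)) :=
      mul_le_mul_of_nonneg_left (g1.trans g2) hC0
    rw [g3] at g4
    exact g4.trans h3'.le
  -- truncation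
  let aK : ι →₀ ℝ := a.filter (fun i => lev i ≤ K)
  let aT : ι →₀ ℝ := a.filter (fun i => ¬ lev i ≤ K)
  let bK : κ →₀ ℝ := a'.filter (fun j => lev' j ≤ K)
  let bT : κ →₀ ℝ := a'.filter (fun j => ¬ lev' j ≤ K)
  have haK : aK + aT = a := Finsupp.filter_add_filter_not a _
  have hbK : bK + bT = a' := Finsupp.filter_add_filter_not a' _
  let E : ℤ → ℝ := T L aK - T L' bK
  have hE : E = T L' bT - T L aT := by
    have g1 : T L a = T L' a' := by
      funext k
      rw [T_apply, T_apply]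
      exact ha1 k
    rw [← haK, ← hbK, map_add, map_add] at g1
    simp only [E]
    have g2 : T L aK = T L' bK + T L' bT - T L aT := by
      rw [← g1]
      abel
    rw [g2]
    abel
  have hEbound : ∀ k, |E k| ≤ ε := by
    intro k
    rw [hE]
    simp only [Pi.sub_apply]
    have g1 := htail1 K aT (by
      intro i
      by_cases hi : lev i ≤ K
      · have : aT i = 0 := Finsupp.filter_apply_neg _ _ (by simpa using hi)
        rw [this, abs_zero]
        positivity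
      · have : aT i = a i := Finsupp.filter_apply_pos _ _ hi
        rw [this]
        exact ha2 i) (by
      intro i hi
      exact Finsupp.filter_apply_neg _ _ (by simpa using hi)) k
    have g2 := htail2 K bT (by
      intro i
      by_cases hi : lev' i ≤ K
      · have : bT i = 0 := Finsupp.filter_apply_neg _ _ (by simpa using hi)
        rw [this, abs_zero]
        positivity
      · have : bT i = a' i := Finsupp.filter_apply_pos _ _ hi
        rw [this]
        exact ha3 i) (by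
      intro i hi
      exact Finsupp.filter_apply_neg _ _ (by simpa using hi)) k
    rw [← T_apply] at g1 g2
    have hE0 := Real.exp_pos (-τ * ((K : ℝ) + 1) ^ 2)
    have hK3 : (1 : ℝ) ≤ (K : ℝ) + 3 := by
      have : (0 : ℝ) ≤ K := Nat.cast_nonneg K
      linarith
    have p1 : ((K : ℝ) + 3) ^ D1 ≤ ((K : ℝ) + 3) ^ (D1 + D2) :=
      pow_le_pow_right₀ hK3 (by omega)
    have p2 : ((K : ℝ) + 3) ^ D2 ≤ ((K : ℝ) + 3) ^ (D1 + D2) :=
      pow_le_pow_right₀ hK3 (by omega)
    calc |T L' bT k - T L aT k| ≤ |T L' bT k| + |T L aT k| := abs_sub _ _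
      _ ≤ C2 * ((K : ℝ) + 3) ^ D2 * Real.exp (-τ * ((K : ℝ) + 1) ^ 2) +
          C1 * ((K : ℝ) + 3) ^ D1 * Real.exp (-τ * ((K : ℝ) + 1) ^ 2) := add_le_add g2 g1
      _ ≤ C2 * ((K : ℝ) + 3) ^ (D1 + D2) * Real.exp (-τ * ((K : ℝ) + 1) ^ 2) +
          C1 * ((K : ℝ) + 3) ^ (D1 + D2) * Real.exp (-τ * ((K : ℝ) + 1) ^ 2) := by
          apply add_le_add
          · exact mul_le_mul_of_nonneg_right (mul_le_mul_of_nonneg_left p2 hC2) hE0.le
          · exact mul_le_mul_of_nonneg_right (mul_le_mul_of_nonneg_left p1 hC1) hE0.le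
      _ = ε := by
          simp only [ε, G]
          ring
  have hEeven : ∀ k, E k = E (-k) := by
    intro k
    simp only [E, Pi.sub_apply]
    rw [T_even h aK k, T_even h' bK k]
  have hEsupp : ∀ k : ℤ, (K : ℤ) < |k| → E k = 0 := by
    intro k hk
    simp only [E, Pi.sub_apply]
    rw [T_supp h aK K (fun i hi => Finsupp.filter_apply_neg _ _ (by omega)) k hk,
      T_supp h' bK K (fun i hi => Finsupp.filter_apply_neg _ _ (by omega)) k hk, sub_zero]
  obtain ⟨c, hc1, hc2, hc3, hc4, hc5⟩ := top_down h D hD ray k₀ (fun k hk => (hray2 k hk).1) K E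
    hEeven hEsupp ε hEbound (K + 1 - k₀) (by omega)
  let v : (ι →₀ ℝ) × (κ →₀ ℝ) := (aK + c, bK)
  have hv : Φ v = E + T L c := by
    rw [hΦ]
    simp only [v, E, map_add]
    abel
  obtain ⟨u, hu1, hu2, hu3, hu4, hu5⟩ := hfin v (by
    intro k hk
    rw [hv]
    apply hc4
    push_cast [Nat.cast_sub (by omega : k₀ ≤ K + 1)]
    omega) (ε * B ^ (K + 1 - k₀)) (by
    intro k
    rw [hv]
    exact hc5 k)
  have hclev : ∀ i, |c i| ≤ w i / 4 := by
    intro i
    by_cases hci : c i = 0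
    · rw [hci, abs_zero]
      exact div_nonneg (h.wpos i).le (by norm_num)
    · obtain ⟨g1, g2, g3, _⟩ := hc1 i hci
      have g4 := star1 (lev i) g3
      have g5 := (hray2 (lev i) g2).2
      rw [← g1] at g5
      have g6 := hc2 i
      calc |c i| ≤ ε * B ^ (K - lev i) := g6
        _ ≤ c0 / 4 * Real.exp (-τ * (lev i : ℝ) ^ 2) := g4
        _ ≤ w i / 4 := by linarith
  have hulev : ∀ i, |u.1 i| ≤ w i / 4 := by
    intro i
    by_cases hi : i ∈ I0
    · have g1 := (hu2 i).trans star2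
      have g2 := hδ1 i hi
      linarith
    · rw [hu4 i hi, abs_zero]
      exact div_nonneg (h.wpos i).le (by norm_num)
  have hulev' : ∀ j, |u.2 j| ≤ w' j / 4 := by
    intro j
    by_cases hj : j ∈ J0
    · have g1 := (hu3 j).trans star2
      have g2 := hδ2 j hj
      linarith
    · rw [hu5 j hj, abs_zero]
      exact div_nonneg (h'.wpos j).le (by norm_num)
  have hxpos : ∀ i, lev i ≤ K → 0 < (aK + c - u.1) i := by
    intro i hi
    have g1 : aK i = a i := Finsupp.filter_apply_pos _ _ hi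
    have g2 := ha4 i hi
    have g3 := (abs_le.1 (hclev i)).1
    have g4 := (abs_le.1 (hulev i)).2
    have g5 := h.wpos i
    rw [Finsupp.sub_apply, Finsupp.add_apply, g1]
    linarith
  have hypos : ∀ j, lev' j ≤ K → 0 < (bK - u.2) j := by
    intro j hj
    have g1 : bK j = a' j := Finsupp.filter_apply_pos _ _ hj
    have g2 := ha5 j hj
    have g4 := (abs_le.1 (hulev' j)).2
    have g5 := h'.wpos j
    rw [Finsupp.sub_apply, g1]
    linarith
  refine ⟨aK + c - u.1, bK - u.2, ?_, ?_, hxpos i₀ h6, hypos j₀ h7, ?_⟩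
  · intro i
    by_cases hi : lev i ≤ K
    · exact (hxpos i hi).le
    · have g1 : aK i = 0 := Finsupp.filter_apply_neg _ _ hi
      have g2 : c i = 0 := by
        by_contra hcon
        exact hi (hc1 i hcon).2.2.1
      have g3 : u.1 i = 0 := by
        apply hu4
        intro hmem
        exact hi ((Finset.le_sup (f := lev) hmem).trans h4)
      rw [Finsupp.sub_apply, Finsupp.add_apply, g1, g2, g3]
      norm_num
  · intro j
    by_cases hj : lev' j ≤ K
    · exact (hypos j hj).le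
    · have g1 : bK j = 0 := Finsupp.filter_apply_neg _ _ hj
      have g3 : u.2 j = 0 := by
        apply hu5
        intro hmem
        exact hj ((Finset.le_sup (f := lev') hmem).trans h5)
      rw [Finsupp.sub_apply, g1, g3]
      norm_num
  · intro k
    rw [← T_apply, ← T_apply]
    have g1 : T L (aK + c - u.1) = T L' (bK - u.2) := by
      have g2 : T L u.1 - T L' u.2 = T L (aK + c) - T L' bK := by
        rw [← hΦ u, hu1, hΦ v]
      rw [map_sub, map_sub]
      have g3 : T L (aK + c) = T L u.1 - T L' u.2 + T L' bK := by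
        rw [g2]
        abel
      rw [g3]
      abel
    rw [g1]

end Pool.Agent.H88
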