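import Mathlib
import Pool.Agent.H88.Amalg.Defs
import Pool.Agent.H88.Amalg.Minor
import Pool.Agent.H88.Amalg.Side
import Pool.Agent.H88.Amalg.Count
import Pool.Agent.H88.Amalg.Lev
import Pool.Agent.H88.Amalg.Alt
import Pool.Agent.H88.Amalg.TRUNC
import Pool.Agent.H88.Amalg.GAUSS

set_option autoImplicit false

namespace Pool.Agent.H88

open Matrix Finset Filter

namespace Comb

theorem expand {m n : ℕ} (p : Fin m → ℤ) (hp : Good p) (hm : 0 < m) (q : Fin n → ℤ)
    (t : ℝ) (N M : ℕ) (hM : Count.M1 q N ≤ M)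
    (S : (Fin m → ℕ) → MvPolynomial (Fin m) ℕ) (hS : ∀ lam, Antitone lam → IsSchur (S lam) lam)
    (k : ℤ) :
    (Count.coef hm (gN t N q) M).sum (fun i r => r * (levc (S i.1) p k : ℝ)) =
      Count.W t N p q k := by
  rw [Count.coef_sum]
  have h1 : ∀ lam ∈ (Count.antis m (2 * M)).attach,
      Side.A (gN t N q) (Count.toZ lam.1) (-(M : ℤ)) * (levc (S (Count.base lam.1)) p k : ℝ) =
      Matrix.det (Matrix.of fun i j : Fin m =>
        (fun x : ℤ => gN t N q (x - M)) ((lam.1 i : ℤ) + (rho m i : ℤ) - (rho m j : ℤ))) *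
          (levc (S lam.1) p k : ℝ) := by
    intro lam _
    have hanti := ((Count.mem_antis lam.1).mp lam.2).2
    have hb := Count.base_mem hm lam.1 hanti
    have h2 : levc (S lam.1) p k = levc (S (Count.base lam.1)) p k := by
      apply levc_shift (Count.base lam.1) (sInf (Set.range lam.1)) _ _
        (hS _ hb.1) _ p (Lev.sum_zero p hp) k
      have h3 : (fun i => Count.base lam.1 i + sInf (Set.range lam.1)) = lam.1 := by
        funext i
        exact (Count.base_add lam.1 i).symm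
      rw [h3]
      exact hS _ hanti
    rw [h2]
    congr 1
    unfold Side.A
    congr 1
    ext i j
    simp only [Matrix.of_apply, Count.toZ]
    congr 1
    ring
  rw [Finset.sum_congr rfl h1]
  rw [Finset.sum_attach (Count.antis m (2 * M)) (fun lam => Matrix.det (Matrix.of fun i j : Fin m =>
        (fun x : ℤ => gN t N q (x - M)) ((lam i : ℤ) + (rho m i : ℤ) - (rho m j : ℤ))) *
          (levc (S lam) p k : ℝ))]
  have h4 := schur_expansion (2 * M) (fun x : ℤ => gN t N q (x - M)) (by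
    intro x hx
    apply Count.gN_eq_zero
    have : (Count.M1 q N : ℤ) ≤ M := by exact_mod_cast hM
    push_cast at hx
    omega) S hS p k
  unfold Count.antis
  rw [← h4, ← Count.W_eq t N p q k M hM]
  refine Finset.sum_bij' (fun μ _ => fun i => μ i - M) (fun μ _ => fun i => μ i + M)
    ?_ ?_ ?_ ?_ ?_
  · intro μ hμ
    simp only [Fintype.mem_piFinset, Finset.mem_Icc] at hμ ⊢
    intro i
    have := hμ i
    push_cast at this
    omega
  · intro μ hμ
    simp only [Fintype.mem_piFinset, Finset.mem_Icc] at hμ ⊢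
    intro i
    have := hμ i
    push_cast
    omega
  · intro μ _
    funext i
    simp
  · intro μ _
    funext i
    simp
  · intro μ _
    have h5 : ∑ i, (μ i - M) * p i = ∑ i, μ i * p i := by
      simp only [sub_mul]
      rw [Finset.sum_sub_distrib, ← Finset.mul_sum, Lev.sum_zero p hp]
      ring
    rw [h5]

/-- The level of an element of the index set. -/
def lev {m : ℕ} (p : Fin m → ℤ) (i : Count.D0 m) : ℕ := (∑ j, (i.1 j : ℤ) * p j).toNat

theorem lev_eq {m : ℕ} (p : Fin m → ℤ) (hp : Good p) (i : Count.D0 m) :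
    (lev p i : ℤ) = ∑ j, (i.1 j : ℤ) * p j := by
  have hm := Lev.pos_m p hp
  have h := Lev.lev_ge p hp hm i.1 i.2.1 i.2.2 ⟨0, hm⟩
  unfold lev
  rw [Int.toNat_of_nonneg]
  have : (0 : ℤ) ≤ (i.1 ⟨0, hm⟩ : ℤ) := by positivity
  omega

theorem apply_le_lev {m : ℕ} (p : Fin m → ℤ) (hp : Good p) (i : Count.D0 m) (j : Fin m) :
    i.1 j ≤ lev p i := by
  have hm := Lev.pos_m p hp
  have h := Lev.lev_ge p hp hm i.1 i.2.1 i.2.2 j
  rw [← lev_eq p hp i] at h
  exact_mod_cast h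

/-- the finite set of indices of level at most `K` -/
theorem exists_finset {m : ℕ} (p : Fin m → ℤ) (hp : Good p) (K : ℕ) :
    ∃ s : Finset (Count.D0 m), (∀ i, lev p i ≤ K → i ∈ s) ∧ s.card ≤ (K + 2) ^ m := by
  classical
  refine ⟨(Fintype.piFinset (fun _ : Fin m => Finset.range (K + 1))).subtype
    (fun ν => Antitone ν ∧ ∃ i, ν i = 0), ?_, ?_⟩
  · intro i hi
    rw [Finset.mem_subtype, Fintype.mem_piFinset]
    intro j
    have := apply_le_lev p hp i j
    rw [Finset.mem_range]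
    omega
  · rw [Finset.card_subtype]
    refine (Finset.card_filter_le _ _).trans ?_
    rw [Fintype.card_piFinset]
    simp only [Finset.card_range, Finset.prod_const, Finset.card_univ, Fintype.card_fin]
    exact Nat.pow_le_pow_left (by omega) m

theorem add_le_pow (x m : ℕ) : x + m ≤ (x + 2) ^ m ∨ m = 0 := by
  rcases Nat.eq_zero_or_pos m with h | h
  · exact Or.inr h
  · left
    induction m with
    | zero => omega
    | succ m ih =>
      rcases Nat.eq_zero_or_pos m with h' | h'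
      · subst h'; simp
      · have := ih h'
        calc x + (m + 1) ≤ 2 * (x + m) := by omega
          _ ≤ (x + 2) * (x + m) := Nat.mul_le_mul_right _ (by omega)
          _ ≤ (x + 2) * (x + 2) ^ m := Nat.mul_le_mul_left _ this
          _ = (x + 2) ^ (m + 1) := by ring

theorem levc_le_sum {m : ℕ} (s : MvPolynomial (Fin m) ℕ) (p : Fin m → ℤ) (k : ℤ) :
    levc s p k ≤ ∑ μ ∈ s.support, s.coeff μ := by
  unfold levc
  refine Finset.sum_le_sum fun μ _ => ?_
  split_ifs <;> simp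

theorem tside {m : ℕ} (p : Fin m → ℤ) (hp : Good p)
    (S : (Fin m → ℕ) → MvPolynomial (Fin m) ℕ) (hS : ∀ lam, Antitone lam → IsSchur (S lam) lam)
    (w : Count.D0 m → ℝ) (hw : ∀ i, 0 < w i) :
    TSide (lev p) (fun i k => (levc (S i.1) p k : ℝ)) w := by
  have hm := Lev.pos_m p hp
  refine ⟨?_, ?_, ?_, ?_, ?_, ?_, hw⟩
  · intro i k
    have := levc_neg i.1 (S i.1) (hS _ i.2.1) p hp.2.1 k
    exact_mod_cast this
  · intro i k
    positivity
  · intro i k hk
    by_contra hne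
    have hne' : levc (S i.1) p k ≠ 0 := fun h => hne (by simp [h])
    have h1 := levc_le_top i.1 i.2.1 (S i.1) (hS _ i.2.1) p hp.1 k hne'
    have h2 : levc (S i.1) p (-k) ≠ 0 := by
      rw [← levc_neg i.1 (S i.1) (hS _ i.2.1) p hp.2.1 k]
      exact hne'
    have h3 := levc_le_top i.1 i.2.1 (S i.1) (hS _ i.2.1) p hp.1 (-k) h2
    rw [← lev_eq p hp i] at h1 h3
    have h4 : |k| ≤ (lev p i : ℤ) := abs_le.mpr ⟨by omega, h1⟩
    omega
  · intro i
    have := one_le_levc_top i.1 i.2.1 (S i.1) (hS _ i.2.1) p hp.1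
    rw [← lev_eq p hp i] at this
    exact_mod_cast this
  · refine ⟨m * (m * m), fun i k => ?_⟩
    have h1 := sum_coeff_le i.1 i.2.1 (lev p i) (apply_le_lev p hp i) (S i.1) (hS _ i.2.1)
    have h2 := levc_le_sum (S i.1) p k
    have h3 : lev p i + m ≤ (lev p i + 2) ^ m := by
      rcases add_le_pow (lev p i) m with h | h
      · exact h
      · omega
    have h4 : (lev p i + m) ^ (m * m) ≤ (lev p i + 2) ^ (m * (m * m)) := by
      calc (lev p i + m) ^ (m * m) ≤ ((lev p i + 2) ^ m) ^ (m * m) := Nat.pow_le_pow_left h3 _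
        _ = _ := by rw [← pow_mul]
    have h5 := h2.trans (h1.trans h4)
    exact_mod_cast h5
  · exact ⟨m, fun K => exists_finset p hp K⟩

theorem pow_sub_one_le (m : ℕ) (x : ℝ) (h0 : 0 ≤ x) (h1 : x ≤ 1) : (1 + x) ^ m - 1 ≤ 2 ^ m * x := by
  induction m with
  | zero => simpa using h0
  | succ m ih =>
    have h2 : (1 + x) ^ m ≤ 2 ^ m := pow_le_pow_left₀ (by linarith) (by linarith) m
    have h3 : (1 + x) ^ (m + 1) - 1 = ((1 + x) ^ m - 1) + x * (1 + x) ^ m := by ring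
    rw [h3]
    have h4 : x * (1 + x) ^ m ≤ x * 2 ^ m := mul_le_mul_of_nonneg_left h2 h0
    calc _ ≤ 2 ^ m * x + x * 2 ^ m := add_le_add ih h4
      _ = _ := by ring

theorem small_t (m D : ℕ) (hD : m * m + 1 ≤ D) (Q2 : ℝ) (hQ : 0 < Q2) :
    ∃ t₁ : ℝ, 0 < t₁ ∧ ∀ t : ℝ, 0 < t → t < t₁ →
      (m.factorial : ℝ) * ((1 + t ^ D) ^ m - 1) ≤
        (1 - Real.exp (-2 * (t / Q2))) ^ (m * m) / 2 := by
  set c : ℝ := 1 / Q2 with hc
  have hcpos : 0 < c := by positivity
  set t₁ : ℝ := min (min 1 (1 / (2 * c))) (c ^ (m * m) / (2 * (m.factorial * 2 ^ m))) with ht₁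
  have hfpos : (0 : ℝ) < m.factorial := by exact_mod_cast m.factorial_pos
  refine ⟨t₁, by positivity, fun t ht htt => ?_⟩
  have ht1 : t ≤ 1 := (htt.le.trans (min_le_left _ _)).trans (min_le_left _ _)
  have ht2 : t ≤ 1 / (2 * c) := (htt.le.trans (min_le_left _ _)).trans (min_le_right _ _)
  have ht3 : t ≤ c ^ (m * m) / (2 * (m.factorial * 2 ^ m)) := htt.le.trans (min_le_right _ _)
  have h1 : c * t ≤ 1 - Real.exp (-2 * (t / Q2)) := by
    have h2 : 2 * (t / Q2) = 2 * (c * t) := by rw [hc]; ring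
    set y : ℝ := 2 * (c * t) with hy
    have hy0 : 0 ≤ y := by positivity
    have hy1 : y ≤ 1 := by
      have h20 : t * (2 * c) ≤ 1 := by
        rw [le_div_iff₀ (by positivity)] at ht2
        exact ht2
      rw [hy]; linarith
    have h3 : -2 * (t / Q2) = -y := by rw [← h2]; ring
    rw [h3]
    have h4 : Real.exp (-y) ≤ 1 - y / 2 := by
      rw [Real.exp_neg]
      have h5 : 1 + y ≤ Real.exp y := by linarith [Real.add_one_le_exp y]
      have h6 : 0 < 1 + y := by linarith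
      calc (Real.exp y)⁻¹ ≤ (1 + y)⁻¹ := inv_anti₀ h6 h5
        _ ≤ 1 - y / 2 := by
          rw [inv_le_iff_one_le_mul₀ h6]
          nlinarith
    have h7 : c * t = y / 2 := by rw [hy]; ring
    linarith
  have h5 : (1 + t ^ D) ^ m - 1 ≤ 2 ^ m * t ^ D :=
    pow_sub_one_le m (t ^ D) (by positivity) (pow_le_one₀ ht.le ht1)
  have h6 : t ^ D ≤ t ^ (m * m + 1) := pow_le_pow_of_le_one ht.le ht1 hD
  have h7 : (c * t) ^ (m * m) ≤ (1 - Real.exp (-2 * (t / Q2))) ^ (m * m) :=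
    pow_le_pow_left₀ (by positivity) h1 _
  have h8 : (m.factorial : ℝ) * ((1 + t ^ D) ^ m - 1) ≤ m.factorial * (2 ^ m * t ^ (m * m + 1)) :=
    mul_le_mul_of_nonneg_left (h5.trans (mul_le_mul_of_nonneg_left h6 (by positivity))) hfpos.le
  have h9 : (m.factorial : ℝ) * (2 ^ m * t ^ (m * m + 1)) ≤ (c * t) ^ (m * m) / 2 := by
    rw [le_div_iff₀ (by positivity)] at ht3
    rw [mul_pow, pow_succ]
    have h10 : 0 ≤ t ^ (m * m) := by positivity
    calc (m.factorial : ℝ) * (2 ^ m * (t ^ (m * m) * t))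
        = (t * (2 * (m.factorial * 2 ^ m))) * t ^ (m * m) / 2 := by ring
      _ ≤ c ^ (m * m) * t ^ (m * m) / 2 := by
        apply div_le_div_of_nonneg_right _ (by norm_num)
        exact mul_le_mul_of_nonneg_right ht3 h10
  linarith

theorem sumsq_pos {m : ℕ} (p : Fin m → ℤ) (hp : Good p) : 0 < ∑ i, (p i : ℝ) ^ 2 := by
  obtain ⟨i, hi⟩ := Lev.exists_ne p hp
  apply Finset.sum_pos'
  · intro j _; positivity
  · exact ⟨i, Finset.mem_univ i, by
      have : (p i : ℝ) ≠ 0 := by exact_mod_cast hi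
      positivity⟩

theorem M1_ge {m : ℕ} (p : Fin m → ℤ) (hp : Good p) (N : ℕ) : N ≤ Count.M1 p N := by
  obtain ⟨i, hi⟩ := Lev.exists_ne p hp
  unfold Count.M1
  have h1 : 1 ≤ (p i).natAbs := Nat.one_le_iff_ne_zero.mpr (Int.natAbs_ne_zero.mpr hi)
  have h2 : (p i).natAbs ≤ ∑ j, (p j).natAbs :=
    Finset.single_le_sum (f := fun j => (p j).natAbs) (fun _ _ => Nat.zero_le _)
      (Finset.mem_univ i)
  nlinarith

/-- Everything about one side, for a fixed `t`. -/
theorem side {m n : ℕ} (p : Fin m → ℤ) (hp : Good p) (hm : 0 < m) (q : Fin n → ℤ) (hq : Good q)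
    (t : ℝ) (ht : 0 < t) (D : ℕ) (G : ℝ) (hG : 0 < G)
    (h1 : ∀ (N : ℕ) (k : ℤ), gN t N q k ≤
        (1 + t ^ D) * G * Real.exp (-(t / ∑ j, (q j : ℝ) ^ 2) * (k : ℝ) ^ 2))
    (h2 : ∀ k : ℤ, ∀ᶠ N : ℕ in Filter.atTop,
        (1 - t ^ D) * G * Real.exp (-(t / ∑ j, (q j : ℝ) ^ 2) * (k : ℝ) ^ 2) ≤ gN t N q k)
    (hsmall : (m.factorial : ℝ) * ((1 + t ^ D) ^ m - 1) ≤
        (1 - Real.exp (-2 * (t / ∑ j, (q j : ℝ) ^ 2))) ^ (m * m) / 2)
    (Mf : ℕ → ℕ) (hMf : ∀ N, Count.M1 q N ≤ Mf N) :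
    ∃ (w : Count.D0 m → ℝ) (C : ℝ), (∀ i, 0 < w i) ∧ 0 < C ∧
      (∀ N i, |Count.coef hm (gN t N q) (Mf N) i| ≤
        C * Real.exp (-(t / ((∑ j, (p j : ℝ) ^ 2) * ∑ j, (q j : ℝ) ^ 2)) * (lev p i : ℝ) ^ 2)) ∧
      (∀ i, ∀ᶠ N : ℕ in Filter.atTop, w i ≤ Count.coef hm (gN t N q) (Mf N) i) ∧
      (∃ c : ℝ, 0 < c ∧ ∃ k₀ : ℕ, ∀ k : ℕ, k₀ ≤ k → ∃ i, lev p i = k ∧
      c * Real.exp (-(t / ((∑ j, (p j : ℝ) ^ 2) * ∑ j, (q j : ℝ) ^ 2)) * (k : ℝ) ^ 2) ≤ w i) := by
  have hQ := sumsq_pos q hq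
  have hP := sumsq_pos p hp
  set Q2 : ℝ := ∑ j, (q j : ℝ) ^ 2 with hQ2
  set P2 : ℝ := ∑ j, (p j : ℝ) ^ 2 with hP2
  set τ : ℝ := t / Q2 with hτ
  have hτpos : 0 < τ := by positivity
  have hττ : ∀ x : ℝ, -(t / (P2 * Q2)) * x = -τ * (x / P2) := by
    intro x
    rw [hτ]
    field_simp
  have hb : 0 < 1 - Real.exp (-2 * τ) := by
    have : Real.exp (-2 * τ) < 1 := Real.exp_lt_one_iff.mpr (by linarith)
    linarith
  set β : ℝ := G ^ m * (1 - Real.exp (-2 * τ)) ^ (m * m) / 4 * Real.exp (-(τ * m) / 4) with hβ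
  have hβpos : 0 < β := by positivity
  set C : ℝ := (m.factorial : ℝ) * ((1 + t ^ D) * G) ^ m *
      (∑' d : ℤ, Real.exp (-(τ * m) * ((d : ℝ) ^ 2 / 4))) with hC
  have hCnn : 0 ≤ C := by
    have : 0 ≤ ∑' d : ℤ, Real.exp (-(τ * m) * ((d : ℝ) ^ 2 / 4)) :=
      tsum_nonneg fun _ => (Real.exp_pos _).le
    positivity
  have hcoef : ∀ N i, Count.coef hm (gN t N q) (Mf N) i =
      ∑ c ∈ Finset.Icc (-(Mf N : ℤ)) (Mf N : ℤ), Side.A (gN t N q) (Count.toZ i.1) c := by
    intro N i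
    apply Count.coef_apply
    intro k hk
    apply Count.gN_eq_zero
    have : (Count.M1 q N : ℤ) ≤ Mf N := by exact_mod_cast hMf N
    omega
  refine ⟨fun i => β * Real.exp (-τ * Side.Sv (Count.toZ i.1)), C + 1,
    fun i => by positivity, by positivity, ?_, ?_, ?_⟩
  · intro N i
    rw [hcoef]
    have h3 := Side.sum_A_abs_le hm τ ((1 + t ^ D) * G) hτpos (by positivity) (gN t N q)
      (Count.gN_nonneg t N q) (h1 N) (Count.toZ i.1) (Count.toZ_anti i.1 i.2.1)
      (Finset.Icc (-(Mf N : ℤ)) (Mf N : ℤ))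
    refine h3.trans ?_
    rw [← hC]
    have h4 : Real.exp (-τ * Side.Sv (Count.toZ i.1)) ≤
        Real.exp (-(t / (P2 * Q2)) * (lev p i : ℝ) ^ 2) := by
      rw [hττ]
      apply Real.exp_le_exp.mpr
      have h5 := Lev.lev_sq_le p hp (Count.toZ i.1)
      have h6 : ((∑ j, Count.toZ i.1 j * p j : ℤ) : ℝ) = (lev p i : ℝ) := by
        have := lev_eq p hp i
        have h7 : ∑ j, Count.toZ i.1 j * p j = (lev p i : ℤ) := this.symm
        rw [h7]
        simp
      rw [h6, ← hP2] at h5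
      have h8 : (lev p i : ℝ) ^ 2 / P2 ≤ Side.Sv (Count.toZ i.1) := by
        rw [div_le_iff₀ hP]
        exact h5
      nlinarith
    calc C * Real.exp (-τ * Side.Sv (Count.toZ i.1))
        ≤ C * Real.exp (-(t / (P2 * Q2)) * (lev p i : ℝ) ^ 2) :=
          mul_le_mul_of_nonneg_left h4 hCnn
      _ ≤ (C + 1) * Real.exp (-(t / (P2 * Q2)) * (lev p i : ℝ) ^ 2) :=
          mul_le_mul_of_nonneg_right (by linarith) (Real.exp_pos _).le
  · intro i
    have h3 := Side.sum_A_lower hm τ G (t ^ D) hτpos hG (by positivity) hsmall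
      (fun N => gN t N q) (fun N => Count.gN_nonneg t N q) h1 h2
      (fun N => Finset.Icc (-(Mf N : ℤ)) (Mf N : ℤ)) (by
        intro c
        filter_upwards [Filter.eventually_ge_atTop c.natAbs] with N hN
        rw [Finset.mem_Icc]
        have h5 := M1_ge q hq N
        have h6 := hMf N
        omega) (Count.toZ i.1) (Count.toZ_anti i.1 i.2.1)
    filter_upwards [h3] with N hN
    rw [hcoef]
    exact hN
  · obtain ⟨R, k₀, hray⟩ := Lev.exists_ray p hp
    refine ⟨β * Real.exp (-τ * R), by positivity, k₀, fun k hk => ?_⟩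
    obtain ⟨ν, hν1, hν2, hν3, hν4⟩ := hray k hk
    refine ⟨⟨ν, hν1, hν2⟩, ?_, ?_⟩
    · unfold lev
      rw [hν3]
      simp
    · rw [mul_assoc, ← Real.exp_add, hττ]
      apply mul_le_mul_of_nonneg_left _ hβpos.le
      apply Real.exp_le_exp.mpr
      rw [← hP2] at hν4
      simp only
      nlinarith

end Comb

theorem comb_main {m n : ℕ} (p : Fin m → ℤ) (q : Fin n → ℤ) (hp : Good p) (hq : Good q)
    (S : (Fin m → ℕ) → MvPolynomial (Fin m) ℕ) (hS : ∀ lam, Antitone lam → IsSchur (S lam) lam)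
    (T : (Fin n → ℕ) → MvPolynomial (Fin n) ℕ) (hT : ∀ lam, Antitone lam → IsSchur (T lam) lam) :
    ∃ (A : Finset (Fin m → ℕ)) (x : (Fin m → ℕ) → ℝ) (B : Finset (Fin n → ℕ))
      (y : (Fin n → ℕ) → ℝ),
      (∀ lam ∈ A, Antitone lam ∧ 0 < x lam) ∧ (∀ mu ∈ B, Antitone mu ∧ 0 < y mu) ∧
      e1 m ∈ A ∧ e1 n ∈ B ∧
      ∀ k : ℤ, ∑ lam ∈ A, x lam * levc (S lam) p k = ∑ mu ∈ B, y mu * levc (T mu) q k := by
  classical
  have hm := Lev.pos_m p hp
  have hn := Lev.pos_m q hq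
  have hQ := Comb.sumsq_pos q hq
  have hP := Comb.sumsq_pos p hp
  set D : ℕ := m * m + n * n + 1 with hD
  obtain ⟨t₀, ht₀, H⟩ := gauss_slice q hq.2.2 D
  obtain ⟨t₀', ht₀', H'⟩ := gauss_slice p hp.2.2 D
  obtain ⟨t₁, ht₁, K1⟩ := Comb.small_t m D (by omega) _ hQ
  obtain ⟨t₁', ht₁', K1'⟩ := Comb.small_t n D (by omega) _ hP
  set t : ℝ := min (min t₀ t₀') (min t₁ t₁') / 2 with ht
  have hmin : 0 < min (min t₀ t₀') (min t₁ t₁') := by positivity
  have htpos : 0 < t := by positivity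
  have htlt : t < min (min t₀ t₀') (min t₁ t₁') := by rw [ht]; linarith
  have hlt1 : t < t₀ := htlt.trans_le ((min_le_left _ _).trans (min_le_left _ _))
  have hlt2 : t < t₀' := htlt.trans_le ((min_le_left _ _).trans (min_le_right _ _))
  have hlt3 : t < t₁ := htlt.trans_le ((min_le_right _ _).trans (min_le_left _ _))
  have hlt4 : t < t₁' := htlt.trans_le ((min_le_right _ _).trans (min_le_right _ _))
  obtain ⟨G, hG, hG1, hG2⟩ := H t htpos hlt1
  obtain ⟨G', hG', hG1', hG2'⟩ := H' t htpos hlt2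
  set Mf : ℕ → ℕ := fun N => Count.M1 q N + Count.M1 p N with hMf
  obtain ⟨w, C, hw, hC, hup, hlow, hray⟩ := Comb.side p hp hm q hq t htpos D G hG hG1 hG2
    (K1 t htpos hlt3) Mf (fun N => Nat.le_add_right _ _)
  obtain ⟨w', C', hw', hC', hup', hlow', _⟩ := Comb.side q hq hn p hp t htpos D G' hG' hG1' hG2'
    (K1' t htpos hlt4) Mf (fun N => Nat.le_add_left _ _)
  have hcomm : (∑ j, (q j : ℝ) ^ 2) * ∑ j, (p j : ℝ) ^ 2 =
      (∑ j, (p j : ℝ) ^ 2) * ∑ j, (q j : ℝ) ^ 2 := mul_comm _ _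
  rw [hcomm] at hup'
  set τ : ℝ := t / ((∑ j, (p j : ℝ) ^ 2) * ∑ j, (q j : ℝ) ^ 2) with hτ
  have hτpos : 0 < τ := by positivity
  have hi0 : Antitone (e1 m) ∧ ∃ i, e1 m i = 0 := by
    constructor
    · intro i j hij
      have : (i : ℕ) ≤ j := hij
      unfold e1
      split_ifs <;> omega
    · refine ⟨⟨1, Lev.one_lt_m p hp⟩, ?_⟩
      simp [e1]
  have hj0 : Antitone (e1 n) ∧ ∃ i, e1 n i = 0 := by
    constructor
    · intro i j hij
      have : (i : ℕ) ≤ j := hij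
      unfold e1
      split_ifs <;> omega
    · refine ⟨⟨1, Lev.one_lt_m q hq⟩, ?_⟩
      simp [e1]
  obtain ⟨x, y, hx, hy, hx0, hy0, hxy⟩ := trunc (Comb.lev p)
    (fun i k => (levc (S i.1) p k : ℝ)) w (Comb.lev q) (fun i k => (levc (T i.1) q k : ℝ)) w'
    τ hτpos (Comb.tside p hp S hS w hw) (Comb.tside q hq T hT w' hw') hray (C + C')
    (by
      intro K
      obtain ⟨s, hs, -⟩ := Comb.exists_finset p hp K
      obtain ⟨s', hs', -⟩ := Comb.exists_finset q hq K
      have e1 : ∀ᶠ N : ℕ in Filter.atTop, ∀ i ∈ s, w i ≤ Count.coef hm (gN t N q) (Mf N) i := by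
        rw [Finset.eventually_all]
        exact fun i _ => hlow i
      have e2 : ∀ᶠ N : ℕ in Filter.atTop, ∀ i ∈ s', w' i ≤ Count.coef hn (gN t N p) (Mf N) i := by
        rw [Finset.eventually_all]
        exact fun i _ => hlow' i
      obtain ⟨N, hN1, hN2⟩ := (e1.and e2).exists
      refine ⟨Count.coef hm (gN t N q) (Mf N), Count.coef hn (gN t N p) (Mf N), ?_, ?_, ?_, ?_, ?_⟩
      · intro k
        rw [Comb.expand p hp hm q t N (Mf N) (Nat.le_add_right _ _) S hS k,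
          Comb.expand q hq hn p t N (Mf N) (Nat.le_add_left _ _) T hT k, Count.W_swap]
      · intro i
        refine (hup N i).trans ?_
        exact mul_le_mul_of_nonneg_right (by linarith) (Real.exp_pos _).le
      · intro i
        refine (hup' N i).trans ?_
        exact mul_le_mul_of_nonneg_right (by linarith) (Real.exp_pos _).le
      · intro i hi
        exact hN1 i (hs i hi)
      · intro i hi
        exact hN2 i (hs' i hi)) ⟨e1 m, hi0⟩ ⟨e1 n, hj0⟩
  refine ⟨x.support.map ⟨Subtype.val, Subtype.val_injective⟩,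
    fun lam => if h : Antitone lam ∧ ∃ i, lam i = 0 then x ⟨lam, h⟩ else 0,
    y.support.map ⟨Subtype.val, Subtype.val_injective⟩,
    fun lam => if h : Antitone lam ∧ ∃ i, lam i = 0 then y ⟨lam, h⟩ else 0, ?_, ?_, ?_, ?_, ?_⟩
  · intro lam hlam
    rw [Finset.mem_map] at hlam
    obtain ⟨i, hi, rfl⟩ := hlam
    refine ⟨i.2.1, ?_⟩
    simp only [Function.Embedding.coeFn_mk]
    rw [dif_pos i.2]
    exact lt_of_le_of_ne (hx _) (Ne.symm (Finsupp.mem_support_iff.mp hi))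
  · intro lam hlam
    rw [Finset.mem_map] at hlam
    obtain ⟨i, hi, rfl⟩ := hlam
    refine ⟨i.2.1, ?_⟩
    simp only [Function.Embedding.coeFn_mk]
    rw [dif_pos i.2]
    exact lt_of_le_of_ne (hy _) (Ne.symm (Finsupp.mem_support_iff.mp hi))
  · rw [Finset.mem_map]
    exact ⟨⟨e1 m, hi0⟩, Finsupp.mem_support_iff.mpr hx0.ne', rfl⟩
  · rw [Finset.mem_map]
    exact ⟨⟨e1 n, hj0⟩, Finsupp.mem_support_iff.mpr hy0.ne', rfl⟩
  · intro k
    have h := hxy k
    rw [Finset.sum_map, Finset.sum_map]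
    have h1 : ∀ i ∈ x.support, (if h : Antitone ((⟨Subtype.val, Subtype.val_injective⟩ :
        Count.D0 m ↪ (Fin m → ℕ)) i) ∧ ∃ j, ((⟨Subtype.val, Subtype.val_injective⟩ :
        Count.D0 m ↪ (Fin m → ℕ)) i) j = 0 then x ⟨_, h⟩ else 0) *
        (levc (S ((⟨Subtype.val, Subtype.val_injective⟩ :
        Count.D0 m ↪ (Fin m → ℕ)) i)) p k : ℝ) = x i * (levc (S i.1) p k : ℝ) := by
      intro i _
      simp only [Function.Embedding.coeFn_mk]
      rw [dif_pos i.2]
    have h2 : ∀ i ∈ y.support, (if h : Antitone ((⟨Subtype.val, Subtype.val_injective⟩ :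
        Count.D0 n ↪ (Fin n → ℕ)) i) ∧ ∃ j, ((⟨Subtype.val, Subtype.val_injective⟩ :
        Count.D0 n ↪ (Fin n → ℕ)) i) j = 0 then y ⟨_, h⟩ else 0) *
        (levc (T ((⟨Subtype.val, Subtype.val_injective⟩ :
        Count.D0 n ↪ (Fin n → ℕ)) i)) q k : ℝ) = y i * (levc (T i.1) q k : ℝ) := by
      intro i _
      simp only [Function.Embedding.coeFn_mk]
      rw [dif_pos i.2]
    rw [Finset.sum_congr rfl h1, Finset.sum_congr rfl h2]
    exact h

end Pool.Agent.H88
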