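import Mathlib
import Pool.Agent.H88.Amalg.Defs

set_option autoImplicit false

namespace Pool.Agent.H88

open Matrix MeasureTheory
open scoped ComplexOrder

namespace EQ

variable {n : ℕ}

/-- Functions of a Hermitian matrix. -/
noncomputable def fc {A : Mat n} (hA : A.IsHermitian) (φ : ℝ → ℝ) : Mat n :=
  (hA.eigenvectorUnitary : Mat n) * diagonal (fun i => ((φ (hA.eigenvalues i) : ℝ) : ℂ)) *
    star (hA.eigenvectorUnitary : Mat n)

theorem fc_mul {A : Mat n} (hA : A.IsHermitian) (φ ψ : ℝ → ℝ) :
    fc hA φ * fc hA ψ = fc hA (fun x => φ x * ψ x) := by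
  unfold fc
  have hU : star (hA.eigenvectorUnitary : Mat n) * (hA.eigenvectorUnitary : Mat n) = 1 :=
    Unitary.coe_star_mul_self _
  calc _ = (hA.eigenvectorUnitary : Mat n) *
        (diagonal (fun i => ((φ (hA.eigenvalues i) : ℝ) : ℂ)) *
        ((star (hA.eigenvectorUnitary : Mat n) * (hA.eigenvectorUnitary : Mat n)) *
        diagonal (fun i => ((ψ (hA.eigenvalues i) : ℝ) : ℂ)))) *
        star (hA.eigenvectorUnitary : Mat n) := by simp only [Matrix.mul_assoc]
    _ = _ := by
        rw [hU, Matrix.one_mul, diagonal_mul_diagonal]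
        congr 3
        funext i
        push_cast
        rfl

theorem fc_id {A : Mat n} (hA : A.IsHermitian) : fc hA (fun x => x) = A := by
  unfold fc
  conv_rhs => rw [hA.spectral_theorem, Unitary.conjStarAlgAut_apply]
  rfl

theorem fc_congr {A : Mat n} (hA : A.IsHermitian) {φ ψ : ℝ → ℝ}
    (h : ∀ i, φ (hA.eigenvalues i) = ψ (hA.eigenvalues i)) : fc hA φ = fc hA ψ := by
  unfold fc
  congr 3
  funext i
  rw [h i]

theorem fc_star {A : Mat n} (hA : A.IsHermitian) (φ : ℝ → ℝ) : star (fc hA φ) = fc hA φ := by
  unfold fc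
  rw [star_mul, star_mul, star_star, ← Matrix.mul_assoc]
  congr 2
  rw [star_eq_conjTranspose, diagonal_conjTranspose]
  congr 1
  funext i
  simp

theorem fc_comm {A : Mat n} (hA : A.IsHermitian) (φ : ℝ → ℝ) {C : Mat n} (h : C * A = A * C) :
    C * fc hA φ = fc hA φ * C := by
  set U : Mat n := (hA.eigenvectorUnitary : Mat n) with hUdef
  have hU1 : star U * U = 1 := Unitary.coe_star_mul_self _
  have hU2 : U * star U = 1 := Unitary.coe_mul_star_self _
  set D : Mat n := diagonal (fun i => ((hA.eigenvalues i : ℝ) : ℂ)) with hD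
  have hA' : A = U * D * star U := (fc_id hA).symm
  set C' : Mat n := star U * C * U with hC'
  have h1 : C' * D = D * C' := by
    have e1 : star U * (C * A) * U = C' * D := by
      rw [hA', hC']
      calc star U * (C * (U * D * star U)) * U = star U * C * U * D * (star U * U) := by
            simp only [Matrix.mul_assoc]
        _ = _ := by rw [hU1, Matrix.mul_one]
    have e2 : star U * (A * C) * U = D * C' := by
      rw [hA', hC']
      calc star U * (U * D * star U * C) * U = (star U * U) * D * (star U * C * U) := by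
            simp only [Matrix.mul_assoc]
        _ = _ := by rw [hU1, Matrix.one_mul]
    rw [← e1, ← e2, h]
  set E : Mat n := diagonal (fun i => ((φ (hA.eigenvalues i) : ℝ) : ℂ)) with hE
  have h2 : C' * E = E * C' := by
    ext i j
    have h3 := congrFun (congrFun h1 i) j
    rw [hD, mul_diagonal, diagonal_mul] at h3
    rw [hE, mul_diagonal, diagonal_mul]
    by_cases hij : hA.eigenvalues i = hA.eigenvalues j
    · rw [hij]; ring
    · have h4 : C' i j * (((hA.eigenvalues j : ℝ) : ℂ) - ((hA.eigenvalues i : ℝ) : ℂ)) = 0 := by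
        rw [mul_sub, h3]; ring
      rcases mul_eq_zero.mp h4 with h5 | h5
      · rw [h5]; ring
      · exfalso
        apply hij
        have := sub_eq_zero.mp h5
        exact_mod_cast this.symm
  have hCC : C = U * C' * star U := by
    rw [hC']
    calc C = (U * star U) * C * (U * star U) := by rw [hU2, Matrix.one_mul, Matrix.mul_one]
      _ = _ := by simp only [Matrix.mul_assoc]
  show C * (U * E * star U) = (U * E * star U) * C
  calc C * (U * E * star U) = U * C' * (star U * U) * E * star U := by
        conv_lhs => rw [hCC]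
        simp only [Matrix.mul_assoc]
    _ = U * (C' * E) * star U := by rw [hU1, Matrix.mul_one]; simp only [Matrix.mul_assoc]
    _ = U * (E * C') * star U := by rw [h2]
    _ = U * E * (star U * U) * C' * star U := by
        rw [hU1, Matrix.mul_one]; simp only [Matrix.mul_assoc]
    _ = (U * E * star U) * C := by
        conv_rhs => rw [hCC]
        simp only [Matrix.mul_assoc]

theorem star_mul_self_eq_zero' {T : Mat n} (h : star T * T = 0) : T = 0 := by
  rw [star_eq_conjTranspose] at h
  exact Matrix.conjTranspose_mul_self_eq_zero.mp h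

/-- Partial isometry part of a nonzero matrix. -/
theorem polar (T : Mat n) (hT : T ≠ 0) : ∃ B : Mat n,
    (∀ C : Mat n, C * (star T * T) = (star T * T) * C → C * B = B * C) ∧
    (T * B) * star (T * B) * (T * B) = T * B ∧ T * B ≠ 0 := by
  have hA : (star T * T).IsHermitian := Matrix.isHermitian_conjTranspose_mul_self T
  have hpos : ∀ i, 0 ≤ hA.eigenvalues i := by
    have hps : (star T * T).PosSemidef := Matrix.posSemidef_conjTranspose_mul_self T
    exact fun i => hps.eigenvalues_nonneg i
  let f : ℝ → ℝ := fun x => (Real.sqrt x)⁻¹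
  refine ⟨fc hA f, fun C hC => fc_comm hA f hC, ?_, ?_⟩
  · have h1 : (T * fc hA f) * star (T * fc hA f) * (T * fc hA f) =
        T * (fc hA f * (fc hA f * (star T * T) * fc hA f)) := by
      rw [star_mul, fc_star]
      simp only [Matrix.mul_assoc]
    rw [h1]
    congr 1
    have hid : fc hA (fun x => x) = star T * T := fc_id hA
    have h2 : fc hA f * (star T * T) * fc hA f = fc hA (fun x => f x * x * f x) := by
      rw [← fc_mul, ← fc_mul, hid]
    rw [h2, fc_mul]
    apply fc_congr
    intro i
    have hi := hpos i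
    show (Real.sqrt (hA.eigenvalues i))⁻¹ * ((Real.sqrt (hA.eigenvalues i))⁻¹ *
      hA.eigenvalues i * (Real.sqrt (hA.eigenvalues i))⁻¹) = (Real.sqrt (hA.eigenvalues i))⁻¹
    rcases hi.eq_or_lt with h0 | h0
    · rw [← h0]; simp
    · have hs : 0 < Real.sqrt (hA.eigenvalues i) := Real.sqrt_pos.mpr h0
      have hss : hA.eigenvalues i = Real.sqrt (hA.eigenvalues i) * Real.sqrt (hA.eigenvalues i) :=
        (Real.mul_self_sqrt hi).symm
      field_simp
      rw [sq]; exact hss
  · intro h0
    apply hT
    apply star_mul_self_eq_zero'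
    have h1 : star T * T = (star T * (T * fc hA f)) * fc hA (fun x => Real.sqrt x) := by
      have h2 : (star T * (T * fc hA f)) * fc hA (fun x => Real.sqrt x) =
          (star T * T) * (fc hA f * fc hA (fun x => Real.sqrt x)) := by
        simp only [Matrix.mul_assoc]
      have hid : fc hA (fun x => x) = star T * T := fc_id hA
      rw [h2, fc_mul]
      have h3 : (star T * T) * fc hA (fun x => f x * Real.sqrt x) =
          fc hA (fun x => x * (f x * Real.sqrt x)) := by
        rw [← fc_mul hA (fun x => x), hid]
      rw [h3]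
      refine hid.symm.trans ?_
      apply fc_congr
      intro i
      have hi := hpos i
      show hA.eigenvalues i = hA.eigenvalues i * ((Real.sqrt (hA.eigenvalues i))⁻¹ *
        Real.sqrt (hA.eigenvalues i))
      rcases hi.eq_or_lt with h0 | h0
      · rw [← h0]; simp
      · have hs : 0 < Real.sqrt (hA.eigenvalues i) := Real.sqrt_pos.mpr h0
        rw [inv_mul_cancel₀ hs.ne', mul_one]
    rw [h1, h0, Matrix.mul_zero, Matrix.zero_mul]

section Average

variable {G : Type} [Group G] [TopologicalSpace G] [IsTopologicalGroup G] [CompactSpace G]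
  [T2Space G] [MeasurableSpace G] [BorelSpace G]

/-- Entrywise integral of a matrix valued function with respect to Haar measure. -/
noncomputable def av (M : G → Mat n) : Mat n :=
  Matrix.of fun k l => ∫ g, M g k l ∂(Measure.haar : Measure G)

theorem integrable_of_cont {f : G → ℂ} (hf : Continuous f) :
    Integrable f (Measure.haar : Measure G) :=
  hf.integrable_of_hasCompactSupport (HasCompactSupport.of_compactSpace f)

theorem av_left {M : G → Mat n} (hM : Continuous M) (C : Mat n) :
    C * av M = av (fun g => C * M g) := by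
  ext k l
  simp only [av, Matrix.mul_apply, Matrix.of_apply]
  rw [integral_finsetSum]
  · apply Finset.sum_congr rfl
    intro m _
    rw [integral_const_mul]
  · intro m _
    exact (integrable_of_cont (hM.matrix_elem m l)).const_mul _

theorem av_right {M : G → Mat n} (hM : Continuous M) (C : Mat n) :
    av M * C = av (fun g => M g * C) := by
  ext k l
  simp only [av, Matrix.mul_apply, Matrix.of_apply]
  rw [integral_finsetSum]
  · apply Finset.sum_congr rfl
    intro m _
    rw [integral_mul_const]
  · intro m _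
    exact (integrable_of_cont (hM.matrix_elem k m)).mul_const _

theorem av_trans (M : G → Mat n) (h : G) : av (fun g => M (h * g)) = av M := by
  ext k l
  simp only [av, Matrix.of_apply]
  exact integral_mul_left_eq_self (fun g => M g k l) h

theorem exists_intertwiner (ρ σ : G →* U n) (hρ : Continuous ρ) (hσ : Continuous σ)
    (P Q : Mat n) (hP0 : P ≠ 0) (hPs : star P = P) (hPP : P * P = P) (hQQ : Q * Q = Q)
    (hPρ : ∀ g, P * (ρ g : Mat n) = (ρ g : Mat n) * P)
    (hQσ : ∀ g, Q * (σ g : Mat n) = (σ g : Mat n) * Q)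
    (htr : ∀ g, trace ((ρ g : Mat n) * P) = trace ((σ g : Mat n) * Q)) :
    ∃ T : Mat n, T ≠ 0 ∧ (∀ g, (σ g : Mat n) * T = T * (ρ g : Mat n)) ∧ Q * T * P = T := by
  classical
  have cρ : Continuous (fun g => (ρ g : Mat n)) := continuous_subtype_val.comp hρ
  have cσ : Continuous (fun g => (σ g : Mat n)) := continuous_subtype_val.comp hσ
  let M : Mat n → G → Mat n := fun A g => (σ g : Mat n) * Q * A * P * star (ρ g : Mat n)
  have cM : ∀ A, Continuous (M A) := by
    intro A
    have c1 : Continuous (fun g => (σ g : Mat n) * Q) := cσ.matrix_mul continuous_const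
    have c2 : Continuous (fun g => (σ g : Mat n) * Q * A) := c1.matrix_mul continuous_const
    have c3 : Continuous (fun g => (σ g : Mat n) * Q * A * P) := c2.matrix_mul continuous_const
    exact c3.matrix_mul cρ.matrix_conjTranspose
  have hρρ : ∀ g, star (ρ g : Mat n) * (ρ g : Mat n) = 1 := fun g => Unitary.coe_star_mul_self _
  have hPρ' : ∀ g, star (ρ g : Mat n) * P = P * star (ρ g : Mat n) := by
    intro g
    have := congrArg star (hPρ g)
    rwa [star_mul, star_mul, hPs] at this
  have hint : ∀ A g, (σ g : Mat n) * av (M A) = av (M A) * (ρ g : Mat n) := by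
    intro A h
    rw [av_left (cM A), ← av_trans (M A) h, av_right]
    · congr 1
      funext g
      show (σ h : Mat n) * ((σ g : Mat n) * Q * A * P * star (ρ g : Mat n)) =
        ((σ (h * g) : U n) : Mat n) * Q * A * P * star ((ρ (h * g) : U n) : Mat n) * (ρ h : Mat n)
      rw [map_mul, map_mul]
      show _ = ((σ h : Mat n) * (σ g : Mat n)) * Q * A * P *
        star ((ρ h : Mat n) * (ρ g : Mat n)) * (ρ h : Mat n)
      rw [star_mul]
      calc _ = (σ h : Mat n) * (σ g : Mat n) * Q * A * P * (star (ρ g : Mat n) *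
            (star (ρ h : Mat n) * (ρ h : Mat n))) := by
              rw [hρρ, Matrix.mul_one]; simp only [Matrix.mul_assoc]
        _ = _ := by simp only [Matrix.mul_assoc]
    · exact (cM A).comp (continuous_const.mul continuous_id)
  have hQTP : ∀ A, Q * av (M A) * P = av (M A) := by
    intro A
    rw [av_left (cM A), av_right]
    · congr 1
      funext g
      show Q * ((σ g : Mat n) * Q * A * P * star (ρ g : Mat n)) * P =
        (σ g : Mat n) * Q * A * P * star (ρ g : Mat n)
      calc _ = (Q * (σ g : Mat n)) * Q * A * P * (star (ρ g : Mat n) * P) := by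
              simp only [Matrix.mul_assoc]
        _ = (σ g : Mat n) * (Q * Q) * A * (P * P) * star (ρ g : Mat n) := by
              rw [hQσ, hPρ']; simp only [Matrix.mul_assoc]
        _ = _ := by rw [hQQ, hPP]
    · exact continuous_const.matrix_mul (cM A)
  by_contra hcon
  push Not at hcon
  have hzero : ∀ A, av (M A) = 0 := by
    intro A
    by_contra hne
    exact hcon _ hne (hint A) (hQTP A)
  -- the sum of the diagonal entries
  have hsum : ∑ i, ∑ j, av (M (Matrix.single i j 1)) i j =
      ∫ g, ((Complex.normSq (trace ((ρ g : Mat n) * P)) : ℝ) : ℂ) ∂(Measure.haar : Measure G) := by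
    have h1 : ∀ i j, Integrable (fun g => M (Matrix.single i j 1) g i j)
        (Measure.haar : Measure G) := fun i j => integrable_of_cont ((cM _).matrix_elem i j)
    have h2 : ∑ i, ∑ j, av (M (Matrix.single i j 1)) i j =
        ∫ g, ∑ i, ∑ j, M (Matrix.single i j 1) g i j ∂(Measure.haar : Measure G) := by
      rw [integral_finsetSum]
      · apply Finset.sum_congr rfl
        intro i _
        rw [integral_finsetSum]
        · rfl
        · intro j _; exact h1 i j
      · intro i _
        exact integrable_finsetSum _ (fun j _ => h1 i j)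
    rw [h2]
    congr 1
    funext g
    have h3 : ∀ i j, M (Matrix.single i j 1) g i j =
        ((σ g : Mat n) * Q) i i * (P * star (ρ g : Mat n)) j j := by
      intro i j
      show ((σ g : Mat n) * Q * (Matrix.single i j 1 : Mat n) * P * star (ρ g : Mat n) : Mat n) i j = _
      rw [Matrix.mul_assoc _ P, Matrix.mul_apply, Finset.sum_eq_single j]
      · rw [Matrix.mul_apply, Finset.sum_eq_single i]
        · simp
        · intro b _ hb; simp [hb.symm]
        · intro h; exact absurd (Finset.mem_univ _) h
      · intro b _ hb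
        rw [Matrix.mul_apply, Finset.sum_eq_zero]
        · simp
        · intro c _
          simp [hb.symm]
      · intro h; exact absurd (Finset.mem_univ _) h
    simp_rw [h3]
    rw [← Finset.sum_mul_sum]
    have h4 : ∑ i, ((σ g : Mat n) * Q) i i = trace ((ρ g : Mat n) * P) := by
      rw [htr g]; rfl
    have h5 : ∑ j, (P * star (ρ g : Mat n)) j j = star (trace ((ρ g : Mat n) * P)) := by
      have : P * star (ρ g : Mat n) = star ((ρ g : Mat n) * P) := by rw [star_mul, hPs]
      rw [this, star_eq_conjTranspose]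
      exact Matrix.trace_conjTranspose _
    rw [h4, h5, Complex.normSq_eq_conj_mul_self, mul_comm]
    rfl
  have hsum0 : ∑ i, ∑ j, av (M (Matrix.single i j 1)) i j = 0 := by
    simp only [hzero, Matrix.zero_apply, Finset.sum_const_zero]
  rw [hsum0, integral_complex_ofReal] at hsum
  have hcont : Continuous (fun g => Complex.normSq (trace ((ρ g : Mat n) * P))) :=
    Complex.continuous_normSq.comp (cρ.matrix_mul continuous_const).matrix_trace
  have hpos : 0 < ∫ g, Complex.normSq (trace ((ρ g : Mat n) * P)) ∂(Measure.haar : Measure G) := by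
    apply hcont.integral_pos_of_hasCompactSupport_nonneg_nonzero (x := (1 : G))
      (HasCompactSupport.of_compactSpace _)
    · intro g; exact Complex.normSq_nonneg _
    · rw [map_one]
      show Complex.normSq (trace ((1 : Mat n) * P)) ≠ 0
      rw [Matrix.one_mul, ne_eq, map_eq_zero]
      intro h0
      apply hP0
      have h1 : trace (Pᴴ * P) = 0 := by
        rw [← star_eq_conjTranspose, hPs, hPP, h0]
      exact Matrix.trace_conjTranspose_mul_self_eq_zero_iff.mp h1
  have : (∫ g, Complex.normSq (trace ((ρ g : Mat n) * P)) ∂(Measure.haar : Measure G)) = 0 := by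
    exact_mod_cast hsum.symm
  linarith

end Average

end EQ

open EQ in
/-- Module EQ. -/
theorem unitary_equiv_of_trace_eq {G : Type} [Group G] [TopologicalSpace G]
    [IsTopologicalGroup G] [CompactSpace G] [T2Space G] {n : ℕ} (ρ σ : G →* U n)
    (hρ : Continuous ρ) (hσ : Continuous σ)
    (h : ∀ g, trace (ρ g : Mat n) = trace (σ g : Mat n)) :
    ∃ u : U n, ∀ g, u * ρ g = σ g * u := by
  classical
  let _ : MeasurableSpace G := borel G
  have : BorelSpace G := ⟨rfl⟩
  -- partial isometric intertwiners
  let good : Mat n → Prop := fun W => (∀ g, (σ g : Mat n) * W = W * (ρ g : Mat n)) ∧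
    W * star W * W = W
  have hex : ∃ d, ∃ W, good W ∧ Module.finrank ℂ (LinearMap.ker W.mulVecLin) = d :=
    ⟨_, 0, ⟨fun g => by simp, by simp⟩, rfl⟩
  obtain ⟨W, ⟨hWi, hWW⟩, hWd⟩ := Nat.find_spec hex
  have hmin : ∀ V, good V → Module.finrank ℂ (LinearMap.ker W.mulVecLin) ≤
      Module.finrank ℂ (LinearMap.ker V.mulVecLin) := by
    intro V hV
    rw [hWd]
    exact Nat.find_min' hex ⟨V, hV, rfl⟩
  have hρs : ∀ g, star (ρ g : Mat n) = (ρ g⁻¹ : Mat n) := by
    intro g; rw [map_inv]; rfl
  have hσs : ∀ g, star (σ g : Mat n) = (σ g⁻¹ : Mat n) := by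
    intro g; rw [map_inv]; rfl
  have hWi' : ∀ g, star W * (σ g : Mat n) = (ρ g : Mat n) * star W := by
    intro g
    have h1 := congrArg star (hWi g⁻¹)
    rw [star_mul, star_mul, hσs, hρs, inv_inv] at h1
    exact h1
  by_cases hW1 : star W * W = 1
  · have hW2 : W * star W = 1 := mul_eq_one_comm.mp hW1
    refine ⟨⟨W, Matrix.mem_unitaryGroup_iff.mpr hW2⟩, fun g => ?_⟩
    apply Subtype.ext
    exact (hWi g).symm
  exfalso
  set P : Mat n := 1 - star W * W with hP
  set Q : Mat n := 1 - W * star W with hQ
  have hP0 : P ≠ 0 := fun h0 => hW1 (sub_eq_zero.mp h0).symm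
  have hWW' : star W * W * star W = star W := by
    have := congrArg star hWW
    simpa [star_mul, Matrix.mul_assoc] using this
  have hPs : star P = P := by rw [hP, star_sub, star_one, star_mul, star_star]
  have hQs : star Q = Q := by rw [hQ, star_sub, star_one, star_mul, star_star]
  have hWP : W * P = 0 := by
    rw [hP, Matrix.mul_sub, Matrix.mul_one, ← Matrix.mul_assoc, hWW, sub_self]
  have hWQ : star W * Q = 0 := by
    rw [hQ, Matrix.mul_sub, Matrix.mul_one, ← Matrix.mul_assoc, hWW', sub_self]
  have hPP : P * P = P := by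
    conv_lhs => rw [hP, Matrix.sub_mul, Matrix.one_mul, Matrix.mul_assoc, hWP, Matrix.mul_zero,
      sub_zero]
  have hQQ : Q * Q = Q := by
    conv_lhs => rw [hQ, Matrix.sub_mul, Matrix.one_mul, Matrix.mul_assoc, hWQ, Matrix.mul_zero,
      sub_zero]
  have hWWρ : ∀ g, star W * W * (ρ g : Mat n) = (ρ g : Mat n) * (star W * W) := by
    intro g
    rw [Matrix.mul_assoc, ← hWi, ← Matrix.mul_assoc, hWi', Matrix.mul_assoc]
  have hWWσ : ∀ g, W * star W * (σ g : Mat n) = (σ g : Mat n) * (W * star W) := by
    intro g
    rw [Matrix.mul_assoc, hWi', ← Matrix.mul_assoc, ← hWi, Matrix.mul_assoc]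
  have hPρ : ∀ g, P * (ρ g : Mat n) = (ρ g : Mat n) * P := by
    intro g
    rw [hP, Matrix.sub_mul, Matrix.mul_sub, Matrix.one_mul, Matrix.mul_one, hWWρ]
  have hQσ : ∀ g, Q * (σ g : Mat n) = (σ g : Mat n) * Q := by
    intro g
    rw [hQ, Matrix.sub_mul, Matrix.mul_sub, Matrix.one_mul, Matrix.mul_one, hWWσ]
  have htr : ∀ g, trace ((ρ g : Mat n) * P) = trace ((σ g : Mat n) * Q) := by
    intro g
    rw [hP, hQ, Matrix.mul_sub, Matrix.mul_sub, Matrix.mul_one, Matrix.mul_one, trace_sub,
      trace_sub, h g]
    congr 1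
    calc trace ((ρ g : Mat n) * (star W * W)) = trace ((star W * W) * (ρ g : Mat n)) :=
          trace_mul_comm _ _
      _ = trace (star W * (W * (ρ g : Mat n))) := by rw [Matrix.mul_assoc]
      _ = trace (star W * ((σ g : Mat n) * W)) := by rw [hWi]
      _ = trace (((σ g : Mat n) * W) * star W) := trace_mul_comm _ _
      _ = trace ((σ g : Mat n) * (W * star W)) := by rw [Matrix.mul_assoc]
  obtain ⟨T, hT0, hTi, hTQP⟩ := exists_intertwiner ρ σ hρ hσ P Q hP0 hPs hPP hQQ hPρ hQσ htr
  obtain ⟨B, hBc, hB1, hB0⟩ := polar T hT0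
  -- the new partial isometry
  have hQT : Q * T = T := by
    conv_lhs => rw [← hTQP, Matrix.mul_assoc Q T P, ← Matrix.mul_assoc, hQQ, ← Matrix.mul_assoc,
      hTQP]
  have hTP : T * P = T := by
    conv_lhs => rw [← hTQP, Matrix.mul_assoc, hPP, hTQP]
  have hPT : P * star T = star T := by
    have := congrArg star hTP
    rwa [star_mul, hPs] at this
  have hAρ : ∀ g, (ρ g : Mat n) * (star T * T) = (star T * T) * (ρ g : Mat n) := by
    intro g
    have h1 : star T * (σ g : Mat n) = (ρ g : Mat n) * star T := by
      have h2 := congrArg star (hTi g⁻¹)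
      rw [star_mul, star_mul, hσs, hρs, inv_inv] at h2
      exact h2
    rw [← Matrix.mul_assoc, ← h1, Matrix.mul_assoc, hTi, Matrix.mul_assoc]
  have hBρ : ∀ g, (ρ g : Mat n) * B = B * (ρ g : Mat n) := fun g => hBc _ (hAρ g)
  have hBP : P * B = B * P := by
    apply hBc
    rw [← Matrix.mul_assoc, hPT, Matrix.mul_assoc, hTP]
  set W' : Mat n := T * B with hW'
  have hW'i : ∀ g, (σ g : Mat n) * W' = W' * (ρ g : Mat n) := by
    intro g
    rw [hW', ← Matrix.mul_assoc, hTi, Matrix.mul_assoc, hBρ, Matrix.mul_assoc]
  have hW'P : W' * P = W' := by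
    rw [hW', Matrix.mul_assoc, ← hBP, ← Matrix.mul_assoc, hTP]
  have hWW1 : star W * W' = 0 := by
    rw [hW', ← hQT, ← Matrix.mul_assoc, ← Matrix.mul_assoc, hWQ, Matrix.zero_mul, Matrix.zero_mul]
  have hWW2 : star W' * W = 0 := by
    have := congrArg star hWW1
    rwa [star_mul, star_star, star_zero] at this
  have hWR : W * star W' = 0 := by
    have h1 : star W' = P * star W' := by
      have := congrArg star hW'P
      rw [star_mul, hPs] at this
      exact this.symm
    rw [h1, ← Matrix.mul_assoc, hWP, Matrix.zero_mul]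
  have hW'W : W' * star W = 0 := by
    have := congrArg star hWR
    rwa [star_mul, star_star, star_zero] at this
  have hVV : star (W + W') * (W + W') = star W * W + star W' * W' := by
    rw [star_add, Matrix.add_mul, Matrix.mul_add, Matrix.mul_add, hWW1, hWW2, add_zero, zero_add]
  have hgood : good (W + W') := by
    refine ⟨fun g => ?_, ?_⟩
    · rw [Matrix.mul_add, Matrix.add_mul, hWi, hW'i]
    · rw [Matrix.mul_assoc, hVV, Matrix.add_mul, Matrix.mul_add, Matrix.mul_add,
        ← Matrix.mul_assoc, hWW, ← Matrix.mul_assoc, hWR, Matrix.zero_mul, add_zero,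
        ← Matrix.mul_assoc, hW'W, Matrix.zero_mul, zero_add, ← Matrix.mul_assoc, hB1]
  have hlt : LinearMap.ker (W + W').mulVecLin < LinearMap.ker W.mulVecLin := by
    rw [SetLike.lt_iff_le_and_exists]
    constructor
    · intro x hx
      rw [LinearMap.mem_ker, Matrix.mulVecLin_apply] at hx ⊢
      have h1 : (star (W + W') * (W + W')) *ᵥ x = 0 := by
        rw [← Matrix.mulVec_mulVec, hx, Matrix.mulVec_zero]
      have h2 : (W * (star (W + W') * (W + W'))) *ᵥ x = 0 := by
        rw [← Matrix.mulVec_mulVec, h1, Matrix.mulVec_zero]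
      rwa [hVV, Matrix.mul_add, ← Matrix.mul_assoc, hWW, ← Matrix.mul_assoc, hWR,
        Matrix.zero_mul, add_zero] at h2
    · have hz : ∃ z, W' *ᵥ z ≠ 0 := by
        by_contra hcon
        push Not at hcon
        apply hB0
        apply Matrix.toLin'.injective
        apply LinearMap.ext
        intro z
        rw [Matrix.toLin'_apply, hcon z]
        simp
      obtain ⟨z, hz⟩ := hz
      refine ⟨P *ᵥ z, ?_, ?_⟩
      · rw [LinearMap.mem_ker, Matrix.mulVecLin_apply, Matrix.mulVec_mulVec, hWP,
          Matrix.zero_mulVec]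
      · rw [LinearMap.mem_ker, Matrix.mulVecLin_apply, Matrix.mulVec_mulVec, Matrix.add_mul,
          hWP, zero_add, hW'P]
        exact hz
  have h1 := Submodule.finrank_lt_finrank_of_lt hlt
  have h2 := hmin _ hgood
  omega

end Pool.Agent.H88
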