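import Mathlib
import Pool.Agent.H88.Amalg.Defs

/-!
Module PW: a weak form of the Peter-Weyl theorem. Continuous finite dimensional unitary
representations separate the points of a compact group.
-/

set_option autoImplicit false

namespace Pool.Agent.H88.PW

open MeasureTheory InnerProductSpace

/-- A strongly continuous unitary representation of a compact group in which `g` acts
nontrivially has a finite dimensional invariant subspace on which `g` acts nontrivially. -/
theorem exists_invariant {G : Type} [Group G] [TopologicalSpace G] [IsTopologicalGroup G]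
    [CompactSpace G] [T2Space G]
    {H : Type} [NormedAddCommGroup H] [InnerProductSpace ℂ H] [CompleteSpace H]
    (π : G →* (H →L[ℂ] H)) (hπ : ∀ g x y, inner ℂ (π g x) (π g y) = inner ℂ x y)
    (hc : ∀ x, Continuous fun g => π g x) (g : G) (v : H) (hv : π g v ≠ v) :
    ∃ E : Submodule ℂ H, FiniteDimensional ℂ E ∧ (∀ h, ∀ x ∈ E, π h x ∈ E) ∧
      ∃ x ∈ E, π g x ≠ x := by
  borelize G
  set μ : Measure G := Measure.haarMeasure (⊤ : TopologicalSpace.PositiveCompacts G) with hμ
  have hμ1 : IsProbabilityMeasure μ := ⟨Measure.haarMeasure_self⟩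
  -- adjoint identities
  have hinv : ∀ h x, π h⁻¹ (π h x) = x := by
    intro h x
    show (π h⁻¹ * π h) x = x
    rw [← map_mul, inv_mul_cancel, map_one]
    rfl
  have hadj : ∀ h x y, inner ℂ (π h x) y = inner ℂ x (π h⁻¹ y) := by
    intro h x y
    rw [← hπ h⁻¹ (π h x) y, hinv]
  let F : G → (H →L[ℂ] H) := fun h => rankOne ℂ (π h v) (π h v)
  have hF : Continuous F :=
    (ContinuousLinearMap.smulRightL ℂ H H).continuous₂.comp
      (((innerSL ℂ (E := H)).continuous.comp (hc v)).prodMk (hc v))
  have hFi : Integrable F μ :=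
    hF.integrable_of_hasCompactSupport (HasCompactSupport.of_compactSpace _)
  let K : H →L[ℂ] H := ∫ h, F h ∂μ
  have hKapp : ∀ x, K x = ∫ h, inner ℂ (π h v) x • π h v ∂μ := fun x =>
    ContinuousLinearMap.integral_apply hFi x
  have hint : ∀ x, Integrable (fun h => inner ℂ (π h v) x • π h v) μ := by
    intro x
    refine Continuous.integrable_of_hasCompactSupport ?_ (HasCompactSupport.of_compactSpace _)
    exact ((hc v).inner continuous_const).smul (hc v)
  -- compactness
  have hKc : IsCompactOperator K := by
    have h1 : K ∈ {T : H →L[ℂ] H | IsCompactOperator T} := by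
      refine Convex.integral_mem ?_ isClosed_setOfPred_isCompactOperator ?_ hFi
      · intro T hT S hS a b _ _ _
        exact (IsCompactOperator.smul hT a).add (IsCompactOperator.smul hS b)
      · refine Filter.Eventually.of_forall fun h => ?_
        show IsCompactOperator (F h)
        have h2 : IsCompactOperator (ContinuousLinearMap.toSpanSingleton ℂ (π h v)) :=
          isCompactOperator_of_locallyCompactSpace_rng _
        exact h2.comp_clm (innerSL ℂ (π h v))
    exact h1
  -- symmetry
  have hKs : (K : H →L[ℂ] H).toLinearMap.IsSymmetric := by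
    intro x y
    show inner ℂ (K x) y = inner ℂ x (K y)
    rw [hKapp x, hKapp y, ← integral_inner (hint y) x, ← inner_conj_symm,
      ← integral_inner (hint x) y, ← integral_conj]
    refine integral_congr_ae (Filter.Eventually.of_forall fun h => ?_)
    simp only [inner_smul_right, map_mul, inner_conj_symm]
    ring
  -- commutation with the group
  have hcomm : ∀ h x, K (π h x) = π h (K x) := by
    intro h x
    rw [hKapp, hKapp, ← ContinuousLinearMap.integral_comp_comm _ (hint x),
      ← integral_mul_left_eq_self (μ := μ) (fun a => inner ℂ (π a v) (π h x) • π a v) h]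
    refine integral_congr_ae (Filter.Eventually.of_forall fun a => ?_)
    simp only [map_mul, map_smul]
    congr 1
    exact hπ h _ _
  -- `v` is orthogonal to the kernel
  have hker : ∀ x, K x = 0 → inner ℂ v x = 0 := by
    intro x hx
    by_contra hne
    have h1 : inner ℂ x (K x) = ((∫ h, ‖inner ℂ (π h v) x‖ ^ 2 ∂μ : ℝ) : ℂ) := by
      rw [hKapp, ← integral_inner (hint x) x, ← integral_complex_ofReal]
      refine integral_congr_ae (Filter.Eventually.of_forall fun h => ?_)
      simp only [inner_smul_right]
      rw [← inner_conj_symm x (π h v), Complex.mul_conj, Complex.normSq_eq_norm_sq]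
    have h2 : 0 < ∫ h, ‖inner ℂ (π h v) x‖ ^ 2 ∂μ := by
      refine Continuous.integral_pos_of_hasCompactSupport_nonneg_nonzero (x := 1) ?_
        (HasCompactSupport.of_compactSpace _) (fun h => by positivity) ?_
      · exact (((hc v).inner continuous_const).norm).pow 2
      · have : inner ℂ (π 1 v) x ≠ 0 := by
          rw [map_one]; exact hne
        positivity
    rw [hx, inner_zero_right] at h1
    have h3 := Complex.ofReal_injective (h1.symm.trans Complex.ofReal_zero.symm)
    linarith
  by_contra hcon
  push Not at hcon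
  have htriv : ∀ c : ℂ, c ≠ 0 → ∀ x, K x = c • x → ∀ n, (n = g ∨ n = g⁻¹) → π n x = x := by
    intro c hc0 x hx n hn
    have h1 : π g x = x := by
      refine hcon (Module.End.eigenspace K.toLinearMap c)
        (ContinuousLinearMap.finite_dimensional_eigenspace hKc c hc0) ?_ x
        (Module.End.mem_eigenspace_iff.mpr hx)
      intro h y hy
      rw [Module.End.mem_eigenspace_iff] at hy ⊢
      show K (π h y) = c • π h y
      rw [hcomm, show K y = c • y from hy, map_smul]
    rcases hn with rfl | rfl
    · exact h1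
    · conv_lhs => rw [← h1]
      exact hinv g x
  apply hv
  rw [← sub_eq_zero]
  have h1 := ContinuousLinearMap.orthogonalComplement_iSup_eigenspaces_eq_bot hKc hKs
  rw [← Submodule.mem_bot ℂ, ← h1, Submodule.mem_orthogonal]
  intro x hx
  induction hx using Submodule.iSup_induction' with
  | mem c x hx =>
    have hx' : K x = c • x := Module.End.mem_eigenspace_iff.mp hx
    rw [inner_sub_right, sub_eq_zero]
    have h2 : inner ℂ x (π g v) = inner ℂ (π g⁻¹ x) v := by
      rw [hadj, inv_inv]
    rw [h2]
    by_cases hc0 : c = 0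
    · rw [hc0, zero_smul] at hx'
      have h3 : K (π g⁻¹ x) = 0 := by rw [hcomm, hx', map_zero]
      rw [← inner_conj_symm, hker _ h3, ← inner_conj_symm x v, hker _ hx']
    · rw [htriv c hc0 x hx' g⁻¹ (Or.inr rfl)]
  | zero => exact inner_zero_left _
  | add x y _ _ hx hy => rw [inner_add_left, hx, hy, add_zero]

/-- The matrix representation on a finite dimensional invariant subspace. -/
theorem exists_rep_of_invariant {G : Type} [Group G] [TopologicalSpace G]
    {H : Type} [NormedAddCommGroup H] [InnerProductSpace ℂ H]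
    (π : G →* (H →L[ℂ] H)) (hπ : ∀ g x y, inner ℂ (π g x) (π g y) = inner ℂ x y)
    (hc : ∀ x, Continuous fun g => π g x) (g : G) (E : Submodule ℂ H) [FiniteDimensional ℂ E]
    (hE : ∀ h, ∀ x ∈ E, π h x ∈ E) (x : H) (hx : x ∈ E) (hgx : π g x ≠ x) :
    ∃ (n : ℕ) (ρ : G →* U n), Continuous ρ ∧ ρ g ≠ 1 := by
  have hinv : ∀ h x, π h⁻¹ (π h x) = x := by
    intro h x
    show (π h⁻¹ * π h) x = x
    rw [← map_mul, inv_mul_cancel, map_one]
    rfl
  have hadj : ∀ h x y, inner ℂ (π h x) y = inner ℂ x (π h⁻¹ y) := by
    intro h x y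
    rw [← hπ h⁻¹ (π h x) y, hinv]
  let b := stdOrthonormalBasis ℂ E
  have hexp : ∀ y ∈ E, ∑ l, inner ℂ (b l : H) y • (b l : H) = y := by
    intro y hy
    have h1 := congrArg (Subtype.val) (b.sum_repr' ⟨y, hy⟩)
    rw [Submodule.coe_sum] at h1
    simpa using h1
  have hortho : ∀ i j, inner ℂ (b i : H) (b j : H) = if i = j then (1 : ℂ) else 0 := by
    intro i j
    have h1 := orthonormal_iff_ite.mp b.orthonormal i j
    simpa using h1
  let A : G → Mat (Module.finrank ℂ E) := fun h =>
    Matrix.of fun i j => inner ℂ (b i : H) (π h (b j : H))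
  have hA1 : A 1 = 1 := by
    refine Matrix.ext fun i j => ?_
    show inner ℂ (b i : H) (π 1 (b j : H)) = _
    rw [map_one, Matrix.one_apply]
    exact hortho i j
  have hAmul : ∀ h k, A (h * k) = A h * A k := by
    intro h k
    refine Matrix.ext fun i j => ?_
    rw [Matrix.mul_apply]
    show inner ℂ (b i : H) (π (h * k) (b j : H)) =
      ∑ l, inner ℂ (b i : H) (π h (b l : H)) * inner ℂ (b l : H) (π k (b j : H))
    have h1 : π (h * k) (b j : H) = π h (π k (b j : H)) := by rw [map_mul]; rfl
    rw [h1]
    conv_lhs => rw [← hexp (π k (b j : H)) (hE k _ (b j).2)]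
    rw [map_sum, inner_sum]
    refine Finset.sum_congr rfl fun l _ => ?_
    rw [map_smul, inner_smul_right, mul_comm]
  have hAstar : ∀ h, star (A h) = A h⁻¹ := by
    intro h
    refine Matrix.ext fun i j => ?_
    rw [Matrix.star_apply]
    show star (inner ℂ (b j : H) (π h (b i : H))) = inner ℂ (b i : H) (π h⁻¹ (b j : H))
    rw [← hadj]
    exact inner_conj_symm _ _
  have hAmem : ∀ h, A h ∈ Matrix.unitaryGroup (Fin (Module.finrank ℂ E)) ℂ := by
    intro h
    rw [Matrix.mem_unitaryGroup_iff, hAstar, ← hAmul, mul_inv_cancel, hA1]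
  refine ⟨Module.finrank ℂ E,
    { toFun := fun h => ⟨A h, hAmem h⟩
      map_one' := Subtype.ext hA1
      map_mul' := fun h k => Subtype.ext (hAmul h k) }, ?_, ?_⟩
  · show Continuous fun h => (⟨A h, hAmem h⟩ : U _)
    refine Continuous.subtype_mk ?_ _
    refine continuous_matrix fun i j => ?_
    exact continuous_const.inner (hc _)
  · intro h1
    have h2 : A g = 1 := congrArg Subtype.val h1
    have h3 : ∀ j, π g (b j : H) = (b j : H) := by
      intro j
      rw [← hexp (π g (b j : H)) (hE g _ (b j).2)]
      have h4 : ∀ l, inner ℂ (b l : H) (π g (b j : H)) = if l = j then (1 : ℂ) else 0 := by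
        intro l
        have := congrFun (congrFun h2 l) j
        rw [Matrix.one_apply] at this
        exact this
      simp_rw [h4]
      simp
    apply hgx
    rw [← hexp x hx, map_sum]
    refine Finset.sum_congr rfl fun l _ => ?_
    rw [map_smul, h3]

end Pool.Agent.H88.PW

namespace Pool.Agent.H88

open MeasureTheory

/-- Module PW (weak Peter-Weyl). -/
theorem exists_unitary_rep {G : Type} [Group G] [TopologicalSpace G] [IsTopologicalGroup G]
    [CompactSpace G] [T2Space G] (g : G) (hg : g ≠ 1) :
    ∃ (n : ℕ) (ρ : G →* U n), Continuous ρ ∧ ρ g ≠ 1 := by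
  borelize G
  set μ : Measure G := Measure.haarMeasure (⊤ : TopologicalSpace.PositiveCompacts G) with hμ
  have hμ1 : IsProbabilityMeasure μ := ⟨Measure.haarMeasure_self⟩
  -- the regular representation
  let L : G → (Lp ℂ 2 μ →L[ℂ] Lp ℂ 2 μ) := fun h =>
    LinearMap.mkContinuous
      { toFun := fun f => DomMulAct.mk h⁻¹ • f
        map_add' := fun f f' => smul_add _ _ _
        map_smul' := fun c f => smul_comm _ _ _ } 1 (fun f => by
          rw [one_mul]
          exact (DomMulAct.norm_smul_Lp (DomMulAct.mk h⁻¹) f).le)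
  have hL : ∀ h f, L h f = DomMulAct.mk h⁻¹ • f := fun h f => rfl
  let π : G →* (Lp ℂ 2 μ →L[ℂ] Lp ℂ 2 μ) :=
    { toFun := L
      map_one' := by
        ext1 f
        rw [hL, inv_one, DomMulAct.mk_one, one_smul]
        rfl
      map_mul' := fun h k => by
        ext1 f
        show L (h * k) f = L h (L k f)
        rw [hL, hL, hL, mul_inv_rev, DomMulAct.mk_mul, mul_smul] }
  have hπapp : ∀ h f, π h f = DomMulAct.mk h⁻¹ • f := hL
  have hπ : ∀ g x y, inner ℂ (π g x) (π g y) = inner ℂ x y := by
    intro g x y
    let T : Lp ℂ 2 μ →ₗᵢ[ℂ] Lp ℂ 2 μ :=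
      ⟨(π g).toLinearMap, fun f => DomMulAct.norm_smul_Lp (DomMulAct.mk g⁻¹) f⟩
    exact T.inner_map_map x y
  have hc : ∀ x, Continuous fun g => π g x := by
    intro x
    have htop : Fact ((2 : ENNReal) ≠ ⊤) := ⟨ENNReal.ofNat_ne_top⟩
    have h1 : Continuous fun h : G => DomMulAct.mk h⁻¹ • x :=
      (DomMulAct.continuous_mk.comp continuous_inv).smul continuous_const
    exact h1
  -- a function moved by `g`
  have hne : g⁻¹ ≠ 1 := fun h => hg (inv_eq_one.mp h)
  obtain ⟨f₀, hf1, hf2, -⟩ := exists_continuous_zero_one_of_isClosed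
    (isClosed_singleton (x := g⁻¹)) (isClosed_singleton (x := (1 : G)))
    (Set.disjoint_singleton.mpr hne)
  have hfc : Continuous fun x => (f₀ x : ℂ) := Complex.continuous_ofReal.comp f₀.continuous
  have hmem : MemLp (fun x => (f₀ x : ℂ)) 2 μ :=
    hfc.memLp_of_hasCompactSupport (HasCompactSupport.of_compactSpace _)
  have hv : π g (hmem.toLp _) ≠ hmem.toLp _ := by
    intro h
    rw [hπapp, DomMulAct.mk_smul_toLp, MemLp.toLp_eq_toLp_iff] at h
    have hc1 : Continuous fun x : G => (f₀ (g⁻¹ • x) : ℂ) :=
      hfc.comp (continuous_const.mul continuous_id)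
    have h1 := (Continuous.ae_eq_iff_eq μ hc1 hfc).mp h
    have h2 := congrFun h1 1
    simp only [smul_eq_mul, mul_one] at h2
    rw [hf1 rfl, hf2 rfl] at h2
    simp at h2
  obtain ⟨E, hE1, hE2, x, hx, hgx⟩ := PW.exists_invariant π hπ hc g _ hv
  exact PW.exists_rep_of_invariant π hπ hc g E hE2 x hx hgx

end Pool.Agent.H88
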