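import Mathlib
import Pool.Agent.H88.Amalg.Defs

/-! Linear algebra for the module SCHUR: spectral splitting of a Hermitian matrix, and the
representation carried by a Hermitian projection. -/

set_option autoImplicit false

namespace Pool.Agent.H88.SCHUR

open Matrix

theorem spectral_form {I : Type} [Fintype I] [DecidableEq I] (H : Matrix I I ℂ)
    (hH : H.IsHermitian) :
    ∃ (u : Matrix I I ℂ) (a : I → ℝ), star u * u = 1 ∧ u * star u = 1 ∧
      H = u * diagonal (fun i => (a i : ℂ)) * star u := by
  refine ⟨hH.eigenvectorUnitary, hH.eigenvalues, ?_, ?_, ?_⟩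
  · exact Unitary.coe_star_mul_self _
  · exact Unitary.coe_mul_star_self _
  · have h := hH.spectral_theorem
    rw [Unitary.conjStarAlgAut_apply] at h
    exact h

theorem commute_of_spectral {I : Type} [Fintype I] [DecidableEq I] (u : Matrix I I ℂ)
    (a : I → ℝ) (hu1 : star u * u = 1) (hu2 : u * star u = 1) (f : ℝ → ℂ)
    (M : Matrix I I ℂ)
    (h : (u * diagonal (fun i => (a i : ℂ)) * star u) * M =
      M * (u * diagonal (fun i => (a i : ℂ)) * star u)) :
    (u * diagonal (fun i => f (a i)) * star u) * M =
      M * (u * diagonal (fun i => f (a i)) * star u) := by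
  set N : Matrix I I ℂ := star u * M * u with hN
  have hM : M = u * N * star u := by
    rw [hN]
    calc M = 1 * M * 1 := by simp
      _ = (u * star u) * M * (u * star u) := by rw [hu2]
      _ = u * (star u * M * u) * star u := by simp only [Matrix.mul_assoc]
  have key : ∀ d : I → ℂ, (u * diagonal d * star u) * M = u * (diagonal d * N) * star u := by
    intro d
    rw [hM]
    calc u * diagonal d * star u * (u * N * star u)
        = u * diagonal d * (star u * u) * N * star u := by simp only [Matrix.mul_assoc]
      _ = u * (diagonal d * N) * star u := by rw [hu1]; simp only [Matrix.mul_assoc, Matrix.one_mul]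
  have key2 : ∀ d : I → ℂ, M * (u * diagonal d * star u) = u * (N * diagonal d) * star u := by
    intro d
    rw [hM]
    calc u * N * star u * (u * diagonal d * star u)
        = u * N * (star u * u) * diagonal d * star u := by simp only [Matrix.mul_assoc]
      _ = u * (N * diagonal d) * star u := by rw [hu1]; simp only [Matrix.mul_assoc, Matrix.one_mul]
  have h2 : diagonal (fun i => (a i : ℂ)) * N = N * diagonal (fun i => (a i : ℂ)) := by
    rw [key, key2] at h
    have h3 := congrArg (fun X => star u * X * u) h
    have e : ∀ X : Matrix I I ℂ, star u * (u * X * star u) * u = X := by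
      intro X
      calc star u * (u * X * star u) * u = (star u * u) * X * (star u * u) := by
            simp only [Matrix.mul_assoc]
        _ = X := by rw [hu1]; simp
    rwa [e, e] at h3
  rw [key, key2]
  congr 2
  ext i j
  have h4 := congrFun (congrFun h2 i) j
  rw [diagonal_mul, mul_diagonal] at h4 ⊢
  by_cases hz : N i j = 0
  · simp [hz]
  · have h5 : (a i : ℂ) = a j := by
      have : ((a i : ℂ) - a j) * N i j = 0 := by linear_combination h4
      rcases mul_eq_zero.mp this with h6 | h6
      · exact sub_eq_zero.mp h6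
      · exact absurd h6 hz
    have h6 : a i = a j := by exact_mod_cast h5
    rw [h6, mul_comm]

/-- Spectral splitting of a Hermitian matrix at a real number `c`. -/
theorem spectral_split {I : Type} [Fintype I] [DecidableEq I] (H : Matrix I I ℂ)
    (hH : H.IsHermitian) (c : ℝ) :
    ∃ P Y : Matrix I I ℂ, P * P = P ∧ star P = P ∧ H * P = (c : ℂ) • P ∧
      1 - P = (H - (c : ℂ) • (1 : Matrix I I ℂ)) * Y ∧
      ∀ M : Matrix I I ℂ, H * M = M * H → P * M = M * P ∧ Y * M = M * Y := by
  classical
  obtain ⟨u, a, hu1, hu2, hs⟩ := spectral_form H hH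
  have fmul : ∀ d e : I → ℂ, (u * diagonal d * star u) * (u * diagonal e * star u) =
      u * diagonal (fun i => d i * e i) * star u := by
    intro d e
    calc u * diagonal d * star u * (u * diagonal e * star u)
        = u * (diagonal d * ((star u * u) * diagonal e)) * star u := by
          simp only [Matrix.mul_assoc]
      _ = _ := by rw [hu1, Matrix.one_mul, diagonal_mul_diagonal]
  have fsub : ∀ d e : I → ℂ, (u * diagonal d * star u) - (u * diagonal e * star u) =
      u * diagonal (fun i => d i - e i) * star u := by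
    intro d e
    rw [← Matrix.sub_mul, ← Matrix.mul_sub, diagonal_sub]
  have fsmul : ∀ (r : ℂ) (d : I → ℂ), r • (u * diagonal d * star u) =
      u * diagonal (fun i => r * d i) * star u := by
    intro r d
    rw [← Matrix.smul_mul, ← Matrix.mul_smul, ← diagonal_smul]
    rfl
  have fone : (1 : Matrix I I ℂ) = u * diagonal (fun _ => (1 : ℂ)) * star u := by
    rw [diagonal_one, Matrix.mul_one, hu2]
  let g : ℝ → ℂ := fun x => if x = c then 1 else 0
  let k : ℝ → ℂ := fun x => ((x : ℂ) - c)⁻¹
  refine ⟨u * diagonal (fun i => g (a i)) * star u, u * diagonal (fun i => k (a i)) * star u,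
    ?_, ?_, ?_, ?_, ?_⟩
  · rw [fmul]
    congr 3
    funext i
    simp only [g]
    split_ifs <;> simp
  · rw [star_mul, star_mul, star_star, star_eq_conjTranspose (diagonal _),
      diagonal_conjTranspose, Matrix.mul_assoc]
    congr 3
    funext i
    simp only [g, Pi.star_apply]
    split_ifs <;> simp
  · conv_lhs => rw [hs]
    rw [fmul, fsmul]
    congr 3
    funext i
    simp only [g]
    split_ifs with h
    · rw [h]
    · simp
  · rw [hs, fone, fsmul, fsub, fsub, fmul]
    congr 3
    funext i
    simp only [g, k]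
    split_ifs with h
    · simp [h]
    · have : (a i : ℂ) - c ≠ 0 := by
        rw [sub_ne_zero]
        exact_mod_cast h
      rw [mul_one, mul_inv_cancel₀ this]
      simp
  · intro M hM
    rw [hs] at hM
    exact ⟨commute_of_spectral u a hu1 hu2 g M hM, commute_of_spectral u a hu1 hu2 k M hM⟩

/-- A Hermitian projection is `J * Jᴴ` with `Jᴴ * J = 1`. -/
theorem proj_factor {I : Type} [Fintype I] [DecidableEq I] (P : Matrix I I ℂ)
    (hP : P * P = P) (hP' : star P = P) :
    ∃ (d : ℕ) (J : Matrix I (Fin d) ℂ), Jᴴ * J = 1 ∧ J * Jᴴ = P := by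
  classical
  obtain ⟨u, a, hu1, hu2, hs⟩ := spectral_form P hP'
  have ha : ∀ i, (a i : ℂ) * a i = a i := by
    intro i
    have h1 : diagonal (fun i => (a i : ℂ)) = star u * P * u := by
      rw [hs]
      calc diagonal (fun i => (a i : ℂ)) = (1 : Matrix I I ℂ) * diagonal (fun i => (a i : ℂ)) * 1 := by
            simp
        _ = (star u * u) * diagonal (fun i => (a i : ℂ)) * (star u * u) := by rw [hu1]
        _ = _ := by simp only [Matrix.mul_assoc]
    have h2 : diagonal (fun i => (a i : ℂ)) * diagonal (fun i => (a i : ℂ)) =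
        diagonal (fun i => (a i : ℂ)) := by
      rw [h1]
      calc star u * P * u * (star u * P * u) = star u * (P * (u * star u) * P) * u := by
            simp only [Matrix.mul_assoc]
        _ = star u * P * u := by rw [hu2, Matrix.mul_one, hP]
    rw [diagonal_mul_diagonal] at h2
    exact congrFun (diagonal_injective h2) i
  have ha' : ∀ i, a i = 0 ∨ a i = 1 := by
    intro i
    have h1 : (a i : ℝ) * a i = a i := by exact_mod_cast ha i
    have h2 : a i * (a i - 1) = 0 := by linear_combination h1
    rcases mul_eq_zero.mp h2 with h | h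
    · left; exact h
    · right; linarith
  let S := {i : I // a i = 1}
  let e : Fin (Fintype.card S) ≃ S := (Fintype.equivFin S).symm
  refine ⟨Fintype.card S, Matrix.of fun i k => u i (e k).1, ?_, ?_⟩
  · ext k l
    rw [mul_apply]
    have h1 := congrFun (congrFun hu1 (e k).1) (e l).1
    rw [mul_apply] at h1
    simp only [star_apply, conjTranspose_apply, of_apply] at h1 ⊢
    rw [h1, one_apply, one_apply]
    by_cases hkl : k = l
    · simp [hkl]
    · have : (e k).1 ≠ (e l).1 := by
        intro h
        exact hkl (e.injective (Subtype.ext h))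
      simp [hkl, this]
  · ext i j
    rw [hs, mul_apply, mul_apply]
    simp only [mul_diagonal, star_apply, conjTranspose_apply, of_apply]
    rw [← Finset.sum_subset (s₁ := Finset.univ.filter fun k => a k = 1) (Finset.subset_univ _)]
    · rw [Finset.sum_subtype (p := fun k => a k = 1) (Finset.univ.filter fun k => a k = 1)
        (by intro x; simp)]
      rw [← e.sum_comp]
      refine Finset.sum_congr rfl fun k _ => ?_
      rw [(e k).2]
      simp
    · intro x _ hx
      have : a x = 0 := by
        rcases ha' x with h | h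
        · exact h
        · exfalso; apply hx; simp [h]
      simp [this]

theorem trace_proj_nat {I : Type} [Fintype I] [DecidableEq I] (P : Matrix I I ℂ)
    (hP : P * P = P) (hP' : star P = P) : ∃ d : ℕ, trace P = (d : ℂ) := by
  obtain ⟨d, J, h1, h2⟩ := proj_factor P hP hP'
  refine ⟨d, ?_⟩
  rw [← h2, trace_mul_comm, h1]
  simp

end Pool.Agent.H88.SCHUR

namespace Pool.Agent.H88

open Matrix

/-- Module SCHUR1: a Hermitian projection commuting with a unitary representation gives a
unitary representation whose character is `trace (ρ g * P)`. -/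
theorem rep_of_projection {G : Type} [Group G] [TopologicalSpace G] {I : Type} [Fintype I]
    [DecidableEq I] (ρ : G →* Matrix.unitaryGroup I ℂ) (hρ : Continuous ρ) (P : Matrix I I ℂ)
    (hP : P * P = P) (hP' : star P = P) (hc : ∀ g, (ρ g : Matrix I I ℂ) * P = P * ρ g) :
    ∃ (d : ℕ) (σ : G →* U d), Continuous σ ∧
      ∀ g, trace (σ g : Mat d) = trace ((ρ g : Matrix I I ℂ) * P) := by
  obtain ⟨d, J, h1, h2⟩ := SCHUR.proj_factor P hP hP'
  have hJP : Jᴴ * P = Jᴴ := by
    rw [← h2, ← Matrix.mul_assoc, h1, Matrix.one_mul]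
  have hPJ : P * J = J := by
    rw [← h2, Matrix.mul_assoc, h1, Matrix.mul_one]
  have hmul : ∀ g h, (Jᴴ * (ρ g : Matrix I I ℂ) * J) * (Jᴴ * (ρ h : Matrix I I ℂ) * J) =
      Jᴴ * (ρ (g * h) : Matrix I I ℂ) * J := by
    intro g h
    calc (Jᴴ * (ρ g : Matrix I I ℂ) * J) * (Jᴴ * (ρ h : Matrix I I ℂ) * J)
        = Jᴴ * (((ρ g : Matrix I I ℂ) * (J * Jᴴ)) * (ρ h : Matrix I I ℂ)) * J := by
          simp only [Matrix.mul_assoc]
      _ = Jᴴ * ((P * (ρ g : Matrix I I ℂ)) * (ρ h : Matrix I I ℂ)) * J := by
          rw [h2, hc g]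
      _ = (Jᴴ * P) * ((ρ g : Matrix I I ℂ) * (ρ h : Matrix I I ℂ)) * J := by
          simp only [Matrix.mul_assoc]
      _ = _ := by rw [hJP, map_mul]; rfl
  have hone : Jᴴ * (ρ 1 : Matrix I I ℂ) * J = 1 := by
    rw [map_one]
    simp [h1]
  have hstar : ∀ g, star (Jᴴ * (ρ g : Matrix I I ℂ) * J) = Jᴴ * (ρ g⁻¹ : Matrix I I ℂ) * J := by
    intro g
    rw [star_eq_conjTranspose, conjTranspose_mul, conjTranspose_mul, conjTranspose_conjTranspose,
      map_inv, Matrix.mul_assoc]
    rfl
  let σ : G →* U d :=
    { toFun := fun g => ⟨Jᴴ * (ρ g : Matrix I I ℂ) * J, by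
        rw [mem_unitaryGroup_iff, hstar, hmul, mul_inv_cancel, hone]⟩
      map_one' := Subtype.ext hone
      map_mul' := fun g h => Subtype.ext (hmul g h).symm }
  refine ⟨d, σ, ?_, ?_⟩
  · refine Continuous.subtype_mk ?_ _
    have h3 : Continuous fun g => (ρ g : Matrix I I ℂ) := continuous_subtype_val.comp hρ
    exact (continuous_const.matrix_mul h3).matrix_mul continuous_const
  · intro g
    change trace (Jᴴ * (ρ g : Matrix I I ℂ) * J) = _
    rw [trace_mul_comm, ← Matrix.mul_assoc, h2, trace_mul_comm]

end Pool.Agent.H88
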