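import Mathlib
import Pool.Agent.H88.Amalg.Defs

/-! Polynomial identities for the module SCHUR. -/

set_option autoImplicit false

namespace Pool.Agent.H88.SCHUR

open MvPolynomial

abbrev Pol (m : ℕ) : Type := MvPolynomial (Fin m) ℂ

variable {m : ℕ}

/-- The Euler derivation in the variable `a`. -/
noncomputable def th (a : Fin m) : Derivation ℂ (Pol m) (Pol m) := (X a : Pol m) • pderiv a

theorem th_apply (a : Fin m) (f : Pol m) : th a f = X a * pderiv a f := rfl

theorem th_monomial (a : Fin m) (l : Fin m →₀ ℕ) (c : ℂ) :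
    th a (monomial l c) = monomial l ((l a : ℂ) * c) := by
  rw [th_apply, X_mul_pderiv_monomial, smul_monomial]
  simp [nsmul_eq_mul]

theorem coeff_th (a : Fin m) (l : Fin m →₀ ℕ) (f : Pol m) :
    coeff l (th a f) = (l a : ℂ) * coeff l f := by
  induction f using MvPolynomial.induction_on' with
  | monomial u c =>
    rw [th_monomial, coeff_monomial, coeff_monomial]
    split_ifs with h
    · rw [h]
    · simp
  | add p q hp hq => rw [map_add, coeff_add, coeff_add, hp, hq]; ring

theorem th_X (a b : Fin m) : th a (X b : Pol m) = if a = b then X b else 0 := by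
  rw [th_apply]
  split_ifs with h
  · rw [h, pderiv_X_self, mul_one]
  · rw [pderiv_X_of_ne (Ne.symm h), mul_zero]

theorem th_mul (a : Fin m) (f g : Pol m) : th a (f * g) = th a f * g + f * th a g := by
  rw [Derivation.leibniz, smul_eq_mul, smul_eq_mul]; ring

theorem th_prod {ι : Type} [DecidableEq ι] (a : Fin m) (s : Finset ι) (f : ι → Pol m) :
    th a (∏ i ∈ s, f i) = ∑ i ∈ s, (∏ j ∈ s.erase i, f j) * th a (f i) := by
  induction s using Finset.induction_on with
  | empty => simp
  | insert i s hi ih =>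
    rw [Finset.prod_insert hi, th_mul, ih, Finset.sum_insert hi, Finset.erase_insert hi,
      Finset.mul_sum, mul_comm (th a (f i)) (∏ x ∈ s, f x)]
    refine congrArg₂ (· + ·) rfl (Finset.sum_congr rfl fun j hj => ?_)
    have hij : i ≠ j := by
      rintro rfl
      exact hi hj
    rw [Finset.erase_insert_of_ne hij, Finset.prod_insert (by simp [hi])]
    ring

/-- The Laplacian: sum of the squares of the Euler derivations. -/
noncomputable def lap (f : Pol m) : Pol m := ∑ a, th a (th a f)

theorem lap_mul (f g : Pol m) :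
    lap (f * g) = lap f * g + 2 * ∑ a, th a f * th a g + f * lap g := by
  unfold lap
  rw [Finset.sum_mul, Finset.mul_sum, Finset.mul_sum, ← Finset.sum_add_distrib,
    ← Finset.sum_add_distrib]
  refine Finset.sum_congr rfl fun a _ => ?_
  rw [th_mul, map_add, th_mul, th_mul]
  ring

/-- The squared norm of an exponent. -/
def nsq (l : Fin m →₀ ℕ) : ℕ := ∑ a, (l a) ^ 2

theorem coeff_lap (f : Pol m) (l : Fin m →₀ ℕ) : coeff l (lap f) = (nsq l : ℂ) * coeff l f := by
  unfold lap nsq
  rw [coeff_sum, Nat.cast_sum, Finset.sum_mul]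
  refine Finset.sum_congr rfl fun a _ => ?_
  rw [coeff_th, coeff_th]
  push_cast
  ring

/-- The ordered pairs `i < j`. -/
def pairs (m : ℕ) : Finset (Fin m × Fin m) := Finset.univ.filter fun p => p.1 < p.2

theorem sum_pairs {M : Type*} [AddCommMonoid M] (h : Fin m → Fin m → M) :
    ∑ i, ∑ j, h i j = ∑ i, h i i + ∑ p ∈ pairs m, (h p.1 p.2 + h p.2 p.1) := by
  have e1 : ∑ p ∈ pairs m, h p.2 p.1 =
      ∑ p ∈ Finset.univ.filter (fun p : Fin m × Fin m => p.2 < p.1), h p.1 p.2 := by
    refine Finset.sum_nbij' Prod.swap Prod.swap ?_ ?_ ?_ ?_ ?_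
    · intro p hp; simpa [pairs] using hp
    · intro p hp; simpa [pairs] using hp
    · intro p _; simp
    · intro p _; simp
    · intro p _; simp
  have e2 : ∑ i, h i i = ∑ p ∈ Finset.univ.filter (fun p : Fin m × Fin m => p.1 = p.2),
      h p.1 p.2 := by
    refine Finset.sum_nbij' (fun i => (i, i)) Prod.fst ?_ ?_ ?_ ?_ ?_
    · intro i _; simp
    · intro p _; simp
    · intro i _; rfl
    · intro p hp
      have : p.1 = p.2 := by simpa using hp
      exact Prod.ext rfl this
    · intro p _; rfl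
  rw [Finset.sum_add_distrib, e1, e2, ← Fintype.sum_prod_type']
  rw [← Finset.sum_filter_add_sum_filter_not Finset.univ (fun p : Fin m × Fin m => p.1 = p.2)]
  congr 1
  rw [← Finset.sum_filter_add_sum_filter_not
    (Finset.univ.filter (fun p : Fin m × Fin m => ¬ p.1 = p.2)) (fun p => p.1 < p.2)]
  congr 1
  · refine Finset.sum_congr ?_ fun _ _ => rfl
    ext p
    simp only [pairs, Finset.mem_filter, Finset.mem_univ, true_and]
    exact ⟨fun h => h.2, fun h => ⟨ne_of_lt h, h⟩⟩
  · refine Finset.sum_congr ?_ fun _ _ => rfl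
    ext p
    simp only [Finset.mem_filter, Finset.mem_univ, true_and]
    exact ⟨fun h => lt_of_le_of_ne (not_lt.mp h.2) (fun e => h.1 e.symm),
      fun h => ⟨(ne_of_lt h).symm, not_lt.mpr h.le⟩⟩

/-- The alternant over the complex numbers. -/
noncomputable def altC (l : Fin m → ℕ) : Pol m :=
  Matrix.det (Matrix.of fun i j : Fin m => (X i : Pol m) ^ l j)

theorem map_alt (l : Fin m → ℕ) : MvPolynomial.map (Int.castRingHom ℂ) (alt m l) = altC l := by
  unfold alt altC
  rw [RingHom.map_det]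
  congr 1
  ext i j : 2
  simp

theorem altC_rho : altC (rho m) = ∏ p ∈ pairs m, ((X p.1 : Pol m) - X p.2) := by
  have h1 : altC (rho m) = Matrix.det (Matrix.vandermonde fun i : Fin m => (X i.rev : Pol m)) := by
    unfold altC
    rw [← Matrix.det_submatrix_equiv_self Fin.revPerm]
    congr 1
    ext i j : 2
    simp only [Matrix.submatrix_apply, Matrix.of_apply, Fin.revPerm_apply, Matrix.vandermonde_apply,
      rho]
    have h0 : m - 1 - ((j.rev : Fin m) : ℕ) = (j : ℕ) := by
      have := j.isLt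
      rw [Fin.val_rev]
      omega
    rw [h0]
  rw [h1, Matrix.det_vandermonde]
  have h2 : ∀ i : Fin m, ∏ j ∈ Finset.Ioi i, ((X j.rev : Pol m) - X i.rev) =
      ∏ j, if i < j then ((X j.rev : Pol m) - X i.rev) else 1 := by
    intro i
    rw [← Finset.prod_filter]
    refine Finset.prod_congr ?_ fun _ _ => rfl
    ext j; simp
  simp_rw [h2]
  rw [← Fintype.prod_prod_type', ← Finset.prod_filter]
  refine Finset.prod_nbij' (fun p => (p.2.rev, p.1.rev)) (fun p => (p.2.rev, p.1.rev)) ?_ ?_ ?_ ?_ ?_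
  · intro p hp; simpa [pairs] using hp
  · intro p hp; simpa [pairs] using hp
  · intro p _; simp
  · intro p _; simp
  · intro p _; simp

theorem altC_eq_sum (l : Fin m → ℕ) : altC l = ∑ σ : Equiv.Perm (Fin m),
    Equiv.Perm.sign σ • monomial (Finsupp.equivFunOnFinite.symm (fun a => l (σ⁻¹ a))) (1 : ℂ) := by
  unfold altC
  rw [Matrix.det_apply]
  refine Finset.sum_congr rfl fun σ _ => ?_
  congr 1
  simp only [Matrix.of_apply]
  rw [MvPolynomial.monomial_eq, C_1, one_mul, Finsupp.prod_fintype _ _ (by simp)]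
  rw [← Equiv.prod_comp σ (fun a => (X a : Pol m) ^
    (Finsupp.equivFunOnFinite.symm (fun a => l (σ⁻¹ a))) a)]
  refine Finset.prod_congr rfl fun i _ => ?_
  simp

theorem altC_supp (l : Fin m → ℕ) (ν : Fin m →₀ ℕ) (h : coeff ν (altC l) ≠ 0) :
    nsq ν = ∑ a, (l a) ^ 2 := by
  by_contra hne
  apply h
  rw [altC_eq_sum, coeff_sum]
  refine Finset.sum_eq_zero fun σ _ => ?_
  have h1 : Finsupp.equivFunOnFinite.symm (fun a => l (σ⁻¹ a)) ≠ ν := by
    rintro rfl
    apply hne
    unfold nsq
    simp only [Finsupp.coe_equivFunOnFinite_symm]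
    exact Equiv.sum_comp σ⁻¹ (fun a => (l a) ^ 2)
  rw [Units.smul_def, zsmul_eq_mul]
  rw [show ((Equiv.Perm.sign σ : ℤ) : Pol m) = C ((Equiv.Perm.sign σ : ℤ) : ℂ) by simp,
    coeff_C_mul, coeff_monomial, if_neg h1, mul_zero]

theorem lap_altC (l : Fin m → ℕ) : lap (altC l) = ((∑ a, (l a) ^ 2 : ℕ) : Pol m) * altC l := by
  ext ν
  rw [coeff_lap, show ((∑ a, (l a) ^ 2 : ℕ) : Pol m) = C ((∑ a, (l a) ^ 2 : ℕ) : ℂ) by simp,
    coeff_C_mul]
  by_cases h : coeff ν (altC l) = 0
  · rw [h, mul_zero, mul_zero]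
  · rw [altC_supp l ν h]

theorem pieri (l : Fin m → ℕ) :
    altC l * ∑ j, (X j : Pol m) = ∑ j : Fin m, altC (l + Pi.single j (1 : ℕ)) := by
  unfold altC
  simp_rw [Matrix.det_apply]
  rw [Finset.sum_comm, Finset.sum_mul]
  refine Finset.sum_congr rfl fun σ _ => ?_
  rw [← Finset.smul_sum, smul_mul_assoc]
  congr 1
  simp only [Matrix.of_apply]
  have h1 : ∀ j : Fin m, ∏ i, (X (σ i) : Pol m) ^ ((l + Pi.single j 1 : Fin m → ℕ) i) =
      (∏ i, (X (σ i) : Pol m) ^ l i) * X (σ j) := by
    intro j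
    simp only [Pi.add_apply, pow_add, Finset.prod_mul_distrib]
    congr 1
    rw [Finset.prod_eq_single j]
    · simp
    · intro i _ hij
      simp [Pi.single_eq_of_ne hij]
    · simp
  simp_rw [h1]
  rw [← Finset.mul_sum, Equiv.sum_comp σ (fun j => (X j : Pol m))]

end Pool.Agent.H88.SCHUR
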