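import Mathlib
import Pool.Agent.H88.Amalg.Defs
import Pool.Agent.H88.Amalg.SCHURb

/-! The Casimir identity for the module SCHUR. -/

set_option autoImplicit false

namespace Pool.Agent.H88.SCHUR

open MvPolynomial

variable {m : ℕ}

/-- Matrix unit. -/
noncomputable abbrev E (i j : Fin m) : Mat m := Matrix.single i j (1 : ℂ)

/-- A polynomial representation of the unitary group and its Lie algebra, with a weight basis. -/
structure Dat (m N : ℕ) (I : Type) [Fintype I] [DecidableEq I] where
  cont : I → (Fin m →₀ ℕ)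
  R : Mat m →ₗ[ℂ] Matrix I I ℂ
  rt : U m →* Matrix.unitaryGroup I ℂ
  cont_sum : ∀ w, ∑ i, cont w i = N
  R_star : ∀ A, R (star A) = star (R A)
  R_lie : ∀ A B, R (A * B - B * A) = R A * R B - R B * R A
  R_diag : ∀ i, R (E i i) = Matrix.diagonal (fun w => (cont w i : ℂ))
  rt_cont : Continuous rt
  rt_R : ∀ (g : U m) (A : Mat m), (rt g : Matrix I I ℂ) * R A = R (g * A * star (g : Mat m)) * rt g
  rt_diag : ∀ (x : Fin m → ℂ) (g : U m), (g : Mat m) = Matrix.diagonal x →
    (rt g : Matrix I I ℂ) = Matrix.diagonal (fun w => ∏ i, x i ^ cont w i)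

/-- The graded trace. -/
noncomputable def F {I : Type} [Fintype I] (cont : I → (Fin m →₀ ℕ)) (M : Matrix I I ℂ) : Pol m :=
  ∑ w, monomial (cont w) (M w w)

section F

variable {I : Type} [Fintype I] (cont : I → (Fin m →₀ ℕ))

theorem F_add (M M' : Matrix I I ℂ) : F cont (M + M') = F cont M + F cont M' := by
  unfold F
  rw [← Finset.sum_add_distrib]
  exact Finset.sum_congr rfl fun w _ => by rw [Matrix.add_apply, map_add]

theorem F_sub (M M' : Matrix I I ℂ) : F cont (M - M') = F cont M - F cont M' := by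
  unfold F
  rw [← Finset.sum_sub_distrib]
  exact Finset.sum_congr rfl fun w _ => by rw [Matrix.sub_apply, map_sub]

theorem F_zero : F cont (0 : Matrix I I ℂ) = 0 := by
  unfold F
  exact Finset.sum_eq_zero fun w _ => by rw [Matrix.zero_apply, map_zero]

theorem F_smul (c : ℂ) (M : Matrix I I ℂ) : F cont (c • M) = C c * F cont M := by
  unfold F
  rw [Finset.mul_sum]
  exact Finset.sum_congr rfl fun w _ => by
    rw [Matrix.smul_apply, smul_eq_mul, C_mul_monomial]

theorem F_sum {ι : Type} (s : Finset ι) (f : ι → Matrix I I ℂ) :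
    F cont (∑ i ∈ s, f i) = ∑ i ∈ s, F cont (f i) := by
  classical
  induction s using Finset.induction_on with
  | empty => simp [F_zero]
  | insert i s hi ih => rw [Finset.sum_insert hi, Finset.sum_insert hi, F_add, ih]

theorem th_F (a : Fin m) (M : Matrix I I ℂ) :
    th a (F cont M) = ∑ w, monomial (cont w) ((cont w a : ℂ) * M w w) := by
  unfold F
  rw [map_sum]
  exact Finset.sum_congr rfl fun w _ => th_monomial _ _ _

end F

variable {N : ℕ} {I : Type} [Fintype I] [DecidableEq I] (d : Dat m N I)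

theorem Dat.weight (k l : Fin m) (w w' : I) (h : d.R (E k l) w w' ≠ 0) :
    d.cont w + Finsupp.single l 1 = d.cont w' + Finsupp.single k 1 := by
  ext i
  have h1 := d.R_lie (E i i) (E k l)
  have h2 := congrFun (congrFun h1 w) w'
  rw [d.R_diag, Matrix.sub_apply, Matrix.diagonal_mul, Matrix.mul_diagonal] at h2
  have h3 : E i i * E k l - E k l * E i i =
      ((if k = i then 1 else 0) - (if l = i then 1 else 0) : ℂ) • (E k l : Mat m) := by
    by_cases hk : k = i
    · subst hk
      by_cases hl : l = k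
      · subst hl; simp
      · rw [Matrix.single_mul_single_same, Matrix.single_mul_single_of_ne _ _ _ _ hl]
        simp [hl]
    · by_cases hl : l = i
      · subst hl
        rw [Matrix.single_mul_single_same, Matrix.single_mul_single_of_ne _ _ _ _ (Ne.symm hk)]
        simp [hk]
      · rw [Matrix.single_mul_single_of_ne _ _ _ _ (Ne.symm hk),
          Matrix.single_mul_single_of_ne _ _ _ _ hl]
        simp [hk, hl]
  rw [h3, map_smul, Matrix.smul_apply, smul_eq_mul] at h2
  have h4 : (((if k = i then 1 else 0) - (if l = i then 1 else 0) : ℂ) -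
      ((d.cont w i : ℂ) - (d.cont w' i : ℂ))) * d.R (E k l) w w' = 0 := by
    linear_combination h2
  have h5 := (mul_eq_zero.mp h4).resolve_right h
  have h6 : ((d.cont w i + (if l = i then 1 else 0) : ℕ) : ℂ) =
      ((d.cont w' i + (if k = i then 1 else 0) : ℕ) : ℂ) := by
    push_cast
    linear_combination -h5
  have h7 : d.cont w i + (if l = i then 1 else 0) = d.cont w' i + (if k = i then 1 else 0) := by
    exact_mod_cast h6
  simpa [Finsupp.single_apply] using h7

theorem Dat.twist (k l : Fin m) (B : Matrix I I ℂ) :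
    X l * F d.cont (d.R (E k l) * B) = X k * F d.cont (B * d.R (E k l)) := by
  have h1 : X l * F d.cont (d.R (E k l) * B) = ∑ w, ∑ w',
      monomial (d.cont w + Finsupp.single l 1) (d.R (E k l) w w' * B w' w) := by
    unfold F
    rw [Finset.mul_sum]
    refine Finset.sum_congr rfl fun w _ => ?_
    rw [Matrix.mul_apply, map_sum, Finset.mul_sum]
    refine Finset.sum_congr rfl fun w' _ => ?_
    rw [X, monomial_mul, one_mul, add_comm]
  have h2 : X k * F d.cont (B * d.R (E k l)) = ∑ w', ∑ w,
      monomial (d.cont w' + Finsupp.single k 1) (d.R (E k l) w w' * B w' w) := by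
    unfold F
    rw [Finset.mul_sum]
    refine Finset.sum_congr rfl fun w _ => ?_
    rw [Matrix.mul_apply, map_sum, Finset.mul_sum]
    refine Finset.sum_congr rfl fun w' _ => ?_
    rw [X, monomial_mul, one_mul, add_comm, mul_comm]
  rw [h1, h2, Finset.sum_comm]
  refine Finset.sum_congr rfl fun w' _ => Finset.sum_congr rfl fun w _ => ?_
  by_cases h : d.R (E k l) w w' = 0
  · rw [h, zero_mul, map_zero, map_zero]
  · rw [d.weight k l w w' h]

/-- The Casimir element. -/
noncomputable def Dat.cas : Matrix I I ℂ := ∑ i, ∑ j, d.R (E i j) * d.R (E j i)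

theorem Dat.star_cas : star d.cas = d.cas := by
  unfold Dat.cas
  rw [star_sum]
  refine Finset.sum_congr rfl fun i _ => ?_
  rw [star_sum]
  refine Finset.sum_congr rfl fun j _ => ?_
  rw [star_mul, ← d.R_star, ← d.R_star]
  have h : ∀ i j : Fin m, star (E i j) = (E j i : Mat m) := by
    intro i j
    rw [Matrix.star_eq_conjTranspose, Matrix.conjTranspose_single]
    simp
  rw [h, h]

theorem Dat.comm_cas (B : Matrix I I ℂ) (hB : ∀ A, B * d.R A = d.R A * B) :
    B * d.cas = d.cas * B := by
  unfold Dat.cas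
  rw [Finset.mul_sum, Finset.sum_mul]
  refine Finset.sum_congr rfl fun i _ => ?_
  rw [Finset.mul_sum, Finset.sum_mul]
  refine Finset.sum_congr rfl fun j _ => ?_
  rw [← Matrix.mul_assoc, hB, Matrix.mul_assoc, hB, Matrix.mul_assoc]

theorem Dat.R_expand (A : Mat m) : d.R A = ∑ i, ∑ j, A i j • d.R (E i j) := by
  conv_lhs => rw [Matrix.matrix_eq_sum_single A]
  rw [map_sum]
  refine Finset.sum_congr rfl fun i _ => ?_
  rw [map_sum]
  refine Finset.sum_congr rfl fun j _ => ?_
  rw [← map_smul, Matrix.smul_single, smul_eq_mul, mul_one]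

/-- Graded Casimir identity. -/
theorem Dat.key (M : Matrix I I ℂ) (hM : ∀ A, M * d.R A = d.R A * M) :
    lap (altC (rho m) * F d.cont M) =
      C (((∑ a, rho m a ^ 2 : ℕ) : ℂ) + ((m : ℂ) - 1) * N) * (altC (rho m) * F d.cont M) +
        altC (rho m) * F d.cont (d.cas * M) := by
  classical
  set Δ : Pol m := altC (rho m) with hΔ
  set f : Pol m := F d.cont M with hf
  let Y : Fin m → Fin m → Pol m := fun i j => F d.cont (d.R (E i j) * d.R (E j i) * M)
  have hcas : F d.cont (d.cas * M) = ∑ i, ∑ j, Y i j := by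
    unfold Dat.cas
    rw [Finset.sum_mul, F_sum]
    refine Finset.sum_congr rfl fun i _ => ?_
    rw [Finset.sum_mul, F_sum]
  have hY1 : ∀ i j, X j * Y i j = X i * Y j i := by
    intro i j
    simp only [Y]
    rw [Matrix.mul_assoc, d.twist i j, Matrix.mul_assoc, hM, ← Matrix.mul_assoc]
  have hY2 : ∀ i j, Y i j - Y j i = th i f - th j f := by
    intro i j
    simp only [Y]
    rw [← F_sub, ← Matrix.sub_mul, ← d.R_lie]
    have h1 : (E i j * E j i - E j i * E i j : Mat m) = E i i - E j j := by
      rw [Matrix.single_mul_single_same, Matrix.single_mul_single_same, mul_one]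
    rw [h1, map_sub, d.R_diag, d.R_diag, Matrix.sub_mul, F_sub, hf, th_F, th_F]
    unfold F
    congr 1
    · exact Finset.sum_congr rfl fun w _ => by rw [Matrix.diagonal_mul]
    · exact Finset.sum_congr rfl fun w _ => by rw [Matrix.diagonal_mul]
  have hYd : ∑ i, Y i i = lap f := by
    unfold lap
    refine Finset.sum_congr rfl fun i _ => ?_
    simp only [Y]
    rw [d.R_diag, hf, th_F, map_sum]
    unfold F
    refine Finset.sum_congr rfl fun w _ => ?_
    rw [Matrix.diagonal_mul_diagonal, Matrix.diagonal_mul, th_monomial, mul_assoc]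
  have hth : ∑ i, th i f = C (N : ℂ) * f := by
    rw [hf]
    simp_rw [th_F]
    rw [Finset.sum_comm]
    unfold F
    rw [Finset.mul_sum]
    refine Finset.sum_congr rfl fun w _ => ?_
    have hN : ∑ i, (d.cont w i : ℂ) = (N : ℂ) := by
      rw [← Nat.cast_sum, d.cont_sum w]
    rw [← map_sum, ← Finset.sum_mul, C_mul_monomial, hN]
  have hsum1 : ∑ p ∈ pairs m, (Y p.1 p.2 + Y p.2 p.1) = F d.cont (d.cas * M) - lap f := by
    rw [hcas, sum_pairs, hYd]; ring
  have hsum2 : ∑ p ∈ pairs m, (th p.1 f + th p.2 f) = C (((m : ℂ) - 1) * N) * f := by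
    have h := sum_pairs (fun i _ : Fin m => th i f)
    simp only [Finset.sum_const, Finset.card_univ, Fintype.card_fin] at h
    rw [← Finset.smul_sum, hth] at h
    have h' : ∑ p ∈ pairs m, (th p.1 f + th p.2 f) = m • (C (N : ℂ) * f) - C (N : ℂ) * f := by
      rw [h]; ring
    rw [h', nsmul_eq_mul]
    simp only [map_mul, map_sub, map_one, map_natCast]
    ring
  have hmid : 2 * ∑ a, th a Δ * th a f =
      Δ * ∑ p ∈ pairs m, (Y p.1 p.2 + Y p.2 p.1 + (th p.1 f + th p.2 f)) := by
    have h1 : ∀ a, th a Δ = ∑ p ∈ pairs m, (∏ q ∈ (pairs m).erase p, ((X q.1 : Pol m) - X q.2)) *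
        th a ((X p.1 : Pol m) - X p.2) := by
      intro a
      rw [hΔ, altC_rho, th_prod]
    simp_rw [h1, Finset.sum_mul]
    rw [Finset.sum_comm, Finset.mul_sum, Finset.mul_sum]
    refine Finset.sum_congr rfl fun p hp => ?_
    have h2 : Δ = (∏ q ∈ (pairs m).erase p, ((X q.1 : Pol m) - X q.2)) *
        ((X p.1 : Pol m) - X p.2) := by
      rw [hΔ, altC_rho, Finset.prod_erase_mul _ _ hp]
    rw [h2]
    have h3 : ∑ a, th a ((X p.1 : Pol m) - X p.2) * th a f = X p.1 * th p.1 f - X p.2 * th p.2 f := by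
      simp_rw [map_sub, th_X, sub_mul, ite_mul, zero_mul]
      rw [Finset.sum_sub_distrib]
      simp
    have h4 : 2 * ((X p.1 : Pol m) * th p.1 f - X p.2 * th p.2 f) =
        ((X p.1 : Pol m) - X p.2) * (Y p.1 p.2 + Y p.2 p.1 + (th p.1 f + th p.2 f)) := by
      have e1 := hY1 p.1 p.2
      have e2 := hY2 p.1 p.2
      linear_combination (-(X p.1 : Pol m) - X p.2) * e2 + 2 * e1
    calc 2 * ∑ a, (∏ q ∈ (pairs m).erase p, ((X q.1 : Pol m) - X q.2)) *
          th a ((X p.1 : Pol m) - X p.2) * th a f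
        = (∏ q ∈ (pairs m).erase p, ((X q.1 : Pol m) - X q.2)) *
          (2 * ∑ a, th a ((X p.1 : Pol m) - X p.2) * th a f) := by
          simp_rw [mul_assoc]
          rw [← Finset.mul_sum]
          ring
      _ = _ := by rw [h3, h4, mul_assoc]
  rw [lap_mul, hmid, hΔ, lap_altC, Finset.sum_add_distrib, hsum1, hsum2, ← hΔ]
  simp only [map_add, map_mul, map_natCast]
  push_cast
  ring

end Pool.Agent.H88.SCHUR
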