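import Mathlib
import Pool.Agent.H88.Amalg.Defs
import Pool.Agent.H88.Amalg.SCHURc

/-! Invariance of the Casimir element and tensoring with the standard representation. -/

set_option autoImplicit false

namespace Pool.Agent.H88.SCHUR

open MvPolynomial
open scoped Kronecker

variable {m : ℕ}

section Inv

variable {V : Type*} [AddCommGroup V] [Module ℂ V]

theorem mul_E (A : Mat m) (i j : Fin m) : A * E i j = ∑ k, A k i • E k j := by
  ext a b
  rw [Matrix.sum_apply]
  simp only [Matrix.smul_apply, smul_eq_mul]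
  by_cases hb : j = b
  · subst hb
    rw [Matrix.mul_single_apply_same, mul_one, Finset.sum_eq_single a]
    · simp
    · intro k _ hk
      simp [Matrix.single_apply_of_row_ne hk]
    · simp
  · rw [Matrix.mul_single_apply_of_ne (hbj := Ne.symm hb)]
    symm
    refine Finset.sum_eq_zero fun k _ => ?_
    simp [Matrix.single_apply_of_col_ne _ _ hb]

theorem E_mul (A : Mat m) (i j : Fin m) : E i j * A = ∑ k, A j k • E i k := by
  ext a b
  rw [Matrix.sum_apply]
  simp only [Matrix.smul_apply, smul_eq_mul]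
  by_cases ha : i = a
  · subst ha
    rw [Matrix.single_mul_apply_same, one_mul, Finset.sum_eq_single b]
    · simp
    · intro k _ hk
      simp [Matrix.single_apply_of_col_ne _ _ hk]
    · simp
  · rw [Matrix.single_mul_apply_of_ne (h := Ne.symm ha)]
    symm
    refine Finset.sum_eq_zero fun k _ => ?_
    simp [Matrix.single_apply_of_row_ne ha]

theorem inv1 (B : Mat m →ₗ[ℂ] Mat m →ₗ[ℂ] V) (A : Mat m) :
    ∑ i, ∑ j, B (A * E i j) (E j i) = ∑ i, ∑ j, B (E i j) (E j i * A) := by
  have h1 : ∑ i, ∑ j, B (A * E i j) (E j i) =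
      ∑ i, ∑ j, ∑ k, A k i • B (E k j) (E j i) := by
    refine Finset.sum_congr rfl fun i _ => Finset.sum_congr rfl fun j _ => ?_
    rw [mul_E, map_sum, LinearMap.sum_apply]
    exact Finset.sum_congr rfl fun k _ => by rw [map_smul, LinearMap.smul_apply]
  have h2 : ∑ i, ∑ j, B (E i j) (E j i * A) =
      ∑ k, ∑ j, ∑ i, A k i • B (E k j) (E j i) := by
    refine Finset.sum_congr rfl fun i _ => Finset.sum_congr rfl fun j _ => ?_
    rw [E_mul, map_sum]
    exact Finset.sum_congr rfl fun k _ => by rw [map_smul]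
  rw [h1, h2]
  calc ∑ i, ∑ j, ∑ k, A k i • B (E k j) (E j i)
      = ∑ i, ∑ k, ∑ j, A k i • B (E k j) (E j i) :=
        Finset.sum_congr rfl fun i _ => Finset.sum_comm
    _ = ∑ k, ∑ i, ∑ j, A k i • B (E k j) (E j i) := Finset.sum_comm
    _ = ∑ k, ∑ j, ∑ i, A k i • B (E k j) (E j i) :=
        Finset.sum_congr rfl fun k _ => Finset.sum_comm

theorem inv2 (B : Mat m →ₗ[ℂ] Mat m →ₗ[ℂ] V) (A : Mat m) :
    ∑ i, ∑ j, B (E i j * A) (E j i) = ∑ i, ∑ j, B (E i j) (A * E j i) := by
  have h := inv1 B.flip A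
  simp only [LinearMap.flip_apply] at h
  rw [Finset.sum_comm, ← h, Finset.sum_comm]

theorem inv_conj (B : Mat m →ₗ[ℂ] Mat m →ₗ[ℂ] V) (g : U m) :
    ∑ i, ∑ j, B ((g : Mat m) * E i j * star (g : Mat m)) ((g : Mat m) * E j i * star (g : Mat m)) =
      ∑ i, ∑ j, B (E i j) (E j i) := by
  have hg1 : star (g : Mat m) * (g : Mat m) = 1 := Unitary.coe_star_mul_self g
  have hg2 : (g : Mat m) * star (g : Mat m) = 1 := Unitary.coe_mul_star_self g
  let R1 : Mat m →ₗ[ℂ] Mat m := LinearMap.mulRight ℂ (star (g : Mat m))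
  let L1 : Mat m →ₗ[ℂ] Mat m := LinearMap.mulLeft ℂ (g : Mat m)
  have h1 := inv1 (B.compl₁₂ R1 (L1.comp R1)) (g : Mat m)
  have h2 := inv2 (B.compl₁₂ LinearMap.id L1) (star (g : Mat m))
  simp only [LinearMap.compl₁₂_apply, LinearMap.mulRight_apply, LinearMap.mulLeft_apply,
    LinearMap.comp_apply, LinearMap.id_apply, R1, L1] at h1 h2
  calc ∑ i, ∑ j, B ((g : Mat m) * E i j * star (g : Mat m))
        ((g : Mat m) * E j i * star (g : Mat m))
      = ∑ i, ∑ j, B ((g : Mat m) * E i j * star (g : Mat m))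
        ((g : Mat m) * (E j i * star (g : Mat m))) := by simp only [Matrix.mul_assoc]
    _ = ∑ i, ∑ j, B (E i j * star (g : Mat m))
        ((g : Mat m) * ((E j i * (g : Mat m)) * star (g : Mat m))) := by
        rw [h1]
    _ = ∑ i, ∑ j, B (E i j * star (g : Mat m)) ((g : Mat m) * E j i) := by
        simp only [Matrix.mul_assoc, hg2, Matrix.mul_one]
    _ = ∑ i, ∑ j, B (E i j) ((g : Mat m) * (star (g : Mat m) * E j i)) := by
        rw [h2]
    _ = ∑ i, ∑ j, B (E i j) (E j i) := by
        simp only [← Matrix.mul_assoc, hg2, Matrix.one_mul]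

end Inv

variable {N : ℕ} {I : Type} [Fintype I] [DecidableEq I] (d : Dat m N I)

theorem Dat.R_cas (A : Mat m) : d.R A * d.cas = d.cas * d.R A := by
  let B : Mat m →ₗ[ℂ] Mat m →ₗ[ℂ] Matrix I I ℂ := (LinearMap.mul ℂ (Matrix I I ℂ)).compl₁₂ d.R d.R
  have hB : ∀ X Y, B X Y = d.R X * d.R Y := fun X Y => rfl
  have h1 := inv1 B A
  have h2 := inv2 B A
  simp only [hB] at h1 h2
  have h3 : ∀ i j : Fin m, d.R A * (d.R (E i j) * d.R (E j i)) -
      (d.R (E i j) * d.R (E j i)) * d.R A =
      (d.R (A * E i j) * d.R (E j i) - d.R (E i j) * d.R (E j i * A)) -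
      (d.R (E i j * A) * d.R (E j i) - d.R (E i j) * d.R (A * E j i)) := by
    intro i j
    have e1 := d.R_lie A (E i j)
    have e2 := d.R_lie A (E j i)
    rw [map_sub] at e1 e2
    have e1' : d.R A * d.R (E i j) = d.R (A * E i j) - d.R (E i j * A) + d.R (E i j) * d.R A := by
      rw [e1]; abel
    have e2' : d.R (E j i) * d.R A = d.R A * d.R (E j i) - d.R (A * E j i) + d.R (E j i * A) := by
      rw [sub_eq_iff_eq_add] at e2
      rw [e2]; abel
    rw [← Matrix.mul_assoc, e1', Matrix.mul_assoc _ (d.R (E j i)), e2']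
    simp only [Matrix.mul_sub, Matrix.sub_mul, Matrix.mul_add, Matrix.add_mul, Matrix.mul_assoc]
    abel
  rw [← sub_eq_zero]
  unfold Dat.cas
  rw [Finset.mul_sum, Finset.sum_mul, ← Finset.sum_sub_distrib]
  have h4 : ∀ i, d.R A * ∑ j, d.R (E i j) * d.R (E j i) -
      (∑ j, d.R (E i j) * d.R (E j i)) * d.R A =
      (∑ j, d.R (A * E i j) * d.R (E j i) - ∑ j, d.R (E i j) * d.R (E j i * A)) -
      (∑ j, d.R (E i j * A) * d.R (E j i) - ∑ j, d.R (E i j) * d.R (A * E j i)) := by
    intro i
    rw [Finset.mul_sum, Finset.sum_mul, ← Finset.sum_sub_distrib, ← Finset.sum_sub_distrib,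
      ← Finset.sum_sub_distrib, ← Finset.sum_sub_distrib]
    exact Finset.sum_congr rfl fun j _ => h3 i j
  simp_rw [h4]
  rw [Finset.sum_sub_distrib, Finset.sum_sub_distrib, Finset.sum_sub_distrib, h1, h2]
  simp

theorem Dat.rt_cas (g : U m) : (d.rt g : Matrix I I ℂ) * d.cas = d.cas * d.rt g := by
  let B : Mat m →ₗ[ℂ] Mat m →ₗ[ℂ] Matrix I I ℂ := (LinearMap.mul ℂ (Matrix I I ℂ)).compl₁₂ d.R d.R
  have hB : ∀ X Y, B X Y = d.R X * d.R Y := fun X Y => rfl
  have h1 := inv_conj B g
  simp only [hB] at h1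
  have h2 : d.cas = ∑ i, ∑ j, d.R (E i j) * d.R (E j i) := rfl
  conv_rhs => rw [h2, ← h1]
  rw [h2, Finset.mul_sum, Finset.sum_mul]
  refine Finset.sum_congr rfl fun i _ => ?_
  rw [Finset.mul_sum, Finset.sum_mul]
  refine Finset.sum_congr rfl fun j _ => ?_
  rw [← Matrix.mul_assoc, d.rt_R, Matrix.mul_assoc, d.rt_R]
  simp only [Matrix.mul_assoc]

/-- Tensor product with the standard representation. -/
noncomputable def Dat.tensor : Dat m (N + 1) (I × Fin m) where
  cont := fun p => d.cont p.1 + Finsupp.single p.2 1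
  R :=
    { toFun := fun A => d.R A ⊗ₖ (1 : Mat m) + (1 : Matrix I I ℂ) ⊗ₖ A
      map_add' := by
        intro A B
        rw [map_add, Matrix.add_kronecker, Matrix.kronecker_add]
        abel
      map_smul' := by
        intro c A
        rw [map_smul, Matrix.smul_kronecker, Matrix.kronecker_smul, ← smul_add]
        rfl }
  rt :=
    { toFun := fun g => ⟨(d.rt g : Matrix I I ℂ) ⊗ₖ (g : Mat m),
        Matrix.kronecker_mem_unitary (d.rt g).2 g.2⟩
      map_one' := by
        apply Subtype.ext
        simp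
      map_mul' := by
        intro g h
        apply Subtype.ext
        simp [Matrix.mul_kronecker_mul] }
  cont_sum := by
    intro w
    simp only [Finsupp.add_apply, Finset.sum_add_distrib, d.cont_sum]
    congr 1
    simp [Finsupp.single_apply]
  R_star := by
    intro A
    simp only [LinearMap.coe_mk, AddHom.coe_mk]
    rw [star_add, Matrix.star_eq_conjTranspose (_ ⊗ₖ _), Matrix.star_eq_conjTranspose (_ ⊗ₖ _),
      Matrix.conjTranspose_kronecker, Matrix.conjTranspose_kronecker, d.R_star]
    simp [Matrix.star_eq_conjTranspose]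
  R_lie := by
    intro A B
    simp only [LinearMap.coe_mk, AddHom.coe_mk]
    rw [d.R_lie, Matrix.add_mul, Matrix.mul_add, Matrix.mul_add, Matrix.add_mul, Matrix.mul_add,
      Matrix.mul_add]
    simp only [← Matrix.mul_kronecker_mul, Matrix.mul_one, Matrix.one_mul]
    rw [show (d.R A * d.R B - d.R B * d.R A) = (d.R A * d.R B + (-1 : ℂ) • (d.R B * d.R A)) by
      rw [neg_one_smul, sub_eq_add_neg],
      show (A * B - B * A) = (A * B + (-1 : ℂ) • (B * A)) by
      rw [neg_one_smul, sub_eq_add_neg]]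
    rw [Matrix.add_kronecker, Matrix.kronecker_add, Matrix.smul_kronecker, Matrix.kronecker_smul]
    simp only [neg_one_smul]
    abel
  R_diag := by
    intro i
    simp only [LinearMap.coe_mk, AddHom.coe_mk]
    rw [d.R_diag]
    ext ⟨w, j⟩ ⟨w', j'⟩
    simp only [Matrix.add_apply, Matrix.kronecker_apply, Matrix.diagonal_apply, Matrix.one_apply,
      Finsupp.add_apply, Nat.cast_add, Prod.mk.injEq]
    by_cases hw : w = w'
    · by_cases hj : j = j'
      · subst hw hj
        by_cases hij : i = j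
        · subst hij; simp
        · simp [hij]
      · subst hw
        have h0 : (E i i : Mat m) j j' = 0 := by
          change Matrix.single i i (1 : ℂ) j j' = 0
          rw [Matrix.single_apply, if_neg]
          rintro ⟨h1, h2⟩
          exact hj (h1.symm.trans h2)
        simp [hj, h0]
    · simp [hw]
  rt_cont := by
    refine Continuous.subtype_mk ?_ _
    have h1 : Continuous fun g : U m => (d.rt g : Matrix I I ℂ) :=
      continuous_subtype_val.comp d.rt_cont
    refine continuous_matrix fun i j => ?_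
    simp only [Matrix.kroneckerMap_apply]
    exact (h1.matrix_elem _ _).mul (continuous_subtype_val.matrix_elem _ _)
  rt_R := by
    intro g A
    simp only [LinearMap.coe_mk, AddHom.coe_mk, MonoidHom.coe_mk, OneHom.coe_mk]
    rw [Matrix.mul_add, Matrix.add_mul, ← Matrix.mul_kronecker_mul, ← Matrix.mul_kronecker_mul,
      ← Matrix.mul_kronecker_mul, ← Matrix.mul_kronecker_mul, d.rt_R]
    have hg1 : star (g : Mat m) * (g : Mat m) = 1 := Unitary.coe_star_mul_self g
    rw [Matrix.mul_assoc (_ * _) (star (g : Mat m)), hg1]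
    simp
  rt_diag := by
    intro x g hg
    simp only [MonoidHom.coe_mk, OneHom.coe_mk]
    rw [d.rt_diag x g hg, hg, Matrix.diagonal_kronecker_diagonal]
    congr 1
    funext p
    simp only [Finsupp.add_apply, pow_add, Finset.prod_mul_distrib]
    congr 1
    simp [Finsupp.single_apply, pow_ite, Finset.prod_ite_eq]

/-- The trivial representation. -/
noncomputable def Dat.triv : Dat m 0 Unit where
  cont := fun _ => 0
  R := 0
  rt := 1
  cont_sum := by simp
  R_star := by simp
  R_lie := by simp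
  R_diag := by simp
  rt_cont := continuous_const
  rt_R := by simp
  rt_diag := by simp

end Pool.Agent.H88.SCHUR
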