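import Mathlib
import Pool.Agent.H88.Amalg.Defs
import Pool.Agent.H88.Amalg.SCHURa
import Pool.Agent.H88.Amalg.SCHURd

/-! Module SCHUR: Schur polynomials are characters of unitary representations. -/

set_option autoImplicit false

namespace Pool.Agent.H88.SCHUR

open MvPolynomial
open scoped Kronecker

variable {m : ℕ}

/-- The Schur module of `lam` exists. -/
def HasProj (N : ℕ) (lam : Fin m → ℕ) : Prop :=
  ∃ (I : Type) (_ : Fintype I) (_ : DecidableEq I) (d : Dat m N I) (P : Matrix I I ℂ),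
    P * P = P ∧ star P = P ∧ (∀ A, P * d.R A = d.R A * P) ∧
    (∀ g, P * (d.rt g : Matrix I I ℂ) = d.rt g * P) ∧
    altC (rho m) * F d.cont P = altC (lam + rho m)

theorem hasProj_zero : HasProj 0 (0 : Fin m → ℕ) := by
  refine ⟨Unit, inferInstance, inferInstance, Dat.triv, 1, by simp, by simp, ?_, ?_, ?_⟩
  · intro A; simp
  · intro g; simp
  · simp [F, Dat.triv]

theorem F_kron {N : ℕ} {I : Type} [Fintype I] [DecidableEq I] (d : Dat m N I)
    (P : Matrix I I ℂ) :
    F d.tensor.cont (P ⊗ₖ (1 : Mat m)) = F d.cont P * ∑ j, (X j : Pol m) := by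
  unfold F
  rw [Fintype.sum_prod_type, Finset.sum_mul]
  refine Finset.sum_congr rfl fun w _ => ?_
  rw [Finset.mul_sum]
  refine Finset.sum_congr rfl fun j _ => ?_
  rw [Matrix.kroneckerMap_apply, Matrix.one_apply_eq, mul_one, X, monomial_mul, mul_one]
  rfl

theorem hasProj_step (N : ℕ) (mu : Fin m → ℕ) (hmu : Antitone mu) (i : Fin m)
    (h : HasProj N mu) : HasProj (N + 1) (mu + Pi.single i 1) := by
  classical
  obtain ⟨I, _, _, d, P, hP1, hP2, hP3, hP4, hP5⟩ := h
  set l : Fin m → ℕ := mu + rho m with hl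
  have hlinj : ∀ a b : Fin m, a < b → l b < l a := by
    intro a b hab
    have h1 : mu b ≤ mu a := hmu hab.le
    have h2 : rho m b < rho m a := by
      unfold rho
      have := b.isLt
      have h3 : (a : ℕ) < b := hab
      omega
    simp only [hl, Pi.add_apply]
    omega
  have hnorm : ∀ j : Fin m, ∑ a, ((l + Pi.single j 1 : Fin m → ℕ) a) ^ 2 =
      ∑ a, (l a) ^ 2 + 2 * l j + 1 := by
    intro j
    have h1 : ∀ a : Fin m, ((l + Pi.single j 1 : Fin m → ℕ) a) ^ 2 =
        (l a) ^ 2 + (if a = j then 2 * l j + 1 else 0) := by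
      intro a
      by_cases ha : a = j
      · subst ha
        simp only [Pi.add_apply, Pi.single_eq_same, if_true]
        ring
      · simp [ha]
    simp_rw [h1]
    rw [Finset.sum_add_distrib]
    simp [add_assoc]
  set κ : ℕ := ∑ a, ((l + Pi.single i 1 : Fin m → ℕ) a) ^ 2 with hκ
  let κ0 : ℝ := ((∑ a, rho m a ^ 2 : ℕ) : ℝ) + ((m : ℝ) - 1) * ((N + 1 : ℕ) : ℝ)
  let c : ℝ := (κ : ℝ) - κ0
  let D := d.tensor
  have hDR : ∀ A, D.R A = d.R A ⊗ₖ (1 : Mat m) + (1 : Matrix I I ℂ) ⊗ₖ A := fun A => rfl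
  have hDrt : ∀ g, (D.rt g : Matrix (I × Fin m) (I × Fin m) ℂ) =
      (d.rt g : Matrix I I ℂ) ⊗ₖ (g : Mat m) := fun g => rfl
  set P1 : Matrix (I × Fin m) (I × Fin m) ℂ := P ⊗ₖ (1 : Mat m) with hP1def
  have hP1R : ∀ A, P1 * D.R A = D.R A * P1 := by
    intro A
    rw [hDR, Matrix.mul_add, Matrix.add_mul, hP1def, ← Matrix.mul_kronecker_mul,
      ← Matrix.mul_kronecker_mul, ← Matrix.mul_kronecker_mul, ← Matrix.mul_kronecker_mul, hP3]
    simp
  have hP1rt : ∀ g, P1 * (D.rt g : Matrix (I × Fin m) (I × Fin m) ℂ) = D.rt g * P1 := by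
    intro g
    rw [hDrt, hP1def, ← Matrix.mul_kronecker_mul, ← Matrix.mul_kronecker_mul, hP4]
    simp
  have hP1P1 : P1 * P1 = P1 := by
    rw [hP1def, ← Matrix.mul_kronecker_mul, hP1, Matrix.mul_one]
  have hP1star : star P1 = P1 := by
    rw [hP1def, Matrix.star_eq_conjTranspose, Matrix.conjTranspose_kronecker,
      ← Matrix.star_eq_conjTranspose, hP2]
    simp
  have hP1cas : D.cas * P1 = P1 * D.cas := (D.comm_cas P1 hP1R).symm
  obtain ⟨Q, Y, hQ1, hQ2, hQ3, hQ4, hQ5⟩ := spectral_split D.cas D.star_cas c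
  have hQP1 := (hQ5 P1 hP1cas).1
  have hYP1 := (hQ5 P1 hP1cas).2
  have hQR : ∀ A, Q * D.R A = D.R A * Q := fun A => (hQ5 _ (D.R_cas A).symm).1
  have hYR : ∀ A, Y * D.R A = D.R A * Y := fun A => (hQ5 _ (D.R_cas A).symm).2
  have hQrt : ∀ g, Q * (D.rt g : Matrix (I × Fin m) (I × Fin m) ℂ) = D.rt g * Q :=
    fun g => (hQ5 _ (D.rt_cas g).symm).1
  have hP'R : ∀ A, (P1 * Q) * D.R A = D.R A * (P1 * Q) := by
    intro A
    rw [Matrix.mul_assoc, hQR, ← Matrix.mul_assoc, hP1R, Matrix.mul_assoc]
  have hNR : ∀ A, (P1 * Y) * D.R A = D.R A * (P1 * Y) := by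
    intro A
    rw [Matrix.mul_assoc, hYR, ← Matrix.mul_assoc, hP1R, Matrix.mul_assoc]
  refine ⟨I × Fin m, inferInstance, inferInstance, D, P1 * Q, ?_, ?_, hP'R, ?_, ?_⟩
  · calc P1 * Q * (P1 * Q) = P1 * (Q * P1) * Q := by simp only [Matrix.mul_assoc]
      _ = (P1 * P1) * (Q * Q) := by rw [hQP1]; simp only [Matrix.mul_assoc]
      _ = P1 * Q := by rw [hP1P1, hQ1]
  · rw [star_mul, hQ2, hP1star, hQP1]
  · intro g
    rw [Matrix.mul_assoc, hQrt, ← Matrix.mul_assoc, hP1rt, Matrix.mul_assoc]
  · -- the graded character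
    have hcas1 : D.cas * (P1 * Q) = (c : ℂ) • (P1 * Q) := by
      rw [← hQP1, ← Matrix.mul_assoc, hQ3, Matrix.smul_mul]
    have hsplit : P1 * Q + (D.cas * (P1 * Y) - (c : ℂ) • (P1 * Y)) = P1 := by
      have h1 : P1 * (1 - Q) = D.cas * (P1 * Y) - (c : ℂ) • (P1 * Y) := by
        rw [hQ4, ← Matrix.mul_assoc, Matrix.mul_sub, ← hP1cas, Matrix.sub_mul,
          Matrix.mul_smul, Matrix.mul_one, Matrix.smul_mul, Matrix.mul_assoc]
      rw [← h1, Matrix.mul_sub, Matrix.mul_one]
      abel
    have hk1 := D.key (P1 * Q) hP'R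
    have hk2 := D.key (P1 * Y) hNR
    have hκ0 : (((∑ a, rho m a ^ 2 : ℕ) : ℂ) + ((m : ℂ) - 1) * ((N + 1 : ℕ) : ℂ)) = (κ0 : ℂ) := by
      simp only [κ0]
      push_cast
      ring
    rw [hκ0] at hk1 hk2
    rw [hcas1, F_smul] at hk1
    have hc : (κ0 : ℂ) + (c : ℂ) = (κ : ℂ) := by
      simp only [c]
      push_cast
      ring
    have hcoef1 : ∀ ν, nsq ν ≠ κ → coeff ν (altC (rho m) * F D.cont (P1 * Q)) = 0 := by
      intro ν hν
      have h1 := congrArg (coeff ν) hk1
      rw [coeff_lap] at h1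
      have h2 : C (κ0 : ℂ) * (altC (rho m) * F D.cont (P1 * Q)) +
          altC (rho m) * (C (c : ℂ) * F D.cont (P1 * Q)) =
          C (κ : ℂ) * (altC (rho m) * F D.cont (P1 * Q)) := by
        rw [← hc, C_add]; ring
      rw [h2, coeff_C_mul] at h1
      have h3 : ((nsq ν : ℂ) - (κ : ℂ)) * coeff ν (altC (rho m) * F D.cont (P1 * Q)) = 0 := by
        linear_combination h1
      rcases mul_eq_zero.mp h3 with h4 | h4
      · exfalso
        apply hν
        have h5 : (nsq ν : ℂ) = (κ : ℂ) := sub_eq_zero.mp h4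
        exact_mod_cast h5
      · exact h4
    have hcoef2 : ∀ ν, nsq ν = κ → coeff ν (altC (rho m) *
        F D.cont (D.cas * (P1 * Y) - (c : ℂ) • (P1 * Y))) = 0 := by
      intro ν hν
      have h1 := congrArg (coeff ν) hk2
      rw [coeff_lap, coeff_add, coeff_C_mul, hν] at h1
      rw [F_sub, F_smul, mul_sub, coeff_sub,
        show altC (rho m) * (C (c : ℂ) * F D.cont (P1 * Y)) =
          C (c : ℂ) * (altC (rho m) * F D.cont (P1 * Y)) by ring, coeff_C_mul]
      rw [← hc] at h1
      linear_combination -h1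
    have htot : altC (rho m) * F D.cont (P1 * Q) + altC (rho m) *
        F D.cont (D.cas * (P1 * Y) - (c : ℂ) • (P1 * Y)) =
        ∑ j : Fin m, altC (l + Pi.single j (1 : ℕ)) := by
      rw [← mul_add, ← F_add, hsplit, hP1def, F_kron, ← mul_assoc, hP5, pieri]
    have hgoal : mu + Pi.single i 1 + rho m = l + Pi.single i 1 := by
      rw [hl]; abel
    rw [hgoal]
    ext ν
    by_cases hν : nsq ν = κ
    · have h1 := congrArg (coeff ν) htot
      rw [coeff_add, hcoef2 ν hν, add_zero, coeff_sum] at h1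
      rw [h1, Finset.sum_eq_single i]
      · intro j _ hji
        by_contra hne
        have h2 := altC_supp _ ν hne
        rw [hν, hκ, hnorm, hnorm] at h2
        rcases lt_or_gt_of_ne hji with h3 | h3
        · have := hlinj _ _ h3
          omega
        · have := hlinj _ _ h3
          omega
      · simp
    · rw [hcoef1 ν hν]
      by_contra hne
      exact hν (altC_supp _ ν (Ne.symm hne))

theorem exists_box (N : ℕ) (lam : Fin m → ℕ) (hlam : Antitone lam) (hN : ∑ i, lam i = N + 1) :
    ∃ (mu : Fin m → ℕ) (i : Fin m), Antitone mu ∧ lam = mu + Pi.single i 1 ∧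
      ∑ i, mu i = N := by
  classical
  have hne : (Finset.univ.filter fun i => 0 < lam i).Nonempty := by
    by_contra h
    rw [Finset.not_nonempty_iff_eq_empty, Finset.filter_eq_empty_iff] at h
    have : ∑ i, lam i = 0 := Finset.sum_eq_zero fun i hi => by
      have := h hi
      omega
    omega
  set i := (Finset.univ.filter fun i => 0 < lam i).max' hne with hi
  have hi1 : 0 < lam i := by
    have := Finset.max'_mem _ hne
    rw [← hi] at this
    simpa using this
  have hi2 : ∀ b, i < b → lam b = 0 := by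
    intro b hb
    by_contra h
    have h1 : b ∈ Finset.univ.filter fun i => 0 < lam i := by
      simp only [Finset.mem_filter, Finset.mem_univ, true_and]
      omega
    have h2 := Finset.le_max' _ b h1
    rw [← hi] at h2
    exact absurd hb (not_lt.mpr h2)
  have hlm : lam = (lam - Pi.single i 1) + Pi.single i 1 := by
    funext a
    by_cases ha : a = i
    · subst ha
      simp only [Pi.add_apply, Pi.sub_apply, Pi.single_eq_same]
      omega
    · simp [Pi.single_eq_of_ne ha]
  refine ⟨lam - Pi.single i 1, i, ?_, hlm, ?_⟩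
  · intro a b hab
    have h1 : lam b ≤ lam a := hlam hab
    by_cases ha : a = i
    · by_cases hb : b = i
      · rw [ha, hb]
      · have h2 : i < b := lt_of_le_of_ne (ha ▸ hab) (Ne.symm hb)
        simp only [Pi.sub_apply, hi2 b h2]
        omega
    · simp only [Pi.sub_apply, Pi.single_eq_of_ne ha]
      omega
  · have h1 : ∑ a, lam a = ∑ a, (lam - Pi.single i 1 : Fin m → ℕ) a +
        ∑ a, (Pi.single i 1 : Fin m → ℕ) a := by
      rw [← Finset.sum_add_distrib]
      exact Finset.sum_congr rfl fun a _ => congrFun hlm a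
    rw [Finset.sum_pi_single'] at h1
    simp only [Finset.mem_univ, if_true] at h1
    omega

theorem hasProj (N : ℕ) : ∀ lam : Fin m → ℕ, Antitone lam → ∑ i, lam i = N →
    HasProj N lam := by
  induction N with
  | zero =>
    intro lam _ h
    have : lam = 0 := by
      funext i
      have := (Finset.sum_eq_zero_iff.mp h) i (Finset.mem_univ i)
      simpa using this
    rw [this]
    exact hasProj_zero
  | succ N ih =>
    intro lam hlam h
    obtain ⟨mu, i, hmu, he, hs⟩ := exists_box N lam hlam h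
    rw [he]
    exact hasProj_step N mu hmu i (ih mu hmu hs)

/-- The coefficients of the graded character are natural numbers. -/
theorem coeff_nat {N : ℕ} {I : Type} [Fintype I] [DecidableEq I] (d : Dat m N I)
    (P : Matrix I I ℂ) (hP1 : P * P = P) (hP2 : star P = P) (hP3 : ∀ A, P * d.R A = d.R A * P)
    (ν : Fin m →₀ ℕ) : ∃ n : ℕ, coeff ν (F d.cont P) = n := by
  classical
  set Q : Matrix I I ℂ := Matrix.diagonal fun w => if d.cont w = ν then 1 else 0 with hQ
  have hcomm : P * Q = Q * P := by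
    ext w w'
    rw [hQ, Matrix.mul_diagonal, Matrix.diagonal_mul]
    by_cases hz : P w w' = 0
    · simp [hz]
    · have h1 : d.cont w = d.cont w' := by
        ext i
        have h2 := congrFun (congrFun (hP3 (E i i)) w) w'
        rw [d.R_diag, Matrix.mul_diagonal, Matrix.diagonal_mul, mul_comm] at h2
        have h3 := mul_right_cancel₀ hz h2
        exact_mod_cast h3.symm
      rw [h1, mul_comm]
  have hQQ : Q * Q = Q := by
    rw [hQ, Matrix.diagonal_mul_diagonal]
    congr 1
    funext w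
    split_ifs <;> simp
  have hQs : star Q = Q := by
    rw [hQ, Matrix.star_eq_conjTranspose, Matrix.diagonal_conjTranspose]
    congr 1
    funext w
    simp only [Pi.star_apply]
    split_ifs <;> simp
  obtain ⟨n, hn⟩ := trace_proj_nat (P * Q)
    (by
      calc P * Q * (P * Q) = P * (Q * P) * Q := by simp only [Matrix.mul_assoc]
        _ = (P * P) * (Q * Q) := by rw [← hcomm]; simp only [Matrix.mul_assoc]
        _ = P * Q := by rw [hP1, hQQ])
    (by rw [star_mul, hP2, hQs, hcomm])
  refine ⟨n, ?_⟩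
  rw [← hn]
  unfold F
  rw [coeff_sum, Matrix.trace]
  refine Finset.sum_congr rfl fun w _ => ?_
  rw [Matrix.diag_apply, hQ, Matrix.mul_diagonal, coeff_monomial]
  split_ifs <;> simp

end Pool.Agent.H88.SCHUR

namespace Pool.Agent.H88

open Matrix

/-- Module SCHUR: Schur polynomials have natural coefficients and are characters of
representations obtained functorially from a unitary representation. -/
theorem schur_rep (m : ℕ) (lam : Fin m → ℕ) (hlam : Antitone lam) :
    ∃ s : MvPolynomial (Fin m) ℕ, IsSchur s lam ∧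
      ∀ (G : Type) [Group G] [TopologicalSpace G] (ρ : G →* U m), Continuous ρ →
        ∃ (d : ℕ) (σ : G →* U d), Continuous σ ∧
          ∀ (g : G) (x : Fin m → ℂ) (u : U m),
            (ρ g : Mat m) = (u : Mat m) * diagonal x * star (u : Mat m) →
              trace (σ g : Mat d) = MvPolynomial.eval₂ (Nat.castRingHom ℂ) x s := by
  classical
  obtain ⟨I, _, _, d, P, hP1, hP2, hP3, hP4, hP5⟩ := SCHUR.hasProj _ lam hlam rfl
  choose n hn using SCHUR.coeff_nat d P hP1 hP2 hP3
  set f := SCHUR.F d.cont P with hf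
  let s : MvPolynomial (Fin m) ℕ := ∑ ν ∈ f.support, MvPolynomial.monomial ν (n ν)
  have hs : MvPolynomial.map (Nat.castRingHom ℂ) s = f := by
    conv_rhs => rw [← MvPolynomial.support_sum_monomial_coeff f]
    simp only [s]
    rw [map_sum]
    refine Finset.sum_congr rfl fun ν _ => ?_
    rw [MvPolynomial.map_monomial, hn ν]
    rfl
  refine ⟨s, ?_, ?_⟩
  · unfold IsSchur
    apply MvPolynomial.map_injective (Int.castRingHom ℂ) (RingHom.injective_int _)
    rw [map_mul, MvPolynomial.map_map, SCHUR.map_alt, SCHUR.map_alt, ← hP5]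
    rw [show (Int.castRingHom ℂ).comp (Nat.castRingHom ℤ) = Nat.castRingHom ℂ from
      Subsingleton.elim _ _, hs]
  · intro G _ _ ρ hρ
    obtain ⟨D, σ, hσ, htr⟩ := rep_of_projection (d.rt.comp ρ) (d.rt_cont.comp hρ) P hP1 hP2
      (fun g => (hP4 (ρ g)).symm)
    refine ⟨D, σ, hσ, ?_⟩
    intro g x u hg
    rw [htr]
    have hu1 : star (u : Mat m) * (u : Mat m) = 1 := Unitary.coe_star_mul_self u
    let v : U m := u⁻¹ * ρ g * u
    have hv : (v : Mat m) = diagonal x := by
      have h1 : (v : Mat m) = star (u : Mat m) * (ρ g : Mat m) * (u : Mat m) := rfl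
      rw [h1, hg]
      calc star (u : Mat m) * ((u : Mat m) * diagonal x * star (u : Mat m)) * (u : Mat m)
          = (star (u : Mat m) * (u : Mat m)) * diagonal x * (star (u : Mat m) * (u : Mat m)) := by
            simp only [Matrix.mul_assoc]
        _ = diagonal x := by rw [hu1]; simp
    have hρ' : ρ g = u * v * u⁻¹ := by
      simp only [v]; group
    have h2 : ((d.rt.comp ρ) g : Matrix I I ℂ) =
        (d.rt u : Matrix I I ℂ) * (d.rt v : Matrix I I ℂ) * (d.rt u⁻¹ : Matrix I I ℂ) := by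
      rw [MonoidHom.comp_apply, hρ', map_mul, map_mul]
      rfl
    rw [h2, Matrix.mul_assoc, ← hP4, ← Matrix.mul_assoc, trace_mul_comm, ← Matrix.mul_assoc,
      ← Matrix.mul_assoc]
    have h3 : (d.rt u⁻¹ : Matrix I I ℂ) * (d.rt u : Matrix I I ℂ) = 1 := by
      have : d.rt u⁻¹ * d.rt u = 1 := by rw [← map_mul]; simp
      exact congrArg Subtype.val this
    rw [h3, Matrix.one_mul, d.rt_diag x v hv]
    have h4 : MvPolynomial.eval₂ (Nat.castRingHom ℂ) x s = MvPolynomial.eval x f := by
      rw [← hs, MvPolynomial.eval_map]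
    rw [h4, hf]
    unfold SCHUR.F
    rw [map_sum, Matrix.trace]
    refine Finset.sum_congr rfl fun w _ => ?_
    rw [Matrix.diag_apply, Matrix.diagonal_mul, MvPolynomial.eval_monomial, mul_comm,
      Finsupp.prod_fintype _ _ (by simp)]

end Pool.Agent.H88
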