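import Mathlib
import Pool.Agent.H88.Amalg.Defs
import Pool.Agent.H88.Amalg.SCHURb

/-! Module SMALL: rational approximation, direct sums, the Schur polynomial of a single box,
the Lie group structure of the unit quaternions, compactness of the unitary groups. -/

set_option autoImplicit false

namespace Pool.Agent.H88

open Matrix
open scoped Quaternion Manifold

/-- Module RAT. -/
theorem nat_solution {ι κ : Type} [Fintype ι] (M : κ → ι → ℤ) (x : ι → ℝ) (hx : ∀ i, 0 < x i)
    (h : ∀ k, ∑ i, (M k i : ℝ) * x i = 0) :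
    ∃ x' : ι → ℕ, (∀ i, 0 < x' i) ∧ ∀ k, ∑ i, M k i * (x' i : ℤ) = 0 := by
  classical
  let W : Submodule ℚ ℝ := Submodule.span ℚ (Set.range x)
  have : Module.Finite ℚ W := Module.Finite.span_of_finite ℚ (Set.finite_range x)
  let b := Module.finBasis ℚ W
  have hxW : ∀ i, x i ∈ W := fun i => Submodule.subset_span ⟨i, rfl⟩
  let c : ι → Fin (Module.finrank ℚ W) → ℚ := fun i s => b.repr ⟨x i, hxW i⟩ s
  have hc : ∀ i, x i = ∑ s, (c i s : ℝ) * (b s : ℝ) := by
    intro i
    have h1 := congrArg Subtype.val (b.sum_repr ⟨x i, hxW i⟩)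
    rw [Submodule.coe_sum] at h1
    simp only [Submodule.coe_smul] at h1
    rw [← h1]
    exact Finset.sum_congr rfl fun s _ => by rw [Rat.smul_def]
  have hM : ∀ k s, ∑ i, (M k i : ℚ) * c i s = 0 := by
    intro k s
    have h1 : ∑ i, (M k i : ℚ) • (⟨x i, hxW i⟩ : W) = 0 := by
      apply Subtype.ext
      rw [Submodule.coe_sum, Submodule.coe_zero, ← h k]
      refine Finset.sum_congr rfl fun i _ => ?_
      rw [Submodule.coe_smul, Rat.smul_def]
      push_cast
      rfl
    have h2 := congrArg (fun w => b.repr w s) h1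
    simp only [map_sum, map_smul, Finsupp.coe_finsetSum, Finset.sum_apply, Finsupp.smul_apply,
      smul_eq_mul, map_zero, Finsupp.coe_zero, Pi.zero_apply] at h2
    exact h2
  let O : Set (Fin (Module.finrank ℚ W) → ℝ) := ⋂ i, {β | 0 < ∑ s, (c i s : ℝ) * β s}
  have hO : IsOpen O := by
    refine isOpen_iInter_of_finite fun i => ?_
    refine isOpen_lt continuous_const ?_
    exact continuous_finsetSum _ fun s _ => continuous_const.mul (continuous_apply s)
  have hOne : O.Nonempty := ⟨fun s => (b s : ℝ), by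
    rw [Set.mem_iInter]
    intro i
    change 0 < ∑ s, (c i s : ℝ) * (b s : ℝ)
    rw [← hc i]
    exact hx i⟩
  have hd : DenseRange (Pi.map (fun (_ : Fin (Module.finrank ℚ W)) => ((↑) : ℚ → ℝ))) :=
    DenseRange.piMap fun _ => Rat.denseRange_cast
  obtain ⟨β, hβ⟩ := hd.exists_mem_open hO hOne
  let y : ι → ℚ := fun i => ∑ s, c i s * β s
  have hy : ∀ i, 0 < y i := by
    intro i
    have h1 : 0 < ∑ s, (c i s : ℝ) * (β s : ℝ) := by
      have h2 := Set.mem_iInter.mp hβ i
      exact h2
    have h3 : ((y i : ℚ) : ℝ) = ∑ s, (c i s : ℝ) * (β s : ℝ) := by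
      simp only [y]
      push_cast
      rfl
    rw [← h3] at h1
    exact_mod_cast h1
  have hMy : ∀ k, ∑ i, (M k i : ℚ) * y i = 0 := by
    intro k
    simp only [y]
    calc ∑ i, (M k i : ℚ) * ∑ s, c i s * β s
        = ∑ i, ∑ s, (M k i : ℚ) * c i s * β s := by
          refine Finset.sum_congr rfl fun i _ => ?_
          rw [Finset.mul_sum]
          exact Finset.sum_congr rfl fun s _ => by ring
      _ = ∑ s, (∑ i, (M k i : ℚ) * c i s) * β s := by
          rw [Finset.sum_comm]
          exact Finset.sum_congr rfl fun s _ => by rw [Finset.sum_mul]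
      _ = 0 := Finset.sum_eq_zero fun s _ => by rw [hM, zero_mul]
  let L : ℕ := ∏ j, (y j).den
  let x' : ι → ℕ := fun i => (y i).num.toNat * ∏ j ∈ Finset.univ.erase i, (y j).den
  have hnum : ∀ i, 0 < (y i).num := fun i => Rat.num_pos.mpr (hy i)
  have hx' : ∀ i, ((x' i : ℕ) : ℚ) = y i * L := by
    intro i
    simp only [x', L]
    rw [← Finset.mul_prod_erase Finset.univ _ (Finset.mem_univ i)]
    have h1 : (((y i).num.toNat : ℕ) : ℚ) = (y i).num := by
      have := Int.toNat_of_nonneg (hnum i).le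
      exact_mod_cast this
    have h2 : y i * ((y i).den : ℚ) = (y i).num := Rat.mul_den_eq_num (y i)
    push_cast
    rw [h1, ← mul_assoc, h2]
  refine ⟨x', ?_, ?_⟩
  · intro i
    have h1 : 0 < (y i).num.toNat := by
      have := hnum i
      omega
    have h2 : 0 < ∏ j ∈ Finset.univ.erase i, (y j).den :=
      Finset.prod_pos fun j _ => (y j).den_pos
    exact Nat.mul_pos h1 h2
  · intro k
    have h1 : ((∑ i, M k i * (x' i : ℤ) : ℤ) : ℚ) = 0 := by
      push_cast
      calc ∑ i, (M k i : ℚ) * (x' i : ℚ) = ∑ i, ((M k i : ℚ) * y i) * L := by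
            refine Finset.sum_congr rfl fun i _ => ?_
            rw [hx' i]; ring
        _ = 0 := by rw [← Finset.sum_mul, hMy, zero_mul]
    exact_mod_cast h1

/-- Module SUM. -/
theorem direct_sum_rep {G : Type} [Group G] [TopologicalSpace G] {ι : Type} [Fintype ι]
    (d : ι → ℕ) (σ : ∀ i, G →* U (d i)) (hσ : ∀ i, Continuous (σ i)) :
    ∃ (D : ℕ) (τ : G →* U D), Continuous τ ∧
      (∀ g, trace (τ g : Mat D) = ∑ i, trace (σ i g : Mat (d i))) ∧
      ∀ g, τ g = 1 → ∀ i, σ i g = 1 := by
  classical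
  let J := Σ i : ι, Fin (d i)
  let e : J ≃ Fin (Fintype.card J) := Fintype.equivFin J
  let A : G → Matrix J J ℂ := fun g => blockDiagonal' fun i => (σ i g : Mat (d i))
  have hA1 : A 1 = 1 := by
    have h1 : (fun i => ((σ i 1 : U (d i)) : Mat (d i))) = (1 : ∀ i, Mat (d i)) := by
      funext i
      rw [map_one]
      rfl
    simp only [A]
    rw [h1, blockDiagonal'_one]
  have hAm : ∀ g h, A (g * h) = A g * A h := by
    intro g h
    simp only [A]
    rw [← blockDiagonal'_mul]
    congr 1
    funext i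
    rw [map_mul]
    rfl
  have hAs : ∀ g, star (A g) = A g⁻¹ := by
    intro g
    simp only [A]
    rw [star_eq_conjTranspose, blockDiagonal'_conjTranspose]
    congr 1
    funext i
    rw [map_inv]
    rfl
  let B : G → Mat (Fintype.card J) := fun g => (A g).submatrix e.symm e.symm
  have hB1 : B 1 = 1 := by
    simp only [B]
    rw [hA1, submatrix_one_equiv]
  have hBm : ∀ g h, B (g * h) = B g * B h := by
    intro g h
    simp only [B]
    rw [hAm, submatrix_mul_equiv]
  have hBs : ∀ g, star (B g) = B g⁻¹ := by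
    intro g
    simp only [B]
    rw [star_eq_conjTranspose, conjTranspose_submatrix, ← star_eq_conjTranspose, hAs]
  let τ : G →* U (Fintype.card J) :=
    { toFun := fun g => ⟨B g, by rw [mem_unitaryGroup_iff, hBs, ← hBm, mul_inv_cancel, hB1]⟩
      map_one' := Subtype.ext hB1
      map_mul' := fun g h => Subtype.ext (hBm g h) }
  refine ⟨Fintype.card J, τ, ?_, ?_, ?_⟩
  · refine Continuous.subtype_mk ?_ _
    have h1 : Continuous A := by
      apply Continuous.matrix_blockDiagonal'
      exact continuous_pi fun i => continuous_subtype_val.comp (hσ i)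
    exact h1.matrix_submatrix e.symm e.symm
  · intro g
    change trace (B g) = _
    simp only [B]
    have h1 : trace ((A g).submatrix e.symm e.symm) = trace (A g) := by
      unfold trace
      simp only [diag_apply, submatrix_apply]
      exact Equiv.sum_comp e.symm (fun j => A g j j)
    rw [h1]
    simp only [A]
    rw [trace_blockDiagonal']
  · intro g hg i
    have h1 : B g = 1 := congrArg Subtype.val hg
    have h2 : A g = 1 := by
      have h3 : (B g).submatrix e e = A g := by
        simp only [B]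
        rw [submatrix_submatrix]
        simp
      rw [← h3, h1, submatrix_one_equiv]
    apply Subtype.ext
    ext a b
    have h4 := congrFun (congrFun h2 ⟨i, a⟩) ⟨i, b⟩
    simp only [A] at h4
    rw [blockDiagonal'_apply_eq, one_apply] at h4
    rw [h4]
    change _ = (1 : Mat (d i)) a b
    rw [one_apply]
    by_cases hab : a = b
    · simp [hab]
    · have : (⟨i, a⟩ : J) ≠ ⟨i, b⟩ := by
        intro h5
        apply hab
        simpa using h5
      simp [hab, this]

/-- Module E1: the Schur polynomial of (1,0,...,0) is the sum of the variables. -/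
theorem schur_e1 {m : ℕ} (hm : 0 < m) (s : MvPolynomial (Fin m) ℕ) (hs : IsSchur s (e1 m)) :
    s = ∑ i, MvPolynomial.X i := by
  classical
  have h1 := congrArg (MvPolynomial.map (Int.castRingHom ℂ)) hs
  rw [map_mul, MvPolynomial.map_map, SCHUR.map_alt, SCHUR.map_alt,
    show (Int.castRingHom ℂ).comp (Nat.castRingHom ℤ) = Nat.castRingHom ℂ from
      Subsingleton.elim _ _] at h1
  have h2 : SCHUR.altC (e1 m + rho m) =
      SCHUR.altC (rho m) * ∑ j, (MvPolynomial.X j : SCHUR.Pol m) := by
    rw [SCHUR.pieri, Finset.sum_eq_single (⟨0, hm⟩ : Fin m)]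
    · congr 1
      rw [add_comm]
      congr 1
      funext i
      unfold e1
      by_cases hi : i = ⟨0, hm⟩
      · subst hi; simp
      · rw [Pi.single_eq_of_ne hi, if_neg]
        intro h0
        exact hi (Fin.ext h0)
    · intro j _ hj
      have hj0 : 0 < (j : ℕ) := by
        rcases Nat.eq_zero_or_pos (j : ℕ) with h0 | h0
        · exact absurd (Fin.ext h0) hj
        · exact h0
      let j' : Fin m := ⟨(j : ℕ) - 1, by have := j.isLt; omega⟩
      have hjj : j' ≠ j := by
        intro h0
        have := congrArg Fin.val h0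
        simp only [j'] at this
        omega
      unfold SCHUR.altC
      refine Matrix.det_zero_of_column_eq hjj fun i => ?_
      simp only [Matrix.of_apply]
      congr 1
      simp only [Pi.add_apply, Pi.single_eq_same, Pi.single_eq_of_ne hjj, rho, j']
      have := j.isLt
      omega
    · simp
  rw [h2] at h1
  have hne : SCHUR.altC (rho m) ≠ 0 := by
    rw [SCHUR.altC_rho, Finset.prod_ne_zero_iff]
    intro p hp h0
    have hp' : p.1 < p.2 := by simpa [SCHUR.pairs] using hp
    have h3 := MvPolynomial.X_injective (sub_eq_zero.mp h0)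
    exact (ne_of_lt hp') h3
  have h3 := mul_left_cancel₀ hne h1
  apply MvPolynomial.map_injective (Nat.castRingHom ℂ) Nat.cast_injective
  rw [h3, map_sum]
  exact Finset.sum_congr rfl fun i _ => by rw [MvPolynomial.map_X]

/-- The real dimension of the quaternions. -/
theorem fact_finrank : Fact (Module.finrank ℝ ℍ[ℝ] = 3 + 1) :=
  ⟨Quaternion.finrank_eq_four⟩

attribute [local instance] fact_finrank

/-- Quaternion conjugation as a real linear map. -/
noncomputable def starLin : ℍ[ℝ] →ₗ[ℝ] ℍ[ℝ] where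
  toFun := star
  map_add' := star_add
  map_smul' := fun r a => Quaternion.star_smul r a

/-- The quaternion `i`. -/
noncomputable def qi : ℍ[ℝ] := ⟨0, 1, 0, 0⟩

/-- The quaternion `j`. -/
noncomputable def qj : ℍ[ℝ] := ⟨0, 0, 1, 0⟩

theorem norm_qi : ‖qi‖ = 1 := by
  rw [← sq_eq_sq₀ (norm_nonneg _) zero_le_one, one_pow, sq,
    ← Quaternion.normSq_eq_norm_mul_self, Quaternion.normSq_def']
  simp [qi]

theorem norm_qj : ‖qj‖ = 1 := by
  rw [← sq_eq_sq₀ (norm_nonneg _) zero_le_one, one_pow, sq,
    ← Quaternion.normSq_eq_norm_mul_self, Quaternion.normSq_def']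
  simp [qj]

instance : LieGroup (modelWithCornersSelf ℝ (EuclideanSpace ℝ (Fin 3)))
    ((⊤ : ℕ∞) : WithTop ℕ∞) S3 where
  contMDiff_mul := by
    apply ContMDiff.codRestrict_sphere
    let c : S3 → ℍ[ℝ] := (↑)
    have h₂ : ContMDiff (𝓘(ℝ, ℍ[ℝ]).prod 𝓘(ℝ, ℍ[ℝ])) 𝓘(ℝ, ℍ[ℝ]) ((⊤ : ℕ∞) : WithTop ℕ∞)
        fun z : ℍ[ℝ] × ℍ[ℝ] => z.fst * z.snd := by
      rw [contMDiff_iff]
      exact ⟨continuous_mul, fun x y => contDiff_mul.contDiffOn⟩
    suffices h₁ : ContMDiff _ _ _ (Prod.map c c) from h₂.comp h₁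
    apply ContMDiff.prodMap <;> exact contMDiff_coe_sphere
  contMDiff_inv := by
    apply ContMDiff.codRestrict_sphere
    have h1 : (fun x : S3 => ((x⁻¹ : S3) : ℍ[ℝ])) = fun x : S3 => star (x : ℍ[ℝ]) := by
      funext x
      have hx : ‖(x : ℍ[ℝ])‖ = 1 := by
        have := x.2
        rwa [mem_sphere_zero_iff_norm] at this
      have h2 : ((x⁻¹ : S3) : ℍ[ℝ]) = (Quaternion.normSq (x : ℍ[ℝ]))⁻¹ • star (x : ℍ[ℝ]) := rfl
      rw [h2, Quaternion.normSq_eq_norm_mul_self, hx]
      simp
    have h3 : ContMDiff (modelWithCornersSelf ℝ (EuclideanSpace ℝ (Fin 3))) 𝓘(ℝ, ℍ[ℝ])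
        ((⊤ : ℕ∞) : WithTop ℕ∞) fun x : S3 => star (x : ℍ[ℝ]) :=
      (LinearMap.toContinuousLinearMap starLin).contDiff.contMDiff.comp contMDiff_coe_sphere
    rw [← h1] at h3
    exact h3

/-- Module LIE. -/
theorem lie_S3 : ∃ (_ : ConnectedSpace S3) (n : ℕ)
      (_ : ChartedSpace (EuclideanSpace ℝ (Fin n)) S3)
      (_ : IsManifold (modelWithCornersSelf ℝ (EuclideanSpace ℝ (Fin n)))
        ((⊤ : ℕ∞) : WithTop ℕ∞) S3)
      (_ : LieGroup (modelWithCornersSelf ℝ (EuclideanSpace ℝ (Fin n)))
        ((⊤ : ℕ∞) : WithTop ℕ∞) S3), ∃ x y : S3, x * y ≠ y * x := by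
  refine ⟨?_, 3, inferInstance, inferInstance, inferInstance, ?_⟩
  · rw [← isConnected_iff_connectedSpace]
    apply isConnected_sphere _ _ zero_le_one
    rw [← Module.finrank_eq_rank, Quaternion.finrank_eq_four]
    norm_num
  · let a : S3 := ⟨qi, by simpa using norm_qi⟩
    let b : S3 := ⟨qj, by simpa using norm_qj⟩
    refine ⟨a, b, ?_⟩
    intro h
    have h1 : (qi * qj).imK = (qj * qi).imK := congrArg (fun x : S3 => (x : ℍ[ℝ]).imK) h
    rw [Quaternion.imK_mul, Quaternion.imK_mul] at h1
    simp only [qi, qj] at h1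
    norm_num at h1

/-- The unitary groups are compact. -/
theorem compact_U (n : ℕ) : CompactSpace (U n) := by
  have hK : IsCompact (Set.pi Set.univ fun _ : Fin n =>
      Set.pi Set.univ fun _ : Fin n => Metric.closedBall (0 : ℂ) 1) :=
    isCompact_univ_pi fun _ => isCompact_univ_pi fun _ => isCompact_closedBall _ _
  have h2 : IsCompact ((Matrix.unitaryGroup (Fin n) ℂ : Submonoid (Mat n)) : Set (Mat n)) := by
    refine hK.of_isClosed_subset ?_ ?_
    · have h1 : ((Matrix.unitaryGroup (Fin n) ℂ : Submonoid (Mat n)) : Set (Mat n)) =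
          {A | A * star A = 1} := by
        ext A
        exact mem_unitaryGroup_iff
      rw [h1]
      exact isClosed_eq (continuous_id.matrix_mul continuous_star) continuous_const
    · intro A hA i _ j _
      rw [mem_closedBall_zero_iff]
      exact entry_norm_bound_of_unitary hA i j
  exact isCompact_iff_compactSpace.mp h2

end Pool.Agent.H88
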