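import Mathlib
import Pool.Agent.H88.Amalg.Defs

/-!
Module TW of the amalgamation project: every unit quaternion is conjugate to a torus element;
homomorphisms from `S3` not killing `-1` are injective; torus weights of a faithful continuous
unitary representation of `S3`.
-/

set_option autoImplicit false

namespace Pool.Agent.H88

open Matrix Filter Topology
open scoped Quaternion

namespace TW

/-- A quaternion from its components. -/
noncomputable def mkq (a b c d : ℝ) : ℍ[ℝ] := ⟨a, b, c, d⟩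

lemma mkq_re (a b c d : ℝ) : (mkq a b c d).re = a := rfl
lemma mkq_imI (a b c d : ℝ) : (mkq a b c d).imI = b := rfl
lemma mkq_imJ (a b c d : ℝ) : (mkq a b c d).imJ = c := rfl
lemma mkq_imK (a b c d : ℝ) : (mkq a b c d).imK = d := rfl

lemma tq_eq (θ : ℝ) : tq θ = mkq (Real.cos θ) (Real.sin θ) 0 0 := rfl

lemma torus_add (a b : ℝ) : torus (a + b) = torus a * torus b := by
  apply Subtype.ext
  rw [Metric.unitSphere.coe_mul]
  change tq (a + b) = tq a * tq b
  rw [tq_eq, tq_eq, tq_eq]
  ext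
  · rw [Quaternion.re_mul]; simp only [mkq_re, mkq_imI, mkq_imJ, mkq_imK, Real.cos_add]; ring
  · rw [Quaternion.imI_mul]; simp only [mkq_re, mkq_imI, mkq_imJ, mkq_imK, Real.sin_add]; ring
  · rw [Quaternion.imJ_mul]; simp only [mkq_re, mkq_imI, mkq_imJ, mkq_imK]; ring
  · rw [Quaternion.imK_mul]; simp only [mkq_re, mkq_imI, mkq_imJ, mkq_imK]; ring

lemma torus_zero : torus 0 = 1 := by
  apply Subtype.ext
  ext <;> simp [torus, tq]

lemma torus_nsmul (n : ℕ) (a : ℝ) : torus (n * a) = torus a ^ n := by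
  induction n with
  | zero => simp [torus_zero]
  | succ n ih =>
    rw [pow_succ, ← ih, ← torus_add]
    congr 1
    push_cast
    ring

lemma torus_neg (a : ℝ) : torus (-a) = (torus a)⁻¹ := by
  rw [eq_inv_iff_mul_eq_one, ← torus_add, neg_add_cancel, torus_zero]

lemma norm_components (g : S3) :
    (g : ℍ[ℝ]).re ^ 2 + (g : ℍ[ℝ]).imI ^ 2 + (g : ℍ[ℝ]).imJ ^ 2 + (g : ℍ[ℝ]).imK ^ 2 = 1 := by
  have h : ‖(g : ℍ[ℝ])‖ = 1 := by simp
  have h2 := Quaternion.normSq_eq_norm_mul_self (g : ℍ[ℝ])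
  rw [h, Quaternion.normSq_def'] at h2
  linarith

/-- normalise a nonzero quaternion -/
noncomputable def nrm (x : ℍ[ℝ]) (hx : x ≠ 0) : S3 :=
  ⟨(‖x‖⁻¹ : ℝ) • x, by
    have : ‖x‖ ≠ 0 := norm_ne_zero_iff.mpr hx
    simp [norm_smul, this]⟩

/-- Every unit quaternion is conjugate to a torus element with angle in `[0, π]`. -/
lemma conj_torus' (g : S3) : ∃ (v : S3) (θ : ℝ), 0 ≤ θ ∧ θ ≤ Real.pi ∧
    Real.cos θ = (g : ℍ[ℝ]).re ∧ g = v * torus θ * v⁻¹ := by
  have hn := norm_components g
  obtain ⟨a, ha⟩ : ∃ a, (g : ℍ[ℝ]).re = a := ⟨_, rfl⟩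
  obtain ⟨b, hb⟩ : ∃ a, (g : ℍ[ℝ]).imI = a := ⟨_, rfl⟩
  obtain ⟨c, hc⟩ : ∃ a, (g : ℍ[ℝ]).imJ = a := ⟨_, rfl⟩
  obtain ⟨d, hd⟩ : ∃ a, (g : ℍ[ℝ]).imK = a := ⟨_, rfl⟩
  rw [ha, hb, hc, hd] at hn
  rw [ha]
  have ha1 : -1 ≤ a := by nlinarith [sq_nonneg b, sq_nonneg c, sq_nonneg d, sq_nonneg (a + 1)]
  have ha2 : a ≤ 1 := by nlinarith [sq_nonneg b, sq_nonneg c, sq_nonneg d, sq_nonneg (a - 1)]
  obtain ⟨θ, hθ0, hθ1, hcos⟩ : ∃ θ, 0 ≤ θ ∧ θ ≤ Real.pi ∧ Real.cos θ = a :=
    ⟨Real.arccos a, Real.arccos_nonneg _, Real.arccos_le_pi _, Real.cos_arccos ha1 ha2⟩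
  obtain ⟨s, hs⟩ : ∃ s, Real.sin θ = s := ⟨_, rfl⟩
  have hs2 : s ^ 2 = b ^ 2 + c ^ 2 + d ^ 2 := by
    have := Real.sin_sq_add_cos_sq θ
    rw [hcos, hs] at this
    linarith
  have hg : (g : ℍ[ℝ]) = mkq a b c d := by
    ext
    · exact ha
    · exact hb
    · exact hc
    · exact hd
  suffices h : ∃ v : ℍ[ℝ], v ≠ 0 ∧ mkq a b c d * v = v * mkq a s 0 0 by
    obtain ⟨v, hv, hgv⟩ := h
    refine ⟨nrm v hv, θ, hθ0, hθ1, hcos, ?_⟩
    rw [eq_mul_inv_iff_mul_eq]
    apply Subtype.ext
    rw [Metric.unitSphere.coe_mul, Metric.unitSphere.coe_mul]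
    change (g : ℍ[ℝ]) * ((‖v‖⁻¹ : ℝ) • v) = ((‖v‖⁻¹ : ℝ) • v) * tq θ
    rw [hg, tq_eq, hcos, hs, mul_smul_comm, hgv, smul_mul_assoc]
  by_cases hcase : b + s = 0 ∧ c = 0 ∧ d = 0
  · obtain ⟨h1, h2, h3⟩ := hcase
    refine ⟨mkq 0 0 1 0, ?_, ?_⟩
    · intro h
      have := congrArg (fun q : ℍ[ℝ] => q.imJ) h
      simp [mkq_imJ] at this
    · ext
      · rw [Quaternion.re_mul, Quaternion.re_mul]
        simp only [mkq_re, mkq_imI, mkq_imJ, mkq_imK]
        linear_combination -h2
      · rw [Quaternion.imI_mul, Quaternion.imI_mul]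
        simp only [mkq_re, mkq_imI, mkq_imJ, mkq_imK]
        linear_combination -h3
      · rw [Quaternion.imJ_mul, Quaternion.imJ_mul]
        simp only [mkq_re, mkq_imI, mkq_imJ, mkq_imK]
        ring
      · rw [Quaternion.imK_mul, Quaternion.imK_mul]
        simp only [mkq_re, mkq_imI, mkq_imJ, mkq_imK]
        linear_combination h1
  · refine ⟨mkq 0 (b + s) c d, ?_, ?_⟩
    · intro h
      apply hcase
      have e1 := congrArg (fun q : ℍ[ℝ] => q.imI) h
      have e2 := congrArg (fun q : ℍ[ℝ] => q.imJ) h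
      have e3 := congrArg (fun q : ℍ[ℝ] => q.imK) h
      simp only [mkq_imI, mkq_imJ, mkq_imK] at e1 e2 e3
      exact ⟨e1, e2, e3⟩
    · ext
      · rw [Quaternion.re_mul, Quaternion.re_mul]
        simp only [mkq_re, mkq_imI, mkq_imJ, mkq_imK]
        linear_combination hs2
      · rw [Quaternion.imI_mul, Quaternion.imI_mul]
        simp only [mkq_re, mkq_imI, mkq_imJ, mkq_imK]
        ring
      · rw [Quaternion.imJ_mul, Quaternion.imJ_mul]
        simp only [mkq_re, mkq_imI, mkq_imJ, mkq_imK]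
        ring
      · rw [Quaternion.imK_mul, Quaternion.imK_mul]
        simp only [mkq_re, mkq_imI, mkq_imJ, mkq_imK]
        ring

/-- The quaternion `cos s + sin s j`. -/
noncomputable def bq (s : ℝ) : S3 := ⟨mkq (Real.cos s) 0 (Real.sin s) 0, by
  have : ‖mkq (Real.cos s) 0 (Real.sin s) 0‖ = 1 := by
    rw [← sq_eq_sq₀ (norm_nonneg _) zero_le_one, one_pow, sq,
      ← Quaternion.normSq_eq_norm_mul_self, Quaternion.normSq_def']
    simp [mkq_re, mkq_imI, mkq_imJ, mkq_imK]
  simpa using this⟩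

lemma bq_inv (s : ℝ) : (bq s)⁻¹ = bq (-s) := by
  rw [inv_eq_iff_mul_eq_one]
  apply Subtype.ext
  rw [Metric.unitSphere.coe_mul]
  change mkq (Real.cos s) 0 (Real.sin s) 0 * mkq (Real.cos (-s)) 0 (Real.sin (-s)) 0 = 1
  have := Real.sin_sq_add_cos_sq s
  rw [Real.cos_neg, Real.sin_neg]
  ext
  · rw [Quaternion.re_mul]; simp only [mkq_re, mkq_imI, mkq_imJ, mkq_imK, Quaternion.re_one]
    linear_combination this
  · rw [Quaternion.imI_mul]; simp only [mkq_re, mkq_imI, mkq_imJ, mkq_imK, Quaternion.imI_one]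
    ring
  · rw [Quaternion.imJ_mul]; simp only [mkq_re, mkq_imI, mkq_imJ, mkq_imK, Quaternion.imJ_one]
    ring
  · rw [Quaternion.imK_mul]; simp only [mkq_re, mkq_imI, mkq_imJ, mkq_imK, Quaternion.imK_one]
    ring

lemma re_commutator (s t : ℝ) :
    ((torus t * (bq s * (torus t)⁻¹ * (bq s)⁻¹) : S3) : ℍ[ℝ]).re =
      1 - 2 * Real.sin s ^ 2 * Real.sin t ^ 2 := by
  rw [bq_inv, ← torus_neg]
  simp only [Metric.unitSphere.coe_mul]
  change (tq t * (mkq (Real.cos s) 0 (Real.sin s) 0 * tq (-t) *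
    mkq (Real.cos (-s)) 0 (Real.sin (-s)) 0)).re = _
  rw [tq_eq, tq_eq, Real.cos_neg, Real.cos_neg, Real.sin_neg, Real.sin_neg]
  simp only [Quaternion.re_mul, Quaternion.imI_mul, Quaternion.imJ_mul, Quaternion.imK_mul,
    mkq_re, mkq_imI, mkq_imJ, mkq_imK]
  have h1 := Real.sin_sq_add_cos_sq s
  have h2 := Real.sin_sq_add_cos_sq t
  linear_combination (Real.sin s ^ 2 + Real.cos s ^ 2) * h2 + h1

lemma exists_deriv {n : ℕ} (φ : ℝ → Mat n) (hc : ∀ i j, Continuous fun θ => φ θ i j)
    (h0 : φ 0 = 1) (hadd : ∀ a b, φ (a + b) = φ a * φ b) :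
    ∃ A : Mat n, ∀ i j θ, HasDerivAt (fun θ => φ θ i j) ((φ θ * A) i j) θ := by
  obtain ⟨F, hF⟩ : ∃ F : Fin n → Fin n → ℝ → ℂ, F = fun i j x => ∫ s in (0:ℝ)..x, φ s i j :=
    ⟨_, rfl⟩
  have hFd : ∀ i j x, HasDerivAt (F i j) (φ x i j) x := by
    intro i j x
    rw [hF]
    exact ((hc i j).integral_hasStrictDerivAt 0 x).hasDerivAt
  have hF0 : ∀ i j, F i j 0 = 0 := by intro i j; rw [hF]; simp
  -- existence of an invertible integral
  obtain ⟨h, hh⟩ : ∃ h : ℝ, (Matrix.of fun i j => F i j h).det ≠ 0 := by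
    have hlim : Tendsto (fun t : ℝ => (Matrix.of fun i j => t⁻¹ • F i j t : Mat n)) (𝓝[≠] 0)
        (𝓝 (1 : Mat n)) := by
      rw [← h0]
      refine tendsto_pi_nhds.mpr fun i => tendsto_pi_nhds.mpr fun j => ?_
      have := hasDerivAt_iff_tendsto_slope_zero.mp (hFd i j 0)
      simpa [hF0] using this
    have hdet : Tendsto (fun t : ℝ => (Matrix.of fun i j => t⁻¹ • F i j t : Mat n).det) (𝓝[≠] 0)
        (𝓝 (1 : Mat n).det) :=
      ((continuous_id.matrix_det).tendsto (1 : Mat n)).comp hlim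
    rw [det_one] at hdet
    have hev := hdet.eventually_ne one_ne_zero
    obtain ⟨t, ht⟩ := hev.exists
    refine ⟨t, fun hz => ht ?_⟩
    have : (Matrix.of fun i j => t⁻¹ • F i j t : Mat n) =
        ((t⁻¹ : ℝ) : ℂ) • (Matrix.of fun i j => F i j t) := by
      ext i j
      simp
    rw [this, det_smul, hz, mul_zero]
  obtain ⟨B, hB⟩ : ∃ B : Mat n, B = Matrix.of fun i j => F i j h := ⟨_, rfl⟩
  rw [← hB] at hh
  have hBu : IsUnit B.det := isUnit_iff_ne_zero.mpr hh
  have hmul : ∀ θ, φ θ * B = Matrix.of fun i j => F i j (θ + h) - F i j θ := by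
    intro θ
    ext i j
    rw [Matrix.mul_apply, Matrix.of_apply, hB, hF]
    simp only [Matrix.of_apply]
    rw [intervalIntegral.integral_interval_sub_left ((hc i j).intervalIntegrable _ _)
      ((hc i j).intervalIntegrable _ _)]
    have e1 : ∀ x, φ θ i x * ∫ s in (0:ℝ)..h, φ s x j = ∫ s in (0:ℝ)..h, φ θ i x * φ s x j := by
      intro x
      rw [intervalIntegral.integral_const_mul]
    simp only [e1]
    rw [← intervalIntegral.integral_finsetSum]
    · have e2 : ∀ s, ∑ x, φ θ i x * φ s x j = φ (θ + s) i j := by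
        intro s
        rw [hadd, Matrix.mul_apply]
      simp only [e2]
      rw [intervalIntegral.integral_comp_add_left (fun s => φ s i j) θ, add_zero]
    · intro x _
      exact ((continuous_const.mul (hc x j)).intervalIntegrable _ _)
  refine ⟨(φ h - 1) * B⁻¹, fun i j θ => ?_⟩
  have hφ : ∀ θ, φ θ i j = ∑ k, (F i k (θ + h) - F i k θ) * B⁻¹ k j := by
    intro θ
    have : φ θ = φ θ * B * B⁻¹ := by rw [Matrix.mul_nonsing_inv_cancel_right _ _ hBu]
    conv_lhs => rw [this, hmul, Matrix.mul_apply]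
    rfl
  have hd : HasDerivAt (fun θ => ∑ k, (F i k (θ + h) - F i k θ) * B⁻¹ k j)
      (∑ k, (φ (θ + h) i k - φ θ i k) * B⁻¹ k j) θ := by
    apply HasDerivAt.fun_sum
    intro k _
    apply HasDerivAt.mul_const
    apply HasDerivAt.fun_sub _ (hFd i k θ)
    exact HasDerivAt.comp_add_const θ h (hFd i k (θ + h))
  have e3 : (φ θ * ((φ h - 1) * B⁻¹)) i j = ∑ k, (φ (θ + h) i k - φ θ i k) * B⁻¹ k j := by
    rw [← Matrix.mul_assoc, Matrix.mul_sub, Matrix.mul_one, ← hadd, Matrix.mul_apply]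
    rfl
  rw [e3]
  have e4 : (fun θ => φ θ i j) = fun θ => ∑ k, (F i k (θ + h) - F i k θ) * B⁻¹ k j := by
    funext θ
    exact hφ θ
  rw [e4]
  exact hd

lemma exists_diag {n : ℕ} (φ : ℝ → Mat n) (hc : ∀ i j, Continuous fun θ => φ θ i j)
    (h0 : φ 0 = 1) (hadd : ∀ a b, φ (a + b) = φ a * φ b) (hstar : ∀ θ, star (φ θ) = φ (-θ)) :
    ∃ (u : U n) (lam : Fin n → ℝ), ∀ θ : ℝ, φ θ =
      (u : Mat n) * diagonal (fun i => Complex.exp ((lam i : ℂ) * θ * Complex.I)) *
        star (u : Mat n) := by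
  obtain ⟨A, hA⟩ := exists_deriv φ hc h0 hadd
  have hskew : star A = -A := by
    ext i j
    have d1 : HasDerivAt (fun θ => star (φ θ j i)) (star ((φ 0 * A) j i)) 0 := (hA j i 0).star
    have d2 : HasDerivAt (fun θ => φ (-θ) i j) (-((φ (-0) * A) i j)) 0 := by
      have := HasDerivAt.scomp (0:ℝ) (hA i j (-0)) (hasDerivAt_neg (0:ℝ))
      simpa [Function.comp_def] using this
    have e : (fun θ => star (φ θ j i)) = fun θ => φ (-θ) i j := by
      funext θ
      rw [← hstar θ]
      rfl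
    rw [e] at d1
    have := d1.unique d2
    rw [neg_zero, h0, one_mul] at this
    simpa using this
  have hH : ((-Complex.I) • A).IsHermitian := by
    unfold Matrix.IsHermitian
    rw [conjTranspose_smul, ← star_eq_conjTranspose, hskew]
    simp
  obtain ⟨u, hu⟩ : ∃ u : U n, u = hH.eigenvectorUnitary := ⟨_, rfl⟩
  have hsp := hH.spectral_theorem
  rw [Unitary.conjStarAlgAut_apply, ← hu] at hsp
  have huu : star (u : Mat n) * (u : Mat n) = 1 := Unitary.coe_star_mul_self u
  have huu' : (u : Mat n) * star (u : Mat n) = 1 := Unitary.coe_mul_star_self u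
  obtain ⟨lam, hlam⟩ : ∃ lam : Fin n → ℝ, lam = hH.eigenvalues := ⟨_, rfl⟩
  rw [← hlam] at hsp
  have hAu : A * (u : Mat n) = (u : Mat n) * diagonal (fun i => (lam i : ℂ) * Complex.I) := by
    have e1 : A = Complex.I • ((-Complex.I) • A) := by
      rw [smul_smul]; simp
    have e2 : diagonal (fun i => (lam i : ℂ) * Complex.I) =
        Complex.I • (diagonal (RCLike.ofReal ∘ lam) : Mat n) := by
      rw [← diagonal_smul]
      congr 1
      funext i
      simp [mul_comm]
    rw [e1, hsp, e2, smul_mul_assoc, mul_assoc, mul_assoc, huu, mul_one, mul_smul_comm]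
  refine ⟨u, lam, fun θ => ?_⟩
  -- psi = star u * φ * u
  have hψd : ∀ i j θ, HasDerivAt (fun θ => (star (u : Mat n) * φ θ * (u : Mat n)) i j)
      ((star (u : Mat n) * φ θ * (u : Mat n)) i j * ((lam j : ℂ) * Complex.I)) θ := by
    intro i j θ
    have e1 : (fun θ => (star (u : Mat n) * φ θ * (u : Mat n)) i j) =
        fun θ => ∑ k, (∑ l, (star (u : Mat n)) i l * φ θ l k) * (u : Mat n) k j := by
      funext θ
      rw [Matrix.mul_apply]
      simp only [Matrix.mul_apply]
    have e2 : (star (u : Mat n) * φ θ * (u : Mat n)) i j * ((lam j : ℂ) * Complex.I) =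
        ∑ k, (∑ l, (star (u : Mat n)) i l * (φ θ * A) l k) * (u : Mat n) k j := by
      have e3 : ∑ k, (∑ l, (star (u : Mat n)) i l * (φ θ * A) l k) * (u : Mat n) k j =
          (star (u : Mat n) * (φ θ * A) * (u : Mat n)) i j := by
        conv_rhs => rw [Matrix.mul_apply]
        simp only [Matrix.mul_apply]
      rw [e3]
      have e4 : star (u : Mat n) * (φ θ * A) * (u : Mat n) = star (u : Mat n) * φ θ * (u : Mat n) *
          diagonal (fun i => (lam i : ℂ) * Complex.I) := by
        rw [mul_assoc, mul_assoc (φ θ), hAu]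
        simp only [mul_assoc]
      rw [e4, Matrix.mul_diagonal]
    rw [e1, e2]
    apply HasDerivAt.fun_sum
    intro k _
    apply HasDerivAt.mul_const
    apply HasDerivAt.fun_sum
    intro l _
    apply HasDerivAt.const_mul
    exact hA l k θ
  have hψ : ∀ i j, (star (u : Mat n) * φ θ * (u : Mat n)) i j =
      (diagonal (fun i => Complex.exp ((lam i : ℂ) * θ * Complex.I)) : Mat n) i j := by
    intro i j
    have hE : ∀ θ : ℝ, HasDerivAt (fun θ : ℝ => Complex.exp (-((lam j : ℂ) * θ * Complex.I)))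
        (Complex.exp (-((lam j : ℂ) * θ * Complex.I)) * (-((lam j : ℂ) * Complex.I))) θ := by
      intro θ
      apply HasDerivAt.cexp
      apply HasDerivAt.fun_neg
      apply HasDerivAt.mul_const
      have := (Complex.ofRealCLM.hasDerivAt (x := θ)).const_mul (lam j : ℂ)
      simpa using this
    have hprod : ∀ θ : ℝ, HasDerivAt
        (fun θ : ℝ => (star (u : Mat n) * φ θ * (u : Mat n)) i j *
          Complex.exp (-((lam j : ℂ) * θ * Complex.I))) 0 θ := by
      intro θ
      have := (hψd i j θ).fun_mul (hE θ)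
      have e0 : (star (u : Mat n) * φ θ * (u : Mat n)) i j * ((lam j : ℂ) * Complex.I) *
          Complex.exp (-((lam j : ℂ) * θ * Complex.I)) +
          (star (u : Mat n) * φ θ * (u : Mat n)) i j *
          (Complex.exp (-((lam j : ℂ) * θ * Complex.I)) * (-((lam j : ℂ) * Complex.I))) = 0 := by
        ring
      rw [e0] at this
      exact this
    have hconst := is_const_of_deriv_eq_zero (fun θ => (hprod θ).differentiableAt)
      (fun θ => (hprod θ).deriv) θ 0
    simp only [h0, mul_one, huu] at hconst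
    have hexp : Complex.exp (-((lam j : ℂ) * θ * Complex.I)) *
        Complex.exp ((lam j : ℂ) * θ * Complex.I) = 1 := by
      rw [← Complex.exp_add, neg_add_cancel, Complex.exp_zero]
    have h1 : (star (u : Mat n) * φ θ * (u : Mat n)) i j =
        (1 : Mat n) i j * Complex.exp ((lam j : ℂ) * θ * Complex.I) := by
      calc (star (u : Mat n) * φ θ * (u : Mat n)) i j
          = (star (u : Mat n) * φ θ * (u : Mat n)) i j *
            (Complex.exp (-((lam j : ℂ) * θ * Complex.I)) *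
              Complex.exp ((lam j : ℂ) * θ * Complex.I)) := by rw [hexp, mul_one]
        _ = _ := by
          rw [← mul_assoc, hconst]
          simp
    rw [h1]
    by_cases hij : i = j
    · subst hij; simp
    · simp [hij]
  have hψ' : star (u : Mat n) * φ θ * (u : Mat n) =
      diagonal (fun i => Complex.exp ((lam i : ℂ) * θ * Complex.I)) := by
    ext i j; exact hψ i j
  rw [← hψ']
  calc φ θ = ((u : Mat n) * star (u : Mat n)) * φ θ * ((u : Mat n) * star (u : Mat n)) := by
        rw [huu', one_mul, mul_one]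
    _ = _ := by simp only [mul_assoc]

lemma continuous_torus : Continuous torus := by
  apply Continuous.subtype_mk
  have : tq = fun θ => ((Real.cos θ : ℝ) : ℍ[ℝ]) + (Real.sin θ) • mkq 0 1 0 0 := by
    funext θ
    rw [tq_eq]
    ext
    · rw [Quaternion.re_add, Quaternion.re_smul]; simp [mkq_re]
    · rw [Quaternion.imI_add, Quaternion.imI_smul]; simp [mkq_imI]
    · rw [Quaternion.imJ_add, Quaternion.imJ_smul]; simp [mkq_imJ]
    · rw [Quaternion.imK_add, Quaternion.imK_smul]; simp [mkq_imK]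
  rw [this]
  exact (Quaternion.continuous_coe.comp Real.continuous_cos).add
    (Real.continuous_sin.smul continuous_const)

lemma torus_two_pi : torus (2 * Real.pi) = 1 := by
  apply Subtype.ext
  change tq (2 * Real.pi) = 1
  rw [tq_eq, Real.cos_two_pi, Real.sin_two_pi]
  ext <;> rfl

lemma bq_conj (θ : ℝ) : bq (Real.pi / 2) * torus θ * (bq (Real.pi / 2))⁻¹ = torus (-θ) := by
  rw [bq_inv]
  apply Subtype.ext
  rw [Metric.unitSphere.coe_mul, Metric.unitSphere.coe_mul]
  change mkq (Real.cos (Real.pi / 2)) 0 (Real.sin (Real.pi / 2)) 0 * tq θ *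
    mkq (Real.cos (-(Real.pi / 2))) 0 (Real.sin (-(Real.pi / 2))) 0 = tq (-θ)
  rw [tq_eq, tq_eq, Real.cos_neg, Real.sin_neg, Real.cos_neg, Real.sin_neg, Real.cos_pi_div_two,
    Real.sin_pi_div_two]
  ext
  · simp only [Quaternion.re_mul, Quaternion.imI_mul, Quaternion.imJ_mul, Quaternion.imK_mul,
      mkq_re, mkq_imI, mkq_imJ, mkq_imK]
    ring
  · simp only [Quaternion.re_mul, Quaternion.imI_mul, Quaternion.imJ_mul, Quaternion.imK_mul,
      mkq_re, mkq_imI, mkq_imJ, mkq_imK]
    ring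
  · simp only [Quaternion.re_mul, Quaternion.imI_mul, Quaternion.imJ_mul, Quaternion.imK_mul,
      mkq_re, mkq_imI, mkq_imJ, mkq_imK]
    ring
  · simp only [Quaternion.re_mul, Quaternion.imI_mul, Quaternion.imJ_mul, Quaternion.imK_mul,
      mkq_re, mkq_imI, mkq_imJ, mkq_imK]
    ring

/-- The character `θ ↦ exp (i k θ)`. -/
noncomputable def chi (k : ℤ) : Multiplicative ℝ →* ℂ where
  toFun θ := Complex.exp ((k : ℂ) * (Multiplicative.toAdd θ : ℝ) * Complex.I)
  map_one' := by simp
  map_mul' a b := by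
    rw [← Complex.exp_add, toAdd_mul]
    congr 1
    push_cast
    ring

lemma chi_injective : Function.Injective chi := by
  intro k l h
  have h1 : ∀ θ : ℝ, Complex.exp ((k : ℂ) * θ * Complex.I) =
      Complex.exp ((l : ℂ) * θ * Complex.I) := fun θ =>
    DFunLike.congr_fun h (Multiplicative.ofAdd θ)
  have d1 : ∀ m : ℤ, HasDerivAt (fun θ : ℝ => Complex.exp ((m : ℂ) * θ * Complex.I))
      ((m : ℂ) * Complex.I) 0 := by
    intro m
    have h2 : HasDerivAt (fun θ : ℝ => (m : ℂ) * θ * Complex.I) ((m : ℂ) * Complex.I) 0 := by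
      apply HasDerivAt.mul_const
      have := (Complex.ofRealCLM.hasDerivAt (x := (0:ℝ))).const_mul (m : ℂ)
      simpa using this
    have := h2.cexp
    simpa using this
  have e : (fun θ : ℝ => Complex.exp ((k : ℂ) * θ * Complex.I)) =
      fun θ : ℝ => Complex.exp ((l : ℂ) * θ * Complex.I) := funext h1
  have d2 := d1 k
  rw [e] at d2
  have := d2.unique (d1 l)
  have := mul_right_cancel₀ Complex.I_ne_zero this
  exact_mod_cast this

lemma count_eq {n : ℕ} (p q : Fin n → ℤ)
    (h : ∀ θ : ℝ, ∑ i, Complex.exp ((p i : ℂ) * θ * Complex.I) =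
      ∑ i, Complex.exp ((q i : ℂ) * θ * Complex.I)) (k : ℤ) :
    (Finset.univ.filter fun i => p i = k).card = (Finset.univ.filter fun i => q i = k).card := by
  have hli := (linearIndependent_monoidHom (Multiplicative ℝ) ℂ).comp chi chi_injective
  have hinj : Function.Injective (Finsupp.linearCombination ℂ
    ((fun f : Multiplicative ℝ →* ℂ => (f : Multiplicative ℝ → ℂ)) ∘ chi)) := hli
  have heq : (∑ i, Finsupp.single (p i) (1:ℂ)) = ∑ i, Finsupp.single (q i) (1:ℂ) := by
    apply hinj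
    rw [map_sum, map_sum]
    simp only [Finsupp.linearCombination_single, one_smul]
    funext θ
    rw [Finset.sum_apply, Finset.sum_apply]
    exact h (Multiplicative.toAdd θ)
  have := DFunLike.congr_fun heq k
  rw [Finsupp.finsetSum_apply, Finsupp.finsetSum_apply] at this
  simp only [Finsupp.single_apply, Finset.sum_boole] at this
  exact_mod_cast this

end TW

theorem conj_torus (g : S3) : ∃ (v : S3) (θ : ℝ), g = v * torus θ * v⁻¹ := by
  obtain ⟨v, θ, -, -, -, h⟩ := TW.conj_torus' g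
  exact ⟨v, θ, h⟩

theorem injective_of_neg_one {H : Type} [Group H] (f : S3 →* H) (h : f (torus Real.pi) ≠ 1) :
    Function.Injective f := by
  rw [injective_iff_map_eq_one]
  intro a ha
  by_contra hane
  obtain ⟨v, t, ht0, htpi, hcos, hat⟩ := TW.conj_torus' a
  have hker : ∀ x y : S3, f x = 1 → ∀ w : S3, x = w * y * w⁻¹ → f y = 1 := by
    intro x y hx w hxy
    have : y = w⁻¹ * x * w := by rw [hxy]; group
    rw [this, map_mul, map_mul, hx, mul_one, ← map_mul, inv_mul_cancel, map_one]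
  have hft : f (torus t) = 1 := hker a (torus t) ha v hat
  have ht0' : t ≠ 0 := by
    rintro rfl
    apply hane
    rw [hat, TW.torus_zero]; group
  have htpi' : t ≠ Real.pi := by
    rintro rfl
    exact h hft
  have hsin : 0 < Real.sin t :=
    Real.sin_pos_of_pos_of_lt_pi (lt_of_le_of_ne ht0 (Ne.symm ht0')) (lt_of_le_of_ne htpi htpi')
  obtain ⟨n, hn1, hn⟩ : ∃ n : ℕ, 1 ≤ n ∧ Real.pi / n / 2 ≤ Real.sin t := by
    obtain ⟨n, hn⟩ := exists_nat_gt (Real.pi / 2 / Real.sin t)
    have hnpos : (0:ℝ) < n := lt_of_le_of_lt (by positivity) hn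
    refine ⟨n, ?_, ?_⟩
    · exact_mod_cast hnpos
    · rw [div_lt_iff₀ hsin] at hn
      rw [div_div, div_le_iff₀ (by positivity)]
      linarith
  have hnpos : (0:ℝ) < n := by exact_mod_cast hn1
  have hx0 : 0 ≤ Real.pi / n / 2 := by positivity
  have hsx : Real.sin (Real.pi / n / 2) ≤ Real.sin t := le_trans (Real.sin_le hx0) hn
  have hxpi : Real.pi / n ≤ Real.pi := by
    rw [div_le_iff₀ hnpos]
    have : (1:ℝ) ≤ n := by exact_mod_cast hn1
    nlinarith [Real.pi_pos]
  have hsx0 : 0 ≤ Real.sin (Real.pi / n / 2) :=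
    Real.sin_nonneg_of_nonneg_of_le_pi hx0 (by linarith [Real.pi_pos])
  obtain ⟨s, hs⟩ : ∃ s : ℝ, Real.sin s = Real.sin (Real.pi / n / 2) / Real.sin t :=
    ⟨Real.arcsin _, Real.sin_arcsin (le_trans (by norm_num) (div_nonneg hsx0 hsin.le))
      ((div_le_one hsin).mpr hsx)⟩
  have hre := TW.re_commutator s t
  have hre2 : ((torus t * (TW.bq s * (torus t)⁻¹ * (TW.bq s)⁻¹) : S3) : ℍ[ℝ]).re =
      Real.cos (Real.pi / n) := by
    rw [hre]
    have e1 : Real.sin s ^ 2 * Real.sin t ^ 2 = Real.sin (Real.pi / n / 2) ^ 2 := by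
      rw [hs]; field_simp
    have e2 : Real.cos (Real.pi / n) = 1 - 2 * Real.sin (Real.pi / n / 2) ^ 2 := by
      have := Real.cos_two_mul (Real.pi / n / 2)
      rw [show 2 * (Real.pi / n / 2) = Real.pi / n by ring] at this
      rw [this]
      have := Real.sin_sq_add_cos_sq (Real.pi / n / 2)
      linarith
    rw [e2, ← e1]; ring
  obtain ⟨w, θ, hθ0, hθpi, hcosθ, hwθ⟩ :=
    TW.conj_torus' (torus t * (TW.bq s * (torus t)⁻¹ * (TW.bq s)⁻¹))
  have hfc : f (torus t * (TW.bq s * (torus t)⁻¹ * (TW.bq s)⁻¹)) = 1 := by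
    simp only [map_mul, map_inv, hft]
    simp
  have hfθ := hker _ _ hfc w hwθ
  rw [hre2] at hcosθ
  have hθ : θ = Real.pi / n :=
    Real.injOn_cos ⟨hθ0, hθpi⟩ ⟨by positivity, hxpi⟩ hcosθ
  apply h
  have : Real.pi = n * (Real.pi / n) := by field_simp
  rw [this, TW.torus_nsmul, map_pow, ← hθ, hfθ, one_pow]

open TW in
theorem torus_weights {n : ℕ} (ρ : S3 →* U n) (hρ : Continuous ρ)
    (hinj : Function.Injective ρ) :
    ∃ p : Fin n → ℤ, Good p ∧ ∃ u : U n, ∀ θ : ℝ,
      (ρ (torus θ) : Mat n) =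
        (u : Mat n) * diagonal (fun i => Complex.exp ((p i : ℂ) * θ * Complex.I)) *
          star (u : Mat n) := by
  obtain ⟨v, lam, hv⟩ := exists_diag (fun θ => (ρ (torus θ) : Mat n))
    (fun i j => by
      have h1 : Continuous fun θ => (ρ (torus θ) : Mat n) :=
        continuous_subtype_val.comp (hρ.comp continuous_torus)
      exact (continuous_apply j).comp ((continuous_apply i).comp h1))
    (by simp [torus_zero])
    (fun a b => by simp [torus_add])
    (fun θ => by
      rw [torus_neg, map_inv]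
      rfl)
  have hvv : star (v : Mat n) * (v : Mat n) = 1 := Unitary.coe_star_mul_self v
  have hvv' : (v : Mat n) * star (v : Mat n) = 1 := Unitary.coe_mul_star_self v
  -- integrality
  have hint : ∀ i, ∃ m : ℤ, lam i = m := by
    intro i
    have h1 := hv (2 * Real.pi)
    rw [torus_two_pi, map_one] at h1
    have h2 : diagonal (fun i => Complex.exp ((lam i : ℂ) * (2 * Real.pi : ℝ) * Complex.I)) =
        (1 : Mat n) := by
      calc diagonal (fun i => Complex.exp ((lam i : ℂ) * (2 * Real.pi : ℝ) * Complex.I))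
          = (star (v : Mat n) * (v : Mat n)) *
            diagonal (fun i => Complex.exp ((lam i : ℂ) * (2 * Real.pi : ℝ) * Complex.I)) *
            (star (v : Mat n) * (v : Mat n)) := by rw [hvv, one_mul, mul_one]
        _ = star (v : Mat n) * ((v : Mat n) *
            diagonal (fun i => Complex.exp ((lam i : ℂ) * (2 * Real.pi : ℝ) * Complex.I)) *
            star (v : Mat n)) * (v : Mat n) := by simp only [mul_assoc]
        _ = 1 := by
          rw [← h1]
          simp [hvv]
    have h3 := congrFun (congrFun h2 i) i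
    rw [diagonal_apply_eq, one_apply_eq, Complex.exp_eq_one_iff] at h3
    obtain ⟨m, hm⟩ := h3
    refine ⟨m, ?_⟩
    have h4 : (lam i : ℂ) = m := by
      have hne : (2 * (Real.pi:ℂ) * Complex.I) ≠ 0 := by
        simp [Real.pi_ne_zero, Complex.I_ne_zero]
      apply mul_right_cancel₀ hne
      rw [← hm]
      push_cast
      ring
    exact_mod_cast h4
  choose m hm using hint
  -- sorting
  obtain ⟨σ, hσ⟩ : ∃ σ : Equiv.Perm (Fin n), Antitone (m ∘ σ) := by
    refine ⟨Tuple.sort (fun i => - m i), ?_⟩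
    have := Tuple.monotone_sort (fun i => - m i)
    intro a b hab
    have h1 := this hab
    simp only [Function.comp_apply] at h1 ⊢
    linarith
  obtain ⟨w, hw⟩ : ∃ w : Mat n, w = (v : Mat n).submatrix id σ := ⟨_, rfl⟩
  have hstarw : star w = (star (v : Mat n)).submatrix σ id := by rw [hw]; rfl
  have hww : w * star w = 1 := by
    rw [hstarw, hw, Matrix.submatrix_mul_equiv _ _ _ σ _, hvv']
    simp
  have hwU : w ∈ Matrix.unitaryGroup (Fin n) ℂ := mem_unitaryGroup_iff.mpr hww
  have hwv : ∀ x : Fin n → ℂ, w * diagonal (x ∘ σ) * star w =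
      (v : Mat n) * diagonal x * star (v : Mat n) := by
    intro x
    have : (diagonal (x ∘ σ) : Mat n) = (diagonal x).submatrix σ σ := by
      rw [submatrix_diagonal_equiv]
    rw [this, hstarw, hw, Matrix.submatrix_mul_equiv _ _ _ σ _, Matrix.submatrix_mul_equiv _ _ _ σ _]
    simp
  have hmain : ∀ θ : ℝ, (ρ (torus θ) : Mat n) =
        w * diagonal (fun i => Complex.exp ((((m ∘ σ) i : ℤ) : ℂ) * θ * Complex.I)) *
          star w := by
    intro θ
    have := hwv (fun i => Complex.exp ((m i : ℂ) * θ * Complex.I))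
    have e : ((fun i => Complex.exp ((m i : ℂ) * θ * Complex.I)) ∘ σ) =
      fun i => Complex.exp ((((m ∘ σ) i : ℤ) : ℂ) * θ * Complex.I) := rfl
    rw [e] at this
    rw [this, hv θ]
    congr 2
    congr 1
    funext i
    rw [hm i]
    push_cast
    rfl
  have hsw : star w * w = 1 := mem_unitaryGroup_iff'.mp hwU
  refine ⟨m ∘ σ, ⟨hσ, ?_, ?_⟩, ⟨w, hwU⟩, hmain⟩
  · -- symmetry
    have htr : ∀ θ : ℝ, trace (ρ (torus θ) : Mat n) =
        ∑ i, Complex.exp ((((m ∘ σ) i : ℤ) : ℂ) * θ * Complex.I) := by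
      intro θ
      rw [hmain θ, trace_mul_comm, ← mul_assoc, hsw, one_mul, trace_diagonal]
    have hsym : ∀ θ : ℝ, trace (ρ (torus (-θ)) : Mat n) = trace (ρ (torus θ) : Mat n) := by
      intro θ
      rw [← bq_conj, map_mul, map_mul, map_inv]
      push_cast
      rw [trace_mul_comm, ← mul_assoc]
      have : ((↑(ρ (bq (Real.pi / 2)))⁻¹ : Mat n)) * (ρ (bq (Real.pi / 2)) : Mat n) = 1 := by
        rw [← Submonoid.coe_mul, inv_mul_cancel]; rfl
      rw [this, one_mul]
    intro k
    have := count_eq (m ∘ σ) (fun i => - (m ∘ σ) i) (fun θ => by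
      rw [← htr θ, ← hsym θ, htr (-θ)]
      apply Finset.sum_congr rfl
      intro i _
      congr 1
      push_cast
      ring) k
    rw [this]
    congr 1
    ext i
    simp only [Finset.mem_filter, Finset.mem_univ, true_and]
    constructor
    · intro h; omega
    · intro h; omega
  · -- no common divisor
    intro d hd
    by_contra hcon
    push Not at hcon
    have hdpos : (0:ℝ) < d := by
      have : 0 < d := by omega
      exact_mod_cast this
    have h1 : (ρ (torus (2 * Real.pi / d)) : Mat n) = 1 := by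
      rw [hmain]
      have : (fun i => Complex.exp ((((m ∘ σ) i : ℤ) : ℂ) * ((2 * Real.pi / d : ℝ) : ℂ) *
          Complex.I)) = fun _ => 1 := by
        funext i
        obtain ⟨c, hc⟩ := hcon i
        rw [Complex.exp_eq_one_iff]
        refine ⟨c, ?_⟩
        rw [hc]
        push_cast
        have : (d:ℂ) ≠ 0 := by exact_mod_cast hdpos.ne'
        field_simp
      rw [this, diagonal_one, mul_one, hww]
    have h2 : ρ (torus (2 * Real.pi / d)) = ρ 1 := by
      rw [map_one]
      exact Subtype.ext h1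
    have h3 := hinj h2
    have h4 : Real.cos (2 * Real.pi / d) = 1 := by
      have := congrArg (fun g : S3 => (g : ℍ[ℝ]).re) h3
      exact this
    have hd2 : (2:ℝ) ≤ d := by exact_mod_cast hd
    have hlt : 2 * Real.pi / d < 2 * Real.pi := by
      rw [div_lt_iff₀ hdpos]
      nlinarith [Real.pi_pos]
    have hgt : 0 < 2 * Real.pi / d := by positivity
    have := (Real.cos_eq_one_iff_of_lt_of_lt (by linarith) hlt).mp h4
    linarith

end Pool.Agent.H88
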