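import Mathlib
import Pool.Agent.H88.Amalg.Defs
import Pool.Agent.H88.Amalg.Comb
import Pool.Agent.H88.Amalg.SCHUR
import Pool.Agent.H88.Amalg.SMALL
import Pool.Agent.H88.Amalg.PW
import Pool.Agent.H88.Amalg.EQ
import Pool.Agent.H88.Amalg.TW

set_option autoImplicit false

namespace Pool.Agent.H88

open Matrix Finset
open scoped Quaternion Manifold

namespace Final

theorem torus_pi_ne : torus Real.pi ≠ 1 := by
  intro h
  have h1 : (torus Real.pi : ℍ[ℝ]) = ((1 : S3) : ℍ[ℝ]) := congrArg Subtype.val h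
  have h2 := congrArg QuaternionAlgebra.re h1
  simp [torus, tq] at h2
  norm_num at h2

/-- Evaluation of a polynomial on the torus through its levels. -/
theorem eval_eq {m : ℕ} (s : MvPolynomial (Fin m) ℕ) (p : Fin m → ℤ) (K : Finset ℤ)
    (hK : ∀ μ ∈ s.support, ∑ i, (μ i : ℤ) * p i ∈ K) (θ : ℝ) :
    MvPolynomial.eval₂ (Nat.castRingHom ℂ) (fun i => Complex.exp ((p i : ℂ) * θ * Complex.I)) s =
      ∑ k ∈ K, (levc s p k : ℂ) * Complex.exp ((k : ℂ) * θ * Complex.I) := by
  rw [MvPolynomial.eval₂_eq']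
  have h1 : ∀ μ ∈ s.support, (Nat.castRingHom ℂ) (s.coeff μ) *
      ∏ i, Complex.exp ((p i : ℂ) * θ * Complex.I) ^ μ i =
      ∑ k ∈ K, (if ∑ i, (μ i : ℤ) * p i = k then ((s.coeff μ : ℕ) : ℂ) else 0) *
        Complex.exp ((k : ℂ) * θ * Complex.I) := by
    intro μ hμ
    rw [Finset.sum_eq_single (∑ i, (μ i : ℤ) * p i)]
    · rw [if_pos rfl]
      congr 1
      simp only [← Complex.exp_nat_mul]
      rw [← Complex.exp_sum]
      congr 1
      push_cast
      rw [Finset.sum_mul, Finset.sum_mul]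
      refine Finset.sum_congr rfl fun i _ => ?_
      ring
    · intro k _ hk
      rw [if_neg (Ne.symm hk), zero_mul]
    · intro h
      exact absurd (hK μ hμ) h
  rw [Finset.sum_congr rfl h1, Finset.sum_comm]
  refine Finset.sum_congr rfl fun k _ => ?_
  unfold levc
  rw [← Finset.sum_mul]
  congr 1
  push_cast
  rfl

end Final

open Final in
theorem pair_rep {B C : Type} [Group B] [TopologicalSpace B] [IsTopologicalGroup B]
    [CompactSpace B] [T2Space B] [Group C] [TopologicalSpace C] [IsTopologicalGroup C]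
    [CompactSpace C] [T2Space C] (f : ContinuousMonoidHom S3 B) (g : ContinuousMonoidHom S3 C)
    (hf : Function.Injective f) (hg : Function.Injective g) (b : B) (hb : b ≠ 1) :
    ∃ (N : ℕ) (V : B →* U N) (W : C →* U N), Continuous V ∧ Continuous W ∧
      (∀ a, V (f a) = W (g a)) ∧ V b ≠ 1 := by
  classical
  -- the basic representations
  obtain ⟨n₁, π₁, hπ₁c, hπ₁⟩ := exists_unitary_rep b hb
  obtain ⟨n₂, π₂, hπ₂c, hπ₂⟩ := exists_unitary_rep (f (torus Real.pi))
    (fun h => torus_pi_ne (hf (h.trans (map_one f).symm)))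
  obtain ⟨n, σ, hσc, hσ⟩ := exists_unitary_rep (g (torus Real.pi))
    (fun h => torus_pi_ne (hg (h.trans (map_one g).symm)))
  obtain ⟨m, π, hπc, -, hπ⟩ := direct_sum_rep (fun x : Bool => if x then n₁ else n₂)
    (fun x => match x with
      | true => π₁
      | false => π₂) (fun x => match x with
      | true => hπ₁c
      | false => hπ₂c)
  have hπb : π b ≠ 1 := fun h => hπ₁ (hπ b h true)
  have hπA : π (f (torus Real.pi)) ≠ 1 := fun h => hπ₂ (hπ _ h false)
  obtain ⟨p, hp, u, hu⟩ := torus_weights (π.comp f.toMonoidHom) (hπc.comp f.continuous_toFun)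
    (injective_of_neg_one _ hπA)
  obtain ⟨q, hq, v, hv⟩ := torus_weights (σ.comp g.toMonoidHom) (hσc.comp g.continuous_toFun)
    (injective_of_neg_one _ hσ)
  -- Schur polynomials
  choose S hS HS using fun lam : {lam : Fin m → ℕ // Antitone lam} => schur_rep m lam.1 lam.2
  choose T hT HT using fun lam : {lam : Fin n → ℕ // Antitone lam} => schur_rep n lam.1 lam.2
  set S' : (Fin m → ℕ) → MvPolynomial (Fin m) ℕ :=
    fun lam => if h : Antitone lam then S ⟨lam, h⟩ else 0 with hS'
  set T' : (Fin n → ℕ) → MvPolynomial (Fin n) ℕ :=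
    fun lam => if h : Antitone lam then T ⟨lam, h⟩ else 0 with hT'
  have hS'' : ∀ lam, Antitone lam → IsSchur (S' lam) lam := by
    intro lam h
    simp only [hS']
    rw [dif_pos h]
    exact hS ⟨lam, h⟩
  have hT'' : ∀ lam, Antitone lam → IsSchur (T' lam) lam := by
    intro lam h
    simp only [hT']
    rw [dif_pos h]
    exact hT ⟨lam, h⟩
  obtain ⟨A, x, A', y, hA, hA', hmem, -, hxy⟩ := comb_main p q hp hq S' hS'' T' hT''
  -- natural multiplicities
  obtain ⟨z, hz, hzM⟩ := nat_solution (ι := A ⊕ A')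
    (fun (k : ℤ) (i : A ⊕ A') => match i with
      | Sum.inl lam => (levc (S' lam.1) p k : ℤ)
      | Sum.inr mu => -(levc (T' mu.1) q k : ℤ))
    (fun i => match i with
      | Sum.inl lam => x lam.1
      | Sum.inr mu => y mu.1)
    (fun i => match i with
      | Sum.inl lam => (hA lam.1 lam.2).2
      | Sum.inr mu => (hA' mu.1 mu.2).2)
    (by
      intro k
      rw [Fintype.sum_sum_type]
      simp only
      have h1 := hxy k
      rw [← Finset.sum_coe_sort A, ← Finset.sum_coe_sort A'] at h1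
      push_cast
      simp only [neg_mul]
      rw [Finset.sum_neg_distrib, ← sub_eq_add_neg, sub_eq_zero]
      simpa [mul_comm] using h1)
  have hlev : ∀ k : ℤ, ∑ lam : A, (z (Sum.inl lam) : ℤ) * (levc (S' lam.1) p k : ℤ) =
      ∑ mu : A', (z (Sum.inr mu) : ℤ) * (levc (T' mu.1) q k : ℤ) := by
    intro k
    have h1 := hzM k
    rw [Fintype.sum_sum_type] at h1
    simp only at h1
    simp only [neg_mul] at h1
    rw [Finset.sum_neg_distrib, ← sub_eq_add_neg, sub_eq_zero] at h1
    simpa [mul_comm] using h1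
  -- the representations
  have hVex : ∀ i : (Σ lam : A, Fin (z (Sum.inl lam))), ∃ (d : ℕ) (ρ : B →* U d), Continuous ρ ∧
      (∀ θ : ℝ, trace (ρ (f (torus θ)) : Mat d) = MvPolynomial.eval₂ (Nat.castRingHom ℂ)
        (fun i => Complex.exp ((p i : ℂ) * θ * Complex.I)) (S' i.1.1)) ∧
      (i.1.1 = e1 m → (i.2 : ℕ) = 0 → ρ b ≠ 1) := by
    intro i
    by_cases hi : i.1.1 = e1 m ∧ (i.2 : ℕ) = 0
    · refine ⟨m, π, hπc, fun θ => ?_, fun _ _ => hπb⟩
      have h1 : S' i.1.1 = ∑ j, MvPolynomial.X j := by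
        rw [hi.1]
        apply schur_e1 (Lev.pos_m p hp)
        apply hS''
        rw [← hi.1]
        exact (hA _ i.1.2).1
      rw [h1, MvPolynomial.eval₂_sum]
      simp only [MvPolynomial.eval₂_X]
      have h2 := hu θ
      have h3 : (π (f (torus θ)) : Mat m) =
        (u : Mat m) * diagonal (fun i => Complex.exp ((p i : ℂ) * θ * Complex.I)) *
          star (u : Mat m) := h2
      rw [h3, Matrix.trace_mul_comm, ← Matrix.mul_assoc,
        Matrix.mem_unitaryGroup_iff'.mp u.2, Matrix.one_mul, Matrix.trace_diagonal]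
    · have hanti := (hA _ i.1.2).1
      obtain ⟨d, ρ, hρ, Hρ⟩ := HS ⟨i.1.1, hanti⟩ B π hπc
      refine ⟨d, ρ, hρ, fun θ => ?_, fun h1 h2 => absurd ⟨h1, h2⟩ hi⟩
      have h4 := Hρ (f (torus θ)) _ u (hu θ)
      rw [h4]
      simp only [hS']
      rw [dif_pos hanti]
  have hWex : ∀ i : (Σ mu : A', Fin (z (Sum.inr mu))), ∃ (d : ℕ) (ρ : C →* U d), Continuous ρ ∧
      (∀ θ : ℝ, trace (ρ (g (torus θ)) : Mat d) = MvPolynomial.eval₂ (Nat.castRingHom ℂ)
        (fun i => Complex.exp ((q i : ℂ) * θ * Complex.I)) (T' i.1.1)) := by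
    intro i
    have hanti := (hA' _ i.1.2).1
    obtain ⟨d, ρ, hρ, Hρ⟩ := HT ⟨i.1.1, hanti⟩ C σ hσc
    refine ⟨d, ρ, hρ, fun θ => ?_⟩
    have h4 := Hρ (g (torus θ)) _ v (hv θ)
    rw [h4]
    simp only [hT']
    rw [dif_pos hanti]
  choose d ρ hρc hρt hρb using hVex
  choose d' ρ' hρc' hρt' using hWex
  obtain ⟨N, V, hVc, hVt, hV1⟩ := direct_sum_rep d ρ hρc
  obtain ⟨N', W, hWc, hWt, -⟩ := direct_sum_rep d' ρ' hρc'
  have hVb : V b ≠ 1 := by
    intro h
    exact hρb ⟨⟨e1 m, hmem⟩, ⟨0, hz _⟩⟩ rfl rfl (hV1 b h _)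
  -- equality of traces on the torus
  have htorus : ∀ θ : ℝ, trace (V (f (torus θ)) : Mat N) = trace (W (g (torus θ)) : Mat N') := by
    intro θ
    rw [hVt, hWt, Fintype.sum_sigma, Fintype.sum_sigma]
    simp only [hρt, hρt', Finset.sum_const, Finset.card_univ, Fintype.card_fin, nsmul_eq_mul]
    set K : Finset ℤ := (A.biUnion fun lam => (S' lam).support.image
        fun μ => ∑ i, (μ i : ℤ) * p i) ∪ (A'.biUnion fun lam => (T' lam).support.image
        fun μ => ∑ i, (μ i : ℤ) * q i) with hK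
    have hK1 : ∀ lam : A, ∀ μ ∈ (S' lam.1).support, ∑ i, (μ i : ℤ) * p i ∈ K := by
      intro lam μ hμ
      rw [hK, Finset.mem_union, Finset.mem_biUnion]
      exact Or.inl ⟨lam.1, lam.2, Finset.mem_image_of_mem _ hμ⟩
    have hK2 : ∀ lam : A', ∀ μ ∈ (T' lam.1).support, ∑ i, (μ i : ℤ) * q i ∈ K := by
      intro lam μ hμ
      rw [hK, Finset.mem_union, Finset.mem_biUnion (s := A')]
      exact Or.inr ⟨lam.1, lam.2, Finset.mem_image_of_mem _ hμ⟩
    have h1 : ∀ lam : A, MvPolynomial.eval₂ (Nat.castRingHom ℂ)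
        (fun i => Complex.exp ((p i : ℂ) * θ * Complex.I)) (S' lam.1) =
        ∑ k ∈ K, (levc (S' lam.1) p k : ℂ) * Complex.exp ((k : ℂ) * θ * Complex.I) :=
      fun lam => eval_eq _ p K (hK1 lam) θ
    have h2 : ∀ lam : A', MvPolynomial.eval₂ (Nat.castRingHom ℂ)
        (fun i => Complex.exp ((q i : ℂ) * θ * Complex.I)) (T' lam.1) =
        ∑ k ∈ K, (levc (T' lam.1) q k : ℂ) * Complex.exp ((k : ℂ) * θ * Complex.I) :=
      fun lam => eval_eq _ q K (hK2 lam) θ
    simp only [h1, h2, Finset.mul_sum]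
    rw [Finset.sum_comm, Finset.sum_comm (s := (Finset.univ : Finset A'))]
    refine Finset.sum_congr rfl fun k _ => ?_
    simp only [← mul_assoc]
    rw [← Finset.sum_mul, ← Finset.sum_mul]
    congr 1
    have h3 := hlev k
    exact_mod_cast h3
  -- equality of traces on all of S3
  have htr : ∀ a : S3, trace (V (f a) : Mat N) = trace (W (g a) : Mat N') := by
    intro a
    obtain ⟨w, θ, rfl⟩ := conj_torus a
    have h1 : trace (V (f (w * torus θ * w⁻¹)) : Mat N) = trace (V (f (torus θ)) : Mat N) := by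
      rw [map_mul, map_mul, map_mul, map_mul, Submonoid.coe_mul, Submonoid.coe_mul,
        Matrix.trace_mul_comm, ← Matrix.mul_assoc, ← Submonoid.coe_mul, ← map_mul, ← map_mul,
        inv_mul_cancel, map_one, map_one, OneMemClass.coe_one, Matrix.one_mul]
    have h2 : trace (W (g (w * torus θ * w⁻¹)) : Mat N') = trace (W (g (torus θ)) : Mat N') := by
      rw [map_mul, map_mul, map_mul, map_mul, Submonoid.coe_mul, Submonoid.coe_mul,
        Matrix.trace_mul_comm, ← Matrix.mul_assoc, ← Submonoid.coe_mul, ← map_mul, ← map_mul,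
        inv_mul_cancel, map_one, map_one, OneMemClass.coe_one, Matrix.one_mul]
    rw [h1, h2, htorus]
  have hNN : N = N' := by
    have h1 := htr 1
    simp only [map_one, OneMemClass.coe_one, Matrix.trace_one, Fintype.card_fin] at h1
    exact_mod_cast h1
  subst hNN
  obtain ⟨w, hw⟩ := unitary_equiv_of_trace_eq (V.comp f.toMonoidHom) (W.comp g.toMonoidHom)
    (hVc.comp f.continuous_toFun) (hWc.comp g.continuous_toFun) htr
  refine ⟨N, V, (MulAut.conj w⁻¹).toMonoidHom.comp W, hVc, ?_, ?_, hVb⟩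
  · have : ((MulAut.conj w⁻¹).toMonoidHom.comp W : C → U N) = fun c => w⁻¹ * W c * w := by
      funext c
      simp
    rw [this]
    exact (continuous_const.mul hWc).mul continuous_const
  · intro a
    have h1 : w * V (f a) = W (g a) * w := hw a
    simp only [MonoidHom.coe_comp, Function.comp, MulEquiv.coe_toMonoidHom, MulAut.conj_apply,
      inv_inv]
    rw [mul_assoc, ← h1, inv_mul_cancel_left]

theorem amalgam (B C : Type) [Group B] [TopologicalSpace B] [IsTopologicalGroup B]
        [CompactSpace B] [T2Space B]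
        [Group C] [TopologicalSpace C] [IsTopologicalGroup C]
        [CompactSpace C] [T2Space C]
        (f : ContinuousMonoidHom S3 B) (g : ContinuousMonoidHom S3 C)
        (hf : Function.Injective f) (hg : Function.Injective g) :
        ∃ (D : Type) (_ : Group D) (_ : TopologicalSpace D) (_ : IsTopologicalGroup D)
          (_ : CompactSpace D) (_ : T2Space D)
          (h : ContinuousMonoidHom B D) (k : ContinuousMonoidHom C D),
          Function.Injective h ∧ Function.Injective k ∧ ∀ a : S3, h (f a) = k (g a) := by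
  choose N V W hV hW hVW hb using fun b : {b : B // b ≠ 1} => pair_rep f g hf hg b.1 b.2
  choose N' V' W' hV' hW' hVW' hc using fun c : {c : C // c ≠ 1} => pair_rep g f hg hf c.1 c.2
  have : ∀ n, CompactSpace (U n) := compact_U
  let h0 : B →* ((∀ b : {b : B // b ≠ 1}, U (N b)) × (∀ c : {c : C // c ≠ 1}, U (N' c))) :=
    MonoidHom.prod (MonoidHom.pi fun b => V b) (MonoidHom.pi fun c => W' c)
  let k0 : C →* ((∀ b : {b : B // b ≠ 1}, U (N b)) × (∀ c : {c : C // c ≠ 1}, U (N' c))) :=
    MonoidHom.prod (MonoidHom.pi fun b => W b) (MonoidHom.pi fun c => V' c)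
  have hh : Continuous h0 :=
    (continuous_pi fun b => hV b).prodMk (continuous_pi fun c => hW' c)
  have hk : Continuous k0 :=
    (continuous_pi fun b => hW b).prodMk (continuous_pi fun c => hV' c)
  refine ⟨(∀ b : {b : B // b ≠ 1}, U (N b)) × (∀ c : {c : C // c ≠ 1}, U (N' c)),
    inferInstance, inferInstance, inferInstance, inferInstance, inferInstance,
    ⟨h0, hh⟩, ⟨k0, hk⟩, ?_, ?_, ?_⟩
  · rw [injective_iff_map_eq_one]
    intro b hb1
    by_contra hne
    apply hb ⟨b, hne⟩
    have h1 : h0 b = 1 := hb1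
    exact congrFun (congrArg Prod.fst h1) ⟨b, hne⟩
  · rw [injective_iff_map_eq_one]
    intro c hc1
    by_contra hne
    apply hc ⟨c, hne⟩
    have h1 : k0 c = 1 := hc1
    exact congrFun (congrArg Prod.snd h1) ⟨c, hne⟩
  · intro a
    show h0 (f a) = k0 (g a)
    refine Prod.ext ?_ ?_
    · funext b
      exact hVW b a
    · funext c
      exact (hVW' c a).symm

end Pool.Agent.H88
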